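import Pool.Agent.T6.H55.LU.Stm

/-!
# Module BUN of MP_507414_an: the decomposability bundle, forms of degree smaller than `n`
-/

set_option autoImplicit false

open MeasureTheory Filter Topology Metric
open scoped ENNReal NNReal

namespace Pool.Agent.T6.H55.LU

namespace BunAux

/-- closed balls exhaust open balls in measure -/
theorem exhaust {n : ℕ} (x : Rn n) {r : ℝ} (hr : 0 < r) :
    ∃ u : ℕ → ℝ, (∀ k, 0 < u k ∧ u k < r) ∧
      ∀ ν : Measure (Rn n), Tendsto (fun k => ν (closedBall x (u k))) atTop (𝓝 (ν (ball x r))) := by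
  obtain ⟨u, hmono, hmem, hlim⟩ := exists_seq_strictMono_tendsto' hr
  refine ⟨u, fun k => ⟨(hmem k).1, (hmem k).2⟩, fun ν => ?_⟩
  have hU : ball x r = ⋃ k, closedBall x (u k) := by
    ext y
    simp only [mem_ball, Set.mem_iUnion, mem_closedBall]
    constructor
    · intro hy
      have := (tendsto_order.1 hlim).1 _ hy
      obtain ⟨k, hk⟩ := this.exists
      exact ⟨k, hk.le⟩
    · rintro ⟨k, hk⟩
      exact lt_of_le_of_lt hk (hmem k).2
  rw [hU]
  exact tendsto_measure_iUnion_atTop (fun a b hab => closedBall_subset_closedBall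
    (hmono.monotone hab))

variable {p : Par}

theorem muBad_le (hM : Meas) (hp : p.Good) (m n : ℕ) (L T : ℝ) :
    p.muBad m n L T ≤ p.mu m n L := by
  unfold Par.muBad Par.mu
  exact Measure.map_mono Measure.restrict_le_self (hM.X p hp m n)

/-- the bad sets shrink to a null set -/
theorem bad_null (hT : Tilt) (hM : Meas) (hp : p.Good) (δ : ℝ)
    (hδ : ∀ n, ∑ j ∈ Finset.range n, p.s j ^ (3 / 2 : ℝ) ≤ δ) (m : ℕ) (L : ℝ) :
    (p.P m L) (⋂ T : ℕ, p.Bad m (T : ℝ)) = 0 := by
  have hmeas : MeasurableSet (⋂ T : ℕ, p.Bad m (T : ℝ)) :=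
    MeasurableSet.iInter fun T => hM.Bad p m T
  have hQ : IsProbabilityMeasure p.Q := by
    unfold Par.Q
    infer_instance
  have : IsFiniteMeasure sq := by
    unfold sq
    infer_instance
  unfold Par.P
  rw [Measure.measure_prod_null hmeas]
  have h1 := hT.bdd p hp.Npos hp.spos δ hδ
  have h2 : ∀ᵐ r ∂(sq.prod (volume.restrict (Set.pi Set.univ fun _ : Fin m =>
      Set.Icc (0 : ℝ) L))), ∀ᵐ o ∂p.Q, ∃ T : ℝ, ∀ j, |p.Zx (p.res (j + 1) o) r.1.1 r.1.2| ≤ T ∧
      |p.Zy (p.res (j + 1) o) r.1.1 r.1.2| ≤ T :=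
    Measure.quasiMeasurePreserving_fst.ae h1
  filter_upwards [h2] with r hr
  change p.Q (Prod.mk r ⁻¹' ⋂ T : ℕ, p.Bad m (T : ℝ)) = 0
  refine measure_mono_null ?_ (ae_iff.1 hr)
  intro o ho
  simp only [Set.mem_preimage, Set.mem_iInter] at ho
  rintro ⟨T, hT'⟩
  obtain ⟨k, hk⟩ := exists_nat_ge T
  obtain ⟨j, hj⟩ := ho k
  rcases hj with hj | hj
  · exact absurd (lt_of_lt_of_le hj ((hT' j).1.trans hk)) (lt_irrefl _)
  · exact absurd (lt_of_lt_of_le hj ((hT' j).2.trans hk)) (lt_irrefl _)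

theorem bad_tendsto (hT : Tilt) (hM : Meas) (hp : p.Good) (δ : ℝ)
    (hδ : ∀ n, ∑ j ∈ Finset.range n, p.s j ^ (3 / 2 : ℝ) ≤ δ) (m n : ℕ) (L : ℝ) :
    Tendsto (fun T : ℕ => p.muBad m n L (T : ℝ) Set.univ) atTop (𝓝 0) := by
  have := hM.finP p m L
  have h1 : ∀ T : ℕ, p.muBad m n L (T : ℝ) Set.univ = (p.P m L) (p.Bad m (T : ℝ)) := by
    intro T
    unfold Par.muBad
    rw [Measure.map_apply (hM.X p hp m n) MeasurableSet.univ, Set.preimage_univ,
      Measure.restrict_apply_univ]
  simp only [h1]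
  have h2 := tendsto_measure_iInter_atTop (μ := p.P m L) (s := fun T : ℕ => p.Bad m (T : ℝ))
    (fun T => (hM.Bad p m T).nullMeasurableSet)
    (by
      intro a b hab q hq
      obtain ⟨j, hj⟩ := hq
      have hab' : (a : ℝ) ≤ (b : ℝ) := by exact_mod_cast hab
      refine ⟨j, ?_⟩
      rcases hj with hj | hj
      · exact Or.inl (lt_of_le_of_lt hab' hj)
      · exact Or.inr (lt_of_le_of_lt hab' hj))
    ⟨0, measure_ne_top _ _⟩
  rw [bad_null hT hM hp δ hδ m L] at h2
  exact h2

/-- almost everywhere some derivative of the bad parts is small -/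
theorem small_deriv (hT : Tilt) (hM : Meas) (hp : p.Good) (δ : ℝ)
    (hδ : ∀ n, ∑ j ∈ Finset.range n, p.s j ^ (3 / 2 : ℝ) ≤ δ) (m n : ℕ) (L : ℝ)
    {ε : ℝ≥0∞} (hε : ε ≠ 0) :
    ∀ᵐ x ∂(p.mu m n L), ∃ T : ℕ, (p.muBad m n L (T : ℝ)).rnDeriv (p.mu m n L) x < ε := by
  rw [ae_iff]
  set E : Set (Rn n) := {x | ¬ ∃ T : ℕ, (p.muBad m n L (T : ℝ)).rnDeriv (p.mu m n L) x < ε}
    with hE
  have h1 : ∀ T : ℕ, ε * p.mu m n L E ≤ p.muBad m n L (T : ℝ) Set.univ := by
    intro T
    calc ε * p.mu m n L E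
        ≤ ε * p.mu m n L {x | ε ≤ (p.muBad m n L (T : ℝ)).rnDeriv (p.mu m n L) x} := by
          refine mul_le_mul_right (measure_mono ?_) _
          intro x hx
          have hx' : ¬ ∃ T : ℕ, (p.muBad m n L (T : ℝ)).rnDeriv (p.mu m n L) x < ε := hx
          push Not at hx'
          exact hx' T
      _ ≤ ∫⁻ x, (p.muBad m n L (T : ℝ)).rnDeriv (p.mu m n L) x ∂(p.mu m n L) :=
          mul_meas_ge_le_lintegral (Measure.measurable_rnDeriv _ _) _
      _ ≤ p.muBad m n L (T : ℝ) Set.univ := Measure.lintegral_rnDeriv_le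
  have h2 : ε * p.mu m n L E ≤ 0 :=
    ge_of_tendsto' (bad_tendsto hT hM hp δ hδ m n L) h1
  have h3 : ε * p.mu m n L E = 0 := le_antisymm h2 bot_le
  rcases mul_eq_zero.1 h3 with h | h
  · exact absurd h hε
  · exact h

end BunAux

open BunAux

/-- the statement of module BUN -/
theorem bun (hT : Tilt) (hM : Meas) (hC : StmtCore) : StmtBun := by
  intro m n hmn p hp δ hδ L hL inst
  obtain ⟨C, hC0, c0, hc0, hcore⟩ := hC m n hmn
  have hfin : IsFiniteMeasure (p.mu m n L) := hM.finmu p m n L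
  have hfinb : ∀ T : ℕ, IsFiniteMeasure (p.muBad m n L (T : ℝ)) := fun T =>
    isFiniteMeasure_of_le _ (muBad_le hM hp m n L T)
  have hε : ENNReal.ofReal (c0 / (4 * C)) ≠ 0 := by
    simp only [ne_eq, ENNReal.ofReal_eq_zero, not_le]
    positivity
  have hbes : ∀ᵐ x ∂(p.mu m n L), ∀ T : ℕ,
      Tendsto (fun r => p.muBad m n L (T : ℝ) (closedBall x r) / p.mu m n L (closedBall x r))
        (𝓝[>] 0) (𝓝 ((p.muBad m n L (T : ℝ)).rnDeriv (p.mu m n L) x)) :=
    ae_all_iff.2 fun T => Besicovitch.ae_tendsto_rnDeriv _ _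
  have hsupp : ∀ᵐ x ∂(p.mu m n L), x ∈ (p.mu m n L).support := Measure.support_mem_ae
  filter_upwards [small_deriv hT hM hp δ hδ m n L hε, hbes, hsupp] with x hx1 hx2 hx3 v hv
  obtain ⟨T, hTx⟩ := hx1
  obtain ⟨N, hN, hlim⟩ := hv
  set μ := p.mu m n L with hμ
  set b := p.muBad m n L (T : ℝ) with hb
  set R := subVec N μ v with hR
  set vt : ℝ := |v (dxs (top m n hmn.le))| with hvt
  have hpos : ∀ r : ℝ, 0 < r → 0 < μ (ball x r) := fun r hr =>
    (Measure.mem_support_iff_forall x).1 hx3 _ (ball_mem_nhds x hr)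
  -- small balls: the bad part is small
  have hsm : ∀ᶠ r in 𝓝[>] (0 : ℝ), b (closedBall x r) ≤
      ENNReal.ofReal (c0 / (4 * C)) * μ (closedBall x r) := by
    have h1 := (hx2 T).eventually (gt_mem_nhds hTx)
    filter_upwards [h1] with r hr
    have h2 := hr.le
    rw [ENNReal.div_le_iff_le_mul] at h2
    · exact h2
    · by_cases h0 : μ (closedBall x r) = 0
      · right
        exact ENNReal.ofReal_ne_top
      · left
        exact h0
    · left
      exact measure_ne_top _ _
  -- in fact for all radii smaller than some radius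
  obtain ⟨r0, hr0, hsm'⟩ : ∃ r0 : ℝ, 0 < r0 ∧ ∀ r, 0 < r → r < r0 → b (closedBall x r) ≤
      ENNReal.ofReal (c0 / (4 * C)) * μ (closedBall x r) := by
    have := mem_nhdsGT_iff_exists_Ioo_subset.1 hsm
    obtain ⟨u, hu, hu2⟩ := this
    exact ⟨u, hu, fun r h1 h2 => hu2 ⟨h1, h2⟩⟩
  -- the basic inequality
  have hmain : ∀ᶠ r in 𝓝[>] (0 : ℝ), vt * (c0 / 2) ≤
      C * (1 + (T : ℝ) ^ 2) * (massOn R (ball x r) / μ (ball x r)).toReal := by
    have h1 : ∀ᶠ r in 𝓝[>] (0 : ℝ), massOn R (ball x r) / μ (ball x r) < 1 :=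
      hlim.eventually (gt_mem_nhds one_pos)
    have h2 : ∀ᶠ r in 𝓝[>] (0 : ℝ), r ∈ Set.Ioo 0 r0 := Ioo_mem_nhdsGT hr0
    filter_upwards [h1, h2] with r hr1 hr2
    obtain ⟨hrpos, hrlt⟩ := hr2
    have hmass : massOn R (ball x r) < ⊤ := by
      by_contra hcon
      have htop : massOn R (ball x r) = ⊤ := by
        by_contra h
        exact hcon (lt_top_iff_ne_top.2 h)
      rw [htop, ENNReal.top_div_of_ne_top (measure_ne_top _ _)] at hr1
      exact absurd hr1 (by simp)
    obtain ⟨u, hu, hulim⟩ := exhaust x hrpos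
    have hstep : ∀ k, vt * (c0 * (μ (closedBall x (u k))).toReal - C * (b (ball x r)).toReal) ≤
        C * (1 + (T : ℝ) ^ 2) * (massOn R (ball x r)).toReal := by
      intro k
      obtain ⟨hk0, hk1⟩ := hu k
      let f : ContDiffBump x := ⟨u k, (u k + r) / 2, hk0, by linarith⟩
      have hfs : ContDiff ℝ ((⊤ : ℕ∞) : WithTop ℕ∞) (f : Rn n → ℝ) := f.contDiff
      have hfc : HasCompactSupport (f : Rn n → ℝ) := f.hasCompactSupport
      have hft : tsupport (f : Rn n → ℝ) ⊆ ball x r := by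
        rw [f.tsupport_eq]
        exact closedBall_subset_ball (by change (u k + r) / 2 < r; linarith)
      have hcc := hcore p hp L hL N hN v (ball x r) isOpen_ball hmass f hfs hfc hft
        (fun y => ⟨f.nonneg, f.le_one⟩) (T : ℝ) (Nat.cast_nonneg T)
      refine le_trans ?_ hcc
      have hint : (μ (closedBall x (u k))).toReal ≤ ∫ y, f y ∂μ := by
        have hone : ∀ y ∈ closedBall x (u k), f y = 1 := fun y hy => f.one_of_mem_closedBall hy
        have hif : Integrable (fun y => f y) μ :=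
          f.continuous.integrable_of_hasCompactSupport hfc
        calc (μ (closedBall x (u k))).toReal
            = ∫ y, (closedBall x (u k)).indicator (fun _ => (1 : ℝ)) y ∂μ := by
              rw [integral_indicator measurableSet_closedBall]
              simp [Measure.real]
          _ ≤ ∫ y, f y ∂μ := by
              refine integral_mono ?_ hif ?_
              · exact (integrable_const _).indicator measurableSet_closedBall
              · intro y
                by_cases hy : y ∈ closedBall x (u k)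
                · simp [Set.indicator_of_mem hy, hone y hy]
                · simp only [Set.indicator_of_notMem hy]
                  exact f.nonneg
      have hvt0 : 0 ≤ vt := abs_nonneg _
      refine mul_le_mul_of_nonneg_left ?_ hvt0
      have := mul_le_mul_of_nonneg_left hint hc0.le
      linarith
    have hlim1 : Tendsto (fun k => (μ (closedBall x (u k))).toReal) atTop
        (𝓝 (μ (ball x r)).toReal) :=
      (ENNReal.tendsto_toReal (measure_ne_top _ _)).comp (hulim μ)
    have hlim2 : vt * (c0 * (μ (ball x r)).toReal - C * (b (ball x r)).toReal) ≤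
        C * (1 + (T : ℝ) ^ 2) * (massOn R (ball x r)).toReal :=
      le_of_tendsto' (((hlim1.const_mul c0).sub_const _).const_mul vt) hstep
    have hbb : b (ball x r) ≤ ENNReal.ofReal (c0 / (4 * C)) * μ (ball x r) := by
      refine le_of_tendsto' (hulim b) fun k => ?_
      obtain ⟨hk0, hk1⟩ := hu k
      refine (hsm' (u k) hk0 (hk1.trans hrlt)).trans ?_
      exact mul_le_mul_right (measure_mono (closedBall_subset_ball hk1)) _
    have hbb' : (b (ball x r)).toReal ≤ c0 / (4 * C) * (μ (ball x r)).toReal := by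
      have h3 := ENNReal.toReal_mono (ENNReal.mul_ne_top ENNReal.ofReal_ne_top
        (measure_ne_top _ _)) hbb
      rw [ENNReal.toReal_mul, ENNReal.toReal_ofReal (by positivity)] at h3
      exact h3
    have hμpos : 0 < (μ (ball x r)).toReal :=
      ENNReal.toReal_pos (hpos r hrpos).ne' (measure_ne_top _ _)
    rw [ENNReal.toReal_div]
    rw [← mul_div_assoc (C * (1 + (T : ℝ) ^ 2)), le_div_iff₀ hμpos]
    have hCb : C * (b (ball x r)).toReal ≤ c0 / 4 * (μ (ball x r)).toReal := by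
      calc C * (b (ball x r)).toReal ≤ C * (c0 / (4 * C) * (μ (ball x r)).toReal) :=
            mul_le_mul_of_nonneg_left hbb' hC0.le
        _ = c0 / 4 * (μ (ball x r)).toReal := by
            field_simp
    have hvt0 : 0 ≤ vt := abs_nonneg _
    calc vt * (c0 / 2) * (μ (ball x r)).toReal = vt * (c0 / 2 * (μ (ball x r)).toReal) := by ring
      _ ≤ vt * (c0 * (μ (ball x r)).toReal - C * (b (ball x r)).toReal) := by
          refine mul_le_mul_of_nonneg_left ?_ hvt0
          have : 0 < c0 * (μ (ball x r)).toReal := by positivity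
          linarith
      _ ≤ _ := hlim2
  have hlim0 : Tendsto (fun r : ℝ => C * (1 + (T : ℝ) ^ 2) *
      (massOn R (ball x r) / μ (ball x r)).toReal) (𝓝[>] 0) (𝓝 (C * (1 + (T : ℝ) ^ 2) * 0)) := by
    have := (ENNReal.tendsto_toReal ENNReal.zero_ne_top).comp hlim
    exact this.const_mul _
  have hfinal : vt * (c0 / 2) ≤ C * (1 + (T : ℝ) ^ 2) * 0 := ge_of_tendsto hlim0 hmain
  rw [mul_zero] at hfinal
  have hvt0 : 0 ≤ vt := abs_nonneg _
  have hvt1 : vt ≤ 0 := by
    by_contra h
    push Not at h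
    have : 0 < vt * (c0 / 2) := by positivity
    linarith
  exact abs_eq_zero.1 (le_antisymm hvt1 hvt0)

end Pool.Agent.T6.H55.LU
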