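import Pool.Agent.T6.H55.LU.CoreB

/-!
# Module CORE of MP_507414_an: the inequality for cycles (helper62)
-/

set_option autoImplicit false

open MeasureTheory Filter Topology
open scoped ENNReal NNReal

namespace Pool.Agent.T6.H55.LU

noncomputable section

namespace Core

/-- the limit argument -/
lemma fin_lim {s b : ℕ → ℝ} (hs : ∀ j, 0 ≤ s j)
    (hdiv : Tendsto (fun k => ∑ j ∈ Finset.range k, s j) atTop atTop) {α β γ K : ℝ} (hα : 0 ≤ α)
    (hb : ∀ ε : ℝ, 0 < ε → ∀ᶠ j in atTop, β - ε ≤ b j)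
    (h : ∀ k, α * ∑ j ∈ Finset.range k, s j * b j ≤ γ * ∑ j ∈ Finset.range k, s j + K) :
    α * β ≤ γ := by
  by_contra hc
  push Not at hc
  obtain ⟨ε, hε, hε'⟩ : ∃ ε : ℝ, 0 < ε ∧ γ < α * (β - ε) := by
    refine ⟨(α * β - γ) / (2 * (α + 1)), by apply div_pos <;> linarith, ?_⟩
    have h1 : α * ((α * β - γ) / (2 * (α + 1))) ≤ (α * β - γ) / 2 := by
      rw [← mul_div_assoc, div_le_div_iff₀ (by linarith) (by norm_num)]
      nlinarith
    rw [mul_sub]
    linarith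
  obtain ⟨j0, hj0⟩ := eventually_atTop.1 (hb ε hε)
  obtain ⟨C2, hC2⟩ : ∃ C2 : ℝ, C2 = ∑ j ∈ Finset.range j0, s j * b j -
    (β - ε) * ∑ j ∈ Finset.range j0, s j := ⟨_, rfl⟩
  have h2 : ∀ k, j0 ≤ k → (β - ε) * ∑ j ∈ Finset.range k, s j + C2 ≤
      ∑ j ∈ Finset.range k, s j * b j := by
    intro k hk
    induction k, hk using Nat.le_induction with
    | base => rw [hC2]; linarith
    | succ k hk ih =>
      rw [Finset.sum_range_succ, Finset.sum_range_succ]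
      have := mul_le_mul_of_nonneg_left (hj0 k hk) (hs k)
      linarith
  have h3 : ∀ k, j0 ≤ k → (α * (β - ε) - γ) * ∑ j ∈ Finset.range k, s j ≤ K - α * C2 := by
    intro k hk
    have h4 := mul_le_mul_of_nonneg_left (h2 k hk) hα
    have h5 := h k
    nlinarith
  have h6 : Tendsto (fun k => (α * (β - ε) - γ) * ∑ j ∈ Finset.range k, s j) atTop atTop :=
    hdiv.const_mul_atTop (by linarith)
  obtain ⟨k, hk1, hk2⟩ := ((h6.eventually_gt_atTop (K - α * C2)).and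
    (eventually_ge_atTop j0)).exists
  exact absurd (h3 k hk2) (not_le.2 hk1)

lemma lam_mem (t : ℝ) : 0 ≤ lam t ∧ lam t ≤ 1 :=
  ⟨Real.smoothTransition.nonneg _, Real.smoothTransition.le_one _⟩

lemma ga_mem (t : ℝ) : 0 ≤ ga t ∧ ga t ≤ 1 :=
  ⟨mul_nonneg (Real.smoothTransition.nonneg _) (Real.smoothTransition.nonneg _),
    mul_le_one₀ (Real.smoothTransition.le_one _) (Real.smoothTransition.nonneg _)
      (Real.smoothTransition.le_one _)⟩

lemma Ga2_mem (x y : ℝ) : 0 ≤ Ga2 x y ∧ Ga2 x y ≤ 1 := by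
  refine ⟨mul_nonneg (ga_mem _).1 (abs_nonneg _), mul_le_one₀ (ga_mem _).2 (abs_nonneg _) ?_⟩
  rw [abs_mul]
  exact mul_le_one₀ (Real.abs_cos_le_one _) (abs_nonneg _) (Real.abs_cos_le_one _)

lemma Fm_mem (p : Par) (j : ℕ) (o : p.Om) (x y : ℝ) : 0 ≤ p.Fm j o x y ∧ p.Fm j o x y ≤ 1 := by
  unfold Par.Fm
  have h1 := lam_mem (p.N j * y)
  have h2 := Ga2_mem (p.N (j + 1) * x) (p.N (j + 1) * y)
  split_ifs
  · rw [one_mul]
    exact ⟨mul_nonneg h1.1 h2.1, mul_le_one₀ h1.2 h2.1 h2.2⟩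
  · simp

variable {m n : ℕ} (hmn : m + 2 < n)

lemma prj_X (p : Par) (q : p.Bs m) : prj m n hmn (p.X m n q) =
    (q.1.1.1, q.1.1.2, p.Z q.2 q.1.1.1 q.1.1.2) := by
  rw [prj_apply]
  unfold Par.X Par.pnt cix
  simp

theorem main (hM : Meas) (hE : StmtEqui) (hP : StmtPota) (hF : Frm) :
    ∃ C : ℝ, 0 < C ∧ ∃ c0 : ℝ, 0 < c0 ∧
    ∀ (p : Par), p.Good → ∀ (L : ℝ), 0 ≤ L → ∀ [IsLocallyFiniteMeasure (p.mu m n L)],
    ∀ (N : TestForm n (m + 1 + 1) →ₗ[ℝ] ℝ), IsCycle N → ∀ (v : Vec n (m + 1 + 1))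
      (U : Set (Rn n)),
      IsOpen U → massOn (subVec N (p.mu m n L) v) U < ⊤ →
      ∀ ζ : Rn n → ℝ, ContDiff ℝ ((⊤ : ℕ∞) : WithTop ℕ∞) ζ → HasCompactSupport ζ →
        tsupport ζ ⊆ U → (∀ x, 0 ≤ ζ x ∧ ζ x ≤ 1) → ∀ T : ℝ, 0 ≤ T →
        |v (dxs (Jj m n hmn 0 1))| *
            (c0 * ∫ x, ζ x ∂(p.mu m n L) - C * (p.muBad m n L T U).toReal) ≤
          C * (1 + T ^ 2) * (massOn (subVec N (p.mu m n L) v) U).toReal := by
  obtain ⟨cF, hcF, hE⟩ := hE
  obtain ⟨C0, hC0, c0, hc0, hP⟩ := hP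
  obtain ⟨D, hD⟩ : ∃ D : ℝ, D = (Nat.factorial (m + 1 + 1) : ℝ) := ⟨_, rfl⟩
  have D0 : 0 < D := by rw [hD]; positivity
  refine ⟨c0 + 2 * (D * C0), by positivity, c0 * cF, by positivity, ?_⟩
  intro p hp L hL _ N hN v U hU hfin ζ hζ hc hsup h01 T hT
  obtain ⟨A, hA, hA1, hA2, hA3⟩ := hP p hp
  have := hM.finP p m L
  have := hM.finmu p m n L
  obtain ⟨P, hPd⟩ : ∃ P, P = p.P m L := ⟨_, rfl⟩
  obtain ⟨X, hXd⟩ : ∃ X, X = p.X m n := ⟨_, rfl⟩
  have mX : Measurable X := by rw [hXd]; exact hM.X p hp m n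
  have : IsFiniteMeasure P := by rw [hPd]; infer_instance
  -- the constant G
  obtain ⟨Kl, hKl⟩ := ContDiff.lipschitzWith_of_hasCompactSupport hc hζ (by simp)
  obtain ⟨G, hGd⟩ : ∃ G : ℝ, G = (Kl : ℝ) := ⟨_, rfl⟩
  have G0 : 0 ≤ G := by rw [hGd]; exact Kl.2
  have hG : ∀ x (b : Fin n), |fderiv ℝ ζ x (eb b)| ≤ G := by
    intro x b
    have h1 : ‖fderiv ℝ ζ x‖ ≤ Kl := norm_fderiv_le_of_lipschitz ℝ hKl
    have h2 : ‖(eb b : Rn n)‖ = 1 := by simp [eb]
    calc |fderiv ℝ ζ x (eb b)| = ‖fderiv ℝ ζ x (eb b)‖ := (Real.norm_eq_abs _).symm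
      _ ≤ ‖fderiv ℝ ζ x‖ * ‖(eb b : Rn n)‖ := ContinuousLinearMap.le_opNorm _ _
      _ ≤ G := by rw [h2, mul_one, hGd]; exact h1
  -- the sign
  obtain ⟨vt, hvt⟩ : ∃ r, r = v (dxs (Jj m n hmn 0 1)) := ⟨_, rfl⟩
  obtain ⟨σ, hσ, hσv⟩ : ∃ σ : ℝ, |σ| ≤ 1 ∧ σ * vt = |vt| := by
    rcases le_total 0 vt with h | h
    · exact ⟨1, by simp, by rw [abs_of_nonneg h, one_mul]⟩
    · exact ⟨-1, by simp, by rw [abs_of_nonpos h]; ring⟩
  -- the forms
  obtain ⟨Ψ, hΨ⟩ : ∃ Ψ : ℕ → TestForm n (m + 1 + 1), Ψ = fun k =>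
    ∑ j ∈ Finset.range k, Phi hmn hζ hc (hA j) := ⟨_, rfl⟩
  have Ψx : ∀ k x, (Ψ k : Rn n → Cov n (m + 1 + 1)) x =
      ∑ j ∈ Finset.range k, (Phi hmn hζ hc (hA j) : Rn n → Cov n (m + 1 + 1)) x := by
    intro k x
    rw [hΨ]
    show ((∑ j ∈ Finset.range k, Phi hmn hζ hc (hA j) : TestForm n (m + 1 + 1)) :
      Rn n → Cov n (m + 1 + 1)) x = _
    rw [Submodule.coe_sum, Finset.sum_apply]
  have NΨ : ∀ k, N (Ψ k) = 0 := by
    intro k
    rw [hΨ]
    show N (∑ j ∈ Finset.range k, Phi hmn hζ hc (hA j)) = 0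
    rw [map_sum]
    exact Finset.sum_eq_zero fun j _ => Phi_zero hmn hF hN hζ hc (hA j)
  -- sums of powers of two
  have geo : ∀ k, ∑ j ∈ Finset.range k, C0 / (2 : ℝ) ^ j ≤ 2 * C0 := by
    intro k
    have h1 : ∑ j ∈ Finset.range k, C0 / (2 : ℝ) ^ j = C0 * (2 - 2 * (1 / 2) ^ k) := by
      induction k with
      | zero => simp
      | succ k ih =>
        rw [Finset.sum_range_succ, ih, pow_succ]
        have : C0 / (2 : ℝ) ^ k = C0 * (1 / 2) ^ k := by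
          rw [one_div, inv_pow, div_eq_mul_inv]
        rw [this]
        ring
    rw [h1]
    have : (0 : ℝ) < (1 / 2) ^ k := by positivity
    nlinarith
  -- the norm
  have nΨ : ∀ k x, ‖(Ψ k : Rn n → Cov n (m + 1 + 1)) x‖ ≤
      D * (C0 * (1 + ∑ j ∈ Finset.range k, p.s (j + 1))) + K2 hmn G * (2 * C0) := by
    intro k x
    rw [Ψx]
    refine (norm_sum_le _ _).trans ?_
    refine (Finset.sum_le_sum fun j _ => Phi_norm hmn hF hζ hc h01 (hA j) x (hG x)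
      (hA1 j)).trans ?_
    rw [Finset.sum_add_distrib, ← Finset.mul_sum, ← Finset.mul_sum, ← hD]
    exact add_le_add (mul_le_mul_of_nonneg_left (hA2 k _) D0.le)
      (mul_le_mul_of_nonneg_left (geo k) (K2_nonneg hmn G0))
  -- the upper bound
  obtain ⟨ms, hms⟩ : ∃ r, r = (massOn (subVec N (p.mu m n L) v) U).toReal := ⟨_, rfl⟩
  have ms0 : 0 ≤ ms := by rw [hms]; exact ENNReal.toReal_nonneg
  have Sk0 : ∀ k, 0 ≤ ∑ j ∈ Finset.range k, p.s (j + 1) := fun k =>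
    Finset.sum_nonneg fun j _ => (hp.spos _).le
  have up : ∀ k, ∫ q, -(σ * v ((Ψ k : Rn n → Cov n (m + 1 + 1)) (X q))) ∂P ≤
      (D * (C0 * (1 + ∑ j ∈ Finset.range k, p.s (j + 1))) + K2 hmn G * (2 * C0)) * ms := by
    intro k
    have cont : Continuous fun x => v ((Ψ k : Rn n → Cov n (m + 1 + 1)) x) :=
      v.continuous.comp (Ψ k).2.1.continuous
    have h1 := mass_bound (subVec N (p.mu m n L) v) U hfin (σ • Ψ k) ?_
      (D * (C0 * (1 + ∑ j ∈ Finset.range k, p.s (j + 1))) + K2 hmn G * (2 * C0)) ?_ ?_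
    · rw [← hms] at h1
      refine le_trans (le_of_eq ?_) h1
      rw [map_smul, smul_eq_mul]
      show _ = σ * (N (Ψ k) - ∫ x, v ((Ψ k : Rn n → Cov n (m + 1 + 1)) x) ∂(p.mu m n L))
      rw [NΨ, zero_sub]
      unfold Par.mu
      rw [← hPd, ← hXd, integral_map mX.aemeasurable cont.aestronglyMeasurable, integral_neg,
        integral_const_mul]
      ring
    · refine (closure_minimal ?_ (isClosed_tsupport ζ)).trans hsup
      intro x hx
      by_contra hx'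
      apply hx
      show σ • (Ψ k : Rn n → Cov n (m + 1 + 1)) x = 0
      rw [Ψx, Finset.sum_eq_zero fun j _ => Phi_supp hmn hF hζ hc (hA j) x hx', smul_zero]
    · have := Sk0 k
      have := K2_nonneg hmn (n := n) (m := m) G0
      positivity
    · intro x
      show ‖σ • (Ψ k : Rn n → Cov n (m + 1 + 1)) x‖ ≤ _
      rw [norm_smul, Real.norm_eq_abs]
      calc _ ≤ 1 * ‖(Ψ k : Rn n → Cov n (m + 1 + 1)) x‖ :=
            mul_le_mul_of_nonneg_right hσ (norm_nonneg _)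
        _ ≤ _ := by rw [one_mul]; exact nΨ k x
  -- the bad set
  obtain ⟨Bd, hBd⟩ : ∃ Bd : Set (p.Bs m), Bd = X ⁻¹' U ∩ p.Bad m T := ⟨_, rfl⟩
  have mBd : MeasurableSet Bd := by
    rw [hBd]; exact (mX hU.measurableSet).inter (hM.Bad p m T)
  have bad : (p.muBad m n L T U).toReal = P.real Bd := by
    unfold Par.muBad
    rw [← hPd, ← hXd, Measure.map_apply mX hU.measurableSet,
      Measure.restrict_apply (mX hU.measurableSet), hBd]
    rfl
  -- the function of the lower bound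
  obtain ⟨F, hFd⟩ : ∃ F : ℕ → p.Bs m → ℝ, F = fun j q =>
    ζ (X q) * p.Fm j q.2 q.1.1.1 q.1.1.2 := ⟨_, rfl⟩
  have mF : ∀ j, Measurable (F j) := by
    intro j
    rw [hFd]
    refine (hζ.continuous.measurable.comp mX).mul ?_
    exact (hM.Fm p j).comp ((measurable_fst.comp measurable_fst).prodMk measurable_snd)
  have F01 : ∀ j q, 0 ≤ F j q ∧ F j q ≤ 1 := by
    intro j q
    rw [hFd]
    exact ⟨mul_nonneg (h01 _).1 (Fm_mem p j _ _ _).1,
      mul_le_one₀ (h01 _).2 (Fm_mem p j _ _ _).1 (Fm_mem p j _ _ _).2⟩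
  have iF : ∀ j, Integrable (F j) P := by
    intro j
    refine Integrable.mono' (integrable_const (1 : ℝ)) (mF j).aestronglyMeasurable
      (ae_of_all _ fun q => ?_)
    rw [Real.norm_eq_abs, abs_of_nonneg (F01 j q).1]
    exact (F01 j q).2
  have iB : Integrable (Bd.indicator fun _ => (1 : ℝ)) P :=
    (integrable_const (1 : ℝ)).indicator mBd
  obtain ⟨b, hb⟩ : ∃ b : ℕ → ℝ, b = fun j => ∫ q, F j q ∂P - P.real Bd := ⟨_, rfl⟩
  obtain ⟨K, hK⟩ : ∃ K : ℝ, K = K3 hmn G v := ⟨_, rfl⟩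
  -- the pointwise lower bound
  have ae : ∀ᵐ q ∂P, (∀ i, S (p.N i * q.1.1.1) ≠ 0) ∧ (∀ i, S (p.N i * q.1.1.2) ≠ 0) := by
    have h1 := hM.ae p hp.Npos
    rw [hPd]
    unfold Par.P
    have h2 := (Measure.quasiMeasurePreserving_fst (μ := sq)
      (ν := volume.restrict (Set.pi Set.univ fun _ : Fin m => Set.Icc (0 : ℝ) L))).ae h1
    exact (Measure.quasiMeasurePreserving_fst (μ := sq.prod
      (volume.restrict (Set.pi Set.univ fun _ : Fin m => Set.Icc (0 : ℝ) L))) (ν := p.Q)).ae h2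
  have T2 : 0 < 1 + 2 * T ^ 2 := by positivity
  have low : ∀ k, ∀ᵐ q ∂P, ∑ j ∈ Finset.range k, (|vt| * (c0 * p.s (j + 1) / (1 + 2 * T ^ 2) *
      (F j q - Bd.indicator (fun _ => (1 : ℝ)) q)) - C0 / 2 ^ j * K) ≤
      -(σ * v ((Ψ k : Rn n → Cov n (m + 1 + 1)) (X q))) := by
    intro k
    filter_upwards [ae] with q hq
    rw [Ψx, map_sum, Finset.mul_sum, ← Finset.sum_neg_distrib]
    refine Finset.sum_le_sum fun j _ => ?_
    obtain ⟨g1, g2, g3⟩ := hA3 j q.2 q.1.1.1 q.1.1.2 hq.1 hq.2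
    have hprj : prj m n hmn (X q) = (q.1.1.1, q.1.1.2, p.Z q.2 q.1.1.1 q.1.1.2) := by
      rw [hXd]; exact prj_X hmn p q
    obtain ⟨W, hW⟩ : ∃ W : ℝ, W = c0 * p.s (j + 1) * p.Fm j q.2 q.1.1.1 q.1.1.2 /
      (1 + p.Zx (p.res (j + 1) q.2) q.1.1.1 q.1.1.2 ^ 2 +
        p.Zy (p.res (j + 1) q.2) q.1.1.1 q.1.1.2 ^ 2) := ⟨_, rfl⟩
    have h1 := Phi_val hmn hF hζ hc h01 (hA j) (X q) (G := G) (C := C0 / 2 ^ j) (W := W) (hG _)
      (by positivity) (hA1 j) v σ hσ (by rw [← hvt]; exact hσv)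
      (by rw [hprj, hW]; refine g3.trans (le_of_eq ?_); ring)
      (by rw [hprj]; exact g1) (by rw [hprj]; exact g2)
    rw [← hvt, ← hK] at h1
    refine le_trans ?_ h1
    refine sub_le_sub_right (mul_le_mul_of_nonneg_left ?_ (abs_nonneg _)) _
    obtain ⟨zx, hzx⟩ : ∃ r, r = p.Zx (p.res (j + 1) q.2) q.1.1.1 q.1.1.2 := ⟨_, rfl⟩
    obtain ⟨zy, hzy⟩ : ∃ r, r = p.Zy (p.res (j + 1) q.2) q.1.1.1 q.1.1.2 := ⟨_, rfl⟩
    obtain ⟨s, hs⟩ : ∃ r, r = p.s (j + 1) := ⟨_, rfl⟩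
    have s0 : 0 ≤ s := by rw [hs]; exact (hp.spos _).le
    have eW : ζ (X q) * W = c0 * s * F j q / (1 + zx ^ 2 + zy ^ 2) := by
      rw [hW, hFd, hzx, hzy, hs]; ring
    rw [eW, ← hs]
    have F0 := (F01 j q).1
    have F1 := (F01 j q).2
    have den : 0 < 1 + zx ^ 2 + zy ^ 2 := by positivity
    by_cases hb : q ∈ Bd
    · rw [Set.indicator_of_mem hb]
      have l1 : c0 * s / (1 + 2 * T ^ 2) * (F j q - 1) ≤ 0 :=
        mul_nonpos_of_nonneg_of_nonpos (by positivity) (by linarith)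
      exact l1.trans (by positivity)
    · rw [Set.indicator_of_notMem hb, sub_zero]
      by_cases hu : X q ∈ U
      · have hq' : q ∉ p.Bad m T := fun h => hb (by rw [hBd]; exact ⟨hu, h⟩)
        have h5 : |zx| ≤ T ∧ |zy| ≤ T := by
          constructor
          · by_contra h6
            exact hq' ⟨j, Or.inl (by rw [← hzx]; exact not_le.1 h6)⟩
          · by_contra h6
            exact hq' ⟨j, Or.inr (by rw [← hzy]; exact not_le.1 h6)⟩
        have h7 : zx ^ 2 ≤ T ^ 2 := sq_le_sq' (by linarith [abs_le.1 h5.1]) (abs_le.1 h5.1).2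
        have h8 : zy ^ 2 ≤ T ^ 2 := sq_le_sq' (by linarith [abs_le.1 h5.2]) (abs_le.1 h5.2).2
        have e : c0 * s / (1 + 2 * T ^ 2) * F j q = c0 * s * F j q / (1 + 2 * T ^ 2) := by ring
        rw [e]
        exact div_le_div_of_nonneg_left (by positivity) den (by linarith)
      · have : F j q = 0 := by
          rw [hFd]
          show ζ (X q) * _ = 0
          rw [image_eq_zero_of_notMem_tsupport (fun h => hu (hsup h)), zero_mul]
        rw [this]; simp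
  -- integrate
  have key : ∀ k, |vt| * c0 / (1 + 2 * T ^ 2) * ∑ j ∈ Finset.range k, p.s (j + 1) * b j ≤
      D * C0 * ms * ∑ j ∈ Finset.range k, p.s (j + 1) +
        ((D * C0 + K2 hmn G * (2 * C0)) * ms + 2 * C0 * (K * P.real Set.univ)) := by
    intro k
    have i1 : ∀ j ∈ Finset.range k, Integrable (fun q => |vt| * (c0 * p.s (j + 1) /
        (1 + 2 * T ^ 2) * (F j q - Bd.indicator (fun _ => (1 : ℝ)) q)) - C0 / 2 ^ j * K) P :=
      fun j _ => ((((iF j).sub iB).const_mul _).const_mul _).sub (integrable_const _)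
    have i2 : Integrable (fun q => -(σ * v ((Ψ k : Rn n → Cov n (m + 1 + 1)) (X q)))) P := by
      have h1 := integrable_vec (p.mu m n L) v (Ψ k)
      unfold Par.mu at h1
      rw [← hPd, ← hXd] at h1
      have h2 := (integrable_map_measure h1.aestronglyMeasurable mX.aemeasurable).1 h1
      exact (h2.const_mul σ).neg
    have h1 := (integral_mono_ae (integrable_finsetSum _ i1) i2 (low k)).trans (up k)
    rw [integral_finsetSum _ i1] at h1
    have h2 : ∀ j, ∫ q, (|vt| * (c0 * p.s (j + 1) /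
        (1 + 2 * T ^ 2) * (F j q - Bd.indicator (fun _ => (1 : ℝ)) q)) - C0 / 2 ^ j * K) ∂P =
        |vt| * c0 / (1 + 2 * T ^ 2) * (p.s (j + 1) * b j) -
          C0 / 2 ^ j * (K * P.real Set.univ) := by
      intro j
      have e1 : ∫ q, (F j q - Bd.indicator (fun _ => (1 : ℝ)) q) ∂P = b j := by
        rw [integral_sub (iF j) iB, integral_indicator_const _ mBd, hb]
        simp
      have i3 : Integrable (fun q => |vt| * (c0 * p.s (j + 1) /
        (1 + 2 * T ^ 2) * (F j q - Bd.indicator (fun _ => (1 : ℝ)) q))) P :=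
        (((iF j).sub iB).const_mul _).const_mul _
      rw [integral_sub i3 (integrable_const _), integral_const_mul, integral_const_mul, e1,
        integral_const]
      simp only [smul_eq_mul]
      ring
    simp only [h2] at h1
    rw [Finset.sum_sub_distrib, ← Finset.mul_sum, ← Finset.sum_mul] at h1
    have KP : 0 ≤ K * P.real Set.univ := by
      rw [hK]; exact mul_nonneg (K3_nonneg hmn G0 v) measureReal_nonneg
    have h3 := mul_le_mul_of_nonneg_right (geo k) KP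
    nlinarith
  -- the limit
  have hdiv : Tendsto (fun k => ∑ j ∈ Finset.range k, p.s (j + 1)) atTop atTop := by
    have h1 := (tendsto_add_atTop_iff_nat 1).2 hp.div
    have h2 : (fun k => ∑ j ∈ Finset.range k, p.s (j + 1)) =
        fun k => (∑ j ∈ Finset.range (k + 1), p.s j) + -(p.s 0) := by
      funext k
      rw [Finset.sum_range_succ']
      ring
    rw [h2]
    exact tendsto_atTop_add_const_right _ _ h1
  obtain ⟨I, hI⟩ : ∃ I : ℝ, I = ∫ q, ζ (X q) ∂P := ⟨_, rfl⟩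
  have hbε : ∀ ε : ℝ, 0 < ε → ∀ᶠ j in atTop, cF * I - P.real Bd - ε ≤ b j := by
    intro ε hε
    filter_upwards [hE p hp m n L hL ζ Kl hKl h01 ε hε] with j hj
    rw [hb, hI, hFd, hXd, hPd]
    show cF * ∫ q, ζ (p.X m n q) ∂p.P m L - _ - ε ≤
      ∫ q, ζ (p.X m n q) * p.Fm j q.2 q.1.1.1 q.1.1.2 ∂p.P m L - _
    linarith
  have fin := fin_lim (fun j => (hp.spos (j + 1)).le) hdiv (α := |vt| * c0 / (1 + 2 * T ^ 2))
    (by positivity) hbε key
  -- conclusion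
  have eI : ∫ x, ζ x ∂(p.mu m n L) = I := by
    unfold Par.mu
    rw [← hPd, ← hXd, integral_map mX.aemeasurable hζ.continuous.aestronglyMeasurable, hI]
  rw [← hvt, ← hms, bad, eI]
  obtain ⟨β, hβ⟩ : ∃ β, β = P.real Bd := ⟨_, rfl⟩
  have β0 : 0 ≤ β := by rw [hβ]; exact measureReal_nonneg
  rw [← hβ] at fin ⊢
  have f1 : |vt| * c0 * (cF * I - β) ≤ D * C0 * ms * (1 + 2 * T ^ 2) := by
    have : |vt| * c0 / (1 + 2 * T ^ 2) * (cF * I - β) =
        |vt| * c0 * (cF * I - β) / (1 + 2 * T ^ 2) := by ring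
    rw [this, div_le_iff₀ T2] at fin
    exact fin
  have v0 := abs_nonneg vt
  have f2 : 0 ≤ |vt| * (2 * (D * C0)) * β := by positivity
  have f3 : 0 ≤ c0 * (1 + T ^ 2) * ms := by positivity
  have f4 : 0 ≤ D * C0 * ms := by positivity
  nlinarith

end Core

/-- Module CORE -/
theorem core (_hA : Ang) (_hS : Sz) (hM : Meas) (hE : StmtEqui) (hP : StmtPota) (hF : Frm) :
    StmtCore := by
  intro m n hmn
  have h := Core.main hmn hM hE hP hF
  rw [Core.Jj_top] at h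
  exact h

end

end Pool.Agent.T6.H55.LU
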