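import Pool.Agent.T6.H55.LU.Stm

/-!
# Lusin type approximation of forms (MP_507414_an): module EQUI (equidistribution)
-/

set_option autoImplicit false

open MeasureTheory Filter Topology
open scoped ENNReal NNReal

namespace Pool.Agent.T6.H55.LU

namespace EquiAux

/-! ### Elementary functions -/

theorem S_add_one (t : ℝ) : S (t + 1) = - S t := by
  unfold S
  rw [mul_add, mul_one, Real.sin_add_pi]

theorem c_add_one (t : ℝ) : c (t + 1) = - c t := by
  unfold c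
  rw [mul_add, mul_one, Real.cos_add_pi]

theorem cont_S : Continuous S := by
  unfold S
  fun_prop

theorem cont_c : Continuous c := by
  unfold c
  fun_prop

theorem cont_ga : Continuous ga := by
  have h := Real.smoothTransition.continuous
  unfold ga
  fun_prop

theorem cont_lam : Continuous lam := by
  have h := Real.smoothTransition.continuous
  have h2 := cont_S
  unfold lam
  fun_prop

theorem cont_Ga2 : Continuous (fun q : ℝ × ℝ => Ga2 q.1 q.2) := by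
  have h := cont_ga
  have h2 := cont_S
  have h3 := cont_c
  unfold Ga2 rho
  fun_prop

theorem lam_nonneg (t : ℝ) : 0 ≤ lam t := Real.smoothTransition.nonneg _

theorem lam_le_one (t : ℝ) : lam t ≤ 1 := Real.smoothTransition.le_one _

theorem ga_nonneg (t : ℝ) : 0 ≤ ga t :=
  mul_nonneg (Real.smoothTransition.nonneg _) (Real.smoothTransition.nonneg _)

theorem ga_le_one (t : ℝ) : ga t ≤ 1 :=
  mul_le_one₀ (Real.smoothTransition.le_one _) (Real.smoothTransition.nonneg _)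
    (Real.smoothTransition.le_one _)

theorem Ga2_nonneg (x y : ℝ) : 0 ≤ Ga2 x y := mul_nonneg (ga_nonneg _) (abs_nonneg _)

theorem Ga2_le_one (x y : ℝ) : Ga2 x y ≤ 1 := by
  refine mul_le_one₀ (ga_le_one _) (abs_nonneg _) ?_
  rw [abs_mul]
  exact mul_le_one₀ (Real.abs_cos_le_one _) (abs_nonneg _) (Real.abs_cos_le_one _)

theorem lam_per : Function.Periodic lam 1 := by
  intro t
  simp only [lam, S_add_one, neg_sq]

theorem Ga2_per1 (y : ℝ) : Function.Periodic (fun x => Ga2 x y) 1 := by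
  intro t
  simp only [Ga2, rho, S_add_one, c_add_one, neg_sq, neg_mul, abs_neg]

theorem Ga2_per2 (x : ℝ) : Function.Periodic (fun y => Ga2 x y) 1 := by
  intro t
  simp only [Ga2, rho, S_add_one, c_add_one, neg_sq, mul_neg, abs_neg]

theorem lam_eq_one {t : ℝ} (h1 : 1 / 4 ≤ t) (h2 : t ≤ 3 / 4) : lam t = 1 := by
  unfold lam
  apply Real.smoothTransition.one_of_one_le
  have h3 : S t ^ 2 = 1 / 2 - Real.cos (2 * (Real.pi * t)) / 2 := by
    unfold S
    have := Real.sin_sq_eq_half_sub (Real.pi * t)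
    rw [this]
  have h4 : Real.cos (2 * (Real.pi * t)) ≤ 0 := by
    apply Real.cos_nonpos_of_pi_div_two_le_of_le
    · nlinarith [Real.pi_pos]
    · nlinarith [Real.pi_pos]
  rw [h3]
  linarith

/-! ### Integrals over cells -/

theorem floor_of_mem {k : ℤ} {x : ℝ} (hx : x ∈ Set.Ioo (k : ℝ) (k + 1)) : ⌊x⌋ = k := by
  rw [Int.floor_eq_iff]
  exact ⟨hx.1.le, hx.2⟩

theorem cell (N : ℕ) (hN : 0 < N) (H : ℤ → ℝ) (φ : ℝ → ℝ) (hc : Continuous φ)
    (hφ : Function.Periodic φ 1) :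
    ∫ x in (0 : ℝ)..1, H ⌊(N : ℝ) * x⌋ * φ (N * x) =
      ((N : ℝ)⁻¹ * ∑ k ∈ Finset.range N, H k) * ∫ x in (0 : ℝ)..1, φ x := by
  have hN' : (N : ℝ) ≠ 0 := by positivity
  rw [intervalIntegral.integral_comp_mul_left (fun x => H ⌊x⌋ * φ x) hN']
  have hint : ∀ k : ℕ, IntervalIntegrable (fun x => H ⌊x⌋ * φ x) volume (k : ℝ) ((k + 1 : ℕ) : ℝ) := by
    intro k
    rw [intervalIntegrable_iff_integrableOn_Ioo_of_le (by push_cast; linarith)]
    have h1 : IntegrableOn (fun x => H k * φ x) (Set.Ioo (k : ℝ) ((k + 1 : ℕ) : ℝ)) := by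
      have h2 : IntervalIntegrable (fun x => H k * φ x) volume (k : ℝ) ((k + 1 : ℕ) : ℝ) :=
        (continuous_const.mul hc).intervalIntegrable _ _
      rwa [intervalIntegrable_iff_integrableOn_Ioo_of_le (by push_cast; linarith)] at h2
    refine h1.congr_fun ?_ measurableSet_Ioo
    intro x hx
    have : ⌊x⌋ = (k : ℤ) := floor_of_mem (by simpa using hx)
    simp only [this]
  have hk : ∀ k : ℕ, ∫ x in (k : ℝ)..((k + 1 : ℕ) : ℝ), H ⌊x⌋ * φ x =
      H k * ∫ x in (0 : ℝ)..1, φ x := by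
    intro k
    have h3 : ∫ x in (k : ℝ)..((k + 1 : ℕ) : ℝ), H ⌊x⌋ * φ x =
        ∫ x in (k : ℝ)..((k + 1 : ℕ) : ℝ), H k * φ x := by
      rw [intervalIntegral.integral_of_le (by push_cast; linarith),
        intervalIntegral.integral_of_le (by push_cast; linarith),
        integral_Ioc_eq_integral_Ioo, integral_Ioc_eq_integral_Ioo]
      refine setIntegral_congr_fun measurableSet_Ioo ?_
      intro x hx
      have : ⌊x⌋ = (k : ℤ) := floor_of_mem (by simpa using hx)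
      simp only [this]
    rw [h3, intervalIntegral.integral_const_mul]
    congr 1
    have h4 := hφ.intervalIntegral_add_eq (k : ℝ) 0
    push_cast
    rw [h4, zero_add]
  have hsum := intervalIntegral.sum_integral_adjacent_intervals (μ := volume)
    (f := fun x => H ⌊x⌋ * φ x) (a := fun k : ℕ => (k : ℝ)) (n := N) (fun k _ => hint k)
  simp only [mul_zero, mul_one, smul_eq_mul]
  have h0 : ((0 : ℕ) : ℝ) = 0 := by simp
  rw [h0] at hsum
  rw [← hsum, Finset.sum_congr rfl fun k _ => hk k, ← Finset.sum_mul]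
  ring

theorem per_scale (r : ℕ) (hr : 0 < r) (φ : ℝ → ℝ) (hc : Continuous φ)
    (hφ : Function.Periodic φ 1) : ∫ x in (0 : ℝ)..1, φ (r * x) = ∫ x in (0 : ℝ)..1, φ x := by
  have h := cell r hr (fun _ => 1) φ hc hφ
  have hr' : (r : ℝ) ≠ 0 := by positivity
  simpa [hr'] using h

theorem cont_Ga2' {α : Type} [TopologicalSpace α] {f g : α → ℝ} (hf : Continuous f)
    (hg : Continuous g) : Continuous fun a => Ga2 (f a) (g a) := by
  have h := cont_ga
  have h2 := cont_S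
  have h3 := cont_c
  unfold Ga2 rho
  fun_prop

/-- the mean of `Ga2` over the first variable -/
noncomputable def J (t : ℝ) : ℝ := ∫ u in (0 : ℝ)..1, Ga2 u t

theorem cont_J : Continuous J := by
  have h : Continuous (Function.uncurry fun (t u : ℝ) => Ga2 u t) := by
    simp only [Function.uncurry_def]
    exact cont_Ga2' continuous_snd continuous_fst
  unfold J
  exact intervalIntegral.continuous_parametric_intervalIntegral_of_continuous' h 0 1

theorem J_nonneg (t : ℝ) : 0 ≤ J t :=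
  intervalIntegral.integral_nonneg (by norm_num) fun u _ => Ga2_nonneg u t

theorem J_per : Function.Periodic J 1 := by
  intro t
  unfold J
  refine intervalIntegral.integral_congr fun u _ => ?_
  exact Ga2_per2 u t

/-- the mean of `Ga2` -/
noncomputable def II : ℝ := ∫ t in (0 : ℝ)..1, J t

theorem Ga2_pos : 0 < Ga2 (1 / 6) (1 / 6) := by
  have hS : S (1 / 6) = 1 / 2 := by
    unfold S
    rw [show Real.pi * (1 / 6) = Real.pi / 6 by ring, Real.sin_pi_div_six]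
  have hc : c (1 / 6) = Real.sqrt 3 / 2 := by
    unfold c
    rw [show Real.pi * (1 / 6) = Real.pi / 6 by ring, Real.cos_pi_div_six]
  have hr : rho (1 / 6) (1 / 6) = 1 / 2 := by
    unfold rho
    rw [hS]
    norm_num
  have hg : ga (1 / 2) = 1 := by
    unfold ga
    rw [Real.smoothTransition.one_of_one_le (by norm_num),
      Real.smoothTransition.one_of_one_le (by norm_num), mul_one]
  unfold Ga2
  rw [hr, hg, hc, one_mul, abs_pos]
  positivity

attribute [local irreducible] Ga2 lam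

theorem II_pos : 0 < II := by
  unfold II
  refine intervalIntegral.integral_pos (by norm_num) cont_J.continuousOn (fun t _ => J_nonneg t)
    ⟨1 / 6, ⟨by norm_num, by norm_num⟩, ?_⟩
  unfold J
  refine intervalIntegral.integral_pos (by norm_num)
    (cont_Ga2' continuous_id continuous_const).continuousOn
    (fun t _ => Ga2_nonneg t _) ⟨1 / 6, ⟨by norm_num, by norm_num⟩, Ga2_pos⟩

theorem lamJ (r : ℕ) (hr : 0 < r) (h4 : 4 ∣ r) :
    II / 2 ≤ ∫ v in (0 : ℝ)..1, lam v * J (r * v) := by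
  obtain ⟨s, rfl⟩ := h4
  have hs : 0 < s := by omega
  have hs' : (0 : ℝ) < s := by positivity
  have hcont : Continuous fun v : ℝ => lam v * J (((4 * s : ℕ) : ℝ) * v) :=
    cont_lam.mul (cont_J.comp (by fun_prop))
  have hnn : ∀ v, 0 ≤ lam v * J (((4 * s : ℕ) : ℝ) * v) := fun v =>
    mul_nonneg (lam_nonneg v) (J_nonneg _)
  have h1 : ∫ v in (1 / 4 : ℝ)..(3 / 4), lam v * J (((4 * s : ℕ) : ℝ) * v) ≤
      ∫ v in (0 : ℝ)..1, lam v * J (((4 * s : ℕ) : ℝ) * v) := by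
    refine intervalIntegral.integral_mono_interval (by norm_num) (by norm_num) (by norm_num)
      (Eventually.of_forall hnn) (hcont.intervalIntegrable _ _)
  refine le_trans (le_of_eq ?_) h1
  have h2 : ∫ v in (1 / 4 : ℝ)..(3 / 4), lam v * J (((4 * s : ℕ) : ℝ) * v) =
      ∫ v in (1 / 4 : ℝ)..(3 / 4), J (((4 * s : ℕ) : ℝ) * v) := by
    refine intervalIntegral.integral_congr fun v hv => ?_
    rw [Set.uIcc_of_le (by norm_num)] at hv
    simp only [lam_eq_one hv.1 hv.2, one_mul]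
  rw [h2, intervalIntegral.integral_comp_mul_left J (by positivity)]
  have h3 : ((4 * s : ℕ) : ℝ) * (1 / 4) = s := by push_cast; ring
  have h5 : ((4 * s : ℕ) : ℝ) * (3 / 4) = s + ((2 * s : ℕ) : ℤ) • (1 : ℝ) := by
    push_cast
    simp
    ring
  rw [h3, h5, J_per.intervalIntegral_add_zsmul_eq _ _ (fun a b => cont_J.intervalIntegrable a b),
    J_per.intervalIntegral_add_eq (s : ℝ) 0, zero_add]
  change II / 2 = _
  unfold II
  simp only [smul_eq_mul, zsmul_eq_mul]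
  push_cast
  field_simp
  ring

/-! ### Integrals over the square -/

instance probI : IsProbabilityMeasure (volume.restrict (Set.Icc (0 : ℝ) 1)) := ⟨by simp⟩

instance probSq : IsProbabilityMeasure sq := by
  unfold sq
  infer_instance

theorem bddInt {α : Type} [MeasurableSpace α] (μ : Measure α) [IsFiniteMeasure μ] {f : α → ℝ}
    (hf : Measurable f) (hb : ∀ x, 0 ≤ f x ∧ f x ≤ 1) : Integrable f μ := by
  refine Integrable.of_bound hf.aestronglyMeasurable 1 (Eventually.of_forall fun x => ?_)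
  rw [Real.norm_eq_abs, abs_le]
  exact ⟨by linarith [(hb x).1], (hb x).2⟩

theorem meas_floor2 (N : ℕ) (H : ℤ → ℤ → ℝ) :
    Measurable (fun q : ℝ × ℝ => H ⌊(N : ℝ) * q.1⌋ ⌊(N : ℝ) * q.2⌋) := by
  have h1 : Measurable (fun a : ℤ × ℤ => H a.1 a.2) := Measurable.of_discrete
  have h2 : Measurable (fun q : ℝ × ℝ => (⌊(N : ℝ) * q.1⌋, ⌊(N : ℝ) * q.2⌋)) := by
    refine Measurable.prodMk ?_ ?_
    · exact (measurable_fst.const_mul (N : ℝ)).floor
    · exact (measurable_snd.const_mul (N : ℝ)).floor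
  exact h1.comp h2

theorem cell2 (N : ℕ) (hN : 0 < N) (H : ℤ → ℤ → ℝ) (hH : ∀ a b, 0 ≤ H a b ∧ H a b ≤ 1)
    (ψ : ℝ → ℝ → ℝ) (hc : Continuous fun q : ℝ × ℝ => ψ q.1 q.2)
    (hb : ∀ x y, 0 ≤ ψ x y ∧ ψ x y ≤ 1)
    (h1 : ∀ y, Function.Periodic (fun x => ψ x y) 1)
    (h2 : ∀ x, Function.Periodic (fun y => ψ x y) 1) :
    ∫ q, H ⌊(N : ℝ) * q.1⌋ ⌊(N : ℝ) * q.2⌋ * ψ (N * q.1) (N * q.2) ∂sq =
      ((N : ℝ)⁻¹ * ∑ l ∈ Finset.range N, ((N : ℝ)⁻¹ * ∑ k ∈ Finset.range N, H k l)) *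
        ∫ v in (0 : ℝ)..1, ∫ u in (0 : ℝ)..1, ψ u v := by
  have hm : Measurable fun q : ℝ × ℝ =>
      H ⌊(N : ℝ) * q.1⌋ ⌊(N : ℝ) * q.2⌋ * ψ (N * q.1) (N * q.2) := by
    refine (meas_floor2 N H).mul ?_
    have h3 : Continuous fun q : ℝ × ℝ => ((N : ℝ) * q.1, (N : ℝ) * q.2) := by fun_prop
    exact (hc.comp h3).measurable
  have hint : Integrable (fun q : ℝ × ℝ =>
      H ⌊(N : ℝ) * q.1⌋ ⌊(N : ℝ) * q.2⌋ * ψ (N * q.1) (N * q.2)) sq := by
    refine bddInt sq hm fun q => ?_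
    exact ⟨mul_nonneg (hH _ _).1 (hb _ _).1, mul_le_one₀ (hH _ _).2 (hb _ _).1 (hb _ _).2⟩
  unfold sq at hint ⊢
  rw [integral_prod_symm _ hint]
  have hin : ∀ y : ℝ, ∫ x in Set.Icc (0 : ℝ) 1,
      H ⌊(N : ℝ) * x⌋ ⌊(N : ℝ) * y⌋ * ψ (N * x) (N * y) =
      ((N : ℝ)⁻¹ * ∑ k ∈ Finset.range N, H k ⌊(N : ℝ) * y⌋) * ∫ u in (0 : ℝ)..1, ψ u (N * y) := by
    intro y
    rw [integral_Icc_eq_integral_Ioc, ← intervalIntegral.integral_of_le (by norm_num)]
    have hcy : Continuous fun x : ℝ => ψ x (N * y) :=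
      hc.comp (by fun_prop : Continuous fun x : ℝ => (x, (N : ℝ) * y))
    exact cell N hN (fun k => H k ⌊(N : ℝ) * y⌋) (fun x => ψ x (N * y)) hcy (h1 _)
  simp only [hin]
  rw [integral_Icc_eq_integral_Ioc, ← intervalIntegral.integral_of_le (by norm_num)]
  have hc2 : Continuous fun v : ℝ => ∫ u in (0 : ℝ)..1, ψ u v := by
    have h : Continuous (Function.uncurry fun (t u : ℝ) => ψ u t) := by
      change Continuous fun q : ℝ × ℝ => ψ q.2 q.1
      exact hc.comp (continuous_snd.prodMk continuous_fst)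
    exact intervalIntegral.continuous_parametric_intervalIntegral_of_continuous' h 0 1
  have hp2 : Function.Periodic (fun v : ℝ => ∫ u in (0 : ℝ)..1, ψ u v) 1 := by
    intro t
    refine intervalIntegral.integral_congr fun u _ => ?_
    exact h2 u t
  exact cell N hN (fun l => (N : ℝ)⁻¹ * ∑ k ∈ Finset.range N, H k l)
    (fun v => ∫ u in (0 : ℝ)..1, ψ u v) hc2 hp2

theorem cellineq (N r : ℕ) (hN : 0 < N) (hr : 0 < r) (h4 : 4 ∣ r) (H : ℤ → ℤ → ℝ)
    (hH : ∀ a b, 0 ≤ H a b ∧ H a b ≤ 1) :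
    II / 2 * ∫ q, H ⌊(N : ℝ) * q.1⌋ ⌊(N : ℝ) * q.2⌋ ∂sq ≤
      ∫ q, H ⌊(N : ℝ) * q.1⌋ ⌊(N : ℝ) * q.2⌋ *
        (lam (N * q.2) * Ga2 (((r * N : ℕ) : ℝ) * q.1) (((r * N : ℕ) : ℝ) * q.2)) ∂sq := by
  have hA := cell2 N hN H hH (fun _ _ => 1) continuous_const (fun _ _ => ⟨zero_le_one, le_rfl⟩)
    (fun _ _ => rfl) (fun _ _ => rfl)
  have hcont : Continuous fun q : ℝ × ℝ => lam q.2 * Ga2 (r * q.1) (r * q.2) :=
    (cont_lam.comp continuous_snd).mul (cont_Ga2' (by fun_prop) (by fun_prop))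
  have hB := cell2 N hN H hH (fun x y => lam y * Ga2 (r * x) (r * y)) hcont
    (fun x y => ⟨mul_nonneg (lam_nonneg _) (Ga2_nonneg _ _),
      mul_le_one₀ (lam_le_one _) (Ga2_nonneg _ _) (Ga2_le_one _ _)⟩)
    (fun y t => by
      have h5 := (Ga2_per1 ((r : ℝ) * y)).nat_mul r (r * t)
      simp only [mul_one] at h5
      simp only [mul_add, mul_one]
      rw [h5])
    (fun x t => by
      have h5 := (Ga2_per2 ((r : ℝ) * x)).nat_mul r (r * t)
      simp only [mul_one] at h5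
      simp only [mul_add, mul_one]
      rw [h5, lam_per t])
  have hJ : ∀ v : ℝ, ∫ u in (0 : ℝ)..1, lam v * Ga2 (r * u) (r * v) = lam v * J (r * v) := by
    intro v
    rw [intervalIntegral.integral_const_mul]
    congr 1
    exact per_scale r hr (fun u => Ga2 u (r * v))
      (cont_Ga2' continuous_id continuous_const) (Ga2_per1 _)
  simp only [hJ] at hB
  simp only [mul_one, intervalIntegral.integral_const, sub_zero, smul_eq_mul] at hA
  have hC := lamJ r hr h4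
  have hnn : 0 ≤ (N : ℝ)⁻¹ * ∑ l ∈ Finset.range N, ((N : ℝ)⁻¹ * ∑ k ∈ Finset.range N, H k l) := by
    refine mul_nonneg (by positivity) (Finset.sum_nonneg fun l _ => ?_)
    exact mul_nonneg (by positivity) (Finset.sum_nonneg fun k _ => (hH _ _).1)
  have hE : ∫ q, H ⌊(N : ℝ) * q.1⌋ ⌊(N : ℝ) * q.2⌋ *
        (lam (N * q.2) * Ga2 (((r * N : ℕ) : ℝ) * q.1) (((r * N : ℕ) : ℝ) * q.2)) ∂sq =
      ∫ q, H ⌊(N : ℝ) * q.1⌋ ⌊(N : ℝ) * q.2⌋ *
        (lam (N * q.2) * Ga2 (r * (N * q.1)) (r * (N * q.2))) ∂sq := by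
    refine integral_congr_ae (Eventually.of_forall fun q => ?_)
    simp only [Nat.cast_mul, mul_assoc]
  rw [hE, hA, hB, mul_comm (II / 2)]
  exact mul_le_mul_of_nonneg_left hC hnn

/-! ### The points of `ℝⁿ` -/

theorem sum_supp (m n : ℕ) (g : ℕ → ℝ) (hg : ∀ i, 0 ≤ g i)
    (h0 : ∀ i, i ≠ 0 → i ≠ 1 → i ≠ m + 2 → g i = 0) :
    ∑ i : Fin n, g i ≤ g 0 + g 1 + g (m + 2) := by
  rw [Fin.sum_univ_eq_sum_range]
  have h1 : ∑ i ∈ (Finset.range n).filter (fun i => i ∈ ({0, 1, m + 2} : Finset ℕ)), g i =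
      ∑ i ∈ Finset.range n, g i := by
    refine Finset.sum_filter_of_ne fun i _ hi => ?_
    by_contra hc
    simp only [Finset.mem_insert, Finset.mem_singleton, not_or] at hc
    exact hi (h0 i hc.1 hc.2.1 hc.2.2)
  rw [← h1]
  have h2 : (Finset.range n).filter (fun i => i ∈ ({0, 1, m + 2} : Finset ℕ)) ⊆ {0, 1, m + 2} := by
    intro i hi
    exact (Finset.mem_filter.1 hi).2
  refine (Finset.sum_le_sum_of_subset_of_nonneg h2 fun i _ _ => hg i).trans (le_of_eq ?_)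
  rw [Finset.sum_insert (by simp), Finset.sum_insert (by simp), Finset.sum_singleton]
  ring

theorem pnt_dist (m n : ℕ) (x y z x' y' z' : ℝ) (w : Fin m → ℝ) :
    dist (Par.pnt m n x y w z) (Par.pnt m n x' y' w z') ≤ |x - x'| + |y - y'| + |z - z'| := by
  rw [EuclideanSpace.dist_eq]
  apply Real.sqrt_le_iff.2
  refine ⟨by positivity, ?_⟩
  have h1 : ∀ i : Fin n, dist (Par.pnt m n x y w z i) (Par.pnt m n x' y' w z' i) ^ 2 =
      (fun i : ℕ => (if i = 0 then |x - x'| else if i = 1 then |y - y'| else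
        if i = m + 2 then |z - z'| else 0) ^ 2) (i : ℕ) := by
    intro i
    simp only [Par.pnt, Real.dist_eq]
    congr 1
    by_cases h0 : (i : ℕ) = 0
    · simp [h0]
    by_cases h1 : (i : ℕ) = 1
    · simp [h1]
    by_cases h2 : (i : ℕ) - 2 < m
    · have h3 : (i : ℕ) ≠ m + 2 := by omega
      simp [h0, h1, h2, h3]
    · by_cases h3 : (i : ℕ) = m + 2
      · simp [h3]
      · simp [h0, h1, h2, h3]
  rw [Finset.sum_congr rfl fun i _ => h1 i]
  refine (sum_supp m n (fun i : ℕ => (if i = 0 then |x - x'| else if i = 1 then |y - y'| else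
        if i = m + 2 then |z - z'| else 0) ^ 2) (fun i => sq_nonneg _) ?_).trans ?_
  · intro i h0 h1 h2
    simp [h0, h1, h2]
  · simp only [if_true, one_ne_zero, if_false, Nat.add_eq_zero_iff, OfNat.ofNat_ne_zero, and_false]
    have h4 : m + 2 ≠ 1 := by omega
    simp only [h4, if_false]
    nlinarith [abs_nonneg (x - x'), abs_nonneg (y - y'), abs_nonneg (z - z'),
      mul_nonneg (abs_nonneg (x - x')) (abs_nonneg (y - y')),
      mul_nonneg (abs_nonneg (x - x')) (abs_nonneg (z - z')),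
      mul_nonneg (abs_nonneg (y - y')) (abs_nonneg (z - z'))]

theorem cont_pnt (m n : ℕ) (x y z : ℝ) : Continuous fun w : Fin m → ℝ => Par.pnt m n x y w z := by
  unfold Par.pnt
  refine (PiLp.continuous_toLp 2 _).comp (continuous_pi fun i => ?_)
  split_ifs <;> fun_prop

/-! ### The discretized function -/

/-- the function `ζ` at the corner of a cell -/
noncomputable def zH (p : Par) (m n j : ℕ) (ζ : Rn n → ℝ) (d : p.Str j) (w : Fin m → ℝ)
    (a b : ℤ) : ℝ :=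
  ζ (Par.pnt m n ((a : ℝ) / (p.N j : ℝ)) ((b : ℝ) / (p.N j : ℝ)) w
    (p.Zs d ((a : ℝ) / (p.N j : ℝ)) ((b : ℝ) / (p.N j : ℝ))))

/-- the discretized function -/
noncomputable def zc (p : Par) (m n j : ℕ) (ζ : Rn n → ℝ) (d : p.Str j)
    (q : (ℝ × ℝ) × (Fin m → ℝ)) : ℝ :=
  zH p m n j ζ d q.2 ⌊(p.N j : ℝ) * q.1.1⌋ ⌊(p.N j : ℝ) * q.1.2⌋

theorem meas_zc (p : Par) (m n j : ℕ) (ζ : Rn n → ℝ) (hζ : Continuous ζ) (d : p.Str j) :
    Measurable (fun q => zc p m n j ζ d q) := by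
  have h1 : Measurable (fun a : (Fin m → ℝ) × (ℤ × ℤ) => zH p m n j ζ d a.1 a.2.1 a.2.2) := by
    refine measurable_from_prod_countable_left fun ab => ?_
    have h3 := (hζ.comp (cont_pnt m n ((ab.1 : ℝ) / (p.N j : ℝ)) ((ab.2 : ℝ) / (p.N j : ℝ))
      (p.Zs d ((ab.1 : ℝ) / (p.N j : ℝ)) ((ab.2 : ℝ) / (p.N j : ℝ))))).measurable
    simp only [Function.comp_def] at h3
    simp only [zH]
    exact h3
  have h2 : Measurable (fun q : (ℝ × ℝ) × (Fin m → ℝ) =>
      (q.2, (⌊(p.N j : ℝ) * q.1.1⌋, ⌊(p.N j : ℝ) * q.1.2⌋))) := by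
    refine measurable_snd.prodMk (Measurable.prodMk ?_ ?_)
    · exact ((measurable_fst.comp measurable_fst).const_mul (p.N j : ℝ)).floor
    · exact ((measurable_snd.comp measurable_fst).const_mul (p.N j : ℝ)).floor
  have h3 := h1.comp h2
  simp only [Function.comp_def] at h3
  simp only [zc]
  exact h3

theorem meas_res (p : Par) (j : ℕ) : Measurable (fun o : p.Om => p.res j o) :=
  measurable_pi_lambda _ fun _ => measurable_pi_apply _

theorem meas_zc2 (p : Par) (m n j : ℕ) (ζ : Rn n → ℝ) (hζ : Continuous ζ) :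
    Measurable (fun q : p.Bs m => zc p m n j ζ (p.res j q.2) q.1) := by
  have h1 : Measurable (fun a : ((ℝ × ℝ) × (Fin m → ℝ)) × p.Str j => zc p m n j ζ a.2 a.1) :=
    measurable_from_prod_countable_left fun d => meas_zc p m n j ζ hζ d
  have h2 : Measurable (fun q : p.Bs m => (q.1, p.res j q.2)) :=
    measurable_fst.prodMk ((meas_res p j).comp measurable_snd)
  have h3 := h1.comp h2
  simp only [Function.comp_def] at h3
  exact h3

/-- the sign of the digit `j + 1` is independent of the first `j` digits -/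
theorem half (hS : Sz) (p : Par) (j : ℕ) (F : p.Str j → ℝ) :
    ∫ o, F (p.res j o) * (if (o (j + 1)).1 then 1 else 0) ∂p.Q = 1 / 2 * p.av j F := by
  classical
  let rr : p.Str (j + 2) → p.Str j := fun d i => d ⟨i, by omega⟩
  let G : p.Str (j + 2) → ℝ := fun d =>
    F (rr d) * (if (d ⟨j + 1, by omega⟩).1 then 1 else 0)
  let G2 : p.Str (j + 2) → ℝ := fun d => F (rr d)
  have h1 : ∫ o, F (p.res j o) * (if (o (j + 1)).1 then 1 else 0) ∂p.Q = p.av (j + 2) G := by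
    rw [← hS.integral_res p (j + 2) G]
    rfl
  have h2 : p.av (j + 2) G2 = p.av j F := by
    rw [← hS.integral_res p (j + 2) G2, ← hS.integral_res p j F]
    rfl
  let fl : p.Str (j + 2) → p.Str (j + 2) := fun d =>
    Function.update d (⟨j + 1, by omega⟩ : Fin (j + 2))
      (!(d ⟨j + 1, by omega⟩).1, (d ⟨j + 1, by omega⟩).2)
  have hinv : Function.Involutive fl := by
    intro d
    funext i
    by_cases hi : i = ⟨j + 1, by omega⟩
    · subst hi
      simp [fl]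
    · simp [fl, Function.update_of_ne hi]
  have h3 : ∑ d, G (fl d) = ∑ d, G d := Equiv.sum_comp hinv.toPerm G
  have hrr : ∀ d, rr (fl d) = rr d := by
    intro d
    funext i
    have hi : (⟨i, by omega⟩ : Fin (j + 2)) ≠ ⟨j + 1, by omega⟩ := by
      intro h
      have := congrArg Fin.val h
      simp only at this
      omega
    simp only [rr, fl, Function.update_of_ne hi]
  have h4 : ∀ d, G d + G (fl d) = G2 d := by
    intro d
    have h5 : (fl d ⟨j + 1, by omega⟩).1 = !(d ⟨j + 1, by omega⟩).1 := by simp [fl]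
    simp only [G, G2, hrr, h5]
    cases (d ⟨j + 1, by omega⟩).1 <;> simp
  have h6 : ∑ d, G2 d = 2 * ∑ d, G d := by
    rw [← Finset.sum_congr rfl fun d _ => h4 d, Finset.sum_add_distrib, h3]
    ring
  rw [h1, ← h2]
  simp only [Par.av, h6]
  ring

/-- Lebesgue measure on the cube -/
noncomputable def cube (m : ℕ) (L : ℝ) : Measure (Fin m → ℝ) :=
  volume.restrict (Set.pi Set.univ fun _ : Fin m => Set.Icc (0 : ℝ) L)

instance finCube (m : ℕ) (L : ℝ) : IsFiniteMeasure (cube m L) := by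
  unfold cube
  refine ⟨?_⟩
  rw [Measure.restrict_apply_univ]
  exact (isCompact_univ_pi fun _ => isCompact_Icc).measure_lt_top

instance probQ (p : Par) : IsProbabilityMeasure p.Q := by
  unfold Par.Q
  infer_instance

theorem P_eq (p : Par) (m : ℕ) (L : ℝ) : p.P m L = (sq.prod (cube m L)).prod p.Q := rfl

theorem zH_mem {p : Par} {m n j : ℕ} {ζ : Rn n → ℝ} (h01 : ∀ x, 0 ≤ ζ x ∧ ζ x ≤ 1)
    (d : p.Str j) (w : Fin m → ℝ) (a b : ℤ) :
    0 ≤ zH p m n j ζ d w a b ∧ zH p m n j ζ d w a b ≤ 1 := h01 _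

theorem zc_mem {p : Par} {m n j : ℕ} {ζ : Rn n → ℝ} (h01 : ∀ x, 0 ≤ ζ x ∧ ζ x ≤ 1)
    (d : p.Str j) (q : (ℝ × ℝ) × (Fin m → ℝ)) :
    0 ≤ zc p m n j ζ d q ∧ zc p m n j ζ d q ≤ 1 := h01 _

/-- the weight of `Fm` without the sign -/
noncomputable def lg (p : Par) (j : ℕ) (q : ℝ × ℝ) : ℝ :=
  lam (p.N j * q.2) * Ga2 (p.N (j + 1) * q.1) (p.N (j + 1) * q.2)

theorem meas_lg (p : Par) (j : ℕ) : Measurable (fun q => lg p j q) := by
  unfold lg
  have h1 : Continuous fun q : ℝ × ℝ => lam (p.N j * q.2) := cont_lam.comp (by fun_prop)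
  exact (h1.mul (cont_Ga2' (by fun_prop) (by fun_prop))).measurable

theorem lg_mem (p : Par) (j : ℕ) (q : ℝ × ℝ) : 0 ≤ lg p j q ∧ lg p j q ≤ 1 :=
  ⟨mul_nonneg (lam_nonneg _) (Ga2_nonneg _ _),
    mul_le_one₀ (lam_le_one _) (Ga2_nonneg _ _) (Ga2_le_one _ _)⟩

theorem mul_mem {a b : ℝ} (ha : 0 ≤ a ∧ a ≤ 1) (hb : 0 ≤ b ∧ b ≤ 1) : 0 ≤ a * b ∧ a * b ≤ 1 :=
  ⟨mul_nonneg ha.1 hb.1, mul_le_one₀ ha.2 hb.1 hb.2⟩

/-- one string of digits -/
theorem ineq_d (p : Par) (hp : p.Good) (m n : ℕ) (L : ℝ) (j : ℕ) (ζ : Rn n → ℝ)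
    (hζ : Continuous ζ) (h01 : ∀ x, 0 ≤ ζ x ∧ ζ x ≤ 1) (d : p.Str j) :
    II / 2 * ∫ a, zc p m n j ζ d a ∂(sq.prod (cube m L)) ≤
      ∫ a, zc p m n j ζ d a * lg p j a.1 ∂(sq.prod (cube m L)) := by
  have hi1 : Integrable (fun a => zc p m n j ζ d a) (sq.prod (cube m L)) :=
    bddInt _ (meas_zc p m n j ζ hζ d) fun a => zc_mem h01 d a
  have hi2 : Integrable (fun a => zc p m n j ζ d a * lg p j a.1) (sq.prod (cube m L)) :=
    bddInt _ ((meas_zc p m n j ζ hζ d).mul ((meas_lg p j).comp measurable_fst))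
      fun a => mul_mem (zc_mem h01 d a) (lg_mem p j _)
  rw [integral_prod_symm _ hi1, integral_prod_symm _ hi2, ← integral_const_mul]
  refine integral_mono (hi1.integral_prod_right.const_mul _) hi2.integral_prod_right fun w => ?_
  obtain ⟨r, hr⟩ := hp.dvd j
  have hN : 0 < p.N j := hp.Npos j
  have hN2 : 0 < p.N (j + 1) := hp.Npos (j + 1)
  have hr0 : 0 < r := by
    rcases Nat.eq_zero_or_pos r with h | h
    · subst h
      omega
    · exact h
  have h := cellineq (p.N j) (4 * r) hN (by omega) (dvd_mul_right 4 r) (zH p m n j ζ d w)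
    (zH_mem h01 d w)
  have he : 4 * r * p.N j = p.N (j + 1) := by rw [hr]; ring
  rw [he] at h
  exact h

theorem av_eq (p : Par) {j : ℕ} {α : Type} [MeasurableSpace α] (μ : Measure α)
    (F : p.Str j → α → ℝ) (hF : ∀ d, Integrable (F d) μ) :
    ∫ a, p.av j (fun d => F d a) ∂μ = p.av j (fun d => ∫ a, F d a ∂μ) := by
  unfold Par.av
  rw [integral_const_mul, integral_finsetSum _ fun d _ => hF d]

theorem main_ineq (hS : Sz) (hM : Meas) (p : Par) (hp : p.Good) (m n : ℕ) (L : ℝ) (j : ℕ)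
    (ζ : Rn n → ℝ) (hζ : Continuous ζ) (h01 : ∀ x, 0 ≤ ζ x ∧ ζ x ≤ 1) :
    II / 4 * ∫ q, zc p m n j ζ (p.res j q.2) q.1 ∂p.P m L ≤
      ∫ q, zc p m n j ζ (p.res j q.2) q.1 * p.Fm j q.2 q.1.1.1 q.1.1.2 ∂p.P m L := by
  have hF1 : ∀ q : p.Bs m, 0 ≤ p.Fm j q.2 q.1.1.1 q.1.1.2 ∧ p.Fm j q.2 q.1.1.1 q.1.1.2 ≤ 1 := by
    intro q
    unfold Par.Fm
    rw [mul_assoc]
    refine mul_mem ?_ (lg_mem p j q.1.1)
    split_ifs <;> simp
  have hmF : Measurable (fun q : p.Bs m => p.Fm j q.2 q.1.1.1 q.1.1.2) := by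
    have h1 : Measurable (fun q : p.Bs m => (q.1.1, q.2)) :=
      (measurable_fst.comp measurable_fst).prodMk measurable_snd
    have h2 := (hM.Fm p j).comp h1
    simp only [Function.comp_def] at h2
    exact h2
  have hi1 : Integrable (fun q : p.Bs m => zc p m n j ζ (p.res j q.2) q.1)
      ((sq.prod (cube m L)).prod p.Q) :=
    bddInt _ (meas_zc2 p m n j ζ hζ) fun q => zc_mem h01 _ _
  have hi2 : Integrable (fun q : p.Bs m =>
      zc p m n j ζ (p.res j q.2) q.1 * p.Fm j q.2 q.1.1.1 q.1.1.2)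
      ((sq.prod (cube m L)).prod p.Q) :=
    bddInt _ ((meas_zc2 p m n j ζ hζ).mul hmF) fun q => mul_mem (zc_mem h01 _ _) (hF1 q)
  rw [P_eq, integral_prod _ hi1, integral_prod _ hi2]
  have hL : ∀ a : (ℝ × ℝ) × (Fin m → ℝ), ∫ o, zc p m n j ζ (p.res j o) a ∂p.Q =
      p.av j (fun d => zc p m n j ζ d a) := fun a =>
    hS.integral_res p j (fun d => zc p m n j ζ d a)
  have hR : ∀ a : (ℝ × ℝ) × (Fin m → ℝ),
      ∫ o, zc p m n j ζ (p.res j o) a * p.Fm j o a.1.1 a.1.2 ∂p.Q =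
      1 / 2 * p.av j (fun d => zc p m n j ζ d a * lg p j a.1) := by
    intro a
    rw [← half hS p j (fun d => zc p m n j ζ d a * lg p j a.1)]
    refine integral_congr_ae (Eventually.of_forall fun o => ?_)
    simp only [Par.Fm, lg]
    ring
  simp only [hL, hR]
  have hA1 : ∀ d : p.Str j, Integrable (fun a => zc p m n j ζ d a) (sq.prod (cube m L)) :=
    fun d => bddInt _ (meas_zc p m n j ζ hζ d) fun a => zc_mem h01 d a
  have hA2 : ∀ d : p.Str j, Integrable (fun a => zc p m n j ζ d a * lg p j a.1)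
      (sq.prod (cube m L)) :=
    fun d => bddInt _ ((meas_zc p m n j ζ hζ d).mul ((meas_lg p j).comp measurable_fst))
      fun a => mul_mem (zc_mem h01 d a) (lg_mem p j _)
  rw [integral_const_mul, av_eq p _ (fun d a => zc p m n j ζ d a) hA1,
    av_eq p _ (fun d a => zc p m n j ζ d a * lg p j a.1) hA2]
  have hd := fun d => ineq_d p hp m n L j ζ hζ h01 d
  unfold Par.av
  have hs := Finset.sum_le_sum (fun d (_ : d ∈ (Finset.univ : Finset (p.Str j))) => hd d)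
  rw [← Finset.mul_sum] at hs
  have hc : (0 : ℝ) ≤ (Fintype.card (p.Str j) : ℝ)⁻¹ := by positivity
  have := mul_le_mul_of_nonneg_left hs hc
  linarith

/-! ### The error of the discretization -/

/-- the error term of one digit -/
noncomputable def dth (p : Par) (j i : ℕ) (q : ℝ × ℝ) : ℝ :=
  |Th (p.N i * q.1) (p.N i * q.2) -
    Th (p.N i * (((⌊(p.N j : ℝ) * q.1⌋ : ℤ) : ℝ) / (p.N j : ℝ)))
      (p.N i * (((⌊(p.N j : ℝ) * q.2⌋ : ℤ) : ℝ) / (p.N j : ℝ)))|

theorem meas_dth (hA : Ang) (p : Par) (j i : ℕ) : Measurable (fun q => dth p j i q) := by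
  have h1 : Measurable (fun q : ℝ × ℝ => ((p.N i : ℝ) * q.1, (p.N i : ℝ) * q.2)) :=
    (measurable_fst.const_mul _).prodMk (measurable_snd.const_mul _)
  have h2 : Measurable (fun q : ℝ × ℝ =>
      ((p.N i : ℝ) * (((⌊(p.N j : ℝ) * q.1⌋ : ℤ) : ℝ) / (p.N j : ℝ)),
        (p.N i : ℝ) * (((⌊(p.N j : ℝ) * q.2⌋ : ℤ) : ℝ) / (p.N j : ℝ)))) := by
    have h3 : Measurable (fun z : ℤ => (z : ℝ)) := Measurable.of_discrete
    refine Measurable.prodMk ?_ ?_
    · exact ((h3.comp ((measurable_fst.const_mul (p.N j : ℝ)).floor)).div_const _).const_mul _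
    · exact ((h3.comp ((measurable_snd.const_mul (p.N j : ℝ)).floor)).div_const _).const_mul _
  have h4 := ((hA.meas.comp h1).sub (hA.meas.comp h2)).norm
  simp only [Function.comp_def, Pi.sub_def] at h4
  unfold dth
  exact h4

theorem dth_mem (hA : Ang) (p : Par) (j i : ℕ) (q : ℝ × ℝ) : 0 ≤ dth p j i q ∧ dth p j i q ≤ 1 := by
  refine ⟨abs_nonneg _, ?_⟩
  unfold dth
  rw [abs_le]
  constructor <;> linarith [(hA.mem (p.N i * q.1) (p.N i * q.2)).1,
    (hA.mem (p.N i * q.1) (p.N i * q.2)).2,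
    (hA.mem (p.N i * (((⌊(p.N j : ℝ) * q.1⌋ : ℤ) : ℝ) / (p.N j : ℝ)))
      (p.N i * (((⌊(p.N j : ℝ) * q.2⌋ : ℤ) : ℝ) / (p.N j : ℝ)))).1,
    (hA.mem (p.N i * (((⌊(p.N j : ℝ) * q.1⌋ : ℤ) : ℝ) / (p.N j : ℝ)))
      (p.N i * (((⌊(p.N j : ℝ) * q.2⌋ : ℤ) : ℝ) / (p.N j : ℝ)))).2]

theorem N_large {p : Par} (hp : p.Good) (j : ℕ) : (2 : ℝ) ^ j ≤ p.N j := by
  induction j with
  | zero =>
    have := hp.Npos 0
    rw [pow_zero]
    exact_mod_cast this
  | succ j ih =>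
    have h1 := Nat.le_of_dvd (hp.Npos (j + 1)) (hp.dvd j)
    have h2 : (4 : ℝ) * p.N j ≤ p.N (j + 1) := by exact_mod_cast h1
    have h3 : (0 : ℝ) ≤ p.N j := by positivity
    rw [pow_succ]
    linarith

theorem floor_err {N : ℕ} (hN : 0 < N) (x : ℝ) :
    |x - ((⌊(N : ℝ) * x⌋ : ℤ) : ℝ) / (N : ℝ)| ≤ 1 / N := by
  have hN' : (0 : ℝ) < N := by positivity
  have h1 : x - ((⌊(N : ℝ) * x⌋ : ℤ) : ℝ) / (N : ℝ) =
      ((N : ℝ) * x - ((⌊(N : ℝ) * x⌋ : ℤ) : ℝ)) / N := by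
    field_simp
  rw [h1, abs_div, abs_of_pos hN']
  refine div_le_div_of_nonneg_right ?_ hN'.le
  rw [abs_le]
  constructor
  · linarith [Int.floor_le ((N : ℝ) * x)]
  · linarith [Int.lt_floor_add_one ((N : ℝ) * x)]

theorem abs_sg (b : Bool) : |sg b| = 1 := by
  unfold sg
  cases b <;> simp

theorem Zs_err (hS : Sz) {p : Par} (hp : p.Good) (j : ℕ) (d : p.Str j) (q : ℝ × ℝ) :
    |p.Zs d q.1 q.2 - p.Zs d (((⌊(p.N j : ℝ) * q.1⌋ : ℤ) : ℝ) / (p.N j : ℝ))
      (((⌊(p.N j : ℝ) * q.2⌋ : ℤ) : ℝ) / (p.N j : ℝ))| ≤ ∑ i ∈ Finset.range j, dth p j i q := by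
  unfold Par.Zs
  rw [← Finset.sum_sub_distrib, ← Fin.sum_univ_eq_sum_range (fun i => dth p j i q) j]
  refine (Finset.abs_sum_le_sum_abs _ _).trans (Finset.sum_le_sum fun i _ => ?_)
  unfold Par.val dth
  have h1 := hS.h_le hp i
  have h2 : p.h i ≤ 1 := h1.2.trans (by
    rw [div_le_one (by positivity)]
    exact one_le_pow₀ (by norm_num))
  rw [← mul_sub, abs_mul, abs_mul, abs_sg, one_mul, abs_of_pos h1.1]
  have h3 : ∀ a b c : ℝ, a + b - (a + c) = b - c := fun a b c => by ring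
  rw [h3]
  exact mul_le_of_le_one_left (abs_nonneg _) h2

theorem pt_err (hS : Sz) {p : Par} (hp : p.Good) (m n : ℕ) (ζ : Rn n → ℝ) (K : ℝ≥0)
    (hK : LipschitzWith K ζ) (j : ℕ) (hj : 1 ≤ j) (q : p.Bs m) :
    |ζ (p.X m n q) - zc p m n j ζ (p.res j q.2) q.1| ≤
      K * (3 / 2 ^ j + ∑ i ∈ Finset.range j, dth p j i q.1.1) := by
  obtain ⟨k, rfl⟩ : ∃ k, j = k + 1 := ⟨j - 1, by omega⟩
  have h1 := hK.dist_le_mul (p.X m n q) (Par.pnt m n
    (((⌊(p.N (k + 1) : ℝ) * q.1.1.1⌋ : ℤ) : ℝ) / (p.N (k + 1) : ℝ))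
    (((⌊(p.N (k + 1) : ℝ) * q.1.1.2⌋ : ℤ) : ℝ) / (p.N (k + 1) : ℝ)) q.1.2
    (p.Zs (p.res (k + 1) q.2) (((⌊(p.N (k + 1) : ℝ) * q.1.1.1⌋ : ℤ) : ℝ) / (p.N (k + 1) : ℝ))
    (((⌊(p.N (k + 1) : ℝ) * q.1.1.2⌋ : ℤ) : ℝ) / (p.N (k + 1) : ℝ))))
  rw [Real.dist_eq] at h1
  refine h1.trans (mul_le_mul_of_nonneg_left ?_ K.2)
  refine (pnt_dist m n _ _ _ _ _ _ _).trans ?_
  have hN : 1 / (p.N (k + 1) : ℝ) ≤ 1 / 2 ^ (k + 1) :=
    one_div_le_one_div_of_le (by positivity) (N_large hp (k + 1))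
  have h2 := (floor_err (hp.Npos (k + 1)) q.1.1.1).trans hN
  have h3 := (floor_err (hp.Npos (k + 1)) q.1.1.2).trans hN
  have h4 := hS.tail hp k q.2 q.1.1.1 q.1.1.2
  have h5 := hS.h_le hp k
  have h6 : p.h k / 2 ^ (k + 7) ≤ 1 / 2 ^ (k + 1) := by
    have h7 : p.h k ≤ 1 := h5.2.trans (by
      rw [div_le_one (by positivity)]
      exact one_le_pow₀ (by norm_num))
    refine (div_le_div_of_nonneg_right h7 (by positivity)).trans ?_
    exact one_div_le_one_div_of_le (by positivity)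
      (pow_le_pow_right₀ (by norm_num) (by omega))
  have h8 := Zs_err hS hp (k + 1) (p.res (k + 1) q.2) q.1.1
  have h9 := abs_sub_le (p.Z q.2 q.1.1.1 q.1.1.2) (p.Zs (p.res (k + 1) q.2) q.1.1.1 q.1.1.2)
    (p.Zs (p.res (k + 1) q.2) (((⌊(p.N (k + 1) : ℝ) * q.1.1.1⌋ : ℤ) : ℝ) / (p.N (k + 1) : ℝ))
    (((⌊(p.N (k + 1) : ℝ) * q.1.1.2⌋ : ℤ) : ℝ) / (p.N (k + 1) : ℝ)))
  have h10 : (3 : ℝ) / 2 ^ (k + 1) = 1 / 2 ^ (k + 1) + 1 / 2 ^ (k + 1) + 1 / 2 ^ (k + 1) := by ring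
  rw [h10]
  linarith

theorem int_err (hA : Ang) (hS : Sz) (hM : Meas) {p : Par} (hp : p.Good) (m n : ℕ) (L : ℝ)
    (ζ : Rn n → ℝ) (K : ℝ≥0) (hK : LipschitzWith K ζ) (h01 : ∀ x, 0 ≤ ζ x ∧ ζ x ≤ 1)
    (j : ℕ) (hj : 1 ≤ j) :
    ∫ q, |ζ (p.X m n q) - zc p m n j ζ (p.res j q.2) q.1| ∂p.P m L ≤
      (cube m L).real Set.univ * (K * ((3 + j) / 2 ^ j)) := by
  have hB : Integrable (fun q : ℝ × ℝ =>
      (K : ℝ) * (3 / 2 ^ j + ∑ i ∈ Finset.range j, dth p j i q)) sq := by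
    refine Integrable.const_mul ((integrable_const _).add ?_) _
    exact integrable_finsetSum _ fun i _ => bddInt _ (meas_dth hA p j i) (dth_mem hA p j i)
  have hB2 : Integrable (fun a : (ℝ × ℝ) × (Fin m → ℝ) =>
      (K : ℝ) * (3 / 2 ^ j + ∑ i ∈ Finset.range j, dth p j i a.1)) (sq.prod (cube m L)) :=
    hB.comp_fst _
  have hB3 : Integrable (fun q : p.Bs m =>
      (K : ℝ) * (3 / 2 ^ j + ∑ i ∈ Finset.range j, dth p j i q.1.1))
      ((sq.prod (cube m L)).prod p.Q) :=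
    hB2.comp_fst _
  have hi1 : Integrable (fun q : p.Bs m => ζ (p.X m n q)) ((sq.prod (cube m L)).prod p.Q) :=
    bddInt _ (hK.continuous.measurable.comp (hM.X p hp m n)) fun q => h01 _
  have hi2 : Integrable (fun q : p.Bs m => zc p m n j ζ (p.res j q.2) q.1)
      ((sq.prod (cube m L)).prod p.Q) :=
    bddInt _ (meas_zc2 p m n j ζ hK.continuous) fun q => zc_mem h01 _ _
  rw [P_eq]
  refine (integral_mono (hi1.sub hi2).abs hB3
    fun q => pt_err hS hp m n ζ K hK j hj q).trans ?_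
  rw [integral_fun_fst (fun a : (ℝ × ℝ) × (Fin m → ℝ) =>
      (K : ℝ) * (3 / 2 ^ j + ∑ i ∈ Finset.range j, dth p j i a.1)),
    integral_fun_fst (fun a : ℝ × ℝ =>
      (K : ℝ) * (3 / 2 ^ j + ∑ i ∈ Finset.range j, dth p j i a))]
  simp only [probReal_univ, smul_eq_mul, one_mul]
  refine mul_le_mul_of_nonneg_left ?_ measureReal_nonneg
  rw [integral_const_mul]
  refine mul_le_mul_of_nonneg_left ?_ K.2
  rw [integral_add (integrable_const _) (integrable_finsetSum _ fun i _ =>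
      bddInt _ (meas_dth hA p j i) (dth_mem hA p j i)),
    integral_finsetSum _ fun i _ => bddInt _ (meas_dth hA p j i) (dth_mem hA p j i)]
  have h1 : ∑ i ∈ Finset.range j, ∫ a, dth p j i a ∂sq ≤ ∑ i ∈ Finset.range j, (1 : ℝ) / 2 ^ j :=
    Finset.sum_le_sum fun i hi => hp.osc j i (Finset.mem_range.1 hi)
  rw [Finset.sum_const, Finset.card_range, nsmul_eq_mul] at h1
  simp only [integral_const, probReal_univ, one_smul]
  rw [add_div]
  have h2 : (j : ℝ) * (1 / 2 ^ j) = j / 2 ^ j := by ring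
  linarith

theorem err_tendsto (V K : ℝ) : Tendsto (fun j : ℕ => V * (K * ((3 + (j : ℝ)) / 2 ^ j))) atTop
    (𝓝 0) := by
  have h1 := tendsto_pow_const_div_const_pow_of_one_lt 1 (r := 2) (by norm_num)
  have h2 := tendsto_pow_const_div_const_pow_of_one_lt 0 (r := 2) (by norm_num)
  have h3 := (((h2.const_mul 3).add h1).const_mul K).const_mul V
  simp only [pow_zero, pow_one, mul_zero, add_zero] at h3
  refine h3.congr fun j => ?_
  ring

end EquiAux

open EquiAux in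
theorem equi (hA : Ang) (hS : Sz) (hM : Meas) : StmtEqui := by
  refine ⟨II / 4, by linarith [II_pos], ?_⟩
  intro p hp m n L _ ζ K hK h01 ε hε
  have hlim := err_tendsto ((cube m L).real Set.univ * (1 + II / 4)) K
  have hev := (hlim.eventually (gt_mem_nhds hε)).and (eventually_ge_atTop 1)
  filter_upwards [hev] with j hj
  obtain ⟨hj1, hj2⟩ := hj
  have he := int_err hA hS hM hp m n L ζ K hK h01 j hj2
  have hm := main_ineq hS hM p hp m n L j ζ hK.continuous h01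
  have hi1 : Integrable (fun q : p.Bs m => ζ (p.X m n q)) (p.P m L) := by
    rw [P_eq]
    exact bddInt _ (hK.continuous.measurable.comp (hM.X p hp m n)) fun q => h01 _
  have hi2 : Integrable (fun q : p.Bs m => zc p m n j ζ (p.res j q.2) q.1) (p.P m L) := by
    rw [P_eq]
    exact bddInt _ (meas_zc2 p m n j ζ hK.continuous) fun q => zc_mem h01 _ _
  have hF1 : ∀ q : p.Bs m, 0 ≤ p.Fm j q.2 q.1.1.1 q.1.1.2 ∧ p.Fm j q.2 q.1.1.1 q.1.1.2 ≤ 1 := by
    intro q
    unfold Par.Fm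
    rw [mul_assoc]
    refine mul_mem ?_ (lg_mem p j q.1.1)
    split_ifs <;> simp
  have hmF : Measurable (fun q : p.Bs m => p.Fm j q.2 q.1.1.1 q.1.1.2) := by
    have h1 : Measurable (fun q : p.Bs m => (q.1.1, q.2)) :=
      (measurable_fst.comp measurable_fst).prodMk measurable_snd
    have h2 := (hM.Fm p j).comp h1
    simp only [Function.comp_def] at h2
    exact h2
  have hi3 : Integrable (fun q : p.Bs m => ζ (p.X m n q) * p.Fm j q.2 q.1.1.1 q.1.1.2)
      (p.P m L) := by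
    rw [P_eq]
    exact bddInt _ ((hK.continuous.measurable.comp (hM.X p hp m n)).mul hmF)
      fun q => mul_mem (h01 _) (hF1 q)
  have hi4 : Integrable (fun q : p.Bs m =>
      zc p m n j ζ (p.res j q.2) q.1 * p.Fm j q.2 q.1.1.1 q.1.1.2) (p.P m L) := by
    rw [P_eq]
    exact bddInt _ ((meas_zc2 p m n j ζ hK.continuous).mul hmF)
      fun q => mul_mem (zc_mem h01 _ _) (hF1 q)
  have hi5 : Integrable (fun q : p.Bs m => |ζ (p.X m n q) - zc p m n j ζ (p.res j q.2) q.1|)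
      (p.P m L) := (hi1.sub hi2).abs
  have h1 : ∫ q, ζ (p.X m n q) ∂p.P m L ≤
      (∫ q, zc p m n j ζ (p.res j q.2) q.1 ∂p.P m L) +
      ∫ q, |ζ (p.X m n q) - zc p m n j ζ (p.res j q.2) q.1| ∂p.P m L := by
    rw [← integral_add hi2 hi5]
    refine integral_mono hi1 (hi2.add hi5) fun q => ?_
    simp only
    linarith [le_abs_self (ζ (p.X m n q) - zc p m n j ζ (p.res j q.2) q.1)]
  have h2 : ∫ q, zc p m n j ζ (p.res j q.2) q.1 * p.Fm j q.2 q.1.1.1 q.1.1.2 ∂p.P m L ≤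
      (∫ q, ζ (p.X m n q) * p.Fm j q.2 q.1.1.1 q.1.1.2 ∂p.P m L) +
      ∫ q, |ζ (p.X m n q) - zc p m n j ζ (p.res j q.2) q.1| ∂p.P m L := by
    rw [← integral_add hi3 hi5]
    refine integral_mono hi4 (hi3.add hi5) fun q => ?_
    simp only
    have h3 := neg_abs_le (ζ (p.X m n q) - zc p m n j ζ (p.res j q.2) q.1)
    have h4 := hF1 q
    have h5 := abs_nonneg (ζ (p.X m n q) - zc p m n j ζ (p.res j q.2) q.1)
    nlinarith
  have hII := II_pos
  have h3 : (1 + II / 4) * ∫ q, |ζ (p.X m n q) - zc p m n j ζ (p.res j q.2) q.1| ∂p.P m L < ε := by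
    refine lt_of_le_of_lt (mul_le_mul_of_nonneg_left he (by linarith)) ?_
    refine lt_of_le_of_lt (le_of_eq ?_) hj1
    ring
  nlinarith

end Pool.Agent.T6.H55.LU
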