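import Pool.Agent.T6.H55.LU.Stm

/-!
# Lusin type approximation of forms (MP_507414_an): final assembly
-/

set_option autoImplicit false

open MeasureTheory Filter Topology
open scoped ENNReal NNReal

namespace Pool.Agent.T6.H55.LU

theorem fin (hPar : StmtPar) (hM : Meas) (hObs : StmtObs) (hF : Frm) (hB : StmtBun)
    (hBT : StmtBunTop) : StmtFinal := by
  intro n k hk hkn C
  obtain ⟨m, rfl⟩ : ∃ m, k = m + 1 := ⟨k - 1, by omega⟩
  have hmn : m + 2 ≤ n := by omega
  set D : ℝ≥0 := (Nat.factorial (m + 2) : ℝ≥0) with hD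
  have hDr : ((D : ℝ≥0) : ℝ) = (Nat.factorial (m + 2) : ℝ) := by rw [hD]; norm_cast
  have hDpos : 0 < (Nat.factorial (m + 2) : ℝ) := by exact_mod_cast Nat.factorial_pos _
  obtain ⟨L, δ, f, ε, hL, hδ, hfm, hf1, hε, hobs⟩ := hObs m n hmn (D * C)
  obtain ⟨p, hp, hp1, hp2⟩ := hPar δ hδ
  have : IsFiniteMeasure (p.mu m n L) := hM.finmu p m n L
  refine ⟨p.mu m n L, inferInstance, fun x =>
    (f (x ⟨0, by omega⟩) (x ⟨1, by omega⟩) / (Nat.factorial (m + 2) : ℝ)) • dxs (top m n hmn),
    ε, ?_, ?_, hε, ?_, ?_⟩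
  · letI : MeasurableSpace (Cov n (m + 1 + 1)) := borel _
    have : BorelSpace (Cov n (m + 1 + 1)) := ⟨rfl⟩
    have h1 : Measurable fun x : Rn n => f (x ⟨0, by omega⟩) (x ⟨1, by omega⟩) := by
      have h2 : Measurable fun x : Rn n => ((x ⟨0, by omega⟩ : ℝ), (x ⟨1, by omega⟩ : ℝ)) := by
        have h3 : Continuous fun x : Rn n => ((x ⟨0, by omega⟩ : ℝ), (x ⟨1, by omega⟩ : ℝ)) := by
          fun_prop
        exact h3.measurable
      exact hfm.comp h2
    have h4 : Measurable fun r : ℝ => (r / (Nat.factorial (m + 2) : ℝ)) • dxs (top m n hmn) := by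
      have h5 : Continuous fun r : ℝ => (r / (Nat.factorial (m + 2) : ℝ)) • dxs (top m n hmn) := by
        fun_prop
      exact h5.measurable
    exact h4.comp h1
  · intro x
    rw [norm_smul]
    have h1 := hF.norm_dxs_le (top m n hmn)
    have h2 := hf1 (x ⟨0, by omega⟩) (x ⟨1, by omega⟩)
    rw [Real.norm_eq_abs, abs_div, abs_of_pos hDpos]
    calc |f (x ⟨0, by omega⟩) (x ⟨1, by omega⟩)| / (Nat.factorial (m + 2) : ℝ) *
          ‖dxs (top m n hmn)‖
        ≤ 1 / (Nat.factorial (m + 2) : ℝ) * (Nat.factorial (m + 2) : ℝ) := by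
          apply mul_le_mul _ h1 (norm_nonneg _) (by positivity)
          exact div_le_div_of_nonneg_right h2 hDpos.le
      _ = 1 := by field_simp
  · have key : ∀ᵐ x ∂(p.mu m n L), ∀ v : Vec n (m + 2), InBundle (p.mu m n L) x v →
        v (dxs (top m n hmn)) = 0 := by
      rcases Nat.lt_or_ge (m + 2) n with h | h
      · exact hB m n h p hp δ hp2 L hL.le
      · obtain rfl : n = m + 2 := le_antisymm h hmn
        exact hBT m (p.mu m (m + 2) L)
    filter_upwards [key] with x hx v hv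
    rw [map_smul, hx v hv, smul_zero]
  · intro φ hφ hLip K hK hKμ
    by_contra hcon
    push Not at hcon
    have hstr : ∀ i : Fin (m + 2), StrictMono
        (fun a : Fin (m + 1) => (⟨i.succAbove a, by omega⟩ : Fin n)) := by
      intro i a b hab
      exact Fin.lt_def.mpr (Fin.lt_def.mp (Fin.strictMono_succAbove i hab))
    set g : Fin (m + 2) → Rn n → ℝ := fun i x =>
      ((Nat.factorial (m + 2) : ℝ) * (-1 : ℝ) ^ (i : ℕ)) *
        φ x (fun a : Fin (m + 1) => eb ⟨i.succAbove a, by omega⟩) with hg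
    have hcd : ∀ i : Fin (m + 2), ContDiff ℝ 1
        (fun y => φ y (fun a : Fin (m + 1) => (eb ⟨i.succAbove a, by omega⟩ : Rn n))) := fun i =>
      (ContinuousAlternatingMap.apply ℝ (Rn n) ℝ
        (fun a : Fin (m + 1) => (eb ⟨i.succAbove a, by omega⟩ : Rn n))).contDiff.comp hφ
    have hg1 : ∀ i, ContDiff ℝ 1 (g i) := fun i => contDiff_const.mul (hcd i)
    have hg2 : ∀ i, LipschitzWith (D * C) (g i) := by
      intro i
      have h5 := hLip _ (hstr i)
      refine LipschitzWith.of_dist_le_mul fun x y => ?_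
      have h6 := h5.dist_le_mul x y
      rw [Real.dist_eq] at h6 ⊢
      simp only [hg]
      rw [← mul_sub, abs_mul, abs_mul, abs_pow, abs_neg, abs_one, one_pow, mul_one,
        abs_of_pos hDpos]
      rw [NNReal.coe_mul, hDr, mul_assoc]
      exact mul_le_mul_of_nonneg_left h6 hDpos.le
    obtain ⟨x, hxK, hx⟩ := hobs p hp hp1 hp2 g hg1 hg2 K hK hKμ
    apply hx
    have h1 := hF.extDeriv_top (n := n) (k := m + 1) (by omega) φ x
      (hφ.contDiffAt.differentiableAt (by norm_num))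
    rw [hcon x hxK] at h1
    have h2 : (dxs (top m n hmn) : Cov n (m + 2)) (fun a : Fin (m + 1 + 1) => eb ⟨a, by omega⟩) = 1 :=
      hF.dxs_top (k := m + 2) hmn
    rw [ContinuousAlternatingMap.smul_apply, h2, smul_eq_mul, mul_one] at h1
    have h3 : ∀ i : Fin (m + 2), fderiv ℝ (g i) x (eb (top m n hmn i)) =
        (Nat.factorial (m + 2) : ℝ) * ((-1 : ℝ) ^ (i : ℕ) *
          fderiv ℝ (fun y => φ y (fun a : Fin (m + 1) => eb ⟨i.succAbove a, by omega⟩)) x
            (eb ⟨i, by omega⟩)) := by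
      intro i
      have hd := (hcd i).contDiffAt.differentiableAt (x := x) (by norm_num)
      simp only [hg]
      rw [fderiv_const_mul hd, smul_apply, smul_eq_mul, mul_assoc]
      rfl
    rw [Finset.sum_congr rfl (fun i _ => h3 i), ← Finset.mul_sum, ← h1]
    field_simp

end Pool.Agent.T6.H55.LU
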