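import Pool.Agent.T6.H55.LU.Stm

/-!
# Module FORM: constant forms and the exterior derivative
-/

set_option autoImplicit false

open scoped BigOperators

namespace Pool.Agent.T6.H55.LU

noncomputable section

namespace FormAux

theorem abs_coord_le {n : ℕ} (v : Rn n) (l : Fin n) : |v l| ≤ ‖v‖ := by
  have := PiLp.norm_apply_le v l
  simpa using this

theorem norm_dxs_le {n k : ℕ} (i : Fin k → Fin n) : ‖dxs i‖ ≤ (Nat.factorial k : ℝ) := by
  refine ContinuousAlternatingMap.opNorm_le_bound _ (by positivity) fun v => ?_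
  rw [dxs_apply, Matrix.det_apply, Real.norm_eq_abs]
  refine (Finset.abs_sum_le_sum_abs _ _).trans ?_
  have h : ∀ σ ∈ (Finset.univ : Finset (Equiv.Perm (Fin k))),
      |Equiv.Perm.sign σ • ∏ b, (Matrix.of fun b a => v b (i a)) (σ b) b| ≤ ∏ b, ‖v b‖ := by
    intro σ _
    have h1 : |Equiv.Perm.sign σ • ∏ b, (Matrix.of fun b a => v b (i a)) (σ b) b| =
        ∏ b, |v (σ b) (i b)| := by
      rw [Units.smul_def, zsmul_eq_mul, abs_mul, Finset.abs_prod]
      rcases Int.units_eq_one_or (Equiv.Perm.sign σ) with h | h <;> simp [h]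
    rw [h1, ← Equiv.prod_comp σ (fun b => ‖v b‖)]
    exact Finset.prod_le_prod (fun b _ => abs_nonneg _) fun b _ => abs_coord_le _ _
  refine (Finset.sum_le_sum h).trans ?_
  simp [Fintype.card_perm]

theorem dxs_eq_zero {n k : ℕ} (i : Fin k → Fin n) (a b : Fin k) (hab : a ≠ b) (h : i a = i b) :
    dxs i = 0 := by
  ext v
  rw [dxs_apply]
  exact Matrix.det_zero_of_column_eq hab fun r => by simp [h]

theorem dxs_perm {n k : ℕ} (i : Fin k → Fin n) (σ : Equiv.Perm (Fin k)) :
    dxs (i ∘ σ) = ((Equiv.Perm.sign σ : ℤ) : ℝ) • dxs i := by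
  ext v
  rw [ContinuousAlternatingMap.smul_apply, dxs_apply, dxs_apply, smul_eq_mul]
  exact Matrix.det_permute' σ (Matrix.of fun b a => v b (i a))

theorem dxs_swap {n k : ℕ} (i : Fin k → Fin n) (a b : Fin k) (hab : a ≠ b) :
    dxs (i ∘ Equiv.swap a b) = - dxs i := by
  rw [dxs_perm, Equiv.Perm.sign_swap hab]
  ext v
  simp

theorem dxs_top {n k : ℕ} (h : k ≤ n) :
    dxs (fun a : Fin k => (⟨a, by omega⟩ : Fin n)) (fun a : Fin k => eb ⟨a, by omega⟩) = 1 := by
  rw [dxs_apply]
  have h1 : (Matrix.of fun b a : Fin k => (eb (⟨b, by omega⟩ : Fin n) : Rn n) ⟨a, by omega⟩) =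
      (1 : Matrix (Fin k) (Fin k) ℝ) := by
    ext b a
    rw [Matrix.of_apply, eb, Matrix.one_apply]
    simp only [PiLp.single_apply, Fin.ext_iff, eq_comm]
  rw [h1, Matrix.det_one]

theorem top_degree {k : ℕ} (a : Cov k k) :
    a = (a fun i : Fin k => eb i) • dxs (fun i : Fin k => i) := by
  apply ContinuousAlternatingMap.toAlternatingMap_injective
  refine Module.Basis.ext_alternating (EuclideanSpace.basisFun (Fin k) ℝ).toBasis fun v hv => ?_
  let σ : Equiv.Perm (Fin k) := Equiv.ofBijective v (Finite.injective_iff_bijective.1 hv)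
  have hb : (fun i => (EuclideanSpace.basisFun (Fin k) ℝ).toBasis (v i)) =
      (fun i : Fin k => (eb i : Rn k)) ∘ σ := by
    funext i
    simp [eb, σ]
  rw [hb]
  have h1 : ∀ b : Cov k k, b.toAlternatingMap ((fun i : Fin k => (eb i : Rn k)) ∘ σ) =
      Equiv.Perm.sign σ • b (fun i : Fin k => eb i) := fun b =>
    AlternatingMap.map_perm b.toAlternatingMap _ σ
  rw [h1, h1, ContinuousAlternatingMap.smul_apply]
  have h2 : dxs (fun i : Fin k => i) (fun i : Fin k => (eb i : Rn k)) = 1 := dxs_top le_rfl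
  rw [h2, smul_eq_mul, mul_one]

theorem lin_apply {n : ℕ} (L : Rn n →L[ℝ] ℝ) (w : Rn n) : ∑ b, L (eb b) * w b = L w := by
  have h := (EuclideanSpace.basisFun (Fin n) ℝ).sum_repr w
  conv_rhs => rw [← h, map_sum]
  refine Finset.sum_congr rfl fun b _ => ?_
  rw [map_smul, smul_eq_mul, mul_comm]
  simp [eb]

theorem extDeriv_dxs {n k : ℕ} (f : Rn n → ℝ) (x : Rn n) (hf : DifferentiableAt ℝ f x)
    (i : Fin k → Fin n) :
    extDeriv (fun x => f x • dxs i) x = ∑ b : Fin n, fderiv ℝ f x (eb b) • dxs (Fin.cons b i) := by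
  ext v
  rw [extDeriv_apply (hf.smul_const _)]
  have h1 : ∀ j : Fin (k + 1),
      fderiv ℝ (fun y => (f y • dxs i) (j.removeNth v)) x (v j) =
        fderiv ℝ f x (v j) * dxs i (j.removeNth v) := by
    intro j
    have h2 : (fun y => (f y • dxs i) (j.removeNth v)) = fun y => f y * dxs i (j.removeNth v) := by
      funext y
      rw [ContinuousAlternatingMap.smul_apply, smul_eq_mul]
    rw [h2, fderiv_mul_const hf]
    simp [mul_comm]
  simp only [h1]
  rw [ContinuousAlternatingMap.sum_apply]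
  have h3 : ∀ b : Fin n, (fderiv ℝ f x (eb b) • dxs (Fin.cons b i : Fin (k + 1) → Fin n)) v =
      ∑ j : Fin (k + 1), (-1) ^ (j : ℕ) * ((fderiv ℝ f x (eb b) * v j b) *
        dxs i (j.removeNth v)) := by
    intro b
    rw [ContinuousAlternatingMap.smul_apply, dxs_apply, Matrix.det_succ_column_zero, smul_eq_mul,
      Finset.mul_sum]
    refine Finset.sum_congr rfl fun j _ => ?_
    have h4 : ((Matrix.of fun (r a : Fin (k + 1)) =>
        v r ((Fin.cons b i : Fin (k + 1) → Fin n) a)).submatrix j.succAbove Fin.succ) =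
        Matrix.of fun (r a : Fin k) => (j.removeNth v) r (i a) := by
      ext r a
      simp [Fin.removeNth]
    rw [h4, ← dxs_apply, Matrix.of_apply, Fin.cons_zero]
    ring
  simp only [h3]
  rw [Finset.sum_comm]
  refine Finset.sum_congr rfl fun j _ => ?_
  rw [← Finset.mul_sum, ← Finset.sum_mul, lin_apply, zsmul_eq_mul]
  push_cast
  rfl

theorem extDeriv_top {n k : ℕ} (h : k + 1 ≤ n) (φ : Rn n → Cov n k) (x : Rn n)
    (hφ : DifferentiableAt ℝ φ x) :
    extDeriv φ x (fun a : Fin (k + 1) => eb ⟨a, by omega⟩) =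
      ∑ i : Fin (k + 1), (-1 : ℝ) ^ (i : ℕ) *
        fderiv ℝ (fun y => φ y (fun a : Fin k => eb ⟨i.succAbove a, by omega⟩)) x
          (eb ⟨i, by omega⟩) := by
  rw [extDeriv_apply hφ]
  refine Finset.sum_congr rfl fun i _ => ?_
  rw [zsmul_eq_mul]
  push_cast
  rfl

end FormAux

theorem frm : Frm where
  norm_dxs_le := FormAux.norm_dxs_le
  dxs_eq_zero := FormAux.dxs_eq_zero
  dxs_swap := FormAux.dxs_swap
  dxs_top := FormAux.dxs_top
  top_degree := FormAux.top_degree
  extDeriv_dxs := FormAux.extDeriv_dxs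
  extDeriv_top := FormAux.extDeriv_top

end

end Pool.Agent.T6.H55.LU
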