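import Pool.Agent.T6.H55.LU.Stm

/-!
# Lusin type approximation of forms (MP_507414_an): module IBP

Integration by parts on the random surfaces.
-/

set_option autoImplicit false

open MeasureTheory Filter Topology
open scoped ENNReal NNReal

namespace Pool.Agent.T6.H55.LU

namespace Ibp

/-! ### The abstract inequality -/

theorem core {Ω : Type*} [MeasurableSpace Ω] {μ : Measure Ω} [IsProbabilityMeasure μ]
    {ι : Type*} [Fintype ι] {c0 : ℝ} (hc0 : 0 ≤ c0) (hc : c0 * Fintype.card ι = 1)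
    {L u w v : Ω → ℝ} {φ φ' P P' X X' : ι → Ω → ℝ} {C B Δ : ℝ} (hC : 0 ≤ C) (hB : 0 ≤ B)
    (iLP : ∀ d, Integrable (fun q => L q * P d q) μ)
    (iuP : ∀ d, Integrable (fun q => u q * P d q) μ)
    (ivP : ∀ d, Integrable (fun q => v q * P' d q) μ)
    (iwφ : ∀ d, Integrable (fun q => w q * φ d q) μ)
    (iwφ' : ∀ d, Integrable (fun q => w q * φ' d q) μ)
    (iL : Integrable (fun q => |L q|) μ) (iv : Integrable (fun q => |v q|) μ)
    (iX : ∀ d, Integrable (fun q => |X d q|) μ) (iX' : ∀ d, Integrable (fun q => |X' d q|) μ)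
    (h1 : ∀ d, ∫ q, u q * P d q ∂μ = -∫ q, w q * φ d q ∂μ)
    (h2 : ∀ d, ∫ q, v q * P' d q ∂μ = -∫ q, w q * φ' d q ∂μ)
    (h3 : ∀ᵐ q ∂μ, |c0 * ∑ d, φ d q - c0 * ∑ d, φ' d q| ≤ C / 4 * Δ)
    (h4 : ∀ d q, |P d q| ≤ C * (1 + |X d q|)) (h4' : ∀ d q, |P' d q| ≤ C * (1 + |X' d q|))
    (hX : ∫ q, c0 * ∑ d, |X d q| ∂μ ≤ Δ) (hX' : ∫ q, c0 * ∑ d, |X' d q| ∂μ ≤ Δ)
    (bL : ∀ q, |L q| ≤ 2 * B) (bw : ∀ q, |w q| ≤ B) (bv : ∀ q, |v q| ≤ B) :
    |∫ q, c0 * ∑ d, (L q - 2 * u q) * P d q ∂μ| ≤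
      C * ∫ q, |L q| ∂μ + 2 * C * ∫ q, |v q| ∂μ + 9 / 2 * B * C * Δ := by
  have e1 : ∫ q, c0 * ∑ d, (L q - 2 * u q) * P d q ∂μ =
      (∫ q, c0 * ∑ d, L q * P d q ∂μ) + 2 * (∫ q, w q * (c0 * ∑ d, φ d q - c0 * ∑ d, φ' d q) ∂μ)
        - 2 * ∫ q, c0 * ∑ d, v q * P' d q ∂μ := by
    have a1 : ∫ q, c0 * ∑ d, (L q - 2 * u q) * P d q ∂μ =
        c0 * ∑ d, (∫ q, L q * P d q ∂μ) - 2 * (c0 * ∑ d, ∫ q, u q * P d q ∂μ) := by
      rw [integral_const_mul, integral_finsetSum]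
      · rw [Finset.mul_sum, Finset.mul_sum, Finset.mul_sum, Finset.mul_sum,
          ← Finset.sum_sub_distrib]
        refine Finset.sum_congr rfl fun d _ => ?_
        have : (fun q => (L q - 2 * u q) * P d q) = fun q => L q * P d q - 2 * (u q * P d q) := by
          funext q; ring
        rw [this, integral_sub (iLP d) ((iuP d).const_mul 2), integral_const_mul]
        ring
      · intro d _
        have : (fun q => (L q - 2 * u q) * P d q) = fun q => L q * P d q - 2 * (u q * P d q) := by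
          funext q; ring
        rw [this]
        exact (iLP d).sub ((iuP d).const_mul 2)
    have a2 : ∫ q, c0 * ∑ d, L q * P d q ∂μ = c0 * ∑ d, ∫ q, L q * P d q ∂μ := by
      rw [integral_const_mul, integral_finsetSum]
      exact fun d _ => iLP d
    have a3 : ∫ q, c0 * ∑ d, v q * P' d q ∂μ = c0 * ∑ d, ∫ q, v q * P' d q ∂μ := by
      rw [integral_const_mul, integral_finsetSum]
      exact fun d _ => ivP d
    have a4 : ∫ q, w q * (c0 * ∑ d, φ d q - c0 * ∑ d, φ' d q) ∂μ =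
        c0 * ∑ d, (∫ q, w q * φ d q ∂μ) - c0 * ∑ d, ∫ q, w q * φ' d q ∂μ := by
      have : (fun q => w q * (c0 * ∑ d, φ d q - c0 * ∑ d, φ' d q)) =
          fun q => c0 * ∑ d, w q * φ d q - c0 * ∑ d, w q * φ' d q := by
        funext q
        rw [← Finset.mul_sum, ← Finset.mul_sum]
        ring
      rw [this, integral_sub, integral_const_mul, integral_const_mul, integral_finsetSum,
        integral_finsetSum]
      · exact fun d _ => iwφ' d
      · exact fun d _ => iwφ d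
      · exact (integrable_finsetSum _ fun d _ => iwφ d).const_mul c0
      · exact (integrable_finsetSum _ fun d _ => iwφ' d).const_mul c0
    rw [a1, a2, a3, a4]
    have b1 : ∑ d, ∫ q, u q * P d q ∂μ = - ∑ d, ∫ q, w q * φ d q ∂μ := by
      rw [← Finset.sum_neg_distrib]
      exact Finset.sum_congr rfl fun d _ => h1 d
    have b2 : ∑ d, ∫ q, v q * P' d q ∂μ = - ∑ d, ∫ q, w q * φ' d q ∂μ := by
      rw [← Finset.sum_neg_distrib]
      exact Finset.sum_congr rfl fun d _ => h2 d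
    rw [b1, b2]
    ring
  -- the bound for the product with a bounded function
  have key : ∀ (K : Ω → ℝ) (b : ℝ) (R Y : ι → Ω → ℝ), 0 ≤ b → (∀ q, |K q| ≤ b) →
      Integrable (fun q => |K q|) μ → (∀ d, Integrable (fun q => |Y d q|) μ) →
      (∀ d q, |R d q| ≤ C * (1 + |Y d q|)) → ∫ q, c0 * ∑ d, |Y d q| ∂μ ≤ Δ →
      |∫ q, c0 * ∑ d, K q * R d q ∂μ| ≤ C * ∫ q, |K q| ∂μ + C * b * Δ := by
    intro K b R Y hb hK iK iY hR hY
    have iS : Integrable (fun q => c0 * ∑ d, |Y d q|) μ :=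
      (integrable_finsetSum _ fun d _ => iY d).const_mul c0
    have i2 : Integrable (fun q => C * |K q| + C * b * (c0 * ∑ d, |Y d q|)) μ :=
      (iK.const_mul C).add (iS.const_mul (C * b))
    calc |∫ q, c0 * ∑ d, K q * R d q ∂μ| ≤ ∫ q, (C * |K q| + C * b * (c0 * ∑ d, |Y d q|)) ∂μ := by
          rw [← Real.norm_eq_abs]
          refine norm_integral_le_of_norm_le i2 (Eventually.of_forall fun q => ?_)
          rw [Real.norm_eq_abs, abs_mul, abs_of_nonneg hc0]
          calc c0 * |∑ d, K q * R d q| ≤ c0 * ∑ d, |K q| * (C * (1 + |Y d q|)) := by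
                refine mul_le_mul_of_nonneg_left ?_ hc0
                refine (Finset.abs_sum_le_sum_abs _ _).trans (Finset.sum_le_sum fun d _ => ?_)
                rw [abs_mul]
                exact mul_le_mul_of_nonneg_left (hR d q) (abs_nonneg _)
            _ = C * |K q| * (c0 * Fintype.card ι) + C * |K q| * (c0 * ∑ d, |Y d q|) := by
                rw [← Finset.mul_sum, ← Finset.mul_sum, Finset.sum_add_distrib]
                simp only [Finset.sum_const, Finset.card_univ, nsmul_eq_mul, mul_one]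
                ring
            _ ≤ C * |K q| + C * b * (c0 * ∑ d, |Y d q|) := by
                rw [hc, mul_one]
                have : 0 ≤ c0 * ∑ d, |Y d q| :=
                  mul_nonneg hc0 (Finset.sum_nonneg fun d _ => abs_nonneg _)
                have h5 := mul_le_mul_of_nonneg_left (hK q) hC
                nlinarith [mul_le_mul_of_nonneg_right h5 this]
      _ = C * ∫ q, |K q| ∂μ + C * b * ∫ q, c0 * ∑ d, |Y d q| ∂μ := by
          rw [integral_add (iK.const_mul C) (iS.const_mul (C * b)), integral_const_mul,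
            integral_const_mul]
      _ ≤ _ := by
          have := mul_le_mul_of_nonneg_left hY (mul_nonneg hC hb)
          linarith
  have k1 := key L (2 * B) P X (by positivity) bL iL iX h4 hX
  have k2 := key v B P' X' hB bv iv iX' h4' hX'
  have hΔ : 0 ≤ C / 4 * Δ := by
    obtain ⟨q, hq⟩ := h3.exists
    exact (abs_nonneg _).trans hq
  have k3 : |∫ q, w q * (c0 * ∑ d, φ d q - c0 * ∑ d, φ' d q) ∂μ| ≤ B * (C / 4 * Δ) := by
    have := norm_integral_le_of_norm_le_const (μ := μ) (C := B * (C / 4 * Δ))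
      (f := fun q => w q * (c0 * ∑ d, φ d q - c0 * ∑ d, φ' d q)) (by
        filter_upwards [h3] with q hq
        rw [Real.norm_eq_abs, abs_mul]
        exact mul_le_mul (bw q) hq (abs_nonneg _) hB)
    simpa using this
  rw [e1]
  rw [abs_le] at k1 k2 k3 ⊢
  constructor <;> nlinarith [k1.1, k1.2, k2.1, k2.2, k3.1, k3.2]

/-! ### Derivatives of smooth functions of two variables -/

theorem D1_eq {f : ℝ → ℝ → ℝ} (hf : ContDiff ℝ ((⊤ : ℕ∞) : WithTop ℕ∞)
    (fun q : ℝ × ℝ => f q.1 q.2)) (x y : ℝ) :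
    HasDerivAt (fun t => f t y) (fderiv ℝ (fun q : ℝ × ℝ => f q.1 q.2) (x, y) (1, 0)) x := by
  have h1 : HasFDerivAt (fun q : ℝ × ℝ => f q.1 q.2)
      (fderiv ℝ (fun q : ℝ × ℝ => f q.1 q.2) (x, y)) (x, y) :=
    (hf.differentiable (by simp) (x, y)).hasFDerivAt
  have h2 : HasDerivAt (fun t : ℝ => ((t, y) : ℝ × ℝ)) ((1, 0) : ℝ × ℝ) x :=
    (hasDerivAt_id x).prodMk (hasDerivAt_const x y)
  exact h1.comp_hasDerivAt x h2

theorem D2_eq {f : ℝ → ℝ → ℝ} (hf : ContDiff ℝ ((⊤ : ℕ∞) : WithTop ℕ∞)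
    (fun q : ℝ × ℝ => f q.1 q.2)) (x y : ℝ) :
    HasDerivAt (fun t => f x t) (fderiv ℝ (fun q : ℝ × ℝ => f q.1 q.2) (x, y) (0, 1)) y := by
  have h1 : HasFDerivAt (fun q : ℝ × ℝ => f q.1 q.2)
      (fderiv ℝ (fun q : ℝ × ℝ => f q.1 q.2) (x, y)) (x, y) :=
    (hf.differentiable (by simp) (x, y)).hasFDerivAt
  have h2 : HasDerivAt (fun t : ℝ => ((x, t) : ℝ × ℝ)) ((0, 1) : ℝ × ℝ) y :=
    (hasDerivAt_const y x).prodMk (hasDerivAt_id y)
  exact h1.comp_hasDerivAt y h2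

theorem D1_fun {f : ℝ → ℝ → ℝ} (hf : ContDiff ℝ ((⊤ : ℕ∞) : WithTop ℕ∞)
    (fun q : ℝ × ℝ => f q.1 q.2)) :
    (fun q : ℝ × ℝ => D1 f q.1 q.2) =
      fun q => fderiv ℝ (fun q : ℝ × ℝ => f q.1 q.2) q (1, 0) := by
  funext q
  exact (D1_eq hf q.1 q.2).deriv

theorem D2_fun {f : ℝ → ℝ → ℝ} (hf : ContDiff ℝ ((⊤ : ℕ∞) : WithTop ℕ∞)
    (fun q : ℝ × ℝ => f q.1 q.2)) :
    (fun q : ℝ × ℝ => D2 f q.1 q.2) =
      fun q => fderiv ℝ (fun q : ℝ × ℝ => f q.1 q.2) q (0, 1) := by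
  funext q
  exact (D2_eq hf q.1 q.2).deriv

theorem smooth_fderiv {f : ℝ × ℝ → ℝ} (hf : ContDiff ℝ ((⊤ : ℕ∞) : WithTop ℕ∞) f) (v : ℝ × ℝ) :
    ContDiff ℝ ((⊤ : ℕ∞) : WithTop ℕ∞) (fun q => fderiv ℝ f q v) :=
  (hf.fderiv_right (m := ((⊤ : ℕ∞) : WithTop ℕ∞)) (by simp)).clm_apply contDiff_const

theorem hasDerivAt_D1 {f : ℝ → ℝ → ℝ} (hf : Tf f) (x y : ℝ) :
    HasDerivAt (fun t => f t y) (D1 f x y) x := by
  have := D1_eq hf.1 x y
  rwa [← this.deriv] at this

theorem hasDerivAt_D2 {f : ℝ → ℝ → ℝ} (hf : Tf f) (x y : ℝ) :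
    HasDerivAt (fun t => f x t) (D2 f x y) y := by
  have := D2_eq hf.1 x y
  rwa [← this.deriv] at this

theorem Tf_D1 {f : ℝ → ℝ → ℝ} (hf : Tf f) : Tf (D1 f) := by
  refine ⟨?_, ?_⟩
  · rw [D1_fun hf.1]
    exact smooth_fderiv hf.1 _
  · obtain ⟨e, he, h0⟩ := hf.2
    refine ⟨e / 2, by positivity, fun x y hxy => ?_⟩
    rw [D1]
    have : (fun t => f t y) =ᶠ[𝓝 x] fun _ => 0 := by
      rcases hxy with h | h | h | h
      · filter_upwards [Iio_mem_nhds (show x < e by linarith)] with t ht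
        exact h0 t y (Or.inl (le_of_lt ht))
      · filter_upwards [Ioi_mem_nhds (show 1 - e < x by linarith)] with t ht
        exact h0 t y (Or.inr (Or.inl (le_of_lt ht)))
      · exact Eventually.of_forall fun t => h0 t y (Or.inr (Or.inr (Or.inl (by linarith))))
      · exact Eventually.of_forall fun t => h0 t y (Or.inr (Or.inr (Or.inr (by linarith))))
    rw [this.deriv_eq]
    simp

theorem Tf_D2 {f : ℝ → ℝ → ℝ} (hf : Tf f) : Tf (D2 f) := by
  refine ⟨?_, ?_⟩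
  · rw [D2_fun hf.1]
    exact smooth_fderiv hf.1 _
  · obtain ⟨e, he, h0⟩ := hf.2
    refine ⟨e / 2, by positivity, fun x y hxy => ?_⟩
    rw [D2]
    have : (fun t => f x t) =ᶠ[𝓝 y] fun _ => 0 := by
      rcases hxy with h | h | h | h
      · exact Eventually.of_forall fun t => h0 x t (Or.inl (by linarith))
      · exact Eventually.of_forall fun t => h0 x t (Or.inr (Or.inl (by linarith)))
      · filter_upwards [Iio_mem_nhds (show y < e by linarith)] with t ht
        exact h0 x t (Or.inr (Or.inr (Or.inl (le_of_lt ht))))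
      · filter_upwards [Ioi_mem_nhds (show 1 - e < y by linarith)] with t ht
        exact h0 x t (Or.inr (Or.inr (Or.inr (le_of_lt ht))))
    rw [this.deriv_eq]
    simp

theorem D1_D2_comm {f : ℝ → ℝ → ℝ} (hf : Tf f) (x y : ℝ) :
    D1 (D2 f) x y = D2 (D1 f) x y := by
  have h1 : D1 (D2 f) x y =
      fderiv ℝ (fun q : ℝ × ℝ => D2 f q.1 q.2) (x, y) (1, 0) :=
    (D1_eq (Tf_D2 hf).1 x y).deriv
  have h2 : D2 (D1 f) x y =
      fderiv ℝ (fun q : ℝ × ℝ => D1 f q.1 q.2) (x, y) (0, 1) :=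
    (D2_eq (Tf_D1 hf).1 x y).deriv
  have hd : DifferentiableAt ℝ (fderiv ℝ (fun q : ℝ × ℝ => f q.1 q.2)) (x, y) :=
    ((hf.1.fderiv_right (m := ((⊤ : ℕ∞) : WithTop ℕ∞)) (by simp)).differentiable
      (by simp)) _
  have hap : ∀ v w : ℝ × ℝ, fderiv ℝ (fun q => fderiv ℝ (fun q : ℝ × ℝ => f q.1 q.2) q v) (x, y) w =
      fderiv ℝ (fderiv ℝ (fun q : ℝ × ℝ => f q.1 q.2)) (x, y) w v := by
    intro v w
    have := (hd.hasFDerivAt.clm_apply (hasFDerivAt_const v (x, y))).fderiv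
    rw [this]
    simp
  rw [h1, h2, D1_fun hf.1, D2_fun hf.1, hap, hap]
  have hs : IsSymmSndFDerivAt ℝ (fun q : ℝ × ℝ => f q.1 q.2) (x, y) :=
    (hf.1.contDiffAt).isSymmSndFDerivAt (by
      rw [minSmoothness_of_isRCLikeNormedField]
      exact WithTop.coe_le_coe.2 (le_top : (2 : ℕ∞) ≤ ⊤))
  exact hs.eq _ _

theorem cont_of_Tf {f : ℝ → ℝ → ℝ} (hf : Tf f) : Continuous (fun q : ℝ × ℝ => f q.1 q.2) :=
  hf.1.continuous

instance isProb_I : IsProbabilityMeasure (volume.restrict (Set.Icc (0 : ℝ) 1)) := by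
  constructor
  simp

instance isProb_sq : IsProbabilityMeasure sq := by
  unfold sq
  infer_instance

/-- integration by parts in the first variable -/
theorem parts_x {u ux ψ ψx : ℝ → ℝ → ℝ} (hu : ∀ x y, HasDerivAt (fun t => u t y) (ux x y) x)
    (cux : Continuous (fun q : ℝ × ℝ => ux q.1 q.2))
    (h0 : ∀ y, u 0 y = 0) (h1 : ∀ y, u 1 y = 0)
    (hψ : ∀ᵐ y : ℝ, (∀ x, HasDerivAt (fun t => ψ t y) (ψx x y) x) ∧
      Continuous (fun x => ψx x y))
    (i1 : Integrable (fun q : ℝ × ℝ => u q.1 q.2 * ψx q.1 q.2) sq)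
    (i2 : Integrable (fun q : ℝ × ℝ => ux q.1 q.2 * ψ q.1 q.2) sq) :
    ∫ q, u q.1 q.2 * ψx q.1 q.2 ∂sq = -∫ q, ux q.1 q.2 * ψ q.1 q.2 ∂sq := by
  unfold sq at *
  rw [integral_prod_symm _ i1, integral_prod_symm _ i2, ← integral_neg]
  refine integral_congr_ae ?_
  filter_upwards [ae_restrict_of_ae hψ] with y hy
  have e : ∀ f : ℝ → ℝ, ∫ x, f x ∂(volume.restrict (Set.Icc (0 : ℝ) 1)) = ∫ x in (0 : ℝ)..1, f x := by
    intro f
    rw [integral_Icc_eq_integral_Ioc, intervalIntegral.integral_of_le zero_le_one]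
  rw [e, e]
  have := intervalIntegral.integral_mul_deriv_eq_deriv_mul (a := 0) (b := 1)
    (u := fun t => u t y) (v := fun t => ψ t y) (u' := fun t => ux t y) (v' := fun t => ψx t y)
    (fun x _ => hu x y) (fun x _ => hy.1 x)
    ((cux.comp (continuous_id.prodMk continuous_const)).intervalIntegrable _ _)
    (hy.2.intervalIntegrable _ _)
  rw [this, h0, h1]
  simp

/-- integration by parts in the second variable -/
theorem parts_y {u ux ψ ψx : ℝ → ℝ → ℝ} (hu : ∀ x y, HasDerivAt (fun t => u x t) (ux x y) y)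
    (cux : Continuous (fun q : ℝ × ℝ => ux q.1 q.2))
    (h0 : ∀ x, u x 0 = 0) (h1 : ∀ x, u x 1 = 0)
    (hψ : ∀ᵐ x : ℝ, (∀ y, HasDerivAt (fun t => ψ x t) (ψx x y) y) ∧
      Continuous (fun y => ψx x y))
    (i1 : Integrable (fun q : ℝ × ℝ => u q.1 q.2 * ψx q.1 q.2) sq)
    (i2 : Integrable (fun q : ℝ × ℝ => ux q.1 q.2 * ψ q.1 q.2) sq) :
    ∫ q, u q.1 q.2 * ψx q.1 q.2 ∂sq = -∫ q, ux q.1 q.2 * ψ q.1 q.2 ∂sq := by
  unfold sq at *
  rw [integral_prod _ i1, integral_prod _ i2, ← integral_neg]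
  refine integral_congr_ae ?_
  filter_upwards [ae_restrict_of_ae hψ] with x hx
  have e : ∀ f : ℝ → ℝ, ∫ x, f x ∂(volume.restrict (Set.Icc (0 : ℝ) 1)) = ∫ x in (0 : ℝ)..1, f x := by
    intro f
    rw [integral_Icc_eq_integral_Ioc, intervalIntegral.integral_of_le zero_le_one]
  rw [e, e]
  have := intervalIntegral.integral_mul_deriv_eq_deriv_mul (a := 0) (b := 1)
    (u := fun t => u x t) (v := fun t => ψ x t) (u' := fun t => ux x t) (v' := fun t => ψx x t)
    (fun y _ => hu x y) (fun y _ => hx.1 y)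
    ((cux.comp (continuous_const.prodMk continuous_id)).intervalIntegrable _ _)
    (hx.2.intervalIntegrable _ _)
  rw [this, h0, h1]
  simp

/-! ### The surfaces -/

theorem N_cast_ne {p : Par} (hp : p.Good) (i : ℕ) : (p.N i : ℝ) ≠ 0 := by
  have := hp.Npos i
  positivity

theorem Zs_x (hA : Ang) {p : Par} (hp : p.Good) {n : ℕ} (d : p.Str n) {y : ℝ}
    (hy : ∀ i, S (p.N i * y) ≠ 0) (x : ℝ) :
    HasDerivAt (fun t => p.Zs d t y) (p.Zx d x y) x := by
  unfold Par.Zs Par.Zx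
  refine HasDerivAt.fun_sum fun i _ => ?_
  have h1 : HasDerivAt (fun t => Th (p.N i * t) (p.N i * y))
      (T1 (p.N i * x) (p.N i * y) * ((p.N i : ℝ) * 1)) x :=
    (hA.Th_x (hy i)).comp x ((hasDerivAt_id x).const_mul (p.N i : ℝ))
  have h2 := (h1.const_add ((p.M i : ℝ) + (((d i).2 : ℕ) : ℝ))).const_mul
    (sg (d i).1 * p.h i)
  refine (h2.congr_deriv ?_).congr_of_eventuallyEq (Eventually.of_forall fun t => ?_)
  · rw [Par.h]
    field_simp [N_cast_ne hp i]
  · simp only [Par.val]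

theorem Zs'_y (hA : Ang) {p : Par} (hp : p.Good) {n : ℕ} (d : p.Str n) {x : ℝ}
    (hx : ∀ i, S (p.N i * x) ≠ 0) (y : ℝ) :
    HasDerivAt (fun t => p.Zs' d x t) (p.Zy d x y) y := by
  unfold Par.Zs' Par.Zy
  refine HasDerivAt.fun_sum fun i _ => ?_
  have h1 : HasDerivAt (fun t => Th' (p.N i * x) (p.N i * t))
      (T2 (p.N i * x) (p.N i * y) * ((p.N i : ℝ) * 1)) y :=
    (hA.Th'_y (hx i)).comp y ((hasDerivAt_id y).const_mul (p.N i : ℝ))
  have h2 := (h1.const_add ((p.M i : ℝ) + (((d i).2 : ℕ) : ℝ))).const_mul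
    (sg (d i).1 * p.h i)
  refine (h2.congr_deriv ?_).congr_of_eventuallyEq (Eventually.of_forall fun t => ?_)
  · rw [Par.h]
    field_simp [N_cast_ne hp i]
  · simp only [Par.val]

theorem cont_S : Continuous S := by unfold S; fun_prop

theorem cont_c : Continuous c := by unfold c; fun_prop

theorem cont_Zx {p : Par} {n : ℕ} (d : p.Str n) {y : ℝ}
    (hy : ∀ i, S (p.N i * y) ≠ 0) : Continuous fun x => p.Zx d x y := by
  unfold Par.Zx
  refine continuous_finsetSum _ fun i _ => Continuous.mul continuous_const ?_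
  unfold T1 rho
  refine Continuous.div ?_ ?_ ?_
  · exact (continuous_const.mul (cont_c.comp (continuous_const.mul continuous_id))).mul
      continuous_const
  · exact ((cont_S.comp (continuous_const.mul continuous_id)).pow 2).add continuous_const
  · intro x
    have := hy i
    positivity

theorem cont_Zy {p : Par} {n : ℕ} (d : p.Str n) {x : ℝ}
    (hx : ∀ i, S (p.N i * x) ≠ 0) : Continuous fun y => p.Zy d x y := by
  unfold Par.Zy
  refine continuous_finsetSum _ fun i _ => Continuous.mul continuous_const ?_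
  unfold T2 rho
  refine Continuous.div ?_ ?_ ?_
  · exact (continuous_const.mul (cont_c.comp (continuous_const.mul continuous_id))).mul
      continuous_const
  · exact continuous_const.add ((cont_S.comp (continuous_const.mul continuous_id)).pow 2)
  · intro y
    have := hx i
    positivity

theorem meas_S : Measurable S := cont_S.measurable

theorem meas_c : Measurable c := cont_c.measurable

theorem meas_Zx {p : Par} {n : ℕ} (d : p.Str n) :
    Measurable fun q : ℝ × ℝ => p.Zx d q.1 q.2 := by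
  unfold Par.Zx T1 rho
  refine Finset.measurable_sum _ fun i _ => Measurable.const_mul ?_ _
  refine Measurable.div ?_ ?_
  · exact ((meas_c.comp (measurable_fst.const_mul _)).const_mul _).mul
      (meas_S.comp (measurable_snd.const_mul _))
  · exact ((meas_S.comp (measurable_fst.const_mul _)).pow_const 2).add
      ((meas_S.comp (measurable_snd.const_mul _)).pow_const 2)

theorem meas_Zy {p : Par} {n : ℕ} (d : p.Str n) :
    Measurable fun q : ℝ × ℝ => p.Zy d q.1 q.2 := by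
  unfold Par.Zy T2 rho
  refine Finset.measurable_sum _ fun i _ => Measurable.const_mul ?_ _
  refine Measurable.div ?_ ?_
  · exact ((meas_c.comp (measurable_snd.const_mul _)).const_mul _).mul
      (meas_S.comp (measurable_fst.const_mul _))
  · exact ((meas_S.comp (measurable_fst.const_mul _)).pow_const 2).add
      ((meas_S.comp (measurable_snd.const_mul _)).pow_const 2)

theorem meas_val {p : Par} {j : ℕ} (d : p.Dg j) : Measurable fun t : ℝ => p.val j d t := by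
  have : (fun t : ℝ => p.val j d t) =
      fun t => sg d.1 * p.h j * ((p.M j + ((d.2 : ℕ) : ℝ)) + t) := rfl
  rw [this]
  exact (measurable_id.const_add _).const_mul _

theorem meas_Zs (hA : Ang) {p : Par} {n : ℕ} (d : p.Str n) :
    Measurable fun q : ℝ × ℝ => p.Zs d q.1 q.2 := by
  have h3 : ∀ i : Fin n, Measurable fun q : ℝ × ℝ =>
      p.val i (d i) (Th (p.N i * q.1) (p.N i * q.2)) := by
    intro i
    have h1 : Measurable fun q : ℝ × ℝ => (((p.N i : ℝ) * q.1, (p.N i : ℝ) * q.2) : ℝ × ℝ) :=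
      (measurable_fst.const_mul _).prodMk (measurable_snd.const_mul _)
    have h2 := hA.meas.comp h1
    have h4 := (meas_val (d i)).comp h2
    simp only [Function.comp_def] at h4
    exact h4
  exact Finset.measurable_fun_sum _ fun i _ => h3 i

theorem meas_Zs' (hA : Ang) {p : Par} {n : ℕ} (d : p.Str n) :
    Measurable fun q : ℝ × ℝ => p.Zs' d q.1 q.2 := by
  have h3 : ∀ i : Fin n, Measurable fun q : ℝ × ℝ =>
      p.val i (d i) (Th' (p.N i * q.1) (p.N i * q.2)) := by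
    intro i
    have h1 : Measurable fun q : ℝ × ℝ => (((p.N i : ℝ) * q.1, (p.N i : ℝ) * q.2) : ℝ × ℝ) :=
      (measurable_fst.const_mul _).prodMk (measurable_snd.const_mul _)
    have h2 := hA.meas'.comp h1
    have h4 := (meas_val (d i)).comp h2
    simp only [Function.comp_def] at h4
    exact h4
  exact Finset.measurable_fun_sum _ fun i _ => h3 i

/-! ### The function `g` along a surface -/

theorem cont_pd {g : ℝ × ℝ × ℝ → ℝ} (hg : ContDiff ℝ 1 g) (a : Fin 3) :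
    Continuous (pd a g) :=
  (hg.continuous_fderiv (by simp)).clm_apply continuous_const

theorem chain_x {g : ℝ × ℝ × ℝ → ℝ} (hg : ContDiff ℝ 1 g) {z : ℝ → ℝ} {z' x y : ℝ}
    (hz : HasDerivAt z z' x) :
    HasDerivAt (fun t => g (t, y, z t)) (pd 0 g (x, y, z x) + pd 2 g (x, y, z x) * z') x := by
  have h1 : HasFDerivAt g (fderiv ℝ g (x, y, z x)) (x, y, z x) :=
    (hg.differentiable (by simp) _).hasFDerivAt
  have h2 : HasDerivAt (fun t : ℝ => ((t, y, z t) : ℝ × ℝ × ℝ)) ((1, 0, z') : ℝ × ℝ × ℝ) x :=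
    (hasDerivAt_id x).prodMk ((hasDerivAt_const x y).prodMk hz)
  have h3 := h1.comp_hasDerivAt x h2
  refine h3.congr_deriv ?_
  have : ((1, 0, z') : ℝ × ℝ × ℝ) = e3 0 + z' • e3 2 := by
    simp [e3]
  rw [this, map_add, map_smul, pd, pd, smul_eq_mul]
  ring

theorem chain_y {g : ℝ × ℝ × ℝ → ℝ} (hg : ContDiff ℝ 1 g) {z : ℝ → ℝ} {z' x y : ℝ}
    (hz : HasDerivAt z z' y) :
    HasDerivAt (fun t => g (x, t, z t)) (pd 1 g (x, y, z y) + pd 2 g (x, y, z y) * z') y := by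
  have h1 : HasFDerivAt g (fderiv ℝ g (x, y, z y)) (x, y, z y) :=
    (hg.differentiable (by simp) _).hasFDerivAt
  have h2 : HasDerivAt (fun t : ℝ => ((x, t, z t) : ℝ × ℝ × ℝ)) ((0, 1, z') : ℝ × ℝ × ℝ) y :=
    (hasDerivAt_const y x).prodMk ((hasDerivAt_id y).prodMk hz)
  have h3 := h1.comp_hasDerivAt y h2
  refine h3.congr_deriv ?_
  have : ((0, 1, z') : ℝ × ℝ × ℝ) = e3 1 + z' • e3 2 := by
    simp [e3]
  rw [this, map_add, map_smul, pd, pd, smul_eq_mul]
  ring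

/-- the variation of `g` in the last variable -/
theorem var_z {g : ℝ × ℝ × ℝ → ℝ} (hg : ContDiff ℝ 1 g) {C : ℝ} (hC : ∀ a q, |pd a g q| ≤ C)
    (x y t : ℝ) : |g (x, y, t) - g (x, y, 0)| ≤ C * |t| := by
  have h1 : ∀ s : ℝ, HasDerivAt (fun s : ℝ => g (x, y, s)) (pd 2 g (x, y, s)) s := by
    intro s
    have h1 : HasFDerivAt g (fderiv ℝ g (x, y, s)) (x, y, s) :=
      (hg.differentiable (by simp) _).hasFDerivAt
    have h2 : HasDerivAt (fun t : ℝ => ((x, y, t) : ℝ × ℝ × ℝ)) ((0, 0, 1) : ℝ × ℝ × ℝ) s :=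
      (hasDerivAt_const s x).prodMk ((hasDerivAt_const s y).prodMk (hasDerivAt_id s))
    exact h1.comp_hasDerivAt s h2
  have := Convex.norm_image_sub_le_of_norm_hasDerivWithin_le (s := Set.univ)
    (f := fun s : ℝ => g (x, y, s)) (f' := fun s => pd 2 g (x, y, s)) (C := C) (x := 0) (y := t)
    (fun s _ => (h1 s).hasDerivWithinAt) (fun s _ => by simpa using hC 2 (x, y, s))
    convex_univ (Set.mem_univ _) (Set.mem_univ _)
  simpa using this

theorem sq_mem : ∀ᵐ q ∂sq, q ∈ Set.Icc (0 : ℝ) 1 ×ˢ Set.Icc (0 : ℝ) 1 := by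
  unfold sq
  rw [Measure.prod_restrict]
  exact ae_restrict_mem (measurableSet_Icc.prod measurableSet_Icc)

theorem av_branch' (hS : Sz) {p : Par} (hp : p.Good) {n : ℕ} {x y : ℝ}
    (hx : ∀ i, S (p.N i * x) ≠ 0) (hy : ∀ i, S (p.N i * y) ≠ 0)
    {g : ℝ × ℝ × ℝ → ℝ} (hg : ContDiff ℝ 1 g) {C : ℝ} (hC : ∀ a q, |pd a g q| ≤ C) :
    |p.av n (fun d => g (x, y, p.Zs d x y)) - p.av n (fun d => g (x, y, p.Zs' d x y))| ≤
      C / 4 * ∑ i ∈ Finset.range n, 1 / (p.M i : ℝ) := by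
  have hC0 : 0 ≤ C := (abs_nonneg _).trans (hC 0 0)
  have := hS.av_branch p n x y (fun i _ => hx i) (fun i _ => hy i)
    (fun t => g (x, y, max (-1 / 4) (min t (1 / 4))) - g (x, y, 0)) (C / 4) (by
      intro t
      refine (var_z hg hC x y _).trans ?_
      have : |max (-1 / 4) (min t (1 / 4))| ≤ 1 / 4 := by
        rw [abs_le]
        constructor
        · exact le_trans (by norm_num) (le_max_left _ _)
        · exact max_le (by norm_num) (min_le_right _ _)
      nlinarith)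
  have e1 : ∀ d : p.Str n, max (-1 / 4) (min (p.Zs d x y) (1 / 4)) = p.Zs d x y := by
    intro d
    have := abs_le.1 (hS.abs_Zs_le hp d x y)
    rw [min_eq_left this.2, max_eq_right (by linarith)]
  have e2 : ∀ d : p.Str n, max (-1 / 4) (min (p.Zs' d x y) (1 / 4)) = p.Zs' d x y := by
    intro d
    have := abs_le.1 (hS.abs_Zs'_le hp d x y)
    rw [min_eq_left this.2, max_eq_right (by linarith)]
  simp only [e1, e2] at this
  convert this using 2
  unfold Par.av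
  rw [Finset.sum_sub_distrib, Finset.sum_sub_distrib]
  ring

end Ibp

open Ibp in
/-- Module IBP -/
theorem ibp (hA : Ang) (hS : Sz) (hM : Meas) : StmtIbp := by
  intro p hp C B Δ n h hh hb hΔ hx hy ix iy g hg hC a ha
  have hC0 : 0 ≤ C := (abs_nonneg _).trans (hC 0 0)
  have hB0 : 0 ≤ B := (abs_nonneg _).trans (hb 0 0).1
  have hΔ0 : 0 ≤ Δ := le_trans (Finset.sum_nonneg fun i _ => by positivity) hΔ
  set c0 : ℝ := (Fintype.card (p.Str n) : ℝ)⁻¹ with hc0
  have hcard : (0 : ℝ) < (Fintype.card (p.Str n) : ℝ) := by exact_mod_cast Fintype.card_pos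
  have hc00 : 0 ≤ c0 := by rw [hc0]; positivity
  have hc1 : c0 * Fintype.card (p.Str n) = 1 := by rw [hc0]; field_simp
  have hav : ∀ F : p.Str n → ℝ, p.av n F = c0 * ∑ d, F d := fun F => rfl
  -- the functions
  let L : ℝ → ℝ → ℝ := fun x y => D1 (D1 h) x y + D2 (D2 h) x y
  let P : p.Str n → ℝ → ℝ → ℝ := fun d x y =>
    pd 0 g (x, y, p.Zs d x y) + pd 2 g (x, y, p.Zs d x y) * p.Zx d x y
  let P' : p.Str n → ℝ → ℝ → ℝ := fun d x y =>
    pd 1 g (x, y, p.Zs' d x y) + pd 2 g (x, y, p.Zs' d x y) * p.Zy d x y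
  have hcomm : D1 (D2 h) = D2 (D1 h) := by
    funext x y; exact D1_D2_comm hh x y
  have h22 := Tf_D2 (Tf_D2 hh)
  have h11 := Tf_D1 (Tf_D1 hh)
  have h12 := Tf_D1 (Tf_D2 hh)
  have h122 := Tf_D1 h22
  have h112 := Tf_D1 h12
  have bP : ∀ d q₁ q₂, |P d q₁ q₂| ≤ C * (1 + |p.Zx d q₁ q₂|) := by
    intro d x y
    refine (abs_add_le _ _).trans ?_
    rw [abs_mul]
    have := hC 0 (x, y, p.Zs d x y)
    have := mul_le_mul_of_nonneg_right (hC 2 (x, y, p.Zs d x y)) (abs_nonneg (p.Zx d x y))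
    linarith
  have bP' : ∀ d q₁ q₂, |P' d q₁ q₂| ≤ C * (1 + |p.Zy d q₁ q₂|) := by
    intro d x y
    refine (abs_add_le _ _).trans ?_
    rw [abs_mul]
    have := hC 1 (x, y, p.Zs' d x y)
    have := mul_le_mul_of_nonneg_right (hC 2 (x, y, p.Zs' d x y)) (abs_nonneg (p.Zy d x y))
    linarith
  -- measurability
  have mZ : ∀ d : p.Str n, Measurable fun q : ℝ × ℝ => ((q.1, q.2, p.Zs d q.1 q.2) : ℝ × ℝ × ℝ) :=
    fun d => measurable_fst.prodMk (measurable_snd.prodMk (meas_Zs hA d))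
  have mZ' : ∀ d : p.Str n, Measurable fun q : ℝ × ℝ => ((q.1, q.2, p.Zs' d q.1 q.2) : ℝ × ℝ × ℝ) :=
    fun d => measurable_fst.prodMk (measurable_snd.prodMk (meas_Zs' hA d))
  have mpd : ∀ a : Fin 3, Measurable (pd a g) := fun a => (cont_pd hg a).measurable
  have mP : ∀ d, Measurable fun q : ℝ × ℝ => P d q.1 q.2 := fun d =>
    ((mpd 0).comp (mZ d)).add (((mpd 2).comp (mZ d)).mul (meas_Zx d))
  have mP' : ∀ d, Measurable fun q : ℝ × ℝ => P' d q.1 q.2 := fun d =>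
    ((mpd 1).comp (mZ' d)).add (((mpd 2).comp (mZ' d)).mul (meas_Zy d))
  -- integrability
  have iX : ∀ d : p.Str n, Integrable (fun q : ℝ × ℝ => |p.Zx d q.1 q.2|) sq := by
    intro d
    refine Integrable.mono' (ix.const_mul (Fintype.card (p.Str n) : ℝ))
      (meas_Zx d).abs.aestronglyMeasurable (Eventually.of_forall fun q => ?_)
    rw [hav, Real.norm_eq_abs, abs_abs, ← mul_assoc, mul_comm (Fintype.card (p.Str n) : ℝ), hc1,
      one_mul]
    exact Finset.single_le_sum (f := fun d => |p.Zx d q.1 q.2|) (fun d _ => abs_nonneg _)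
      (Finset.mem_univ d)
  have iY : ∀ d : p.Str n, Integrable (fun q : ℝ × ℝ => |p.Zy d q.1 q.2|) sq := by
    intro d
    refine Integrable.mono' (iy.const_mul (Fintype.card (p.Str n) : ℝ))
      (meas_Zy d).abs.aestronglyMeasurable (Eventually.of_forall fun q => ?_)
    rw [hav, Real.norm_eq_abs, abs_abs, ← mul_assoc, mul_comm (Fintype.card (p.Str n) : ℝ), hc1,
      one_mul]
    exact Finset.single_le_sum (f := fun d => |p.Zy d q.1 q.2|) (fun d _ => abs_nonneg _)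
      (Finset.mem_univ d)
  have iK : ∀ (K R : ℝ × ℝ → ℝ) (b : ℝ) (Y : ℝ × ℝ → ℝ), Measurable K → Measurable R →
      (∀ q, |K q| ≤ b) → (∀ q, |R q| ≤ C * (1 + |Y q|)) → Integrable (fun q => |Y q|) sq →
      Integrable (fun q => K q * R q) sq := by
    intro K R b Y mK mR hK hR iY
    have i1 : Integrable (fun q => b * (C * (1 + |Y q|))) sq :=
      (((integrable_const (1 : ℝ)).add iY).const_mul C).const_mul b
    refine Integrable.mono' i1 (mK.mul mR).aestronglyMeasurable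
      (Eventually.of_forall fun q => ?_)
    rw [Real.norm_eq_abs, abs_mul]
    exact mul_le_mul (hK q) (hR q) (abs_nonneg _) ((abs_nonneg _).trans (hK q))
  obtain ⟨G0, hG0⟩ : ∃ G0 : ℝ, ∀ q ∈ Set.Icc (0 : ℝ) 1 ×ˢ (Set.Icc (0 : ℝ) 1 ×ˢ
      Set.Icc (-(1 / 4 : ℝ)) (1 / 4)), |g q| ≤ G0 := by
    obtain ⟨G0, hG0⟩ := (isCompact_Icc.prod (isCompact_Icc.prod isCompact_Icc)).exists_bound_of_continuousOn
      (f := g) hg.continuous.continuousOn
    exact ⟨G0, fun q hq => by simpa using hG0 q hq⟩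
  have iφ : ∀ (K : ℝ × ℝ → ℝ) (b : ℝ) (z : ℝ × ℝ → ℝ), Measurable K → Measurable z →
      (∀ q, |K q| ≤ b) → (∀ q, |z q| ≤ 1 / 4) →
      Integrable (fun q : ℝ × ℝ => K q * g (q.1, q.2, z q)) sq := by
    intro K b z mK mz hK hz
    refine Integrable.mono' (integrable_const (b * G0)) ?_ ?_
    · exact (mK.mul (hg.continuous.measurable.comp
        (measurable_fst.prodMk (measurable_snd.prodMk mz)))).aestronglyMeasurable
    · filter_upwards [sq_mem] with q hq
      rw [Real.norm_eq_abs, abs_mul]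
      exact mul_le_mul (hK q) (hG0 _ ⟨hq.1, hq.2, abs_le.1 (hz q)⟩) (abs_nonneg _)
        ((abs_nonneg _).trans (hK q))
  -- integrations by parts
  have aeN : ∀ᵐ t : ℝ, ∀ i, S (p.N i * t) ≠ 0 := ae_all_iff.2 fun i => hA.ae_ne _ (hp.Npos i)
  have aeP : ∀ d, ∀ᵐ y : ℝ, (∀ x, HasDerivAt (fun t => g (t, y, p.Zs d t y)) (P d x y) x) ∧
      Continuous (fun x => P d x y) := by
    intro d
    filter_upwards [aeN] with y hy
    have hz := Zs_x hA hp d hy
    refine ⟨fun x => chain_x hg (hz x), ?_⟩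
    have cz : Continuous fun x => p.Zs d x y :=
      continuous_iff_continuousAt.2 fun x => (hz x).continuousAt
    have cq : Continuous fun x : ℝ => ((x, y, p.Zs d x y) : ℝ × ℝ × ℝ) :=
      continuous_id.prodMk (continuous_const.prodMk cz)
    exact ((cont_pd hg 0).comp cq).add (((cont_pd hg 2).comp cq).mul (cont_Zx d hy))
  have aeP' : ∀ d, ∀ᵐ x : ℝ, (∀ y, HasDerivAt (fun t => g (x, t, p.Zs' d x t)) (P' d x y) y) ∧
      Continuous (fun y => P' d x y) := by
    intro d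
    filter_upwards [aeN] with x hx
    have hz := Zs'_y hA hp d hx
    refine ⟨fun y => chain_y hg (hz y), ?_⟩
    have cz : Continuous fun y => p.Zs' d x y :=
      continuous_iff_continuousAt.2 fun y => (hz y).continuousAt
    have cq : Continuous fun y : ℝ => ((x, y, p.Zs' d x y) : ℝ × ℝ × ℝ) :=
      continuous_const.prodMk (continuous_id.prodMk cz)
    exact ((cont_pd hg 1).comp cq).add (((cont_pd hg 2).comp cq).mul (cont_Zy d hx))
  have zero0 : ∀ {f : ℝ → ℝ → ℝ}, Tf f → (∀ y, f 0 y = 0) ∧ (∀ y, f 1 y = 0) ∧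
      (∀ x, f x 0 = 0) ∧ (∀ x, f x 1 = 0) := by
    intro f hf
    obtain ⟨e, he, h0⟩ := hf.2
    exact ⟨fun y => h0 0 y (Or.inl he.le), fun y => h0 1 y (Or.inr (Or.inl (by linarith))),
      fun x => h0 x 0 (Or.inr (Or.inr (Or.inl he.le))),
      fun x => h0 x 1 (Or.inr (Or.inr (Or.inr (by linarith))))⟩
  have mT : ∀ {f : ℝ → ℝ → ℝ}, Tf f → Measurable fun q : ℝ × ℝ => f q.1 q.2 :=
    fun hf => (cont_of_Tf hf).measurable
  have mL : Measurable fun q : ℝ × ℝ => L q.1 q.2 := (mT h11).add (mT h22)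
  have bL : ∀ x y, |L x y| ≤ 2 * B := by
    intro x y
    have := abs_add_le (D1 (D1 h) x y) (D2 (D2 h) x y)
    have := hb x y
    simp only [L]
    linarith
  have ibdd : ∀ (K : ℝ × ℝ → ℝ) (b : ℝ), Measurable K → (∀ q, |K q| ≤ b) →
      Integrable (fun q => |K q|) sq := by
    intro K b mK hK
    refine Integrable.mono' (integrable_const b) mK.abs.aestronglyMeasurable
      (Eventually.of_forall fun q => ?_)
    simpa using hK q
  have iL : Integrable (fun q : ℝ × ℝ => |L q.1 q.2|) sq :=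
    ibdd _ (2 * B) mL fun q => bL _ _
  have iv : Integrable (fun q : ℝ × ℝ => |D1 (D2 h) q.1 q.2|) sq :=
    ibdd _ B (mT h12) fun q => (hb _ _).2.2.1
  have haveX : ∫ q, c0 * ∑ d : p.Str n, |p.Zx d q.1 q.2| ∂sq ≤ Δ := hx
  have haveY : ∫ q, c0 * ∑ d : p.Str n, |p.Zy d q.1 q.2| ∂sq ≤ Δ := hy
  have hbr : ∀ᵐ q ∂sq, |c0 * ∑ d : p.Str n, g (q.1, q.2, p.Zs d q.1 q.2) -
      c0 * ∑ d : p.Str n, g (q.1, q.2, p.Zs' d q.1 q.2)| ≤ C / 4 * Δ := by
    filter_upwards [hM.ae p hp.Npos] with q hq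
    refine (av_branch' hS hp hq.1 hq.2 hg hC).trans ?_
    exact mul_le_mul_of_nonneg_left hΔ (by positivity)
  -- products with the slopes
  have key2 : ∀ (K : ℝ × ℝ → ℝ) (R Y : p.Str n → ℝ × ℝ → ℝ) , (∀ q, |K q| ≤ 2 * B) →
      (∀ d, Integrable (fun q => |Y d q|) sq) →
      (∀ d q, |R d q| ≤ C * |Y d q|) → ∫ q, c0 * ∑ d, |Y d q| ∂sq ≤ Δ →
      |∫ q, c0 * ∑ d, K q * R d q ∂sq| ≤ 2 * B * C * Δ := by
    intro K R Y hK iY hR hY
    have iS : Integrable (fun q => c0 * ∑ d, |Y d q|) sq :=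
      (integrable_finsetSum _ fun d _ => iY d).const_mul c0
    calc |∫ q, c0 * ∑ d, K q * R d q ∂sq| ≤ ∫ q, (2 * B * C * (c0 * ∑ d, |Y d q|)) ∂sq := by
          rw [← Real.norm_eq_abs]
          refine norm_integral_le_of_norm_le (iS.const_mul _) (Eventually.of_forall fun q => ?_)
          rw [Real.norm_eq_abs, abs_mul, abs_of_nonneg hc00]
          calc c0 * |∑ d, K q * R d q| ≤ c0 * ∑ d, 2 * B * (C * |Y d q|) := by
                refine mul_le_mul_of_nonneg_left ?_ hc00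
                refine (Finset.abs_sum_le_sum_abs _ _).trans (Finset.sum_le_sum fun d _ => ?_)
                rw [abs_mul]
                exact mul_le_mul (hK q) (hR d q) (abs_nonneg _) (by positivity)
            _ = _ := by
                rw [← Finset.mul_sum, ← Finset.mul_sum]
                ring
      _ = 2 * B * C * ∫ q, c0 * ∑ d, |Y d q| ∂sq := by
          rw [integral_const_mul]
      _ ≤ _ := mul_le_mul_of_nonneg_left hY (by positivity)
  have bG : ∀ x y, |D1 (D1 h) x y - D2 (D2 h) x y| ≤ 2 * B := by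
    intro x y
    have := abs_sub (D1 (D1 h) x y) (D2 (D2 h) x y)
    have := hb x y
    linarith
  have bg2 : ∀ (z : p.Str n → ℝ × ℝ → ℝ) (Y : p.Str n → ℝ × ℝ → ℝ) (d : p.Str n) (q : ℝ × ℝ),
      |pd 2 g (q.1, q.2, z d q) * Y d q| ≤ C * |Y d q| := by
    intro z Y d q
    rw [abs_mul]
    exact mul_le_mul_of_nonneg_right (hC _ _) (abs_nonneg _)
  have hpx : ∀ (u : ℝ → ℝ → ℝ), Tf u → (∃ b, ∀ x y, |u x y| ≤ b) → (∃ b, ∀ x y, |D1 u x y| ≤ b) →
      ∀ d : p.Str n, ∫ q, u q.1 q.2 * P d q.1 q.2 ∂sq =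
        -∫ q, D1 u q.1 q.2 * g (q.1, q.2, p.Zs d q.1 q.2) ∂sq := by
    rintro u hu ⟨b, hb⟩ ⟨b', hb'⟩ d
    exact parts_x (ψ := fun x y => g (x, y, p.Zs d x y)) (hasDerivAt_D1 hu) (cont_of_Tf (Tf_D1 hu))
      (zero0 hu).1 (zero0 hu).2.1 (aeP d)
      (iK _ _ b _ (mT hu) (mP d) (fun q => hb _ _) (fun q => bP d _ _) (iX d))
      (iφ _ b' _ (mT (Tf_D1 hu)) (meas_Zs hA d) (fun q => hb' _ _) fun q => hS.abs_Zs_le hp d _ _)
  have hpy : ∀ (u : ℝ → ℝ → ℝ), Tf u → (∃ b, ∀ x y, |u x y| ≤ b) → (∃ b, ∀ x y, |D2 u x y| ≤ b) →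
      ∀ d : p.Str n, ∫ q, u q.1 q.2 * P' d q.1 q.2 ∂sq =
        -∫ q, D2 u q.1 q.2 * g (q.1, q.2, p.Zs' d q.1 q.2) ∂sq := by
    rintro u hu ⟨b, hb⟩ ⟨b', hb'⟩ d
    exact parts_y (ψ := fun x y => g (x, y, p.Zs' d x y)) (hasDerivAt_D2 hu) (cont_of_Tf (Tf_D2 hu))
      (zero0 hu).2.2.1 (zero0 hu).2.2.2 (aeP' d)
      (iK _ _ b _ (mT hu) (mP' d) (fun q => hb _ _) (fun q => bP' d _ _) (iY d))
      (iφ _ b' _ (mT (Tf_D2 hu)) (meas_Zs' hA d) (fun q => hb' _ _)
        fun q => hS.abs_Zs'_le hp d _ _)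
  have hBC : 0 ≤ B * C * Δ := by positivity
  rcases ha with rfl | rfl
  · -- the first case
    have e122 : D2 (D1 (D2 h)) = D1 (D2 (D2 h)) := by
      funext x y; exact (D1_D2_comm (Tf_D2 hh) x y).symm
    have k := core (μ := sq) hc00 hc1 (L := fun q => L q.1 q.2) (u := fun q => D2 (D2 h) q.1 q.2)
      (w := fun q => D1 (D2 (D2 h)) q.1 q.2) (v := fun q => D1 (D2 h) q.1 q.2)
      (φ := fun d q => g (q.1, q.2, p.Zs d q.1 q.2)) (φ' := fun d q => g (q.1, q.2, p.Zs' d q.1 q.2))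
      (P := fun d q => P d q.1 q.2) (P' := fun d q => P' d q.1 q.2)
      (X := fun d q => p.Zx d q.1 q.2) (X' := fun d q => p.Zy d q.1 q.2) hC0 hB0
      (fun d => iK _ _ (2 * B) _ mL (mP d) (fun q => bL _ _) (fun q => bP d _ _) (iX d))
      (fun d => iK _ _ B _ (mT h22) (mP d) (fun q => (hb _ _).2.1) (fun q => bP d _ _) (iX d))
      (fun d => iK _ _ B _ (mT h12) (mP' d) (fun q => (hb _ _).2.2.1) (fun q => bP' d _ _) (iY d))
      (fun d => iφ _ B _ (mT h122) (meas_Zs hA d) (fun q => (hb _ _).2.2.2.2)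
        fun q => hS.abs_Zs_le hp d _ _)
      (fun d => iφ _ B _ (mT h122) (meas_Zs' hA d) (fun q => (hb _ _).2.2.2.2)
        fun q => hS.abs_Zs'_le hp d _ _)
      iL iv iX iY
      (hpx _ h22 ⟨B, fun x y => (hb x y).2.1⟩ ⟨B, fun x y => (hb x y).2.2.2.2⟩)
      (fun d => by
        have := hpy _ h12 ⟨B, fun x y => (hb x y).2.2.1⟩
          ⟨B, fun x y => by rw [e122]; exact (hb x y).2.2.2.2⟩ d
        rwa [e122] at this)
      hbr (fun d q => bP d _ _) (fun d q => bP' d _ _) haveX haveY (fun q => bL _ _)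
      (fun q => (hb _ _).2.2.2.2) (fun q => (hb _ _).2.2.1)
    have k2 := key2 (fun q => D1 (D1 h) q.1 q.2 - D2 (D2 h) q.1 q.2)
      (fun d q => pd 2 g (q.1, q.2, p.Zs d q.1 q.2) * p.Zx d q.1 q.2)
      (fun d q => p.Zx d q.1 q.2) (fun q => bG _ _) iX
      (bg2 (fun d q => p.Zs d q.1 q.2) (fun d q => p.Zx d q.1 q.2)) haveX
    have e : ∫ q, p.av n (fun d => (D1 (D1 h) q.1 q.2 - D2 (D2 h) q.1 q.2) *
        pd 0 g (q.1, q.2, p.Zs d q.1 q.2)) ∂sq =
        (∫ q, c0 * ∑ d : p.Str n, (L q.1 q.2 - 2 * D2 (D2 h) q.1 q.2) * P d q.1 q.2 ∂sq) -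
        ∫ q, c0 * ∑ d : p.Str n, (D1 (D1 h) q.1 q.2 - D2 (D2 h) q.1 q.2) *
          (pd 2 g (q.1, q.2, p.Zs d q.1 q.2) * p.Zx d q.1 q.2) ∂sq := by
      rw [← integral_sub]
      · refine integral_congr_ae (Eventually.of_forall fun q => ?_)
        simp only [hav]
        rw [← mul_sub, ← Finset.sum_sub_distrib]
        refine congrArg _ (Finset.sum_congr rfl fun d _ => ?_)
        simp only [L, P]
        ring
      · refine (integrable_finsetSum _ fun d _ => ?_).const_mul c0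
        exact iK (fun q => L q.1 q.2 - 2 * D2 (D2 h) q.1 q.2) _ (2 * B + 2 * B) _
          (mL.sub ((mT h22).const_mul 2)) (mP d) (fun q => by
            have h1 := abs_sub (L q.1 q.2) (2 * D2 (D2 h) q.1 q.2)
            have h2 := bL q.1 q.2
            have h3 := (hb q.1 q.2).2.1
            rw [abs_mul, abs_two] at h1
            linarith) (fun q => bP d _ _) (iX d)
      · refine (integrable_finsetSum _ fun d _ => ?_).const_mul c0
        exact iK (fun q => D1 (D1 h) q.1 q.2 - D2 (D2 h) q.1 q.2) _ (2 * B) _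
          ((mT h11).sub (mT h22)) (((mpd 2).comp (mZ d)).mul (meas_Zx d)) (fun q => bG _ _)
          (fun q => (bg2 (fun d q => p.Zs d q.1 q.2) (fun d q => p.Zx d q.1 q.2) d q).trans
            (by nlinarith [abs_nonneg (p.Zx d q.1 q.2)])) (iX d)
    rw [e]
    have e1 : N1 (fun x y => D1 (D1 h) x y + D2 (D2 h) x y) = ∫ q, |L q.1 q.2| ∂sq := rfl
    have e2 : N1 (D1 (D2 h)) = ∫ q, |D1 (D2 h) q.1 q.2| ∂sq := rfl
    rw [e1, e2]
    rw [abs_le] at k k2 ⊢
    constructor <;> linarith [k.1, k.2, k2.1, k2.2]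
  · -- the second case
    have e112 : D2 (D1 (D1 h)) = D1 (D1 (D2 h)) := by
      rw [hcomm]
      funext x y; exact (D1_D2_comm (Tf_D1 hh) x y).symm
    have k := core (μ := sq) hc00 hc1 (L := fun q => L q.1 q.2) (u := fun q => D1 (D1 h) q.1 q.2)
      (w := fun q => D1 (D1 (D2 h)) q.1 q.2) (v := fun q => D1 (D2 h) q.1 q.2)
      (φ := fun d q => g (q.1, q.2, p.Zs' d q.1 q.2)) (φ' := fun d q => g (q.1, q.2, p.Zs d q.1 q.2))
      (P := fun d q => P' d q.1 q.2) (P' := fun d q => P d q.1 q.2)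
      (X := fun d q => p.Zy d q.1 q.2) (X' := fun d q => p.Zx d q.1 q.2) hC0 hB0
      (fun d => iK _ _ (2 * B) _ mL (mP' d) (fun q => bL _ _) (fun q => bP' d _ _) (iY d))
      (fun d => iK _ _ B _ (mT h11) (mP' d) (fun q => (hb _ _).1) (fun q => bP' d _ _) (iY d))
      (fun d => iK _ _ B _ (mT h12) (mP d) (fun q => (hb _ _).2.2.1) (fun q => bP d _ _) (iX d))
      (fun d => iφ _ B _ (mT h112) (meas_Zs' hA d) (fun q => (hb _ _).2.2.2.1)
        fun q => hS.abs_Zs'_le hp d _ _)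
      (fun d => iφ _ B _ (mT h112) (meas_Zs hA d) (fun q => (hb _ _).2.2.2.1)
        fun q => hS.abs_Zs_le hp d _ _)
      iL iv iY iX
      (fun d => by
        have := hpy _ h11 ⟨B, fun x y => (hb x y).1⟩
          ⟨B, fun x y => by rw [e112]; exact (hb x y).2.2.2.1⟩ d
        rwa [e112] at this)
      (hpx _ h12 ⟨B, fun x y => (hb x y).2.2.1⟩ ⟨B, fun x y => (hb x y).2.2.2.1⟩)
      (by
        filter_upwards [hbr] with q hq
        rwa [abs_sub_comm] at hq) (fun d q => bP' d _ _) (fun d q => bP d _ _) haveY haveX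
      (fun q => bL _ _) (fun q => (hb _ _).2.2.2.1) (fun q => (hb _ _).2.2.1)
    have k2 := key2 (fun q => D1 (D1 h) q.1 q.2 - D2 (D2 h) q.1 q.2)
      (fun d q => pd 2 g (q.1, q.2, p.Zs' d q.1 q.2) * p.Zy d q.1 q.2)
      (fun d q => p.Zy d q.1 q.2) (fun q => bG _ _) iY
      (bg2 (fun d q => p.Zs' d q.1 q.2) (fun d q => p.Zy d q.1 q.2)) haveY
    -- change of the branch
    have mg1 : ∀ d : p.Str n, Measurable fun q : ℝ × ℝ => pd 1 g (q.1, q.2, p.Zs d q.1 q.2) :=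
      fun d => (mpd 1).comp (mZ d)
    have mg1' : ∀ d : p.Str n, Measurable fun q : ℝ × ℝ => pd 1 g (q.1, q.2, p.Zs' d q.1 q.2) :=
      fun d => (mpd 1).comp (mZ' d)
    have k3 : |∫ q, (D1 (D1 h) q.1 q.2 - D2 (D2 h) q.1 q.2) *
        (c0 * ∑ d : p.Str n, pd 1 g (q.1, q.2, p.Zs d q.1 q.2) -
        c0 * ∑ d : p.Str n, pd 1 g (q.1, q.2, p.Zs' d q.1 q.2)) ∂sq| ≤ 2 * B * (C * Δ) := by
      have := norm_integral_le_of_norm_le_const (μ := sq) (C := 2 * B * (C * Δ))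
        (f := fun q => (D1 (D1 h) q.1 q.2 - D2 (D2 h) q.1 q.2) *
          (c0 * ∑ d : p.Str n, pd 1 g (q.1, q.2, p.Zs d q.1 q.2) -
          c0 * ∑ d : p.Str n, pd 1 g (q.1, q.2, p.Zs' d q.1 q.2))) (by
          filter_upwards [hM.ae p hp.Npos] with q hq
          rw [Real.norm_eq_abs, abs_mul]
          refine mul_le_mul (bG _ _) ?_ (abs_nonneg _) (by positivity)
          exact (hS.av_branch p n q.1 q.2 (fun i _ => hq.1 i) (fun i _ => hq.2 i)
            (fun t => pd 1 g (q.1, q.2, t)) C fun t => hC _ _).trans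
            (mul_le_mul_of_nonneg_left hΔ hC0))
      simpa using this
    have ig : ∀ (R : ℝ × ℝ → ℝ), Measurable R → (∀ q, |R q| ≤ C) →
        Integrable (fun q => (D1 (D1 h) q.1 q.2 - D2 (D2 h) q.1 q.2) * R q) sq := by
      intro R mR hR
      exact iK (fun q => D1 (D1 h) q.1 q.2 - D2 (D2 h) q.1 q.2) _ (2 * B) (fun _ => 0)
        ((mT h11).sub (mT h22)) mR (fun q => bG _ _) (fun q => by simpa using hR q)
        (by simp)
    have e : ∫ q, p.av n (fun d => (D1 (D1 h) q.1 q.2 - D2 (D2 h) q.1 q.2) *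
        pd 1 g (q.1, q.2, p.Zs d q.1 q.2)) ∂sq =
        (∫ q, (D1 (D1 h) q.1 q.2 - D2 (D2 h) q.1 q.2) *
        (c0 * ∑ d : p.Str n, pd 1 g (q.1, q.2, p.Zs d q.1 q.2) -
        c0 * ∑ d : p.Str n, pd 1 g (q.1, q.2, p.Zs' d q.1 q.2)) ∂sq) -
        (∫ q, c0 * ∑ d : p.Str n, (L q.1 q.2 - 2 * D1 (D1 h) q.1 q.2) * P' d q.1 q.2 ∂sq) -
        ∫ q, c0 * ∑ d : p.Str n, (D1 (D1 h) q.1 q.2 - D2 (D2 h) q.1 q.2) *
          (pd 2 g (q.1, q.2, p.Zs' d q.1 q.2) * p.Zy d q.1 q.2) ∂sq := by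
      have i1 : Integrable (fun q => (D1 (D1 h) q.1 q.2 - D2 (D2 h) q.1 q.2) *
          (c0 * ∑ d : p.Str n, pd 1 g (q.1, q.2, p.Zs d q.1 q.2) -
          c0 * ∑ d : p.Str n, pd 1 g (q.1, q.2, p.Zs' d q.1 q.2))) sq := by
        have : (fun q : ℝ × ℝ => (D1 (D1 h) q.1 q.2 - D2 (D2 h) q.1 q.2) *
          (c0 * ∑ d : p.Str n, pd 1 g (q.1, q.2, p.Zs d q.1 q.2) -
          c0 * ∑ d : p.Str n, pd 1 g (q.1, q.2, p.Zs' d q.1 q.2))) = fun q =>
          c0 * ∑ d : p.Str n, ((D1 (D1 h) q.1 q.2 - D2 (D2 h) q.1 q.2) *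
            pd 1 g (q.1, q.2, p.Zs d q.1 q.2) - (D1 (D1 h) q.1 q.2 - D2 (D2 h) q.1 q.2) *
            pd 1 g (q.1, q.2, p.Zs' d q.1 q.2)) := by
          funext q
          rw [Finset.sum_sub_distrib, ← Finset.mul_sum, ← Finset.mul_sum]
          ring
        rw [this]
        exact (integrable_finsetSum _ fun d _ => (ig _ (mg1 d) fun q => hC _ _).sub
          (ig _ (mg1' d) fun q => hC _ _)).const_mul c0
      have i2 : Integrable (fun q : ℝ × ℝ => c0 * ∑ d : p.Str n,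
          (L q.1 q.2 - 2 * D1 (D1 h) q.1 q.2) * P' d q.1 q.2) sq := by
        refine (integrable_finsetSum _ fun d _ => ?_).const_mul c0
        exact iK (fun q => L q.1 q.2 - 2 * D1 (D1 h) q.1 q.2) _ (2 * B + 2 * B) _
          (mL.sub ((mT h11).const_mul 2)) (mP' d) (fun q => by
            have h1 := abs_sub (L q.1 q.2) (2 * D1 (D1 h) q.1 q.2)
            have h2 := bL q.1 q.2
            have h3 := (hb q.1 q.2).1
            rw [abs_mul, abs_two] at h1
            linarith) (fun q => bP' d _ _) (iY d)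
      have i3 : Integrable (fun q : ℝ × ℝ => c0 * ∑ d : p.Str n,
          (D1 (D1 h) q.1 q.2 - D2 (D2 h) q.1 q.2) *
          (pd 2 g (q.1, q.2, p.Zs' d q.1 q.2) * p.Zy d q.1 q.2)) sq := by
        refine (integrable_finsetSum _ fun d _ => ?_).const_mul c0
        exact iK (fun q => D1 (D1 h) q.1 q.2 - D2 (D2 h) q.1 q.2) _ (2 * B) _
          ((mT h11).sub (mT h22)) (((mpd 2).comp (mZ' d)).mul (meas_Zy d)) (fun q => bG _ _)
          (fun q => (bg2 (fun d q => p.Zs' d q.1 q.2) (fun d q => p.Zy d q.1 q.2) d q).trans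
            (by nlinarith [abs_nonneg (p.Zy d q.1 q.2)])) (iY d)
      have e0 := integral_sub (i1.sub i2) i3
      simp only [Pi.sub_apply] at e0
      rw [integral_sub i1 i2] at e0
      rw [← e0]
      refine integral_congr_ae (Eventually.of_forall fun q => ?_)
      simp only [hav]
      have s1 : ∑ d : p.Str n, (L q.1 q.2 - 2 * D1 (D1 h) q.1 q.2) * P' d q.1 q.2 =
          - ((D1 (D1 h) q.1 q.2 - D2 (D2 h) q.1 q.2) *
            ∑ d : p.Str n, pd 1 g (q.1, q.2, p.Zs' d q.1 q.2)) -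
          (D1 (D1 h) q.1 q.2 - D2 (D2 h) q.1 q.2) *
            ∑ d : p.Str n, (pd 2 g (q.1, q.2, p.Zs' d q.1 q.2) * p.Zy d q.1 q.2) := by
        rw [← Finset.mul_sum, ← mul_neg, ← mul_sub, ]
        simp only [L, P']
        rw [Finset.sum_add_distrib]
        ring
      rw [s1, ← Finset.mul_sum, ← Finset.mul_sum]
      ring
    rw [e]
    have e1 : N1 (fun x y => D1 (D1 h) x y + D2 (D2 h) x y) = ∫ q, |L q.1 q.2| ∂sq := rfl
    have e2 : N1 (D1 (D2 h)) = ∫ q, |D1 (D2 h) q.1 q.2| ∂sq := rfl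
    rw [e1, e2]
    rw [abs_le] at k k2 k3 ⊢
    constructor <;> linarith [k.1, k.2, k2.1, k2.2, k3.1, k3.2]

end Pool.Agent.T6.H55.LU
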