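import Pool.Agent.T6.H55.LU.Stm

/-!
# Module MEAS: measurability
-/

set_option autoImplicit false

open MeasureTheory Filter Topology
open scoped ENNReal NNReal

namespace Pool.Agent.T6.H55.LU

namespace MeasAux

noncomputable section

variable (p : Par)

theorem meas_dig {β : Type} [MeasurableSpace β] (i : ℕ) (F : p.Dg i → β) :
    Measurable (fun q : (ℝ × ℝ) × p.Om => F (q.2 i)) :=
  (measurable_of_finite F).comp ((measurable_pi_apply i).comp measurable_snd)

theorem meas_x (a : ℝ) : Measurable (fun q : (ℝ × ℝ) × p.Om => a * q.1.1) :=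
  (measurable_fst.comp measurable_fst).const_mul a

theorem meas_y (a : ℝ) : Measurable (fun q : (ℝ × ℝ) × p.Om => a * q.1.2) :=
  (measurable_snd.comp measurable_fst).const_mul a

theorem meas_xy {F : ℝ → ℝ → ℝ} (hF : Measurable (fun q : ℝ × ℝ => F q.1 q.2)) (a : ℝ) :
    Measurable (fun q : (ℝ × ℝ) × p.Om => F (a * q.1.1) (a * q.1.2)) :=
  hF.comp ((meas_x p a).prodMk (meas_y p a))

theorem meas_S : Measurable S :=
  Real.measurable_sin.comp (measurable_id.const_mul _)

theorem meas_c : Measurable c :=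
  Real.measurable_cos.comp (measurable_id.const_mul _)

theorem meas_rho : Measurable (fun q : ℝ × ℝ => rho q.1 q.2) :=
  ((meas_S.comp measurable_fst).pow_const 2).add ((meas_S.comp measurable_snd).pow_const 2)

theorem meas_T1 : Measurable (fun q : ℝ × ℝ => T1 q.1 q.2) :=
  (((meas_c.comp measurable_fst).const_mul _).mul (meas_S.comp measurable_snd)).div meas_rho

theorem meas_T2 : Measurable (fun q : ℝ × ℝ => T2 q.1 q.2) :=
  (((meas_c.comp measurable_snd).const_mul _).mul (meas_S.comp measurable_fst)).div meas_rho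

theorem meas_st : Measurable Real.smoothTransition :=
  Real.smoothTransition.continuous.measurable

theorem meas_lam : Measurable lam :=
  meas_st.comp (((meas_S.pow_const 2).const_mul 4).sub_const 1)

theorem meas_ga : Measurable ga :=
  (meas_st.comp ((measurable_id.const_mul 8).sub_const 2)).mul
    (meas_st.comp ((measurable_id.const_mul 8).const_sub 6))

theorem meas_Ga2 : Measurable (fun q : ℝ × ℝ => Ga2 q.1 q.2) :=
  (meas_ga.comp meas_rho).mul
    (((meas_c.comp measurable_fst).mul (meas_c.comp measurable_snd)).abs)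

theorem meas_val (hA : Ang) (i : ℕ) :
    Measurable (fun q : (ℝ × ℝ) × p.Om => p.val i (q.2 i) (Th (p.N i * q.1.1) (p.N i * q.1.2))) :=
  (meas_dig p i (fun d => sg d.1 * p.h i)).mul
    ((meas_dig p i (fun d => (p.M i : ℝ) + ((d.2 : ℕ) : ℝ))).add (meas_xy p hA.meas (p.N i)))

theorem meas_Zs (hA : Ang) (n : ℕ) :
    Measurable (fun q : (ℝ × ℝ) × p.Om => p.Zs (p.res n q.2) q.1.1 q.1.2) :=
  Finset.measurable_sum _ fun i _ => meas_val p hA i

theorem meas_Zx (n : ℕ) :
    Measurable (fun q : (ℝ × ℝ) × p.Om => p.Zx (p.res n q.2) q.1.1 q.1.2) :=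
  Finset.measurable_sum _ fun i _ =>
    (meas_dig p i (fun d => sg d.1 * p.s i)).mul (meas_xy p meas_T1 (p.N i))

theorem meas_Zy (n : ℕ) :
    Measurable (fun q : (ℝ × ℝ) × p.Om => p.Zy (p.res n q.2) q.1.1 q.1.2) :=
  Finset.measurable_sum _ fun i _ =>
    (meas_dig p i (fun d => sg d.1 * p.s i)).mul (meas_xy p meas_T2 (p.N i))

theorem meas_Fm (j : ℕ) :
    Measurable (fun q : (ℝ × ℝ) × p.Om => p.Fm j q.2 q.1.1 q.1.2) :=
  ((meas_dig p (j + 1) (fun d => if d.1 then (1 : ℝ) else 0)).mul
    (meas_lam.comp (meas_y p (p.N j)))).mul (meas_xy p meas_Ga2 (p.N (j + 1)))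

theorem meas_Z (hA : Ang) (hS : Sz) (hp : p.Good) :
    Measurable (fun q : (ℝ × ℝ) × p.Om => p.Z q.2 q.1.1 q.1.2) := by
  refine measurable_of_tendsto_metrizable (f := fun (j : ℕ) (q : (ℝ × ℝ) × p.Om) =>
    p.Zs (p.res (j + 1) q.2) q.1.1 q.1.2) (fun j => meas_Zs p hA (j + 1)) ?_
  rw [tendsto_pi_nhds]
  intro q
  rw [tendsto_iff_dist_tendsto_zero]
  refine squeeze_zero (fun _ => dist_nonneg) (g := fun j : ℕ => (1 / 2 : ℝ) ^ j) ?_
    (tendsto_pow_atTop_nhds_zero_of_lt_one (by norm_num) (by norm_num))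
  intro j
  have h1 := hS.tail hp j q.2 q.1.1 q.1.2
  obtain ⟨h2, h3⟩ := hS.h_le hp j
  rw [Real.dist_eq, abs_sub_comm]
  refine h1.trans ?_
  have h4 : p.h j / 2 ^ (j + 7) ≤ p.h j := by
    apply div_le_self h2.le
    exact one_le_pow₀ (by norm_num)
  refine h4.trans (h3.trans ?_)
  rw [one_div_pow]
  apply one_div_le_one_div_of_le (by positivity)
  exact pow_le_pow_right₀ (by norm_num) (by omega)

theorem meas_X (hA : Ang) (hS : Sz) (hp : p.Good) (m n : ℕ) : Measurable (p.X m n) := by
  have hZ : Measurable (fun q : p.Bs m => p.Z q.2 q.1.1.1 q.1.1.2) :=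
    (meas_Z p hA hS hp).comp ((measurable_fst.comp measurable_fst).prodMk measurable_snd)
  have hx : Measurable (fun q : p.Bs m => q.1.1.1) :=
    measurable_fst.comp (measurable_fst.comp measurable_fst)
  have hy : Measurable (fun q : p.Bs m => q.1.1.2) :=
    measurable_snd.comp (measurable_fst.comp measurable_fst)
  have hw : ∀ i : Fin m, Measurable (fun q : p.Bs m => q.1.2 i) := fun i =>
    (measurable_pi_apply i).comp (measurable_snd.comp measurable_fst)
  have hpi : Measurable (fun q : p.Bs m => fun i : Fin n =>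
      if (i : ℕ) = 0 then q.1.1.1 else if (i : ℕ) = 1 then q.1.1.2 else
      if h : (i : ℕ) - 2 < m then q.1.2 ⟨(i : ℕ) - 2, h⟩ else
      if (i : ℕ) = m + 2 then p.Z q.2 q.1.1.1 q.1.1.2 else 0) := by
    refine measurable_pi_lambda _ fun i => ?_
    by_cases h0 : (i : ℕ) = 0
    · simpa only [h0, if_true] using hx
    · by_cases h1 : (i : ℕ) = 1
      · simp only [h1, if_true, if_neg one_ne_zero]
        exact hy
      · by_cases h2 : (i : ℕ) - 2 < m
        · simp only [h0, h1, h2, if_false, dif_pos]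
          exact hw _
        · by_cases h3 : (i : ℕ) = m + 2
          · simp only [h0, h1, h2, if_false, dif_neg, not_false_eq_true]
            simp only [h3, if_true]
            exact hZ
          · simp only [h0, h1, h2, h3, if_false, dif_neg, not_false_eq_true]
            exact measurable_const
  exact (PiLp.continuous_toLp 2 _).measurable.comp hpi

instance finite_sq : IsFiniteMeasure sq := by
  have : IsFiniteMeasure (volume.restrict (Set.Icc (0 : ℝ) 1)) := by infer_instance
  unfold sq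
  infer_instance

instance prob_Q : IsProbabilityMeasure p.Q := by
  unfold Par.Q
  infer_instance

theorem finP (m : ℕ) (L : ℝ) : IsFiniteMeasure (p.P m L) := by
  have h1 : IsFiniteMeasure (volume.restrict (Set.pi Set.univ fun _ : Fin m => Set.Icc (0 : ℝ) L)) := by
    refine ⟨?_⟩
    rw [Measure.restrict_apply_univ]
    exact (isCompact_univ_pi fun _ => isCompact_Icc).measure_lt_top
  unfold Par.P
  infer_instance

theorem ae_off (hA : Ang) (hN : ∀ i, 0 < p.N i) : ∀ᵐ q ∂sq,
    (∀ i, S (p.N i * q.1) ≠ 0) ∧ (∀ i, S (p.N i * q.2) ≠ 0) := by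
  have h1 : ∀ᵐ x ∂(volume.restrict (Set.Icc (0 : ℝ) 1)), ∀ i, S (p.N i * x) ≠ 0 :=
    ae_restrict_of_ae (ae_all_iff.2 fun i => hA.ae_ne (p.N i) (hN i))
  have h2 : ∀ᵐ q ∂sq, ∀ i, S (p.N i * q.1) ≠ 0 :=
    Measure.quasiMeasurePreserving_fst.ae h1
  have h3 : ∀ᵐ q ∂sq, ∀ i, S (p.N i * q.2) ≠ 0 :=
    Measure.quasiMeasurePreserving_snd.ae h1
  filter_upwards [h2, h3] with q h h' using ⟨h, h'⟩

end

end MeasAux

open MeasAux in
/-- Module MEAS -/
theorem meas (hA : Ang) (hS : Sz) : Meas where
  Z := fun p hp => meas_Z p hA hS hp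
  X := fun p hp m n => meas_X p hA hS hp m n
  Zx := fun p n => meas_Zx p n
  Zy := fun p n => meas_Zy p n
  Fm := fun p j => meas_Fm p j
  Bad := by
    intro p m T
    have hpr : Measurable (fun q : p.Bs m => ((q.1.1, q.2) : (ℝ × ℝ) × p.Om)) :=
      (measurable_fst.comp measurable_fst).prodMk measurable_snd
    have e : p.Bad m T = ⋃ j : ℕ,
        ({q | T < |p.Zx (p.res (j + 1) q.2) q.1.1.1 q.1.1.2|} ∪
          {q | T < |p.Zy (p.res (j + 1) q.2) q.1.1.1 q.1.1.2|}) := by
      ext q
      simp only [Par.Bad, Set.mem_ofPred_eq, Set.mem_iUnion, Set.mem_union]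
    rw [e]
    refine MeasurableSet.iUnion fun j => MeasurableSet.union ?_ ?_
    · exact measurableSet_lt measurable_const ((meas_Zx p (j + 1)).comp hpr).abs
    · exact measurableSet_lt measurable_const ((meas_Zy p (j + 1)).comp hpr).abs
  finP := fun p m L => MeasAux.finP p m L
  finmu := by
    intro p m n L
    have := MeasAux.finP p m L
    unfold Par.mu
    infer_instance
  ae := fun p hN => ae_off p hA hN

end Pool.Agent.T6.H55.LU
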