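import Pool.Agent.T6.H55.LU.Stm

/-!
# Lusin type approximation of forms (MP_507414_an): module OBS, the obstruction
-/

set_option autoImplicit false

open MeasureTheory Filter Topology Set
open scoped ENNReal NNReal

namespace Pool.Agent.T6.H55.LU

namespace ObsAux

open Par (pnt)

/-! ### Functions vanishing near the boundary of the square -/

theorem hasD1 {f : ℝ → ℝ → ℝ}
    (hf : ContDiff ℝ ((⊤ : ℕ∞) : WithTop ℕ∞) (fun q : ℝ × ℝ => f q.1 q.2)) (x y : ℝ) :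
    HasDerivAt (fun t => f t y) (fderiv ℝ (fun q : ℝ × ℝ => f q.1 q.2) (x, y) (1, 0)) x := by
  have h1 : HasFDerivAt (fun q : ℝ × ℝ => f q.1 q.2)
      (fderiv ℝ (fun q : ℝ × ℝ => f q.1 q.2) (x, y)) (x, y) :=
    ((hf.differentiable (by simp)) (x, y)).hasFDerivAt
  have h2 : HasDerivAt (fun t : ℝ => ((t, y) : ℝ × ℝ)) (1, 0) x :=
    (hasDerivAt_id x).prodMk (hasDerivAt_const x y)
  exact h1.comp_hasDerivAt x h2

theorem hasD2 {f : ℝ → ℝ → ℝ}
    (hf : ContDiff ℝ ((⊤ : ℕ∞) : WithTop ℕ∞) (fun q : ℝ × ℝ => f q.1 q.2)) (x y : ℝ) :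
    HasDerivAt (fun t => f x t) (fderiv ℝ (fun q : ℝ × ℝ => f q.1 q.2) (x, y) (0, 1)) y := by
  have h1 : HasFDerivAt (fun q : ℝ × ℝ => f q.1 q.2)
      (fderiv ℝ (fun q : ℝ × ℝ => f q.1 q.2) (x, y)) (x, y) :=
    ((hf.differentiable (by simp)) (x, y)).hasFDerivAt
  have h2 : HasDerivAt (fun t : ℝ => ((x, t) : ℝ × ℝ)) (0, 1) y :=
    (hasDerivAt_const y x).prodMk (hasDerivAt_id y)
  exact h1.comp_hasDerivAt y h2

theorem tfD1 {f : ℝ → ℝ → ℝ} (hf : Tf f) : Tf (D1 f) := by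
  obtain ⟨h1, e, he, h0⟩ := hf
  refine ⟨?_, e / 2, by positivity, ?_⟩
  · have : (fun q : ℝ × ℝ => D1 f q.1 q.2) =
        fun q : ℝ × ℝ => fderiv ℝ (fun q : ℝ × ℝ => f q.1 q.2) q (1, 0) := by
      funext q
      exact (hasD1 h1 q.1 q.2).deriv
    rw [this]
    exact (h1.fderiv_right (m := ((⊤ : ℕ∞) : WithTop ℕ∞)) (by simp)).clm_apply contDiff_const
  · intro x y hxy
    have key : (fun t => f t y) =ᶠ[𝓝 x] fun _ => 0 := by
      rcases hxy with h | h | h | h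
      · filter_upwards [Iio_mem_nhds (show x < e by linarith)] with t ht
        exact h0 t y (Or.inl ht.le)
      · filter_upwards [Ioi_mem_nhds (show 1 - e < x by linarith)] with t ht
        exact h0 t y (Or.inr (Or.inl (le_of_lt ht)))
      · exact Eventually.of_forall fun t => h0 t y (Or.inr (Or.inr (Or.inl (by linarith))))
      · exact Eventually.of_forall fun t => h0 t y (Or.inr (Or.inr (Or.inr (by linarith))))
    rw [D1, key.deriv_eq]
    simp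

theorem tfD2 {f : ℝ → ℝ → ℝ} (hf : Tf f) : Tf (D2 f) := by
  obtain ⟨h1, e, he, h0⟩ := hf
  refine ⟨?_, e / 2, by positivity, ?_⟩
  · have : (fun q : ℝ × ℝ => D2 f q.1 q.2) =
        fun q : ℝ × ℝ => fderiv ℝ (fun q : ℝ × ℝ => f q.1 q.2) q (0, 1) := by
      funext q
      exact (hasD2 h1 q.1 q.2).deriv
    rw [this]
    exact (h1.fderiv_right (m := ((⊤ : ℕ∞) : WithTop ℕ∞)) (by simp)).clm_apply contDiff_const
  · intro x y hxy
    have key : (fun t => f x t) =ᶠ[𝓝 y] fun _ => 0 := by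
      rcases hxy with h | h | h | h
      · exact Eventually.of_forall fun t => h0 x t (Or.inl (by linarith))
      · exact Eventually.of_forall fun t => h0 x t (Or.inr (Or.inl (by linarith)))
      · filter_upwards [Iio_mem_nhds (show y < e by linarith)] with t ht
        exact h0 x t (Or.inr (Or.inr (Or.inl ht.le)))
      · filter_upwards [Ioi_mem_nhds (show 1 - e < y by linarith)] with t ht
        exact h0 x t (Or.inr (Or.inr (Or.inr (le_of_lt ht))))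
    rw [D2, key.deriv_eq]
    simp

theorem tf_cont {f : ℝ → ℝ → ℝ} (hf : Tf f) : Continuous (fun q : ℝ × ℝ => f q.1 q.2) :=
  hf.1.continuous

theorem tf_bdd {f : ℝ → ℝ → ℝ} (hf : Tf f) : ∃ B : ℝ, 0 ≤ B ∧ ∀ x y, |f x y| ≤ B := by
  have hc : IsCompact (Icc (0 : ℝ) 1 ×ˢ Icc (0 : ℝ) 1) := isCompact_Icc.prod isCompact_Icc
  obtain ⟨B, hB⟩ := hc.exists_bound_of_continuousOn (tf_cont hf).continuousOn
  obtain ⟨h1, e, he, h0⟩ := hf
  refine ⟨max B 0, le_max_right _ _, fun x y => ?_⟩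
  by_cases h : x ≤ e ∨ 1 - e ≤ x ∨ y ≤ e ∨ 1 - e ≤ y
  · rw [h0 x y h]; simp
  · push Not at h
    have := hB (x, y) ⟨⟨by linarith [h.1], by linarith [h.2.1]⟩, ⟨by linarith [h.2.2.1], by linarith [h.2.2.2]⟩⟩
    rw [Real.norm_eq_abs] at this
    exact this.trans (le_max_left _ _)

instance sqProb : IsProbabilityMeasure sq := by
  have h : IsProbabilityMeasure (volume.restrict (Set.Icc (0 : ℝ) 1)) := ⟨by simp⟩
  unfold sq
  infer_instance

instance qProb (p : Par) : IsProbabilityMeasure p.Q := by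
  unfold Par.Q
  infer_instance

theorem sq_ae : ∀ᵐ q ∂sq, q ∈ Icc (0 : ℝ) 1 ×ˢ Icc (0 : ℝ) 1 := by
  have h : sq = (volume : Measure (ℝ × ℝ)).restrict (Icc (0 : ℝ) 1 ×ˢ Icc (0 : ℝ) 1) := by
    rw [sq, Measure.prod_restrict]
    rfl
  rw [h]
  exact ae_restrict_mem (measurableSet_Icc.prod measurableSet_Icc)

theorem integrable_sq {f : ℝ × ℝ → ℝ} (hf : Measurable f) {B : ℝ} (hB : ∀ q, |f q| ≤ B) :
    Integrable f sq :=
  Integrable.of_bound hf.aestronglyMeasurable B (Eventually.of_forall fun q => by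
    simpa using hB q)

theorem tf_int {f : ℝ → ℝ → ℝ} (hf : Tf f) : Integrable (fun q : ℝ × ℝ => f q.1 q.2) sq := by
  obtain ⟨B, -, hB⟩ := tf_bdd hf
  exact integrable_sq (tf_cont hf).measurable fun q => hB q.1 q.2

theorem intD2 {f : ℝ → ℝ → ℝ} (hf : Tf f) : ∫ q, D2 f q.1 q.2 ∂sq = 0 := by
  have hi := tf_int (tfD2 hf)
  have hd := hf.1
  obtain ⟨e, he, h0⟩ := hf.2
  unfold sq at hi ⊢
  rw [integral_prod _ hi]
  have : ∀ x : ℝ, ∫ y, D2 f x y ∂(volume.restrict (Icc (0 : ℝ) 1)) = 0 := by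
    intro x
    rw [integral_Icc_eq_integral_Ioc, ← intervalIntegral.integral_of_le zero_le_one]
    have hc : Continuous fun y => D2 f x y :=
      (tf_cont (tfD2 hf)).comp (continuous_const.prodMk continuous_id)
    rw [intervalIntegral.integral_eq_sub_of_hasDerivAt (f := fun y => f x y)
      (fun y _ => by
        have := hasD2 hd x y
        rw [← this.deriv] at this
        exact this) (hc.intervalIntegrable _ _)]
    rw [h0 x 1 (by right; right; right; linarith), h0 x 0 (by right; right; left; linarith)]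
    simp
  simp [this]

theorem intD1 {f : ℝ → ℝ → ℝ} (hf : Tf f) : ∫ q, D1 f q.1 q.2 ∂sq = 0 := by
  have hi := tf_int (tfD1 hf)
  have hd := hf.1
  obtain ⟨e, he, h0⟩ := hf.2
  unfold sq at hi ⊢
  rw [integral_prod_symm _ hi]
  have : ∀ y : ℝ, ∫ x, D1 f x y ∂(volume.restrict (Icc (0 : ℝ) 1)) = 0 := by
    intro y
    rw [integral_Icc_eq_integral_Ioc, ← intervalIntegral.integral_of_le zero_le_one]
    have hc : Continuous fun x => D1 f x y :=
      (tf_cont (tfD1 hf)).comp (continuous_id.prodMk continuous_const)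
    rw [intervalIntegral.integral_eq_sub_of_hasDerivAt (f := fun x => f x y)
      (fun x _ => by
        have := hasD1 hd x y
        rw [← this.deriv] at this
        exact this) (hc.intervalIntegrable _ _)]
    rw [h0 1 y (by right; left; linarith), h0 0 y (by left; linarith)]
    simp
  simp [this]

/-! ### The measure on the cube -/

/-- Lebesgue measure on the cube -/
noncomputable def W (m : ℕ) (L : ℝ) : Measure (Fin m → ℝ) :=
  volume.restrict (Set.pi Set.univ fun _ : Fin m => Set.Icc (0 : ℝ) L)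

theorem cube (m : ℕ) (L : ℝ) : (Set.pi Set.univ fun _ : Fin m => Set.Icc (0 : ℝ) L) =
    Icc (fun _ : Fin m => (0 : ℝ)) (fun _ => L) := by
  rw [← Set.pi_univ_Icc]

theorem vol_cube (m : ℕ) {L : ℝ} (_hL : 0 ≤ L) :
    volume (Set.pi Set.univ fun _ : Fin m => Set.Icc (0 : ℝ) L) = ENNReal.ofReal L ^ m := by
  rw [cube, Real.volume_Icc_pi]
  simp

instance finW (m : ℕ) (L : ℝ) : IsFiniteMeasure (W m L) := by
  unfold W
  rw [cube]
  exact isFiniteMeasure_restrict.2 (isCompact_Icc.measure_lt_top.ne)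

theorem W_real (m : ℕ) {L : ℝ} (hL : 0 ≤ L) : (W m L).real Set.univ = L ^ m := by
  rw [Measure.real, W, Measure.restrict_apply_univ, vol_cube m hL, ENNReal.toReal_pow,
    ENNReal.toReal_ofReal hL]

theorem P_eq (p : Par) (m : ℕ) (L : ℝ) : p.P m L = (sq.prod (W m L)).prod p.Q := rfl

instance finP (p : Par) (m : ℕ) (L : ℝ) : IsFiniteMeasure (p.P m L) := by
  rw [P_eq]; infer_instance

/-! ### The points -/

/-- `pnt` as a linear map -/
def PL (m n : ℕ) : (ℝ × ℝ × (Fin m → ℝ) × ℝ) →ₗ[ℝ] Rn n where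
  toFun u := pnt m n u.1 u.2.1 u.2.2.1 u.2.2.2
  map_add' u v := by
    ext i
    simp only [pnt, PiLp.add_apply]
    split_ifs <;> simp
  map_smul' r u := by
    ext i
    simp only [pnt, PiLp.smul_apply]
    split_ifs <;> simp

theorem pnt_add (m n : ℕ) (x x' y y' : ℝ) (w w' : Fin m → ℝ) (z z' : ℝ) :
    pnt m n (x + x') (y + y') (w + w') (z + z') = pnt m n x y w z + pnt m n x' y' w' z' :=
  (PL m n).map_add (x, y, w, z) (x', y', w', z')

theorem pnt_smul (m n : ℕ) (r x y : ℝ) (w : Fin m → ℝ) (z : ℝ) :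
    pnt m n (r * x) (r * y) (r • w) (r * z) = r • pnt m n x y w z :=
  (PL m n).map_smul r (x, y, w, z)

theorem pnt_cont (m n : ℕ) :
    Continuous fun u : ℝ × ℝ × (Fin m → ℝ) × ℝ => pnt m n u.1 u.2.1 u.2.2.1 u.2.2.2 :=
  (PL m n).continuous_of_finiteDimensional

theorem pnt_x {m n : ℕ} (hn : 0 < n) : pnt m n 1 0 0 0 = eb ⟨0, hn⟩ := by
  ext i
  simp only [pnt, eb, PiLp.single_apply, Fin.ext_iff]
  split_ifs <;> simp_all

theorem pnt_y {m n : ℕ} (hn : 1 < n) : pnt m n 0 1 0 0 = eb ⟨1, hn⟩ := by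
  ext i
  simp only [pnt, eb, PiLp.single_apply, Fin.ext_iff]
  split_ifs <;> simp_all

theorem pnt_z {m n : ℕ} : ‖pnt m n 0 0 0 1‖ ≤ 1 := by
  by_cases h : m + 2 < n
  · have : pnt m n 0 0 0 1 = eb ⟨m + 2, h⟩ := by
      ext i
      simp only [pnt, eb, PiLp.single_apply, Fin.ext_iff]
      split_ifs <;> first | (simp_all; done) | (exfalso; omega)
    rw [this]
    simp [eb]
  · have : pnt m n 0 0 0 1 = 0 := by
      ext i
      have := i.2
      simp only [pnt]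
      split_ifs <;> first | rfl | (exfalso; omega)
    rw [this]
    simp

theorem pnt_w {m n : ℕ} (hmn : m + 2 ≤ n) (l : Fin m) :
    pnt m n 0 0 (Pi.single l 1) 0 = eb ⟨(l : ℕ) + 2, by omega⟩ := by
  ext i
  have hl := l.2
  simp only [pnt, eb, PiLp.single_apply, Fin.ext_iff, Pi.single_apply]
  split_ifs <;> first | rfl | (exfalso; simp_all; done) | (exfalso; simp_all; omega)

theorem norm_eb {n : ℕ} (i : Fin n) : ‖(eb i : Rn n)‖ = 1 := by simp [eb]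

theorem norm_pnt_le {m n : ℕ} (hmn : m + 2 ≤ n) (x y z : ℝ) :
    ‖pnt m n x y 0 z‖ ≤ |x| + |y| + |z| := by
  have h : pnt m n x y 0 z = x • pnt m n 1 0 0 0 + y • pnt m n 0 1 0 0 + z • pnt m n 0 0 0 1 := by
    rw [← pnt_smul, ← pnt_smul, ← pnt_smul, ← pnt_add, ← pnt_add]
    simp
  rw [h]
  refine (norm_add₃_le).trans ?_
  rw [norm_smul, norm_smul, norm_smul, pnt_x (by omega), pnt_y (by omega), norm_eb, norm_eb]
  have := pnt_z (m := m) (n := n)
  simp only [Real.norm_eq_abs, mul_one]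
  nlinarith [abs_nonneg z]

theorem pnt_apply_zero {m n : ℕ} (h : 0 < n) (x y : ℝ) (w : Fin m → ℝ) (z : ℝ) :
    pnt m n x y w z ⟨0, h⟩ = x := by simp [pnt]

theorem pnt_apply_one {m n : ℕ} (h : 1 < n) (x y : ℝ) (w : Fin m → ℝ) (z : ℝ) :
    pnt m n x y w z ⟨1, h⟩ = y := by simp [pnt]

theorem fderiv_le {n : ℕ} {g : Rn n → ℝ} {C : ℝ≥0} (hg : LipschitzWith C g) (x v : Rn n)
    (hv : ‖v‖ ≤ 1) : |fderiv ℝ g x v| ≤ C := by
  rw [← Real.norm_eq_abs]
  calc ‖fderiv ℝ g x v‖ ≤ ‖fderiv ℝ g x‖ * ‖v‖ := (fderiv ℝ g x).le_opNorm v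
    _ ≤ C * 1 := mul_le_mul (norm_fderiv_le_of_lipschitz ℝ hg) hv (norm_nonneg _) C.2
    _ = C := mul_one _

/-! ### Limits of the random surfaces -/

theorem contS : Continuous S := by
  unfold S
  fun_prop

theorem measTh : Measurable (fun q : ℝ × ℝ => Th q.1 q.2) := by
  have h1 : Measurable (fun q : ℝ × ℝ => S q.1) := (contS.comp continuous_fst).measurable
  have h2 : Measurable (fun q : ℝ × ℝ => S q.2) := (contS.comp continuous_snd).measurable
  unfold Th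
  exact (measurable_const.add (Measurable.ite (measurableSet_lt h2 measurable_const)
    measurable_const measurable_const)).sub
    ((Real.measurable_arctan.comp (h1.div h2)).div_const _)

theorem measZs (p : Par) (N : ℕ) :
    Measurable (fun q : (ℝ × ℝ) × p.Om => p.Zs (p.res N q.2) q.1.1 q.1.2) := by
  unfold Par.Zs
  refine Finset.measurable_sum _ fun i _ => ?_
  unfold Par.val Par.res
  have h1 : Measurable fun q : (ℝ × ℝ) × p.Om => q.2 i :=
    (measurable_pi_apply _).comp measurable_snd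
  have h2 : Measurable fun q : (ℝ × ℝ) × p.Om => sg (q.2 i).1 :=
    (Measurable.of_discrete (f := fun d : p.Dg i => sg d.1)).comp h1
  have h3 : Measurable fun q : (ℝ × ℝ) × p.Om => (((q.2 i).2 : ℕ) : ℝ) :=
    (Measurable.of_discrete (f := fun d : p.Dg i => ((d.2 : ℕ) : ℝ))).comp h1
  have h4 : Measurable fun q : (ℝ × ℝ) × p.Om => Th (p.N i * q.1.1) (p.N i * q.1.2) := by
    have h5 : Measurable fun q : (ℝ × ℝ) × p.Om => ((p.N i * q.1.1, p.N i * q.1.2) : ℝ × ℝ) := by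
      fun_prop
    have h6 := measTh.comp h5
    simpa only [Function.comp_def] using h6
  exact (h2.mul_const _).mul ((measurable_const.add h3).add h4)

theorem tendsto_Zs (hS : Sz) {p : Par} (hp : p.Good) (o : p.Om) (x y : ℝ) :
    Tendsto (fun N => p.Zs (p.res (N + 1) o) x y) atTop (𝓝 (p.Z o x y)) := by
  rw [tendsto_iff_norm_sub_tendsto_zero]
  refine squeeze_zero (fun _ => norm_nonneg _) (g := fun N : ℕ => (1 / 2 : ℝ) ^ N) (fun N => ?_)
    (tendsto_pow_atTop_nhds_zero_of_lt_one (by norm_num) (by norm_num))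
  rw [Real.norm_eq_abs, abs_sub_comm]
  refine (hS.tail hp N o x y).trans ?_
  have h1 := (hS.h_le hp N).2
  have h0 := (hS.h_le hp N).1
  have h2 : (1 : ℝ) ≤ 2 ^ (N + 7) := one_le_pow₀ (by norm_num)
  calc p.h N / 2 ^ (N + 7) ≤ p.h N / 1 := by gcongr
    _ = p.h N := div_one _
    _ ≤ 1 / 2 ^ (N + 10) := h1
    _ ≤ 1 / 2 ^ N := by
        apply one_div_le_one_div_of_le (by positivity)
        exact pow_le_pow_right₀ (by norm_num) (by omega)
    _ = (1 / 2 : ℝ) ^ N := by rw [one_div_pow]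

theorem abs_Z_le (hS : Sz) {p : Par} (hp : p.Good) (o : p.Om) (x y : ℝ) :
    |p.Z o x y| ≤ 1 / 4 :=
  le_of_tendsto ((tendsto_Zs hS hp o x y).abs)
    (Eventually.of_forall fun N => hS.abs_Zs_le hp _ x y)

theorem lim_av (hS : Sz) (hM : Meas) {p : Par} (hp : p.Good) (G : ℝ × ℝ → ℝ)
    (hG : Measurable G) {B : ℝ} (hB : ∀ q, |G q| ≤ B) (k : ℝ × ℝ × ℝ → ℝ) (hk : Continuous k)
    {C : ℝ} (hC : ∀ q, |k q| ≤ C) {R : ℝ}
    (hR : ∀ N, |∫ q, p.av N (fun d => G q * k (q.1, q.2, p.Zs d q.1 q.2)) ∂sq| ≤ R) :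
    |∫ q, G q.1 * k (q.1.1, q.1.2, p.Z q.2 q.1.1 q.1.2) ∂(sq.prod p.Q)| ≤ R := by
  have hB0 : 0 ≤ B := (abs_nonneg _).trans (hB (0, 0))
  have hm : ∀ N, Measurable fun q : (ℝ × ℝ) × p.Om =>
      G q.1 * k (q.1.1, q.1.2, p.Zs (p.res N q.2) q.1.1 q.1.2) := by
    intro N
    refine (hG.comp measurable_fst).mul (hk.measurable.comp ?_)
    exact (measurable_fst.comp measurable_fst).prodMk
      ((measurable_snd.comp measurable_fst).prodMk (measZs p N))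
  have hb : ∀ (q : ℝ × ℝ) (u : ℝ × ℝ × ℝ), ‖G q * k u‖ ≤ B * C := by
    intro q u
    rw [norm_mul]
    exact mul_le_mul (hB q) (hC u) (norm_nonneg _) hB0
  have hlim : Tendsto (fun N : ℕ => ∫ q, G q.1 *
      k (q.1.1, q.1.2, p.Zs (p.res (N + 1) q.2) q.1.1 q.1.2) ∂(sq.prod p.Q)) atTop
      (𝓝 (∫ q, G q.1 * k (q.1.1, q.1.2, p.Z q.2 q.1.1 q.1.2) ∂(sq.prod p.Q))) := by
    refine tendsto_integral_of_dominated_convergence (fun _ => B * C)
      (fun N => (hm (N + 1)).aestronglyMeasurable) (integrable_const _)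
      (fun N => Eventually.of_forall fun q => hb _ _) (Eventually.of_forall fun q => ?_)
    refine Tendsto.const_mul _ ((hk.tendsto _).comp ?_)
    exact tendsto_const_nhds.prodMk_nhds (tendsto_const_nhds.prodMk_nhds
      (tendsto_Zs hS hp q.2 q.1.1 q.1.2))
  refine le_of_tendsto hlim.abs (Eventually.of_forall fun N => ?_)
  have hi : Integrable (fun q : (ℝ × ℝ) × p.Om =>
      G q.1 * k (q.1.1, q.1.2, p.Zs (p.res (N + 1) q.2) q.1.1 q.1.2)) (sq.prod p.Q) :=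
    Integrable.of_bound (hm (N + 1)).aestronglyMeasurable (B * C)
      (Eventually.of_forall fun q => hb _ _)
  rw [integral_prod _ hi]
  have h2 : ∀ q : ℝ × ℝ, ∫ o, G q * k (q.1, q.2, p.Zs (p.res (N + 1) o) q.1 q.2) ∂p.Q =
      p.av (N + 1) (fun d => G q * k (q.1, q.2, p.Zs d q.1 q.2)) := fun q =>
    hS.integral_res p (N + 1) (fun d => G q * k (q.1, q.2, p.Zs d q.1 q.2))
  simp only [h2]
  exact hR (N + 1)

/-! ### The map at a fixed point of the cube -/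

theorem hasFDerivAt_pw (m n : ℕ) {g : Rn n → ℝ} (hg : ContDiff ℝ 1 g) (w : Fin m → ℝ)
    (q : ℝ × ℝ × ℝ) (v : ℝ × ℝ × ℝ) :
    fderiv ℝ (fun u : ℝ × ℝ × ℝ => g (pnt m n u.1 u.2.1 w u.2.2)) q v =
      fderiv ℝ g (pnt m n q.1 q.2.1 w q.2.2) (pnt m n v.1 v.2.1 0 v.2.2) := by
  have h1 : HasFDerivAt (fun u : ℝ × ℝ × ℝ => ((u.1, u.2.1, w, u.2.2) :
      ℝ × ℝ × (Fin m → ℝ) × ℝ))
      ((ContinuousLinearMap.fst ℝ ℝ (ℝ × ℝ)).prod
        (((ContinuousLinearMap.fst ℝ ℝ ℝ).comp (ContinuousLinearMap.snd ℝ ℝ (ℝ × ℝ))).prod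
          ((0 : (ℝ × ℝ × ℝ) →L[ℝ] (Fin m → ℝ)).prod
            ((ContinuousLinearMap.snd ℝ ℝ ℝ).comp (ContinuousLinearMap.snd ℝ ℝ (ℝ × ℝ)))))) q := by
    refine HasFDerivAt.prodMk (ContinuousLinearMap.hasFDerivAt
      (ContinuousLinearMap.fst ℝ ℝ (ℝ × ℝ))) ?_
    refine HasFDerivAt.prodMk (ContinuousLinearMap.hasFDerivAt
      ((ContinuousLinearMap.fst ℝ ℝ ℝ).comp (ContinuousLinearMap.snd ℝ ℝ (ℝ × ℝ)))) ?_
    refine HasFDerivAt.prodMk (hasFDerivAt_const _ _) ?_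
    exact ContinuousLinearMap.hasFDerivAt
      ((ContinuousLinearMap.snd ℝ ℝ ℝ).comp (ContinuousLinearMap.snd ℝ ℝ (ℝ × ℝ)))
  have h2 : HasFDerivAt (fun u : ℝ × ℝ × (Fin m → ℝ) × ℝ => pnt m n u.1 u.2.1 u.2.2.1 u.2.2.2)
      (PL m n).toContinuousLinearMap (q.1, q.2.1, w, q.2.2) :=
    (PL m n).toContinuousLinearMap.hasFDerivAt
  have h3 : HasFDerivAt g (fderiv ℝ g (pnt m n q.1 q.2.1 w q.2.2))
      (pnt m n q.1 q.2.1 w q.2.2) :=
    (hg.differentiable (by norm_num) _).hasFDerivAt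
  have h4 := h3.comp q (h2.comp q h1)
  have h5 : fderiv ℝ (fun u : ℝ × ℝ × ℝ => g (pnt m n u.1 u.2.1 w u.2.2)) q = _ := h4.fderiv
  rw [h5]
  rfl

theorem contDiff_pw (m n : ℕ) {g : Rn n → ℝ} (hg : ContDiff ℝ 1 g) (w : Fin m → ℝ) :
    ContDiff ℝ 1 (fun u : ℝ × ℝ × ℝ => g (pnt m n u.1 u.2.1 w u.2.2)) := by
  have h1 : ContDiff ℝ 1 (fun u : ℝ × ℝ × ℝ => ((u.1, u.2.1, w, u.2.2) :
      ℝ × ℝ × (Fin m → ℝ) × ℝ)) := by fun_prop
  have h2 : ContDiff ℝ 1 (fun u : ℝ × ℝ × (Fin m → ℝ) × ℝ =>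
      pnt m n u.1 u.2.1 u.2.2.1 u.2.2.2) := (PL m n).toContinuousLinearMap.contDiff
  exact hg.comp (h2.comp h1)

theorem pd_pw {m n : ℕ} (hmn : m + 2 ≤ n) {g : Rn n → ℝ} (hg : ContDiff ℝ 1 g)
    (w : Fin m → ℝ) (a : Fin 3) (ha : a = 0 ∨ a = 1) (i : Fin n) (hi : (i : ℕ) = (a : ℕ))
    (q : ℝ × ℝ × ℝ) :
    pd a (fun u : ℝ × ℝ × ℝ => g (pnt m n u.1 u.2.1 w u.2.2)) q =
      fderiv ℝ g (pnt m n q.1 q.2.1 w q.2.2) (eb i) := by
  rw [pd, hasFDerivAt_pw m n hg w q (e3 a)]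
  congr 1
  rcases ha with rfl | rfl
  · have : i = ⟨0, by omega⟩ := Fin.ext hi
    rw [this, ← pnt_x (m := m)]
    simp [e3]
  · have : i = ⟨1, by omega⟩ := Fin.ext hi
    rw [this, ← pnt_y (m := m)]
    simp [e3]

theorem pd_pw_le {m n : ℕ} (hmn : m + 2 ≤ n) {g : Rn n → ℝ} (hg : ContDiff ℝ 1 g)
    {C : ℝ≥0} (hgL : LipschitzWith C g) (w : Fin m → ℝ) (a : Fin 3) (q : ℝ × ℝ × ℝ) :
    |pd a (fun u : ℝ × ℝ × ℝ => g (pnt m n u.1 u.2.1 w u.2.2)) q| ≤ C := by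
  rw [pd, hasFDerivAt_pw m n hg w q (e3 a)]
  refine fderiv_le hgL _ _ ((norm_pnt_le hmn _ _ _).trans ?_)
  fin_cases a <;> simp [e3]

theorem contF {n : ℕ} {g : Rn n → ℝ} (hg : ContDiff ℝ 1 g) (v : Rn n) :
    Continuous fun x => fderiv ℝ g x v :=
  (hg.continuous_fderiv one_ne_zero).clm_apply continuous_const

/-- the integrand -/
theorem intF (hM : Meas) {p : Par} (hp : p.Good) {m n : ℕ} (L : ℝ) {G : ℝ × ℝ → ℝ}
    (hG : Measurable G) {B : ℝ} (hB : ∀ q, |G q| ≤ B) {C : ℝ≥0} {g : Rn n → ℝ}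
    (hg : ContDiff ℝ 1 g) (hgL : LipschitzWith C g) {v : Rn n} (hv : ‖v‖ ≤ 1) :
    Integrable (fun q => G q.1.1 * fderiv ℝ g (p.X m n q) v) (p.P m L) := by
  have hB0 : 0 ≤ B := (abs_nonneg _).trans (hB (0, 0))
  refine Integrable.of_bound (Measurable.aestronglyMeasurable ?_) (B * C)
    (Eventually.of_forall fun q => ?_)
  · exact (hG.comp (measurable_fst.comp measurable_fst)).mul
      ((contF hg v).measurable.comp (hM.X p hp m n))
  · rw [norm_mul]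
    exact mul_le_mul (hB _) (fderiv_le hgL _ _ hv) (norm_nonneg _) hB0

theorem dir01 (hS : Sz) (hM : Meas) {p : Par} (hp : p.Good) {m n : ℕ} (hmn : m + 2 ≤ n)
    {L : ℝ} (hL : 0 ≤ L) {G : ℝ × ℝ → ℝ} (hG : Measurable G) {B : ℝ} (hB : ∀ q, |G q| ≤ B)
    {C : ℝ≥0} {g : Rn n → ℝ} (hg : ContDiff ℝ 1 g) (hgL : LipschitzWith C g)
    (a : Fin 3) (ha : a = 0 ∨ a = 1) {R : ℝ}
    (hR : ∀ k : ℝ × ℝ × ℝ → ℝ, ContDiff ℝ 1 k → (∀ b q, |pd b k q| ≤ C) → ∀ N,
      |∫ q, p.av N (fun d => G q * pd a k (q.1, q.2, p.Zs d q.1 q.2)) ∂sq| ≤ R)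
    (i : Fin n) (hi : (i : ℕ) = (a : ℕ)) :
    |∫ q, G q.1.1 * fderiv ℝ g (p.X m n q) (eb i) ∂p.P m L| ≤ R * L ^ m := by
  have hint := intF hM hp (m := m) L hG hB hg hgL (v := eb i) (norm_eb i).le
  rw [P_eq] at hint ⊢
  rw [integral_prod _ hint, integral_prod_symm _ hint.integral_prod_left, ← W_real m hL,
    ← Real.norm_eq_abs]
  refine norm_integral_le_of_norm_le_const (μ := W m L) (Eventually.of_forall fun w => ?_)
  have h1 : ∫ q : ℝ × ℝ, ∫ o, G q * fderiv ℝ g (p.X m n ((q, w), o)) (eb i) ∂p.Q ∂sq =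
      ∫ q, G q.1 * pd a (fun u : ℝ × ℝ × ℝ => g (pnt m n u.1 u.2.1 w u.2.2))
        (q.1.1, q.1.2, p.Z q.2 q.1.1 q.1.2) ∂(sq.prod p.Q) := by
    have h2 : ∀ q : ℝ × ℝ, ∀ o : p.Om, fderiv ℝ g (p.X m n ((q, w), o)) (eb i) =
        pd a (fun u : ℝ × ℝ × ℝ => g (pnt m n u.1 u.2.1 w u.2.2)) (q.1, q.2, p.Z o q.1 q.2) := by
      intro q o
      rw [pd_pw hmn hg w a ha i hi]
      rfl
    simp only [h2]
    symm
    refine integral_prod (f := fun q : (ℝ × ℝ) × p.Om => G q.1 *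
      pd a (fun u : ℝ × ℝ × ℝ => g (pnt m n u.1 u.2.1 w u.2.2))
        (q.1.1, q.1.2, p.Z q.2 q.1.1 q.1.2)) ?_
    have hB0 : 0 ≤ B := (abs_nonneg _).trans (hB (0, 0))
    refine Integrable.of_bound (Measurable.aestronglyMeasurable ?_) (B * C)
      (Eventually.of_forall fun q => ?_)
    · have h3 := (contDiff_pw m n hg w)
      have h4 : Continuous (pd a (fun u : ℝ × ℝ × ℝ => g (pnt m n u.1 u.2.1 w u.2.2))) :=
        (h3.continuous_fderiv one_ne_zero).clm_apply continuous_const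
      have h5 : Measurable fun q : (ℝ × ℝ) × p.Om =>
          ((q.1.1, q.1.2, p.Z q.2 q.1.1 q.1.2) : ℝ × ℝ × ℝ) :=
        (measurable_fst.comp measurable_fst).prodMk
          ((measurable_snd.comp measurable_fst).prodMk (hM.Z p hp))
      have h6 := h4.measurable.comp h5
      exact (hG.comp measurable_fst).mul h6
    · rw [norm_mul]
      exact mul_le_mul (hB _) (pd_pw_le hmn hg hgL w a _) (norm_nonneg _) hB0
  change ‖∫ q : ℝ × ℝ, ∫ o, G q * fderiv ℝ g (p.X m n ((q, w), o)) (eb i) ∂p.Q ∂sq‖ ≤ R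
  rw [h1]
  have h3 := (contDiff_pw m n hg w)
  exact lim_av hS hM hp G hG hB _ ((h3.continuous_fderiv one_ne_zero).clm_apply continuous_const)
    (pd_pw_le hmn hg hgL w a) (hR _ h3 (pd_pw_le hmn hg hgL w))

/-! ### The directions of the cube -/

theorem hasFDerivAt_pc (m n : ℕ) {g : Rn n → ℝ} (hg : ContDiff ℝ 1 g) (x y z : ℝ)
    (w : Fin m → ℝ) :
    HasFDerivAt (fun w : Fin m → ℝ => g (pnt m n x y w z))
      ((fderiv ℝ g (pnt m n x y w z)).comp
        ((PL m n).toContinuousLinearMap.comp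
          ((0 : (Fin m → ℝ) →L[ℝ] ℝ).prod ((0 : (Fin m → ℝ) →L[ℝ] ℝ).prod
            ((ContinuousLinearMap.id ℝ (Fin m → ℝ)).prod (0 : (Fin m → ℝ) →L[ℝ] ℝ)))))) w := by
  have h1 : HasFDerivAt (fun w : Fin m → ℝ => ((x, y, w, z) : ℝ × ℝ × (Fin m → ℝ) × ℝ))
      ((0 : (Fin m → ℝ) →L[ℝ] ℝ).prod ((0 : (Fin m → ℝ) →L[ℝ] ℝ).prod
            ((ContinuousLinearMap.id ℝ (Fin m → ℝ)).prod (0 : (Fin m → ℝ) →L[ℝ] ℝ)))) w :=
    (hasFDerivAt_const _ _).prodMk ((hasFDerivAt_const _ _).prodMk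
      ((hasFDerivAt_id w).prodMk (hasFDerivAt_const _ _)))
  have h2 : HasFDerivAt (fun u : ℝ × ℝ × (Fin m → ℝ) × ℝ => pnt m n u.1 u.2.1 u.2.2.1 u.2.2.2)
      (PL m n).toContinuousLinearMap (x, y, w, z) :=
    (PL m n).toContinuousLinearMap.hasFDerivAt
  have h3 : HasFDerivAt g (fderiv ℝ g (pnt m n x y w z)) (pnt m n x y w z) :=
    (hg.differentiable (by norm_num) _).hasFDerivAt
  have h4 := h2.comp w h1
  exact h3.comp w h4

theorem pc_cont (m n : ℕ) (x y z : ℝ) : Continuous fun w : Fin m → ℝ => pnt m n x y w z :=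
  (pnt_cont m n).comp (by fun_prop : Continuous fun w : Fin m → ℝ =>
    ((x, y, w, z) : ℝ × ℝ × (Fin m → ℝ) × ℝ))

theorem ftc {m n : ℕ} (hmn : m + 1 + 2 ≤ n) {g : Rn n → ℝ} (hg : ContDiff ℝ 1 g)
    {L : ℝ} (hL : 0 ≤ L) (l : Fin (m + 1)) (x y z : ℝ) :
    ∫ w, fderiv ℝ g (pnt (m + 1) n x y w z) (eb ⟨(l : ℕ) + 2, by omega⟩) ∂(W (m + 1) L) =
      (∫ w, g (pnt (m + 1) n x y (l.insertNth L w) z) ∂(W m L)) -
        ∫ w, g (pnt (m + 1) n x y (l.insertNth 0 w) z) ∂(W m L) := by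
  have key := integral_divergence_of_hasFDerivAt_off_countable'
    (a := fun _ : Fin (m + 1) => (0 : ℝ)) (b := fun _ => L) (fun _ => hL)
    (f := fun i w => if i = l then g (pnt (m + 1) n x y w z) else 0)
    (f' := fun i w => if i = l then ((fderiv ℝ g (pnt (m + 1) n x y w z)).comp
        ((PL (m + 1) n).toContinuousLinearMap.comp
          ((0 : (Fin (m + 1) → ℝ) →L[ℝ] ℝ).prod ((0 : (Fin (m + 1) → ℝ) →L[ℝ] ℝ).prod
            ((ContinuousLinearMap.id ℝ (Fin (m + 1) → ℝ)).prod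
              (0 : (Fin (m + 1) → ℝ) →L[ℝ] ℝ)))))) else 0)
    (s := ∅) countable_empty ?_ ?_ ?_
  · have e1 : ∀ w : Fin (m + 1) → ℝ, (∑ i : Fin (m + 1),
        (if i = l then ((fderiv ℝ g (pnt (m + 1) n x y w z)).comp
        ((PL (m + 1) n).toContinuousLinearMap.comp
          ((0 : (Fin (m + 1) → ℝ) →L[ℝ] ℝ).prod ((0 : (Fin (m + 1) → ℝ) →L[ℝ] ℝ).prod
            ((ContinuousLinearMap.id ℝ (Fin (m + 1) → ℝ)).prod
              (0 : (Fin (m + 1) → ℝ) →L[ℝ] ℝ)))))) else 0 : (Fin (m + 1) → ℝ) →L[ℝ] ℝ)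
                (Pi.single i 1)) =
        fderiv ℝ g (pnt (m + 1) n x y w z) (eb ⟨(l : ℕ) + 2, by omega⟩) := by
      intro w
      rw [Finset.sum_eq_single l (fun i _ hil => by rw [if_neg hil]; rfl)
        (fun h => absurd (Finset.mem_univ l) h), if_pos rfl, ← pnt_w hmn l]
      rfl
    have e2 : ∀ i : Fin (m + 1), i ≠ l →
        ((∫ w in Icc ((fun _ : Fin (m + 1) => (0 : ℝ)) ∘ i.succAbove)
          ((fun _ : Fin (m + 1) => L) ∘ i.succAbove),
          (if i = l then g (pnt (m + 1) n x y (i.insertNth L w) z) else 0 : ℝ)) -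
        ∫ w in Icc ((fun _ : Fin (m + 1) => (0 : ℝ)) ∘ i.succAbove)
          ((fun _ : Fin (m + 1) => L) ∘ i.succAbove),
          (if i = l then g (pnt (m + 1) n x y (i.insertNth 0 w) z) else 0 : ℝ)) = 0 := by
      intro i hil
      simp [hil]
    rw [Finset.sum_eq_single l (fun i _ hil => e2 i hil)
      (fun h => absurd (Finset.mem_univ l) h)] at key
    simp only [e1, if_pos] at key
    rw [W, cube, W, cube]
    exact key
  · intro i
    by_cases h : i = l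
    · simp only [h, if_true]
      exact (hg.continuous.comp (pc_cont (m + 1) n x y z)).continuousOn
    · simp only [h, if_false]
      exact continuousOn_const
  · intro w _ i
    by_cases h : i = l
    · simp only [h, if_true]
      exact hasFDerivAt_pc (m + 1) n hg x y z w
    · simp only [h, if_false]
      exact hasFDerivAt_const _ _
  · refine ContinuousOn.integrableOn_compact isCompact_Icc (Continuous.continuousOn ?_)
    refine continuous_finset_sum _ fun i _ => ?_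
    by_cases h : i = l
    · simp only [h, if_true]
      have := ((hg.continuous_fderiv one_ne_zero).comp (pc_cont (m + 1) n x y z))
      fun_prop
    · simp only [h, if_false]
      exact continuous_const

theorem intW {m : ℕ} (L : ℝ) {f : (Fin m → ℝ) → ℝ} (hf : Continuous f) :
    Integrable f (W m L) := by
  rw [W, cube]
  exact hf.continuousOn.integrableOn_compact isCompact_Icc

/-- the mean over the cube of a derivative in a direction of the cube varies little -/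
theorem phi_le {m n : ℕ} (hmn : m + 1 + 2 ≤ n) {g : Rn n → ℝ} (hg : ContDiff ℝ 1 g)
    {C : ℝ≥0} (hgL : LipschitzWith C g) {L : ℝ} (hL : 0 ≤ L) (l : Fin (m + 1)) {x y z : ℝ}
    (hx : |x - 1 / 2| ≤ 1 / 2) (hy : |y - 1 / 2| ≤ 1 / 2) (hz : |z| ≤ 1 / 4) :
    |(∫ w, fderiv ℝ g (pnt (m + 1) n x y w z) (eb ⟨(l : ℕ) + 2, by omega⟩) ∂(W (m + 1) L)) -
      ∫ w, fderiv ℝ g (pnt (m + 1) n (1 / 2) (1 / 2) w 0) (eb ⟨(l : ℕ) + 2, by omega⟩)
        ∂(W (m + 1) L)| ≤ 5 / 2 * C * L ^ m := by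
  rw [ftc hmn hg hL, ftc hmn hg hL]
  have aux : ∀ t : ℝ, |(∫ w, g (pnt (m + 1) n x y (l.insertNth t w) z) ∂(W m L)) -
      ∫ w, g (pnt (m + 1) n (1 / 2) (1 / 2) (l.insertNth t w) 0) ∂(W m L)| ≤
      5 / 4 * C * L ^ m := by
    intro t
    have hc : Continuous fun w : Fin m → ℝ => (l.insertNth t w : Fin (m + 1) → ℝ) :=
      Continuous.finInsertNth l continuous_const continuous_id
    have h1 : Integrable (fun w => g (pnt (m + 1) n x y (l.insertNth t w) z)) (W m L) :=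
      intW L (hg.continuous.comp ((pc_cont (m + 1) n x y z).comp hc))
    have h2 : Integrable (fun w => g (pnt (m + 1) n (1 / 2) (1 / 2) (l.insertNth t w) 0))
        (W m L) :=
      intW L (hg.continuous.comp ((pc_cont (m + 1) n (1 / 2) (1 / 2) 0).comp hc))
    rw [← integral_sub h1 h2, ← W_real m hL, ← Real.norm_eq_abs]
    refine norm_integral_le_of_norm_le_const (μ := W m L) (Eventually.of_forall fun w => ?_)
    have h3 := hgL.dist_le_mul (pnt (m + 1) n x y (l.insertNth t w) z)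
      (pnt (m + 1) n (1 / 2) (1 / 2) (l.insertNth t w) 0)
    rw [dist_eq_norm, dist_eq_norm] at h3
    have h4 : pnt (m + 1) n x y (l.insertNth t w) z -
        pnt (m + 1) n (1 / 2) (1 / 2) (l.insertNth t w) 0 =
        pnt (m + 1) n (x - 1 / 2) (y - 1 / 2) 0 z := by
      rw [sub_eq_iff_eq_add, ← pnt_add]
      simp
    rw [h4] at h3
    have h5 := norm_pnt_le hmn (x - 1 / 2) (y - 1 / 2) z
    have h6 : ‖pnt (m + 1) n (x - 1 / 2) (y - 1 / 2) 0 z‖ ≤ 5 / 4 := by linarith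
    have h7 : (0 : ℝ) ≤ C := C.2
    nlinarith
  have h1 := aux L
  have h2 := aux 0
  rw [abs_le] at h1 h2 ⊢
  constructor <;> nlinarith [h1.1, h1.2, h2.1, h2.2]

theorem dirw (hS : Sz) (hM : Meas) {p : Par} (hp : p.Good) {m n : ℕ} (hmn : m + 1 + 2 ≤ n)
    {L : ℝ} (hL : 0 ≤ L) {G : ℝ × ℝ → ℝ} (hG : Measurable G) {B : ℝ} (hB : ∀ q, |G q| ≤ B)
    (hG0 : ∫ q, G q ∂sq = 0)
    {C : ℝ≥0} {g : Rn n → ℝ} (hg : ContDiff ℝ 1 g) (hgL : LipschitzWith C g)
    (l : Fin (m + 1)) :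
    |∫ q, G q.1.1 * fderiv ℝ g (p.X (m + 1) n q) (eb ⟨(l : ℕ) + 2, by omega⟩)
      ∂p.P (m + 1) L| ≤ (∫ q, |G q| ∂sq) * (5 / 2 * C * L ^ m) := by
  have hB0 : 0 ≤ B := (abs_nonneg _).trans (hB (0, 0))
  have hint := intF hM hp (m := m + 1) L hG hB hg hgL (v := eb ⟨(l : ℕ) + 2, by omega⟩)
    (norm_eb _).le
  have hmeas : Measurable fun q : p.Bs (m + 1) =>
      G q.1.1 * fderiv ℝ g (p.X (m + 1) n q) (eb ⟨(l : ℕ) + 2, by omega⟩) :=
    (hG.comp (measurable_fst.comp measurable_fst)).mul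
      ((contF hg _).measurable.comp (hM.X p hp (m + 1) n))
  rw [P_eq] at hint ⊢
  rw [integral_prod_symm _ hint, ← Real.norm_eq_abs]
  have hQ : p.Q.real Set.univ = 1 := by simp
  rw [← mul_one ((∫ q, |G q| ∂sq) * (5 / 2 * C * L ^ m)), ← hQ]
  refine norm_integral_le_of_norm_le_const (μ := p.Q) (Eventually.of_forall fun o => ?_)
  have hi1 : Integrable (fun r : (ℝ × ℝ) × (Fin (m + 1) → ℝ) =>
      G r.1 * fderiv ℝ g (p.X (m + 1) n (r, o)) (eb ⟨(l : ℕ) + 2, by omega⟩))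
      (sq.prod (W (m + 1) L)) := by
    refine Integrable.of_bound (Measurable.aestronglyMeasurable ?_) (B * C)
      (Eventually.of_forall fun q => ?_)
    · exact hmeas.comp (measurable_id.prodMk measurable_const)
    · rw [norm_mul]
      exact mul_le_mul (hB _) (fderiv_le hgL _ _ (norm_eb _).le) (norm_nonneg _) hB0
  change ‖∫ r : (ℝ × ℝ) × (Fin (m + 1) → ℝ),
      G r.1 * fderiv ℝ g (p.X (m + 1) n (r, o)) (eb ⟨(l : ℕ) + 2, by omega⟩)
      ∂(sq.prod (W (m + 1) L))‖ ≤ _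
  rw [integral_prod _ hi1]
  have hi2 := hi1.integral_prod_left
  set Φ : ℝ → ℝ → ℝ → ℝ := fun x y z => ∫ w, fderiv ℝ g (pnt (m + 1) n x y w z)
    (eb ⟨(l : ℕ) + 2, by omega⟩) ∂(W (m + 1) L) with hΦ
  have e1 : ∀ q : ℝ × ℝ, ∫ w, G q * fderiv ℝ g (p.X (m + 1) n ((q, w), o))
      (eb ⟨(l : ℕ) + 2, by omega⟩) ∂(W (m + 1) L) = G q * Φ q.1 q.2 (p.Z o q.1 q.2) := by
    intro q
    rw [integral_const_mul]
    rfl
  simp only [e1] at hi2 ⊢
  have hi3 : Integrable G sq := integrable_sq hG hB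
  have e2 : ∫ q, G q * Φ q.1 q.2 (p.Z o q.1 q.2) ∂sq =
      ∫ q, G q * (Φ q.1 q.2 (p.Z o q.1 q.2) - Φ (1 / 2) (1 / 2) 0) ∂sq := by
    have : ∫ q, G q * Φ (1 / 2) (1 / 2) 0 ∂sq = 0 := by
      rw [integral_mul_const, hG0, zero_mul]
    have h8 := integral_sub hi2 (hi3.mul_const (Φ (1 / 2) (1 / 2) 0))
    rw [this, sub_zero] at h8
    rw [← h8]
    refine integral_congr_ae (Eventually.of_forall fun q => ?_)
    simp only
    ring
  rw [e2, ← integral_mul_const]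
  refine norm_integral_le_of_norm_le (hi3.abs.mul_const _) ?_
  filter_upwards [sq_ae] with q hq
  rw [norm_mul]
  refine mul_le_mul_of_nonneg_left ?_ (norm_nonneg _)
  refine phi_le hmn hg hgL hL l ?_ ?_ (abs_Z_le hS hp o _ _)
  · rw [abs_le]; constructor <;> linarith [hq.1.1, hq.1.2]
  · rw [abs_le]; constructor <;> linarith [hq.2.1, hq.2.2]

theorem dirw' (hS : Sz) (hM : Meas) {p : Par} (hp : p.Good) {m n : ℕ} (hmn : m + 2 ≤ n)
    {L : ℝ} (hL : 0 ≤ L) {G : ℝ × ℝ → ℝ} (hG : Measurable G) {B : ℝ} (hB : ∀ q, |G q| ≤ B)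
    (hG0 : ∫ q, G q ∂sq = 0)
    {C : ℝ≥0} {g : Rn n → ℝ} (hg : ContDiff ℝ 1 g) (hgL : LipschitzWith C g)
    (l : Fin m) (i : Fin n) (hi : (i : ℕ) = (l : ℕ) + 2) :
    L * |∫ q, G q.1.1 * fderiv ℝ g (p.X m n q) (eb i) ∂p.P m L| ≤
      (∫ q, |G q| ∂sq) * (5 / 2 * C * L ^ m) := by
  rcases m with _ | m
  · exact l.elim0
  · have h1 : i = ⟨(l : ℕ) + 2, by omega⟩ := Fin.ext hi
    have h2 := dirw hS hM hp hmn hL hG hB hG0 hg hgL l
    rw [← h1] at h2
    calc _ ≤ L * ((∫ q, |G q| ∂sq) * (5 / 2 * C * L ^ m)) := mul_le_mul_of_nonneg_left h2 hL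
      _ = _ := by rw [pow_succ]; ring

/-! ### The lower bound -/

theorem lower (hM : Meas) {p : Par} (hp : p.Good) {m n : ℕ} (hmn : m + 2 ≤ n)
    {L : ℝ} (hL : 0 ≤ L) {G : ℝ × ℝ → ℝ} (hG : Measurable G) {B : ℝ} (hB : ∀ q, |G q| ≤ B)
    {E : Rn n → ℝ} (hE : Continuous E) {D : ℝ} (hD : ∀ x, |E x| ≤ D)
    {f : ℝ → ℝ → ℝ} (hf : ∀ q : ℝ × ℝ, G q * f q.1 q.2 = |G q|)
    {K : Set (Rn n)} (hK : IsCompact K)
    (hEK : ∀ x ∈ K, E x = f (x ⟨0, by omega⟩) (x ⟨1, by omega⟩)) :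
    (∫ q, |G q| ∂sq) * L ^ m - B * (1 + D) * (p.mu m n L Kᶜ).toReal ≤
      ∫ q, G q.1.1 * E (p.X m n q) ∂p.P m L := by
  have hB0 : 0 ≤ B := (abs_nonneg _).trans (hB (0, 0))
  have hX := hM.X p hp m n
  have h1 : Integrable (fun q : p.Bs m => G q.1.1 * E (p.X m n q)) (p.P m L) := by
    refine Integrable.of_bound (Measurable.aestronglyMeasurable ?_) (B * D)
      (Eventually.of_forall fun q => ?_)
    · exact (hG.comp (measurable_fst.comp measurable_fst)).mul (hE.measurable.comp hX)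
    · rw [norm_mul]
      exact mul_le_mul (hB _) (hD _) (norm_nonneg _) hB0
  have h2 : Integrable (fun q : p.Bs m => |G q.1.1|) (p.P m L) := by
    refine Integrable.of_bound (Measurable.aestronglyMeasurable ?_) B
      (Eventually.of_forall fun q => ?_)
    · exact (hG.comp (measurable_fst.comp measurable_fst)).norm
    · rw [Real.norm_eq_abs, abs_abs]
      exact hB _
  have h3 : ∫ q : p.Bs m, |G q.1.1| ∂(p.P m L) = (∫ q, |G q| ∂sq) * L ^ m := by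
    rw [P_eq, integral_fun_fst (f := fun r : (ℝ × ℝ) × (Fin m → ℝ) => |G r.1|),
      integral_fun_fst (f := fun r : ℝ × ℝ => |G r|), W_real m hL]
    simp [mul_comm]
  have hmK : MeasurableSet Kᶜ := hK.isClosed.measurableSet.compl
  have h4 : p.mu m n L Kᶜ = p.P m L (p.X m n ⁻¹' Kᶜ) := by
    rw [Par.mu, Measure.map_apply hX hmK]
  have h5 : ∫ q : p.Bs m, (|G q.1.1| - G q.1.1 * E (p.X m n q)) ∂(p.P m L) ≤
      ∫ q : p.Bs m, (p.X m n ⁻¹' Kᶜ).indicator (fun _ => B * (1 + D)) q ∂(p.P m L) := by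
    refine integral_mono (h2.sub h1) ((integrable_const _).indicator (hX hmK)) fun q => ?_
    by_cases hq : p.X m n q ∈ K
    · have h6 : q ∉ p.X m n ⁻¹' Kᶜ := by simpa using hq
      rw [indicator_of_notMem h6]
      simp only
      rw [hEK _ hq]
      have h7 : p.X m n q ⟨0, by omega⟩ = q.1.1.1 := pnt_apply_zero _ _ _ _ _
      have h8 : p.X m n q ⟨1, by omega⟩ = q.1.1.2 := pnt_apply_one _ _ _ _ _
      rw [h7, h8, hf q.1.1, sub_self]
    · have h6 : q ∈ p.X m n ⁻¹' Kᶜ := by simpa using hq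
      rw [indicator_of_mem h6]
      have h7 : |G q.1.1 * E (p.X m n q)| ≤ B * D := by
        rw [abs_mul]
        exact mul_le_mul (hB _) (hD _) (abs_nonneg _) hB0
      have h8 := hB q.1.1
      have h9 := (abs_le.1 h7).1
      simp only
      linarith
  rw [integral_sub h2 h1, h3, integral_indicator_const _ (hX hmK)] at h5
  rw [h4]
  have h6 : (p.P m L).real (p.X m n ⁻¹' Kᶜ) = (p.P m L (p.X m n ⁻¹' Kᶜ)).toReal := rfl
  rw [h6, smul_eq_mul] at h5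
  linarith

theorem N1_nonneg (f : ℝ → ℝ → ℝ) : 0 ≤ N1 f := integral_nonneg fun _ => abs_nonneg _

end ObsAux

open ObsAux

theorem obs (hO : StmtOrn) (hS : Sz) (hT : Tilt) (hM : Meas) (hI : StmtIbp) : StmtObs := by
  intro m n hmn C
  have hC0 : (0 : ℝ) ≤ C := C.2
  obtain ⟨h, hh, horn⟩ := hO (16 * ((C : ℝ) + 1))
  obtain ⟨G, hGdef⟩ : ∃ G : ℝ × ℝ → ℝ, G = fun q =>
    D1 (D1 h) q.1 q.2 - D2 (D2 h) q.1 q.2 := ⟨_, rfl⟩
  obtain ⟨a, ha⟩ : ∃ a, a = ∫ q, |G q| ∂sq := ⟨_, rfl⟩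
  obtain ⟨b1, hb1⟩ : ∃ b1, b1 = N1 (fun x y => D1 (D1 h) x y + D2 (D2 h) x y) := ⟨_, rfl⟩
  obtain ⟨b2, hb2⟩ : ∃ b2, b2 = N1 (D1 (D2 h)) := ⟨_, rfl⟩
  have hb10 : 0 ≤ b1 := hb1 ▸ N1_nonneg _
  have hb20 : 0 ≤ b2 := hb2 ▸ N1_nonneg _
  have haN : a = N1 (fun x y => D1 (D1 h) x y - D2 (D2 h) x y) := by rw [ha, hGdef]; rfl
  rw [← haN, ← hb1, ← hb2] at horn
  have ha0 : 0 < a := lt_of_le_of_lt (by positivity) horn
  have t11 := tfD1 (tfD1 hh)
  have t22 := tfD2 (tfD2 hh)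
  obtain ⟨B1, hB10, hB1⟩ := tf_bdd t11
  obtain ⟨B2, hB20, hB2⟩ := tf_bdd t22
  obtain ⟨B3, hB30, hB3⟩ := tf_bdd (tfD1 (tfD2 hh))
  obtain ⟨B4, hB40, hB4⟩ := tf_bdd (tfD1 (tfD1 (tfD2 hh)))
  obtain ⟨B5, hB50, hB5⟩ := tf_bdd (tfD1 (tfD2 (tfD2 hh)))
  obtain ⟨B, hB⟩ : ∃ B, B = B1 + B2 + B3 + B4 + B5 + 1 := ⟨_, rfl⟩
  have hBpos : 0 < B := by rw [hB]; positivity
  have hBB : ∀ x y, |D1 (D1 h) x y| ≤ B ∧ |D2 (D2 h) x y| ≤ B ∧ |D1 (D2 h) x y| ≤ B ∧
      |D1 (D1 (D2 h)) x y| ≤ B ∧ |D1 (D2 (D2 h)) x y| ≤ B := by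
    intro x y
    refine ⟨?_, ?_, ?_, ?_, ?_⟩
    · have := hB1 x y; linarith
    · have := hB2 x y; linarith
    · have := hB3 x y; linarith
    · have := hB4 x y; linarith
    · have := hB5 x y; linarith
  have hGm : Measurable G := by
    rw [hGdef]
    exact ((tf_cont t11).sub (tf_cont t22)).measurable
  have hGB : ∀ q, |G q| ≤ 2 * B := by
    intro q
    rw [hGdef]
    have h1 := (hBB q.1 q.2).1
    have h2 := (hBB q.1 q.2).2.1
    exact (abs_sub _ _).trans (by linarith)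
  have hG0 : ∫ q, G q ∂sq = 0 := by
    rw [hGdef, integral_sub (tf_int t11) (tf_int t22), intD1 (tfD1 hh), intD2 (tfD2 hh), sub_zero]
  obtain ⟨κ, hκ, hmean⟩ := hT.mean
  obtain ⟨Δ, hΔ⟩ : ∃ Δ, Δ = a / (1600 * (C * B + 1)) := ⟨_, rfl⟩
  have hCB : 0 ≤ (C : ℝ) * B := mul_nonneg hC0 hBpos.le
  have hΔ0 : 0 < Δ := by rw [hΔ]; positivity
  have hΔ1 : 1600 * (C * B * Δ) ≤ a := by
    rw [hΔ]
    have : 1600 * (C * B * (a / (1600 * (C * B + 1)))) = a * (C * B / (C * B + 1)) := by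
      field_simp
    rw [this]
    have h2 : (C : ℝ) * B / (C * B + 1) ≤ 1 := by
      rw [div_le_one (by positivity)]; linarith
    nlinarith
  obtain ⟨η, hη⟩ : ∃ η, η = Δ / 2 := ⟨_, rfl⟩
  have hη0 : 0 < η := by rw [hη]; positivity
  obtain ⟨δ, hδ⟩ : ∃ δ, δ = min Δ (Δ / 2 * Real.sqrt η / κ) := ⟨_, rfl⟩
  have hsη : 0 < Real.sqrt η := Real.sqrt_pos.2 hη0
  have hδ0 : 0 < δ := by rw [hδ]; exact lt_min hΔ0 (by positivity)
  have hδ1 : δ ≤ Δ := hδ ▸ min_le_left _ _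
  have hδ2 : κ / Real.sqrt η * δ ≤ Δ / 2 := by
    have : δ ≤ Δ / 2 * Real.sqrt η / κ := hδ ▸ min_le_right _ _
    calc κ / Real.sqrt η * δ ≤ κ / Real.sqrt η * (Δ / 2 * Real.sqrt η / κ) := by gcongr
      _ = Δ / 2 := by field_simp
  obtain ⟨L, hLdef⟩ : ∃ L : ℝ, L = 8 * ((m : ℝ) * C + 1) := ⟨_, rfl⟩
  have hL : 0 < L := by rw [hLdef]; positivity
  obtain ⟨D, hD⟩ : ∃ D : ℝ, D = ((m : ℝ) + 2) * C := ⟨_, rfl⟩
  have hD0 : 0 ≤ D := by rw [hD]; positivity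
  obtain ⟨e0, he0⟩ : ∃ e0 : ℝ, e0 = a * L ^ m / (8 * (2 * B * (1 + D))) := ⟨_, rfl⟩
  have he0p : 0 < e0 := by rw [he0]; positivity
  have he1 : 2 * B * (1 + D) * e0 = a * L ^ m / 8 := by
    rw [he0]; field_simp
  refine ⟨L, δ, fun x y => if 0 ≤ G (x, y) then 1 else -1, ENNReal.ofReal e0, hL, hδ0, ?_, ?_,
    by simpa using he0p, ?_⟩
  · exact Measurable.ite (measurableSet_le measurable_const hGm) measurable_const
      measurable_const
  · intro x y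
    simp only
    split_ifs <;> simp
  intro p hp hp1 hp2 g hg hgL K hK hKε
  by_contra hcon
  push Not at hcon
  -- the function `E`
  obtain ⟨E, hEdef⟩ : ∃ E : Rn n → ℝ, E = fun x => ∑ i, fderiv ℝ (g i) x (eb (top m n hmn i)) :=
    ⟨_, rfl⟩
  have hEc : Continuous E := by
    rw [hEdef]
    exact continuous_finset_sum _ fun i _ => contF (hg i) _
  have hED : ∀ x, |E x| ≤ D := by
    intro x
    rw [hEdef]
    refine (Finset.abs_sum_le_sum_abs _ _).trans ?_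
    refine (Finset.sum_le_sum fun i _ => fderiv_le (hgL i) x _ (norm_eb _).le).trans ?_
    rw [hD]
    simp
  have hlow := lower hM hp hmn hL.le hGm hGB hEc hED
    (f := fun x y => if 0 ≤ G (x, y) then 1 else -1) (by
      intro q
      simp only [Prod.mk.eta]
      split_ifs with hq
      · rw [abs_of_nonneg hq, mul_one]
      · rw [abs_of_neg (not_le.1 hq), mul_neg_one]) hK (by
      intro x hx
      rw [hEdef]
      exact hcon x hx)
  have hmuK : (p.mu m n L Kᶜ).toReal ≤ e0 := by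
    refine ENNReal.toReal_le_of_le_ofReal he0p.le hKε.le
  have hlow2 : a * L ^ m * (7 / 8) ≤ ∫ q, G q.1.1 * E (p.X m n q) ∂p.P m L := by
    rw [← ha] at hlow
    have h1 : 2 * B * (1 + D) * (p.mu m n L Kᶜ).toReal ≤ 2 * B * (1 + D) * e0 :=
      mul_le_mul_of_nonneg_left hmuK (by positivity)
    rw [he1] at h1
    linarith
  -- the sum of the directions
  have hsum : ∫ q, G q.1.1 * E (p.X m n q) ∂p.P m L =
      ∑ i, ∫ q, G q.1.1 * fderiv ℝ (g i) (p.X m n q) (eb (top m n hmn i)) ∂p.P m L := by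
    rw [← integral_finset_sum _ fun i _ =>
      intF hM hp L hGm hGB (hg i) (hgL i) (norm_eb (top m n hmn i)).le]
    refine integral_congr_ae (Eventually.of_forall fun q => ?_)
    simp only [hEdef, Finset.mul_sum]
  -- the conditions
  have hc1 : ∀ N, ∑ i ∈ Finset.range N, 1 / (p.M i : ℝ) ≤ Δ := fun N => (hp1 N).trans hδ1
  have hc2 : ∀ N, η + κ / Real.sqrt η * ∑ i ∈ Finset.range N, p.s i ^ (3 / 2 : ℝ) ≤ Δ := by
    intro N
    have h1 : κ / Real.sqrt η * ∑ i ∈ Finset.range N, p.s i ^ (3 / 2 : ℝ) ≤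
        κ / Real.sqrt η * δ := mul_le_mul_of_nonneg_left (hp2 N) (by positivity)
    rw [hη] at h1 ⊢
    rw [hη] at hδ2
    linarith
  obtain ⟨R, hRdef⟩ : ∃ R, R = C * (b1 + 2 * b2) + 100 * C * B * Δ := ⟨_, rfl⟩
  have hR : ∀ a : Fin 3, a = 0 ∨ a = 1 → ∀ k : ℝ × ℝ × ℝ → ℝ, ContDiff ℝ 1 k →
      (∀ b q, |pd b k q| ≤ C) → ∀ N,
      |∫ q, p.av N (fun d => G q * pd a k (q.1, q.2, p.Zs d q.1 q.2)) ∂sq| ≤ R := by
    intro a ha k hk hkC N
    obtain ⟨m1, m2, m3, m4⟩ := hmean p hp.Npos hp.spos N η hη0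
    have := hI p hp C B Δ N h hh hBB (hc1 N) (m1.trans (hc2 N)) (m2.trans (hc2 N)) m3 m4 k hk
      hkC a ha
    rw [← hb1, ← hb2, ← hRdef] at this
    rw [hGdef]
    exact this
  have hRa : 16 * R ≤ 3 * a := by
    have h1 : 16 * (C * (b1 + 2 * b2)) ≤ 2 * a := by
      have h2 : 0 ≤ b1 + b2 := by positivity
      have h3 : (C : ℝ) * (b1 + 2 * b2) ≤ 2 * (((C : ℝ) + 1) * (b1 + b2)) := by nlinarith
      nlinarith
    rw [hRdef]
    nlinarith
  have hLm : 0 < L ^ m := by positivity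
  rw [hsum, Fin.sum_univ_succ, Fin.sum_univ_succ] at hlow2
  have d0 := dir01 hS hM hp hmn hL.le hGm hGB (hg 0) (hgL 0) 0 (Or.inl rfl)
    (hR 0 (Or.inl rfl)) (top m n hmn 0) rfl
  have d1 := dir01 hS hM hp hmn hL.le hGm hGB (hg (Fin.succ 0)) (hgL (Fin.succ 0)) 1 (Or.inr rfl)
    (hR 1 (Or.inr rfl)) (top m n hmn (Fin.succ 0)) rfl
  have d2 : L * ∑ l : Fin m, ∫ q, G q.1.1 * fderiv ℝ (g l.succ.succ) (p.X m n q)
      (eb (top m n hmn l.succ.succ)) ∂p.P m L ≤ m * (a * (5 / 2 * C * L ^ m)) := by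
    rw [Finset.mul_sum]
    have h1 : ∀ l ∈ (Finset.univ : Finset (Fin m)),
        L * ∫ q, G q.1.1 * fderiv ℝ (g l.succ.succ) (p.X m n q)
      (eb (top m n hmn l.succ.succ)) ∂p.P m L ≤ a * (5 / 2 * C * L ^ m) := by
      intro l _
      have h2 := dirw' hS hM hp hmn hL.le hGm hGB hG0 (hg l.succ.succ) (hgL l.succ.succ) l
        (top m n hmn l.succ.succ) rfl
      rw [← ha] at h2
      exact (mul_le_mul_of_nonneg_left (le_abs_self _) hL.le).trans h2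
    refine (Finset.sum_le_sum h1).trans ?_
    simp
  have d0' := (le_abs_self _).trans d0
  have d1' := (le_abs_self _).trans d1
  have h16 : 8 * ((m : ℝ) * C) ≤ L := by rw [hLdef]; linarith
  have d3 : (m : ℝ) * (a * (5 / 2 * C * L ^ m)) ≤ L * (a * L ^ m * (5 / 16)) := by
    have : (m : ℝ) * (a * (5 / 2 * C * L ^ m)) = (8 * ((m : ℝ) * C)) * (a * L ^ m * (5 / 16)) := by
      ring
    rw [this]
    exact mul_le_mul_of_nonneg_right h16 (by positivity)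
  have d4 := le_of_mul_le_mul_left (d2.trans d3) hL
  have d5 : 2 * (R * L ^ m) ≤ a * L ^ m * (6 / 16) := by nlinarith
  have d6 : 0 < a * L ^ m := by positivity
  linarith

end Pool.Agent.T6.H55.LU
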