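import Pool.Agent.T6.H55.LU.Stm

set_option autoImplicit false

open MeasureTheory Filter Topology
open scoped ContDiff

namespace Pool.Agent.T6.H55.LU

noncomputable section

namespace ModOrn

/-- smooth functions of two variables -/
def Sm (f : ℝ → ℝ → ℝ) : Prop :=
  ContDiff ℝ ((⊤ : ℕ∞) : WithTop ℕ∞) (fun q : ℝ × ℝ => f q.1 q.2)

theorem Sm.add {f g : ℝ → ℝ → ℝ} (hf : Sm f) (hg : Sm g) : Sm (fun x y => f x y + g x y) :=
  ContDiff.add hf hg

theorem Sm.mul {f g : ℝ → ℝ → ℝ} (hf : Sm f) (hg : Sm g) : Sm (fun x y => f x y * g x y) :=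
  ContDiff.mul hf hg

theorem Sm.neg {f : ℝ → ℝ → ℝ} (hf : Sm f) : Sm (fun x y => -f x y) := ContDiff.neg hf

theorem Sm.const (c : ℝ) : Sm (fun _ _ => c) := contDiff_const

theorem Sm.swap {f : ℝ → ℝ → ℝ} (hf : Sm f) : Sm (fun x y => f y x) :=
  ContDiff.comp (g := fun q : ℝ × ℝ => f q.1 q.2) (f := fun q : ℝ × ℝ => (q.2, q.1)) hf
    (contDiff_snd.prodMk contDiff_fst)

theorem Sm.fx {β : ℝ → ℝ} (hβ : ContDiff ℝ ((⊤ : ℕ∞) : WithTop ℕ∞) β) (c : ℝ) :
    Sm (fun x _ => β (c * x)) :=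
  ContDiff.comp (g := β) (f := fun q : ℝ × ℝ => c * q.1) hβ (contDiff_const.mul contDiff_fst)

theorem Sm.cont {f : ℝ → ℝ → ℝ} (hf : Sm f) : Continuous (fun q : ℝ × ℝ => f q.1 q.2) :=
  ContDiff.continuous hf

theorem Sm.d1' {f : ℝ → ℝ → ℝ} (hf : Sm f) (x y : ℝ) :
    HasDerivAt (fun t => f t y) (fderiv ℝ (fun q : ℝ × ℝ => f q.1 q.2) (x, y) (1, 0)) x := by
  have h1 : HasFDerivAt (fun q : ℝ × ℝ => f q.1 q.2)
      (fderiv ℝ (fun q : ℝ × ℝ => f q.1 q.2) (x, y)) (x, y) :=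
    ((ContDiff.differentiable hf (by simp)) (x, y)).hasFDerivAt
  have h2 : HasDerivAt (fun t : ℝ => (t, y)) ((1 : ℝ), (0 : ℝ)) x :=
    (hasDerivAt_id x).prodMk (hasDerivAt_const x y)
  exact h1.comp_hasDerivAt x h2

theorem Sm.d2' {f : ℝ → ℝ → ℝ} (hf : Sm f) (x y : ℝ) :
    HasDerivAt (fun t => f x t) (fderiv ℝ (fun q : ℝ × ℝ => f q.1 q.2) (x, y) (0, 1)) y := by
  have h1 : HasFDerivAt (fun q : ℝ × ℝ => f q.1 q.2)
      (fderiv ℝ (fun q : ℝ × ℝ => f q.1 q.2) (x, y)) (x, y) :=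
    ((ContDiff.differentiable hf (by simp)) (x, y)).hasFDerivAt
  have h2 : HasDerivAt (fun t : ℝ => (x, t)) ((0 : ℝ), (1 : ℝ)) y :=
    (hasDerivAt_const y x).prodMk (hasDerivAt_id y)
  exact h1.comp_hasDerivAt y h2

theorem Sm.d1 {f : ℝ → ℝ → ℝ} (hf : Sm f) (x y : ℝ) :
    HasDerivAt (fun t => f t y) (D1 f x y) x := by
  have := hf.d1' x y
  rw [D1, this.deriv]; exact this

theorem Sm.d2 {f : ℝ → ℝ → ℝ} (hf : Sm f) (x y : ℝ) :
    HasDerivAt (fun t => f x t) (D2 f x y) y := by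
  have := hf.d2' x y
  rw [D2, this.deriv]; exact this

theorem Sm.D1 {f : ℝ → ℝ → ℝ} (hf : Sm f) : Sm (D1 f) := by
  have e : (fun q : ℝ × ℝ => LU.D1 f q.1 q.2) =
      fun q => fderiv ℝ (fun q : ℝ × ℝ => f q.1 q.2) q (1, 0) := by
    funext q
    exact (hf.d1' q.1 q.2).deriv
  unfold Sm
  rw [e]
  exact (ContDiff.fderiv_right (m := ((⊤ : ℕ∞) : WithTop ℕ∞)) hf le_rfl).clm_apply contDiff_const

theorem Sm.D2 {f : ℝ → ℝ → ℝ} (hf : Sm f) : Sm (D2 f) := by
  have e : (fun q : ℝ × ℝ => LU.D2 f q.1 q.2) =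
      fun q => fderiv ℝ (fun q : ℝ × ℝ => f q.1 q.2) q (0, 1) := by
    funext q
    exact (hf.d2' q.1 q.2).deriv
  unfold Sm
  rw [e]
  exact (ContDiff.fderiv_right (m := ((⊤ : ℕ∞) : WithTop ℕ∞)) hf le_rfl).clm_apply contDiff_const

/-- bounded on the unit square -/
theorem Sm.bdd {f : ℝ → ℝ → ℝ} (hf : Sm f) :
    ∃ K : ℝ, 0 ≤ K ∧ ∀ x ∈ Set.Icc (0 : ℝ) 1, ∀ y ∈ Set.Icc (0 : ℝ) 1, |f x y| ≤ K := by
  have hc : IsCompact (Set.Icc (0 : ℝ) 1 ×ˢ Set.Icc (0 : ℝ) 1) := isCompact_Icc.prod isCompact_Icc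
  obtain ⟨K, hK⟩ := hc.exists_bound_of_continuousOn hf.cont.continuousOn
  refine ⟨|K|, abs_nonneg _, fun x hx y hy => ?_⟩
  have := hK (x, y) ⟨hx, hy⟩
  exact this.trans (le_abs_self K)

/-- integral over the unit square -/
def J (f : ℝ → ℝ → ℝ) : ℝ := ∫ q, f q.1 q.2 ∂sq

theorem sq_eq : sq = (volume : Measure (ℝ × ℝ)).restrict (Set.Icc (0 : ℝ) 1 ×ˢ Set.Icc (0 : ℝ) 1) := by
  unfold sq
  rw [Measure.prod_restrict]
  rfl

instance : IsProbabilityMeasure (volume.restrict (Set.Icc (0 : ℝ) 1)) := ⟨by simp⟩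

instance : IsProbabilityMeasure sq := by
  unfold sq
  infer_instance

theorem cont_int {f : ℝ × ℝ → ℝ} (hf : Continuous f) : Integrable f sq := by
  rw [sq_eq]
  exact (hf.continuousOn.integrableOn_compact (isCompact_Icc.prod isCompact_Icc))

theorem Sm.int {f : ℝ → ℝ → ℝ} (hf : Sm f) : Integrable (fun q : ℝ × ℝ => f q.1 q.2) sq :=
  cont_int hf.cont

theorem ae_sq : ∀ᵐ q ∂sq, q.1 ∈ Set.Icc (0 : ℝ) 1 ∧ q.2 ∈ Set.Icc (0 : ℝ) 1 := by
  rw [sq_eq]
  filter_upwards [ae_restrict_mem (measurableSet_Icc.prod measurableSet_Icc)] with q hq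
  exact hq

/-- the Riemann-Lebesgue lemma -/
theorem RL {A B : ℝ → ℝ} {m KB : ℝ} (hA : Continuous A) (hB : ∀ t, HasDerivAt B (A t - m) t)
    (hKB : ∀ t, |B t| ≤ KB) {Φ : ℝ → ℝ → ℝ} (hΦ : Sm Φ) (h0 : ∀ y, Φ 0 y = 0)
    (h1 : ∀ y, Φ 1 y = 0) :
    ∃ K : ℝ, 0 ≤ K ∧ ∀ c : ℝ, 0 < c →
      |J (fun x y => A (c * x) * Φ x y) - m * J Φ| ≤ K / c := by
  obtain ⟨K, hK0, hK⟩ := hΦ.D1.bdd
  have hKB0 : 0 ≤ KB := (abs_nonneg _).trans (hKB 0)
  refine ⟨K * KB, by positivity, fun c hc => ?_⟩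
  have hcA : Continuous fun q : ℝ × ℝ => A (c * q.1) * Φ q.1 q.2 :=
    (hA.comp (continuous_const.mul continuous_fst)).mul hΦ.cont
  have hcm : Continuous fun q : ℝ × ℝ => m * Φ q.1 q.2 := continuous_const.mul hΦ.cont
  have e1 : J (fun x y => A (c * x) * Φ x y) - m * J Φ =
      ∫ q, (A (c * q.1) - m) * Φ q.1 q.2 ∂sq := by
    unfold J
    rw [← integral_const_mul, ← integral_sub (cont_int hcA) (cont_int hcm)]
    refine integral_congr_ae (Eventually.of_forall fun q => ?_)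
    ring
  have hcc : Continuous fun q : ℝ × ℝ => (A (c * q.1) - m) * Φ q.1 q.2 :=
    ((hA.comp (continuous_const.mul continuous_fst)).sub continuous_const).mul hΦ.cont
  rw [e1]
  have hint := cont_int hcc
  unfold sq at hint ⊢
  rw [integral_prod_symm _ hint]
  have hin : ∀ y ∈ Set.Icc (0 : ℝ) 1,
      |∫ x in Set.Icc (0 : ℝ) 1, (A (c * x) - m) * Φ x y| ≤ K * KB / c := by
    intro y hy
    rw [integral_Icc_eq_integral_Ioc, ← intervalIntegral.integral_of_le zero_le_one]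
    have hv : ∀ x : ℝ, HasDerivAt (fun x => c⁻¹ * B (c * x)) (A (c * x) - m) x := by
      intro x
      have h2 : HasDerivAt (fun x : ℝ => c * x) c x := by
        simpa using (hasDerivAt_id x).const_mul c
      have h3 := ((hB (c * x)).comp x h2).const_mul c⁻¹
      refine h3.congr_deriv ?_
      field_simp
    have hΦy : Continuous fun x => Φ x y :=
      hΦ.cont.comp (continuous_id.prodMk continuous_const)
    have hDy : Continuous fun x => LU.D1 Φ x y :=
      hΦ.D1.cont.comp (continuous_id.prodMk continuous_const)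
    have hAc : Continuous fun x => A (c * x) - m :=
      (hA.comp (continuous_const.mul continuous_id)).sub continuous_const
    have h4 := intervalIntegral.integral_mul_deriv_eq_deriv_mul (a := 0) (b := 1)
      (u := fun x => Φ x y) (v := fun x => c⁻¹ * B (c * x)) (u' := fun x => LU.D1 Φ x y)
      (v' := fun x => A (c * x) - m) (fun x _ => hΦ.d1 x y) (fun x _ => hv x)
      (hDy.intervalIntegrable _ _) (hAc.intervalIntegrable _ _)
    have h5 : ∫ x in (0 : ℝ)..1, (A (c * x) - m) * Φ x y =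
        ∫ x in (0 : ℝ)..1, Φ x y * (A (c * x) - m) := by
      refine intervalIntegral.integral_congr fun x _ => ?_
      ring
    rw [h5, h4, h0, h1]
    simp only [zero_mul, sub_zero, zero_sub]
    rw [abs_neg]
    have h6 := intervalIntegral.norm_integral_le_of_norm_le_const (a := 0) (b := 1)
      (C := K * KB / c) (f := fun x => LU.D1 Φ x y * (c⁻¹ * B (c * x))) (fun x hx => by
        rw [Set.uIoc_of_le zero_le_one] at hx
        rw [Real.norm_eq_abs, abs_mul, abs_mul, abs_of_pos (inv_pos.2 hc)]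
        have h7 := hK x ⟨hx.1.le, hx.2⟩ y hy
        have h8 := hKB (c * x)
        calc |LU.D1 Φ x y| * (c⁻¹ * |B (c * x)|) ≤ K * (c⁻¹ * KB) := by gcongr
          _ = K * KB / c := by ring)
    simpa using h6
  have h9 : ∀ᵐ y ∂(volume.restrict (Set.Icc (0 : ℝ) 1)),
      ‖∫ x in Set.Icc (0 : ℝ) 1, (A (c * x) - m) * Φ x y‖ ≤ K * KB / c := by
    filter_upwards [ae_restrict_mem measurableSet_Icc] with y hy
    exact hin y hy
  have h10 := norm_integral_le_of_norm_le_const h9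
  simpa using h10


/-! ### one variable -/

theorem per_prim {A : ℝ → ℝ} (hA : Continuous A) (hp : Function.Periodic A 1)
    (h0 : ∫ t in (0 : ℝ)..1, A t = 0) (k : ℝ) :
    Function.Periodic (fun t => (∫ u in (0 : ℝ)..t, A u) + k) 1 := by
  intro t
  have h1 : ∫ u in (0 : ℝ)..(t + 1), A u = (∫ u in (0 : ℝ)..t, A u) + ∫ u in t..(t + 1), A u :=
    (intervalIntegral.integral_add_adjacent_intervals (hA.intervalIntegrable _ _)
      (hA.intervalIntegrable _ _)).symm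
  have h2 : ∫ u in t..(t + 1), A u = ∫ u in (0 : ℝ)..(0 + 1), A u :=
    hp.intervalIntegral_add_eq t 0
  rw [zero_add, h0] at h2
  simp only [h1, h2, add_zero]

theorem per_bdd {A : ℝ → ℝ} (hA : Continuous A) (hp : Function.Periodic A 1) :
    ∃ K : ℝ, ∀ t, |A t| ≤ K := by
  obtain ⟨K, hK⟩ := isCompact_Icc.exists_bound_of_continuousOn (s := Set.Icc (0 : ℝ) 1)
    hA.continuousOn
  refine ⟨K, fun t => ?_⟩
  obtain ⟨y, hy, hy2⟩ := hp.exists_mem_Ico₀ one_pos t
  rw [hy2]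
  exact hK y ⟨hy.1, hy.2.le⟩

theorem prim_deriv {A : ℝ → ℝ} (hA : Continuous A) (k t : ℝ) :
    HasDerivAt (fun t => (∫ u in (0 : ℝ)..t, A u) + k) (A t) t := by
  have := (intervalIntegral.integral_hasDerivAt_right (hA.intervalIntegrable 0 t)
    (hA.stronglyMeasurableAtFilter _ _) hA.continuousAt)
  exact this.add_const k

/-- the oscillating functions -/
def aK (K : ℕ) (t : ℝ) : ℝ := 2 / Real.pi * Real.arctan (K * Real.sin (2 * Real.pi * t))

theorem aK_smooth (K : ℕ) : ContDiff ℝ ((⊤ : ℕ∞) : WithTop ℕ∞) (aK K) := by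
  unfold aK
  refine contDiff_const.mul (Real.contDiff_arctan.comp ?_)
  exact contDiff_const.mul (Real.contDiff_sin.comp (contDiff_const.mul contDiff_id))

theorem aK_per (K : ℕ) : Function.Periodic (aK K) 1 := by
  intro t
  unfold aK
  rw [show 2 * Real.pi * (t + 1) = 2 * Real.pi * t + 2 * Real.pi by ring, Real.sin_add_two_pi]

theorem aK_abs (K : ℕ) (t : ℝ) : |aK K t| ≤ 1 := by
  unfold aK
  have h1 := Real.arctan_lt_pi_div_two (K * Real.sin (2 * Real.pi * t))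
  have h2 := Real.neg_pi_div_two_lt_arctan (K * Real.sin (2 * Real.pi * t))
  have hpi := Real.pi_pos
  rw [abs_le]
  constructor
  · have : 2 / Real.pi * (-(Real.pi / 2)) ≤
        2 / Real.pi * Real.arctan (K * Real.sin (2 * Real.pi * t)) := by gcongr
    have h3 : 2 / Real.pi * (-(Real.pi / 2)) = -1 := by field_simp
    linarith
  · have : 2 / Real.pi * Real.arctan (K * Real.sin (2 * Real.pi * t)) ≤
        2 / Real.pi * (Real.pi / 2) := by gcongr
    have h3 : 2 / Real.pi * (Real.pi / 2) = 1 := by field_simp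
    linarith

theorem aK_mean (K : ℕ) : ∫ t in (0 : ℝ)..1, aK K t = 0 := by
  have h1 : ∫ t in (0 : ℝ)..1, aK K (1 - t) = ∫ t in (0 : ℝ)..1, aK K t := by
    have := intervalIntegral.integral_comp_sub_left (a := 0) (b := 1) (fun t => aK K t) 1
    simpa using this
  have h2 : ∀ t, aK K (1 - t) = -aK K t := by
    intro t
    unfold aK
    rw [show 2 * Real.pi * (1 - t) = 2 * Real.pi - 2 * Real.pi * t by ring,
      Real.sin_two_pi_sub, mul_neg, Real.arctan_neg]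
    ring
  simp only [h2, intervalIntegral.integral_neg] at h1
  linarith

theorem aK_sq : Tendsto (fun K : ℕ => ∫ t in (0 : ℝ)..1, aK K t ^ 2) atTop (𝓝 1) := by
  suffices h : Tendsto (fun K : ℕ => ∫ t in (0 : ℝ)..1, aK K t ^ 2) atTop
      (𝓝 (∫ _t in (0 : ℝ)..1, (1 : ℝ))) by simpa using h
  apply intervalIntegral.tendsto_integral_filter_of_dominated_convergence (fun _ => (1 : ℝ))
  · exact Eventually.of_forall fun K => ((aK_smooth K).continuous.pow 2).aestronglyMeasurable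
  · refine Eventually.of_forall fun K => Eventually.of_forall fun t _ => ?_
    rw [Real.norm_eq_abs, abs_pow]
    exact pow_le_one₀ (abs_nonneg _) (aK_abs K t)
  · exact intervalIntegrable_const
  · have hfin : ({1 / 2, 1} : Set ℝ).Finite := by simp
    have hnull : ∀ᵐ t : ℝ, t ∉ ({1 / 2, 1} : Set ℝ) :=
      compl_mem_ae_iff.2 (hfin.measure_zero volume)
    filter_upwards [hnull] with t ht htI
    rw [Set.uIoc_of_le zero_le_one] at htI
    simp only [Set.mem_insert_iff, Set.mem_singleton_iff, not_or] at ht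
    have hs : Real.sin (2 * Real.pi * t) ≠ 0 := by
      intro h
      rw [Real.sin_eq_zero_iff] at h
      obtain ⟨n, hn⟩ := h
      have hpi := Real.pi_pos
      have h2 : (n : ℝ) = 2 * t := by
        have : (n : ℝ) * Real.pi = 2 * t * Real.pi := by linarith
        exact mul_right_cancel₀ hpi.ne' this
      have h3 : (0 : ℝ) < n := by rw [h2]; linarith [htI.1]
      have h4 : (n : ℝ) ≤ 2 := by rw [h2]; linarith [htI.2]
      have h5 : 0 < n := by exact_mod_cast h3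
      have h6 : n ≤ 2 := by exact_mod_cast h4
      have h7 : n = 1 ∨ n = 2 := by omega
      rcases h7 with rfl | rfl
      · apply ht.1; push_cast at h2; linarith
      · apply ht.2; push_cast at h2; linarith
    have h8 : ∀ K : ℕ, aK K t ^ 2 =
        (2 / Real.pi * Real.arctan (K * |Real.sin (2 * Real.pi * t)|)) ^ 2 := by
      intro K
      unfold aK
      rcases abs_choice (Real.sin (2 * Real.pi * t)) with h | h
      · rw [h]
      · rw [h, mul_neg, Real.arctan_neg]; ring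
    simp only [h8]
    have h9 : Tendsto (fun K : ℕ => (K : ℝ) * |Real.sin (2 * Real.pi * t)|) atTop atTop :=
      tendsto_natCast_atTop_atTop.atTop_mul_const (abs_pos.2 hs)
    have h10 : Tendsto (fun K : ℕ => Real.arctan ((K : ℝ) * |Real.sin (2 * Real.pi * t)|)) atTop
        (𝓝 (Real.pi / 2)) :=
      (tendsto_nhds_of_tendsto_nhdsWithin Real.tendsto_arctan_atTop).comp h9
    have h11 := ((h10.const_mul (2 / Real.pi)).pow 2)
    have h12 : (2 / Real.pi * (Real.pi / 2)) ^ 2 = 1 := by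
      have := Real.pi_pos
      field_simp
    rw [h12] at h11
    exact h11

/-- the package of one-variable functions -/
structure Osc (a b1 b s : ℝ → ℝ) (q K : ℝ) : Prop where
  sa : ContDiff ℝ ((⊤ : ℕ∞) : WithTop ℕ∞) a
  sb1 : ContDiff ℝ ((⊤ : ℕ∞) : WithTop ℕ∞) b1
  sb : ContDiff ℝ ((⊤ : ℕ∞) : WithTop ℕ∞) b
  db : ∀ t, HasDerivAt b (b1 t) t
  db1 : ∀ t, HasDerivAt b1 (a t) t
  ds : ∀ t, HasDerivAt s (a t ^ 2 - q) t
  ka : ∀ t, |a t| ≤ 1
  kb1 : ∀ t, |b1 t| ≤ K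
  kb : ∀ t, |b t| ≤ K
  ks : ∀ t, |s t| ≤ K
  hq : q ≤ 1

theorem exists_osc {δ : ℝ} (hδ : 0 < δ) : ∃ (a b1 b s : ℝ → ℝ) (q K : ℝ), Osc a b1 b s q K ∧
    1 - δ ≤ q := by
  obtain ⟨n, hn⟩ := (aK_sq.eventually (eventually_gt_nhds (show 1 - δ < 1 by linarith))).exists
  set a := aK n with ha
  set q := ∫ t in (0 : ℝ)..1, a t ^ 2 with hq
  have hac : Continuous a := (aK_smooth n).continuous
  have hap : Function.Periodic a 1 := aK_per n
  set m1 := ∫ t in (0 : ℝ)..1, ∫ u in (0 : ℝ)..t, a u with hm1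
  set b1 : ℝ → ℝ := fun t => (∫ u in (0 : ℝ)..t, a u) + -m1 with hb1
  have hb1d : ∀ t, HasDerivAt b1 (a t) t := fun t => prim_deriv hac (-m1) t
  have hb1c : Continuous b1 := continuous_iff_continuousAt.2 fun t => (hb1d t).continuousAt
  have hb1p : Function.Periodic b1 1 := per_prim hac hap (aK_mean n) (-m1)
  have hb1m : ∫ t in (0 : ℝ)..1, b1 t = 0 := by
    have hc0 : Continuous fun t : ℝ => ∫ u in (0 : ℝ)..t, a u :=
      continuous_iff_continuousAt.2 fun t => by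
        have := (prim_deriv hac 0 t).continuousAt
        simp only [add_zero] at this
        exact this
    simp only [hb1]
    rw [intervalIntegral.integral_add (hc0.intervalIntegrable _ _) intervalIntegrable_const]
    simp [hm1]
  set b : ℝ → ℝ := fun t => (∫ u in (0 : ℝ)..t, b1 u) + 0 with hb
  have hbd : ∀ t, HasDerivAt b (b1 t) t := fun t => prim_deriv hb1c 0 t
  have hbc : Continuous b := continuous_iff_continuousAt.2 fun t => (hbd t).continuousAt
  have hbp : Function.Periodic b 1 := per_prim hb1c hb1p hb1m 0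
  have ha2 : Continuous fun t => a t ^ 2 := hac.pow 2
  have hsc : Continuous fun t => a t ^ 2 - q := ha2.sub continuous_const
  have hsp : Function.Periodic (fun t => a t ^ 2 - q) 1 := by
    intro t
    simp only [hap t]
  have hsm : ∫ t in (0 : ℝ)..1, (a t ^ 2 - q) = 0 := by
    rw [intervalIntegral.integral_sub (ha2.intervalIntegrable _ _)
      intervalIntegrable_const]
    simp [hq]
  set s : ℝ → ℝ := fun t => (∫ u in (0 : ℝ)..t, (a u ^ 2 - q)) + 0 with hs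
  have hsd : ∀ t, HasDerivAt s (a t ^ 2 - q) t := fun t => prim_deriv hsc 0 t
  have hscc : Continuous s := continuous_iff_continuousAt.2 fun t => (hsd t).continuousAt
  have hspp : Function.Periodic s 1 := per_prim hsc hsp hsm 0
  obtain ⟨K1, hK1⟩ := per_bdd hb1c hb1p
  obtain ⟨K2, hK2⟩ := per_bdd hbc hbp
  obtain ⟨K3, hK3⟩ := per_bdd hscc hspp
  have smb1 : ContDiff ℝ ((⊤ : ℕ∞) : WithTop ℕ∞) b1 := by
    rw [contDiff_infty_iff_deriv]
    refine ⟨fun t => (hb1d t).differentiableAt, ?_⟩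
    have : deriv b1 = a := funext fun t => (hb1d t).deriv
    rw [this]; exact aK_smooth n
  have smb : ContDiff ℝ ((⊤ : ℕ∞) : WithTop ℕ∞) b := by
    rw [contDiff_infty_iff_deriv]
    refine ⟨fun t => (hbd t).differentiableAt, ?_⟩
    have : deriv b = b1 := funext fun t => (hbd t).deriv
    rw [this]; exact smb1
  have hq1 : q ≤ 1 := by
    have h1 : ∫ t in (0 : ℝ)..1, a t ^ 2 ≤ ∫ _t in (0 : ℝ)..1, (1 : ℝ) := by
      apply intervalIntegral.integral_mono_on zero_le_one (ha2.intervalIntegrable _ _)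
        intervalIntegrable_const
      intro t _
      have := aK_abs n t
      rw [← sq_abs]
      exact pow_le_one₀ (abs_nonneg _) this
    simpa using h1
  refine ⟨a, b1, b, s, q, max K1 (max K2 K3), ⟨aK_smooth n, smb1, smb, hbd, hb1d, hsd, aK_abs n,
    fun t => (hK1 t).trans (le_max_left _ _),
    fun t => (hK2 t).trans ((le_max_left _ _).trans (le_max_right _ _)),
    fun t => (hK3 t).trans ((le_max_right _ _).trans (le_max_right _ _)), hq1⟩, hn.le⟩

/-! ### the construction -/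

/-- vanishing near the boundary -/
def V (f : ℝ → ℝ → ℝ) : Prop :=
  ∀ x y, (x ≤ 1 / 8 ∨ 1 - 1 / 8 ≤ x ∨ y ≤ 1 / 8 ∨ 1 - 1 / 8 ≤ y) → f x y = 0

theorem V.mul {f g : ℝ → ℝ → ℝ} (hf : V f) : V (fun x y => f x y * g x y) :=
  fun x y h => by simp [hf x y h]

theorem V.mul' {f g : ℝ → ℝ → ℝ} (hg : V g) : V (fun x y => f x y * g x y) :=
  fun x y h => by simp [hg x y h]

theorem V.add {f g : ℝ → ℝ → ℝ} (hf : V f) (hg : V g) : V (fun x y => f x y + g x y) :=
  fun x y h => by simp [hf x y h, hg x y h]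

theorem V.neg {f : ℝ → ℝ → ℝ} (hf : V f) : V (fun x y => -f x y) :=
  fun x y h => by simp [hf x y h]

theorem V.swap {f : ℝ → ℝ → ℝ} (hf : V f) : V (fun x y => f y x) :=
  fun x y h => hf y x (by tauto)

theorem V.l {f : ℝ → ℝ → ℝ} (hf : V f) (y : ℝ) : f 0 y = 0 := hf 0 y (Or.inl (by norm_num))

theorem V.r {f : ℝ → ℝ → ℝ} (hf : V f) (y : ℝ) : f 1 y = 0 :=
  hf 1 y (Or.inr (Or.inl (by norm_num)))

theorem J_add {f g : ℝ → ℝ → ℝ} (hf : Sm f) (hg : Sm g) :
    J (fun x y => f x y + g x y) = J f + J g := integral_add hf.int hg.int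

theorem J_smul (c : ℝ) (f : ℝ → ℝ → ℝ) : J (fun x y => c * f x y) = c * J f :=
  integral_const_mul c _

theorem J_mono {f g : ℝ → ℝ → ℝ} (hf : Integrable (fun q : ℝ × ℝ => f q.1 q.2) sq)
    (hg : Integrable (fun q : ℝ × ℝ => g q.1 q.2) sq)
    (h : ∀ x ∈ Set.Icc (0 : ℝ) 1, ∀ y ∈ Set.Icc (0 : ℝ) 1, f x y ≤ g x y) : J f ≤ J g := by
  refine integral_mono_ae hf hg ?_
  filter_upwards [ae_sq] with q hq
  exact h q.1 hq.1 q.2 hq.2

theorem J_const (c : ℝ) : J (fun _ _ => c) = c := by simp [J]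

theorem J_swap (f : ℝ → ℝ → ℝ) : J (fun x y => f y x) = J f := by
  unfold J sq
  exact integral_prod_swap (fun q : ℝ × ℝ => f q.1 q.2)

theorem D1_swap (f : ℝ → ℝ → ℝ) : D1 (fun x y => f y x) = fun x y => D2 f y x := rfl

theorem D2_swap (f : ℝ → ℝ → ℝ) : D2 (fun x y => f y x) = fun x y => D1 f y x := rfl

theorem fx_d {β β' : ℝ → ℝ} (hβ : ∀ t, HasDerivAt β (β' t) t) (c x : ℝ) :
    HasDerivAt (fun x => β (c * x)) (c * β' (c * x)) x := by
  have h2 : HasDerivAt (fun x : ℝ => c * x) c x := by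
    simpa using (hasDerivAt_id x).const_mul c
  refine ((hβ (c * x)).comp x h2).congr_deriv ?_
  ring

theorem D1_W {β β' : ℝ → ℝ} (hβ : ∀ t, HasDerivAt β (β' t) t) {h Φ : ℝ → ℝ → ℝ} (hh : Sm h)
    (hΦ : Sm Φ) (c k : ℝ) : D1 (fun x y => h x y + k * (β (c * x) * Φ x y)) =
      fun x y => D1 h x y + k * (c * β' (c * x) * Φ x y + β (c * x) * D1 Φ x y) := by
  funext x y
  exact ((hh.d1 x y).add (((fx_d hβ c x).mul (hΦ.d1 x y)).const_mul k)).deriv

theorem D2_W (β : ℝ → ℝ) {h Φ : ℝ → ℝ → ℝ} (hh : Sm h)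
    (hΦ : Sm Φ) (c k : ℝ) : D2 (fun x y => h x y + k * (β (c * x) * Φ x y)) =
      fun x y => D2 h x y + k * (β (c * x) * D2 Φ x y) := by
  funext x y
  exact ((hh.d2 x y).add (((hΦ.d2 x y).const_mul (β (c * x))).const_mul k)).deriv

theorem D1_W2 {β β' γ γ' : ℝ → ℝ} (hβ : ∀ t, HasDerivAt β (β' t) t)
    (hγ : ∀ t, HasDerivAt γ (γ' t) t) {h Φ Ψ : ℝ → ℝ → ℝ} (hh : Sm h)
    (hΦ : Sm Φ) (hΨ : Sm Ψ) (c k : ℝ) :
    D1 (fun x y => h x y + k * (c * β (c * x) * Φ x y + γ (c * x) * Ψ x y)) =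
      fun x y => D1 h x y + k * ((c * (c * β' (c * x)) * Φ x y + c * β (c * x) * D1 Φ x y) +
        (c * γ' (c * x) * Ψ x y + γ (c * x) * D1 Ψ x y)) := by
  funext x y
  exact ((hh.d1 x y).add (((((fx_d hβ c x).const_mul c).mul (hΦ.d1 x y)).add
    ((fx_d hγ c x).mul (hΨ.d1 x y))).const_mul k)).deriv

theorem D2_W2 (β γ : ℝ → ℝ) {h Φ Ψ : ℝ → ℝ → ℝ} (hh : Sm h)
    (hΦ : Sm Φ) (hΨ : Sm Ψ) (c k : ℝ) :
    D2 (fun x y => h x y + k * (c * β (c * x) * Φ x y + γ (c * x) * Ψ x y)) =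
      fun x y => D2 h x y + k * (c * β (c * x) * D2 Φ x y + γ (c * x) * D2 Ψ x y) := by
  funext x y
  exact ((hh.d2 x y).add ((((hΦ.d2 x y).const_mul (c * β (c * x))).add
    ((hΨ.d2 x y).const_mul (γ (c * x)))).const_mul k)).deriv

/-- the state of the construction -/
structure St (χ : ℝ → ℝ → ℝ) (q : ℝ) (k : ℕ) (e : ℝ) (h F D L G : ℝ → ℝ → ℝ) : Prop where
  sh : Sm h
  sF : Sm F
  sD : Sm D
  sL : Sm L
  sG : Sm G
  vh : V h
  vF : V F
  vD : V D
  a1 : ∀ x ∈ Set.Icc (0 : ℝ) 1, ∀ y ∈ Set.Icc (0 : ℝ) 1,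
    |D1 (D1 h) x y + D2 (D2 h) x y - (F x y - χ x y)| ≤ e
  a2 : ∀ x ∈ Set.Icc (0 : ℝ) 1, ∀ y ∈ Set.Icc (0 : ℝ) 1, |D1 (D2 h) x y| ≤ e
  a3 : ∀ x ∈ Set.Icc (0 : ℝ) 1, ∀ y ∈ Set.Icc (0 : ℝ) 1, |D2 (D1 h) x y| ≤ e
  a4 : ∀ x ∈ Set.Icc (0 : ℝ) 1, ∀ y ∈ Set.Icc (0 : ℝ) 1,
    |D1 (D1 h) x y - D2 (D2 h) x y - D x y| ≤ e
  F0 : ∀ x y, 0 ≤ F x y
  L0 : ∀ x y, 0 ≤ L x y
  G1 : ∀ x y, G x y + 4 / 3 * L x y ≤ 1
  G2 : ∀ x y, -1 ≤ G x y - 2 / 3 * L x y
  jF : J F ≤ J χ + e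
  jFL : ((1 + q) / 2) ^ k * J χ - e ≤ J (fun x y => F x y * L x y)
  jDG : 2 / 3 * q * (∑ i ∈ Finset.range k, ((1 + q) / 2) ^ i) * J χ - e ≤
    J (fun x y => D x y * G x y)


theorem bd {u K M p X : ℝ} (hu : 0 ≤ u) (hp : |p| ≤ K) (hX : |X| ≤ M) :
    |u * (p * X)| ≤ u * (K * M) := by
  rw [abs_mul, abs_mul, abs_of_nonneg hu]
  have : 0 ≤ K := (abs_nonneg _).trans hp
  gcongr

theorem bd2 {u K M p X : ℝ} (hu : 0 ≤ u) (hu1 : u ≤ 1) (hp : |p| ≤ K) (hX : |X| ≤ M) :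
    |u ^ 2 * (p * X)| ≤ u * (K * M) := by
  refine (bd (sq_nonneg u) hp hX).trans ?_
  have h1 : 0 ≤ K := (abs_nonneg _).trans hp
  have h2 : 0 ≤ M := (abs_nonneg _).trans hX
  have h3 : u ^ 2 ≤ u := by nlinarith
  exact mul_le_mul_of_nonneg_right h3 (mul_nonneg h1 h2)

theorem step {χ : ℝ → ℝ → ℝ} (hχs : ∀ x y, χ y x = χ x y)
    {a b1 b s : ℝ → ℝ} {q K : ℝ} (o : Osc a b1 b s q K) (hq0 : 0 ≤ q)
    {k : ℕ} {e : ℝ} (he : 0 < e) {h F D L G : ℝ → ℝ → ℝ} (H : St χ q k (e / 4) h F D L G) :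
    ∃ h' F' D' L' G' : ℝ → ℝ → ℝ, St χ q (k + 1) e h' F' D' L' G' := by
  obtain ⟨M1, hM10, hM1⟩ := H.sF.D1.bdd
  obtain ⟨M2, hM20, hM2⟩ := H.sF.D2.bdd
  obtain ⟨M3, hM30, hM3⟩ := H.sF.D1.D1.bdd
  obtain ⟨M4, hM40, hM4⟩ := H.sF.D2.D2.bdd
  obtain ⟨M5, hM50, hM5⟩ := H.sF.D2.D1.bdd
  obtain ⟨M6, hM60, hM6⟩ := H.sF.D1.D2.bdd
  have hK0 : 0 ≤ K := (abs_nonneg _).trans (o.kb 0)
  have hac : Continuous a := o.sa.continuous
  have hdb1 : ∀ t, HasDerivAt b1 (a t - 0) t := by simpa using o.db1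
  have sFL : Sm (fun x y => F x y * L x y) := H.sF.mul H.sL
  have vFL : V (fun x y => F x y * L x y) := H.vF.mul
  have sM : Sm (fun x y => F x y * G x y + 2 / 3 * (D x y * L x y)) :=
    (H.sF.mul H.sG).add ((Sm.const (2 / 3)).mul (H.sD.mul H.sL))
  have vM : V (fun x y => F x y * G x y + 2 / 3 * (D x y * L x y)) :=
    (V.mul H.vF).add (V.mul' (V.mul H.vD))
  obtain ⟨R1, hR10, hR1⟩ := RL hac hdb1 o.kb1 H.sF H.vF.l H.vF.r
  obtain ⟨R2, hR20, hR2⟩ := RL hac hdb1 o.kb1 sFL vFL.l vFL.r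
  obtain ⟨R3, hR30, hR3⟩ := RL hac hdb1 o.kb1 sM vM.l vM.r
  have hac2 : Continuous fun t => a t ^ 2 := hac.pow 2
  obtain ⟨R4, hR40, hR4⟩ := RL hac2 o.ds o.ks sFL vFL.l vFL.r
  obtain ⟨T, hT⟩ : ∃ T : ℝ, T = 2 * (K * M1) + K * M2 + K * M3 + K * M4 + K * M5 + K * M6 +
    R1 + R2 + R3 + R4 := ⟨_, rfl⟩
  have hT0 : 0 ≤ T := by rw [hT]; positivity
  obtain ⟨c, hc⟩ : ∃ c : ℝ, c = 1 + 4 * T / e := ⟨_, rfl⟩
  have hc1 : 1 ≤ c := by
    rw [hc]
    have : 0 ≤ 4 * T / e := by positivity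
    linarith
  have hc0 : 0 < c := by linarith
  obtain ⟨u, hu⟩ : ∃ u : ℝ, u = c⁻¹ := ⟨_, rfl⟩
  have hu0 : 0 < u := by rw [hu]; positivity
  have huc : u * c = 1 := by rw [hu]; field_simp
  have hu1 : u ≤ 1 := by nlinarith
  have hTu : T * u ≤ e / 4 := by
    have h1 : 4 * T ≤ e * c := by
      rw [hc, mul_add, mul_div_cancel₀ _ he.ne']
      linarith
    have h2 : 4 * T * u ≤ e * c * u := by gcongr
    have h3 : e * c * u = e := by rw [mul_assoc, mul_comm c u, huc, mul_one]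
    linarith
  have hT' : 2 * (u * (K * M1)) + u * (K * M2) + u * (K * M3) + u * (K * M4) + u * (K * M5) +
      u * (K * M6) + R1 * u + R2 * u + R3 * u + R4 * u ≤ e / 4 := by
    refine le_trans (le_of_eq ?_) hTu
    rw [hT]; ring
  have p1 : 0 ≤ u * (K * M1) := by positivity
  have p2 : 0 ≤ u * (K * M2) := by positivity
  have p3 : 0 ≤ u * (K * M3) := by positivity
  have p4 : 0 ≤ u * (K * M4) := by positivity
  have p5 : 0 ≤ u * (K * M5) := by positivity
  have p6 : 0 ≤ u * (K * M6) := by positivity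
  have q1 : 0 ≤ R1 * u := by positivity
  have q2 : 0 ≤ R2 * u := by positivity
  have q3 : 0 ≤ R3 * u := by positivity
  have q4 : 0 ≤ R4 * u := by positivity
  have r1 := hR1 c hc0
  have r2 := hR2 c hc0
  have r3 := hR3 c hc0
  have r4 := hR4 c hc0
  have hdu : ∀ R : ℝ, R / c = R * u := fun R => by rw [hu, div_eq_mul_inv]
  rw [hdu] at r1 r2 r3 r4
  rw [zero_mul, sub_zero] at r1 r2 r3
  have sa := Sm.fx o.sa c
  have sb := Sm.fx o.sb c
  -- the new `h`
  obtain ⟨h', hh'⟩ : ∃ h' : ℝ → ℝ → ℝ, h' = fun x y => h x y + u ^ 2 * (b (c * x) * F x y) :=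
    ⟨_, rfl⟩
  have sh' : Sm h' := by
    rw [hh']
    exact H.sh.add ((Sm.const (u ^ 2)).mul (sb.mul H.sF))
  have vh' : V h' := by
    rw [hh']
    exact H.vh.add (V.mul' (V.mul' H.vF))
  have d1 : D1 h' = fun x y => D1 h x y +
      u ^ 2 * (c * b1 (c * x) * F x y + b (c * x) * D1 F x y) := by
    rw [hh', D1_W o.db H.sh H.sF]
  have d2 : D2 h' = fun x y => D2 h x y + u ^ 2 * (b (c * x) * D2 F x y) := by
    rw [hh', D2_W b H.sh H.sF]
  have d11 : D1 (D1 h') = fun x y => D1 (D1 h) x y + u ^ 2 *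
      ((c * (c * a (c * x)) * F x y + c * b1 (c * x) * D1 F x y) +
        (c * b1 (c * x) * D1 F x y + b (c * x) * D1 (D1 F) x y)) := by
    rw [d1, D1_W2 o.db1 o.db H.sh.D1 H.sF H.sF.D1]
  have d21 : D2 (D1 h') = fun x y => D2 (D1 h) x y + u ^ 2 *
      (c * b1 (c * x) * D2 F x y + b (c * x) * D2 (D1 F) x y) := by
    rw [d1, D2_W2 b1 b H.sh.D1 H.sF H.sF.D1]
  have d12 : D1 (D2 h') = fun x y => D1 (D2 h) x y + u ^ 2 *
      (c * b1 (c * x) * D2 F x y + b (c * x) * D1 (D2 F) x y) := by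
    rw [d2, D1_W o.db H.sh.D2 H.sF.D2]
  have d22 : D2 (D2 h') = fun x y => D2 (D2 h) x y + u ^ 2 * (b (c * x) * D2 (D2 F) x y) := by
    rw [d2, D2_W b H.sh.D2 H.sF.D2]
  -- bounds
  have E11 : ∀ x ∈ Set.Icc (0 : ℝ) 1, ∀ y ∈ Set.Icc (0 : ℝ) 1,
      |D1 (D1 h') x y - D1 (D1 h) x y - a (c * x) * F x y| ≤
        2 * (u * (K * M1)) + u * (K * M3) := by
    intro x hx y hy
    have t1 := bd hu0.le (o.kb1 (c * x)) (hM1 x hx y hy)
    have t2 := bd2 hu0.le hu1 (o.kb (c * x)) (hM3 x hx y hy)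
    have e1 : D1 (D1 h') x y - D1 (D1 h) x y - a (c * x) * F x y =
        2 * (u * (b1 (c * x) * D1 F x y)) + u ^ 2 * (b (c * x) * D1 (D1 F) x y) := by
      rw [d11]
      linear_combination (a (c * x) * F x y * (u * c + 1) +
        2 * u * (b1 (c * x) * D1 F x y)) * huc
    rw [e1]
    rw [abs_le] at t1 t2 ⊢
    constructor <;> linarith [t1.1, t1.2, t2.1, t2.2]
  have E22 : ∀ x ∈ Set.Icc (0 : ℝ) 1, ∀ y ∈ Set.Icc (0 : ℝ) 1,
      |D2 (D2 h') x y - D2 (D2 h) x y| ≤ u * (K * M4) := by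
    intro x hx y hy
    have t2 := bd2 hu0.le hu1 (o.kb (c * x)) (hM4 x hx y hy)
    have e1 : D2 (D2 h') x y - D2 (D2 h) x y = u ^ 2 * (b (c * x) * D2 (D2 F) x y) := by
      rw [d22]; ring
    rw [e1]
    exact t2
  have E21 : ∀ x ∈ Set.Icc (0 : ℝ) 1, ∀ y ∈ Set.Icc (0 : ℝ) 1,
      |D2 (D1 h') x y - D2 (D1 h) x y| ≤ u * (K * M2) + u * (K * M6) := by
    intro x hx y hy
    have t1 := bd hu0.le (o.kb1 (c * x)) (hM2 x hx y hy)
    have t2 := bd2 hu0.le hu1 (o.kb (c * x)) (hM6 x hx y hy)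
    have e1 : D2 (D1 h') x y - D2 (D1 h) x y =
        u * (b1 (c * x) * D2 F x y) + u ^ 2 * (b (c * x) * D2 (D1 F) x y) := by
      rw [d21]
      linear_combination (u * (b1 (c * x) * D2 F x y)) * huc
    rw [e1]
    rw [abs_le] at t1 t2 ⊢
    constructor <;> linarith [t1.1, t1.2, t2.1, t2.2]
  have E12 : ∀ x ∈ Set.Icc (0 : ℝ) 1, ∀ y ∈ Set.Icc (0 : ℝ) 1,
      |D1 (D2 h') x y - D1 (D2 h) x y| ≤ u * (K * M2) + u * (K * M5) := by
    intro x hx y hy
    have t1 := bd hu0.le (o.kb1 (c * x)) (hM2 x hx y hy)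
    have t2 := bd2 hu0.le hu1 (o.kb (c * x)) (hM5 x hx y hy)
    have e1 : D1 (D2 h') x y - D1 (D2 h) x y =
        u * (b1 (c * x) * D2 F x y) + u ^ 2 * (b (c * x) * D1 (D2 F) x y) := by
      rw [d12]
      linear_combination (u * (b1 (c * x) * D2 F x y)) * huc
    rw [e1]
    rw [abs_le] at t1 t2 ⊢
    constructor <;> linarith [t1.1, t1.2, t2.1, t2.2]
  have hr0 : 0 ≤ (1 + q) / 2 := by linarith
  have hr1 : (1 + q) / 2 ≤ 1 := by linarith [o.hq]
  -- the integrals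
  have jF : J (fun x y => F x y * (1 + a (c * x))) =
      J F + J (fun x y => a (c * x) * F x y) := by
    rw [← J_add H.sF (sa.mul H.sF)]
    congr 1
    funext x y
    ring
  have jFL : J (fun x y => F x y * (1 + a (c * x)) * (L x y * (1 + a (c * x)) / 2)) =
      1 / 2 * (J (fun x y => F x y * L x y) + (2 * J (fun x y => a (c * x) * (F x y * L x y)) +
        J (fun x y => a (c * x) ^ 2 * (F x y * L x y)))) := by
    have sa2 : Sm (fun x y => a (c * x) ^ 2 * (F x y * L x y)) := by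
      have := (sa.mul sa).mul sFL
      simpa only [← pow_two] using this
    rw [← J_smul 2, ← J_add ((Sm.const 2).mul (sa.mul sFL)) sa2, ← J_add sFL
      (((Sm.const 2).mul (sa.mul sFL)).add sa2), ← J_smul (1 / 2)]
    congr 1
    funext x y
    ring
  have jDG : J (fun x y => -(D x y + a (c * x) * F x y) *
      -(G x y + 2 / 3 * (a (c * x) * L x y))) =
      J (fun x y => D x y * G x y) +
        (J (fun x y => a (c * x) * (F x y * G x y + 2 / 3 * (D x y * L x y))) +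
        2 / 3 * J (fun x y => a (c * x) ^ 2 * (F x y * L x y))) := by
    have sa2 : Sm (fun x y => a (c * x) ^ 2 * (F x y * L x y)) := by
      have := (sa.mul sa).mul sFL
      simpa only [← pow_two] using this
    rw [← J_smul (2 / 3), ← J_add (sa.mul sM) ((Sm.const (2 / 3)).mul sa2), ← J_add (H.sD.mul H.sG)
      ((sa.mul sM).add ((Sm.const (2 / 3)).mul sa2))]
    congr 1
    funext x y
    ring
  have ha1 : ∀ x : ℝ, -1 ≤ a (c * x) ∧ a (c * x) ≤ 1 := fun x => abs_le.1 (o.ka (c * x))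
  refine ⟨fun x y => h' y x, fun x y => F y x * (1 + a (c * y)),
    fun x y => -(D y x + a (c * y) * F y x), fun x y => L y x * (1 + a (c * y)) / 2,
    fun x y => -(G y x + 2 / 3 * (a (c * y) * L y x)), ?_⟩
  constructor
  · exact sh'.swap
  · exact (H.sF.mul ((Sm.const 1).add sa)).swap
  · exact ((H.sD.add (sa.mul H.sF)).neg).swap
  · have := ((H.sL.mul ((Sm.const 1).add sa)).mul (Sm.const (1 / 2))).swap
    have e1 : (fun x y => L y x * (1 + a (c * y)) / 2) =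
        fun x y => L y x * (1 + a (c * y)) * (1 / 2) := by funext x y; ring
    rw [e1]; exact this
  · exact ((H.sG.add ((Sm.const (2 / 3)).mul (sa.mul H.sL))).neg).swap
  · exact vh'.swap
  · exact (V.mul H.vF).swap
  · exact ((H.vD.add (V.mul' H.vF)).neg).swap
  · intro x hx y hy
    have t1 := E11 y hy x hx
    have t2 := E22 y hy x hx
    have t3 := H.a1 y hy x hx
    have e1 : D1 (D1 fun x y => h' y x) x y + D2 (D2 fun x y => h' y x) x y =
      D2 (D2 h') y x + D1 (D1 h') y x := rfl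
    rw [e1]
    have e2 := hχs x y
    rw [abs_le] at t1 t2 t3 ⊢
    constructor <;> linarith [t1.1, t1.2, t2.1, t2.2, t3.1, t3.2]
  · intro x hx y hy
    have t1 := E21 y hy x hx
    have t3 := H.a3 y hy x hx
    have e1 : D1 (D2 fun x y => h' y x) x y = D2 (D1 h') y x := rfl
    rw [e1]
    rw [abs_le] at t1 t3 ⊢
    constructor <;> linarith [t1.1, t1.2, t3.1, t3.2]
  · intro x hx y hy
    have t1 := E12 y hy x hx
    have t3 := H.a2 y hy x hx
    have e1 : D2 (D1 fun x y => h' y x) x y = D1 (D2 h') y x := rfl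
    rw [e1]
    rw [abs_le] at t1 t3 ⊢
    constructor <;> linarith [t1.1, t1.2, t3.1, t3.2]
  · intro x hx y hy
    have t1 := E11 y hy x hx
    have t2 := E22 y hy x hx
    have t3 := H.a4 y hy x hx
    have e1 : D1 (D1 fun x y => h' y x) x y - D2 (D2 fun x y => h' y x) x y =
      D2 (D2 h') y x - D1 (D1 h') y x := rfl
    rw [e1]
    rw [abs_le] at t1 t2 t3 ⊢
    constructor <;> linarith [t1.1, t1.2, t2.1, t2.2, t3.1, t3.2]
  · intro x y
    have := H.F0 y x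
    have h2 := ha1 y
    exact mul_nonneg this (by linarith [h2.1])
  · intro x y
    have := H.L0 y x
    have h2 := ha1 y
    have := mul_nonneg this (show 0 ≤ 1 + a (c * y) by linarith [h2.1])
    linarith
  · intro x y
    have h1 := H.G2 y x
    have e1 : -(G y x + 2 / 3 * (a (c * y) * L y x)) + 4 / 3 * (L y x * (1 + a (c * y)) / 2) =
        -(G y x - 2 / 3 * L y x) := by ring
    rw [e1]
    linarith
  · intro x y
    have h1 := H.G1 y x
    have h3 := H.L0 y x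
    have h2 := ha1 y
    have h4 := mul_nonneg h3 (show 0 ≤ 1 - a (c * y) by linarith [h2.2])
    have e1 : -(G y x + 2 / 3 * (a (c * y) * L y x)) - 2 / 3 * (L y x * (1 + a (c * y)) / 2) =
        -(G y x + 4 / 3 * L y x) + L y x * (1 - a (c * y)) := by ring
    rw [e1]
    linarith
  · rw [J_swap (fun x y => F x y * (1 + a (c * x))), jF]
    have := H.jF
    linarith [(abs_le.1 r1).2]
  · rw [J_swap (fun x y => F x y * (1 + a (c * x)) * (L x y * (1 + a (c * x)) / 2)), jFL]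
    have t1 := H.jFL
    have t2 := (abs_le.1 r2).1
    have t4 := (abs_le.1 r4).1
    obtain ⟨P, hP⟩ : ∃ P, P = J (fun x y => F x y * L x y) := ⟨_, rfl⟩
    rw [← hP] at t1 t4 ⊢
    have e1 : ((1 + q) / 2) ^ (k + 1) * J χ = (1 + q) / 2 * (((1 + q) / 2) ^ k * J χ) := by ring
    rw [e1]
    have t5 : (1 + q) / 2 * (((1 + q) / 2) ^ k * J χ - e / 4) ≤ (1 + q) / 2 * P := by gcongr
    have t6 : (1 + q) / 2 * (e / 4) ≤ e / 4 := by nlinarith
    linarith
  · rw [J_swap (fun x y => -(D x y + a (c * x) * F x y) *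
      -(G x y + 2 / 3 * (a (c * x) * L x y))), jDG]
    have t0 := H.jDG
    have t1 := H.jFL
    have t3 := (abs_le.1 r3).1
    have t4 := (abs_le.1 r4).1
    obtain ⟨P, hP⟩ : ∃ P, P = J (fun x y => F x y * L x y) := ⟨_, rfl⟩
    rw [← hP] at t1 t4
    rw [Finset.sum_range_succ]
    have t5 : q * (((1 + q) / 2) ^ k * J χ - e / 4) ≤ q * P := by gcongr
    have t6 : q * (e / 4) ≤ e / 4 := by nlinarith [o.hq]
    linarith

theorem steps {χ : ℝ → ℝ → ℝ} (hχs : ∀ x y, χ y x = χ x y) (sχ : Sm χ) (vχ : V χ)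
    (χ0 : ∀ x y, 0 ≤ χ x y)
    {a b1 b s : ℝ → ℝ} {q K : ℝ} (o : Osc a b1 b s q K) (hq0 : 0 ≤ q) (k : ℕ) :
    ∀ e : ℝ, 0 < e → ∃ h F D L G : ℝ → ℝ → ℝ, St χ q k e h F D L G := by
  induction k with
  | zero =>
    intro e he
    refine ⟨fun _ _ => 0, χ, fun _ _ => 0, fun _ _ => 1, fun _ _ => -1 / 3, ?_⟩
    have z1 : D1 (fun _ _ => (0 : ℝ)) = fun _ _ => 0 := by
      funext x y
      simp [D1]
    have z2 : D2 (fun _ _ => (0 : ℝ)) = fun _ _ => 0 := by
      funext x y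
      simp [D2]
    constructor
    · exact Sm.const 0
    · exact sχ
    · exact Sm.const 0
    · exact Sm.const 1
    · exact Sm.const _
    · exact fun _ _ _ => rfl
    · exact vχ
    · exact fun _ _ _ => rfl
    · intro x _ y _
      simp [z1, z2, he.le]
    · intro x _ y _
      simp [z1, z2, he.le]
    · intro x _ y _
      simp [z1, z2, he.le]
    · intro x _ y _
      simp [z1, z2, he.le]
    · exact χ0
    · intro _ _; norm_num
    · intro _ _; norm_num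
    · intro _ _; norm_num
    · linarith
    · simp [he.le]
    · simp [J, he.le]
  | succ k ih =>
    intro e he
    obtain ⟨h, F, D, L, G, H⟩ := ih (e / 4) (by linarith)
    exact step hχs o hq0 he H

/-- the cut-off function of one variable -/
def chi1 (x : ℝ) : ℝ := Real.smoothTransition (8 * x - 1) * Real.smoothTransition (7 - 8 * x)

theorem chi1_smooth : ContDiff ℝ ((⊤ : ℕ∞) : WithTop ℕ∞) chi1 := by
  unfold chi1
  exact (Real.smoothTransition.contDiff.comp ((contDiff_const.mul contDiff_id).sub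
    contDiff_const)).mul (Real.smoothTransition.contDiff.comp (contDiff_const.sub
    (contDiff_const.mul contDiff_id)))

theorem chi1_nonneg (x : ℝ) : 0 ≤ chi1 x :=
  mul_nonneg (Real.smoothTransition.nonneg _) (Real.smoothTransition.nonneg _)

theorem chi1_zero {x : ℝ} (h : x ≤ 1 / 8 ∨ 1 - 1 / 8 ≤ x) : chi1 x = 0 := by
  unfold chi1
  rcases h with h | h
  · rw [Real.smoothTransition.zero_of_nonpos (by linarith), zero_mul]
  · rw [Real.smoothTransition.zero_of_nonpos (x := 7 - 8 * x) (by linarith), mul_zero]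

theorem chi1_pos : 0 < ∫ x in Set.Icc (0 : ℝ) 1, chi1 x := by
  rw [integral_Icc_eq_integral_Ioc, ← intervalIntegral.integral_of_le zero_le_one]
  apply intervalIntegral.integral_pos zero_lt_one chi1_smooth.continuous.continuousOn
    (fun x _ => chi1_nonneg x)
  refine ⟨1 / 2, ⟨by norm_num, by norm_num⟩, ?_⟩
  unfold chi1
  exact mul_pos (Real.smoothTransition.pos_of_pos (by norm_num))
    (Real.smoothTransition.pos_of_pos (by norm_num))

/-- the cut-off function -/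
def chi (x y : ℝ) : ℝ := chi1 x * chi1 y

theorem chi_sm : Sm chi := by
  unfold Sm chi
  exact (chi1_smooth.comp contDiff_fst).mul (chi1_smooth.comp contDiff_snd)

theorem chi_V : V chi := by
  intro x y h
  unfold chi
  rcases h with h | h | h | h
  · rw [chi1_zero (Or.inl h), zero_mul]
  · rw [chi1_zero (Or.inr h), zero_mul]
  · rw [chi1_zero (x := y) (Or.inl h), mul_zero]
  · rw [chi1_zero (x := y) (Or.inr h), mul_zero]

theorem chi_J : 0 < J chi := by
  have h1 : J chi = (∫ x in Set.Icc (0 : ℝ) 1, chi1 x) * ∫ x in Set.Icc (0 : ℝ) 1, chi1 x := by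
    unfold J sq chi
    exact integral_prod_mul chi1 chi1
  rw [h1]
  exact mul_pos chi1_pos chi1_pos

end ModOrn

open ModOrn in
/-- Module ORN -/
theorem orn : StmtOrn := by
  intro C
  obtain ⟨k, hk⟩ : ∃ k : ℕ, 6 * |C| + 4 ≤ k := exists_nat_ge _
  have hC0 := abs_nonneg C
  have hkp : (0 : ℝ) ≤ k := by positivity
  obtain ⟨a, b1, b, s, q, K, o, hq⟩ := exists_osc (δ := 1 / (k + 2)) (by positivity)
  have hd : 1 / ((k : ℝ) + 2) ≤ 1 / 2 := by
    apply one_div_le_one_div_of_le <;> linarith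
  have hq0 : 0 ≤ q := by linarith
  have I0 := chi_J
  obtain ⟨e, he⟩ : ∃ e : ℝ, e = J chi / (3 * |C| + 2) := ⟨_, rfl⟩
  have he0 : 0 < e := by rw [he]; positivity
  have he1 : 3 * |C| * e + 2 * e = J chi := by
    rw [he]; field_simp
  obtain ⟨h, F, D, L, G, H⟩ := steps (χ := chi) (fun x y => by unfold chi; ring) chi_sm chi_V
    (fun x y => mul_nonneg (chi1_nonneg x) (chi1_nonneg y)) o hq0 k e he0
  refine ⟨h, ⟨H.sh, 1 / 8, by norm_num, H.vh⟩, ?_⟩
  -- the geometric sum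
  have hsum : (k : ℝ) / 2 ≤ q * ∑ i ∈ Finset.range k, ((1 + q) / 2) ^ i := by
    rw [Finset.mul_sum]
    have h1 : ∑ i ∈ Finset.range k, (1 / 2 : ℝ) = k / 2 := by
      rw [Finset.sum_const, Finset.card_range, nsmul_eq_mul]
      ring
    rw [← h1]
    refine Finset.sum_le_sum fun i hi => ?_
    have hik : (i : ℝ) ≤ k := by
      exact_mod_cast (Finset.mem_range.1 hi).le
    obtain ⟨d, hd'⟩ : ∃ d : ℝ, d = 1 / ((k : ℝ) + 2) := ⟨_, rfl⟩
    rw [← hd'] at hq hd
    have hd0 : 0 < d := by rw [hd']; positivity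
    have hdk : d * (k + 2) = 1 := by rw [hd']; field_simp
    have h2 : 1 + (i : ℝ) * (-(d / 2)) ≤ (1 + (-(d / 2))) ^ i :=
      one_add_mul_le_pow (by linarith) i
    have h3 : (1 + (-(d / 2))) ^ i ≤ ((1 + q) / 2) ^ i := by
      apply pow_le_pow_left₀ (by linarith)
      linarith
    have h4 : (i : ℝ) * d ≤ k * d := by gcongr
    have h5 : 0 ≤ 1 + (i : ℝ) * (-(d / 2)) := by nlinarith
    calc (1 / 2 : ℝ) ≤ (1 - d) * (1 + (i : ℝ) * (-(d / 2))) := by nlinarith
      _ ≤ q * (1 + (i : ℝ) * (-(d / 2))) := by gcongr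
      _ ≤ q * ((1 + q) / 2) ^ i := by
        gcongr
        exact h2.trans h3
  -- integrability
  have i1 : Integrable (fun z : ℝ × ℝ => |D1 (D1 h) z.1 z.2 + D2 (D2 h) z.1 z.2|) sq :=
    cont_int (H.sh.D1.D1.add H.sh.D2.D2).cont.abs
  have i2 : Integrable (fun z : ℝ × ℝ => |D1 (D2 h) z.1 z.2|) sq := cont_int H.sh.D2.D1.cont.abs
  have i3 : Integrable (fun z : ℝ × ℝ => |D1 (D1 h) z.1 z.2 - D2 (D2 h) z.1 z.2|) sq :=
    cont_int (H.sh.D1.D1.cont.sub H.sh.D2.D2.cont).abs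
  -- the three norms
  have n1 : N1 (fun x y => D1 (D1 h) x y + D2 (D2 h) x y) ≤ 2 * J chi + 2 * e := by
    have sA : Sm (fun x y => F x y + (chi x y + e)) := H.sF.add (chi_sm.add (Sm.const e))
    have h1 : J (fun x y => |D1 (D1 h) x y + D2 (D2 h) x y|) ≤
        J (fun x y => F x y + (chi x y + e)) := by
      refine J_mono i1 sA.int fun x hx y hy => ?_
      have t1 := H.a1 x hx y hy
      have t2 := H.F0 x y
      have t3 : 0 ≤ chi x y := mul_nonneg (chi1_nonneg x) (chi1_nonneg y)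
      rw [abs_le] at t1 ⊢
      constructor <;> linarith [t1.1, t1.2]
    rw [J_add H.sF (chi_sm.add (Sm.const e)), J_add chi_sm (Sm.const e), J_const] at h1
    have h2 := H.jF
    have h3 : N1 (fun x y => D1 (D1 h) x y + D2 (D2 h) x y) =
      J (fun x y => |D1 (D1 h) x y + D2 (D2 h) x y|) := rfl
    rw [h3]
    linarith
  have n2 : N1 (D1 (D2 h)) ≤ e := by
    have h1 : J (fun x y => |D1 (D2 h) x y|) ≤ J (fun _ _ => e) :=
      J_mono i2 (Sm.const e).int fun x hx y hy => H.a2 x hx y hy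
    rw [J_const] at h1
    exact h1
  have n3 : J (fun x y => D x y * G x y) - e ≤
      N1 (fun x y => D1 (D1 h) x y - D2 (D2 h) x y) := by
    have sB : Sm (fun x y => D x y * G x y + -e) := (H.sD.mul H.sG).add (Sm.const (-e))
    have h1 : J (fun x y => D x y * G x y + -e) ≤
        J (fun x y => |D1 (D1 h) x y - D2 (D2 h) x y|) := by
      refine J_mono sB.int i3 fun x hx y hy => ?_
      have t1 := H.a4 x hx y hy
      have t2 := H.G1 x y
      have t3 := H.G2 x y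
      have t4 := H.L0 x y
      have t5 : |G x y| ≤ 1 := by
        rw [abs_le]; constructor <;> linarith
      have t6 : D x y * G x y ≤ |D x y| := by
        calc D x y * G x y ≤ |D x y * G x y| := le_abs_self _
          _ = |D x y| * |G x y| := abs_mul _ _
          _ ≤ |D x y| * 1 := by gcongr
          _ = |D x y| := mul_one _
      have t7 : |D x y| ≤ |D1 (D1 h) x y - D2 (D2 h) x y| + e := by
        have : D x y = (D1 (D1 h) x y - D2 (D2 h) x y) -
          (D1 (D1 h) x y - D2 (D2 h) x y - D x y) := by ring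
        rw [this]
        refine (abs_sub _ _).trans ?_
        linarith
      linarith
    rw [J_add (H.sD.mul H.sG) (Sm.const (-e)), J_const] at h1
    have h3 : N1 (fun x y => D1 (D1 h) x y - D2 (D2 h) x y) =
      J (fun x y => |D1 (D1 h) x y - D2 (D2 h) x y|) := rfl
    rw [h3]
    linarith
  have m1 : 0 ≤ N1 (fun x y => D1 (D1 h) x y + D2 (D2 h) x y) :=
    integral_nonneg fun _ => abs_nonneg _
  have m2 : 0 ≤ N1 (D1 (D2 h)) := integral_nonneg fun _ => abs_nonneg _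
  have h1 : C * (N1 (fun x y => D1 (D1 h) x y + D2 (D2 h) x y) + N1 (D1 (D2 h))) ≤
      |C| * (2 * J chi + 3 * e) := by
    calc C * (N1 (fun x y => D1 (D1 h) x y + D2 (D2 h) x y) + N1 (D1 (D2 h))) ≤
        |C| * (N1 (fun x y => D1 (D1 h) x y + D2 (D2 h) x y) + N1 (D1 (D2 h))) := by
          gcongr
          exact le_abs_self C
      _ ≤ |C| * (2 * J chi + 3 * e) := mul_le_mul_of_nonneg_left (by linarith) hC0
  refine lt_of_le_of_lt h1 (lt_of_lt_of_le ?_ n3)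
  have h2 := H.jDG
  have h3 : (k : ℝ) / 3 * J chi ≤
      2 / 3 * q * (∑ i ∈ Finset.range k, ((1 + q) / 2) ^ i) * J chi := by
    apply mul_le_mul_of_nonneg_right _ I0.le
    linarith
  have h4 : (6 * |C| + 4) / 3 * J chi ≤ (k : ℝ) / 3 * J chi := by gcongr
  nlinarith

end

end Pool.Agent.T6.H55.LU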