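import Pool.Agent.T6.H55.LU.Stm

/-!
# MP_507414_an, module PAR (helper64): existence of parameters
-/

set_option autoImplicit false

open MeasureTheory Filter Topology
open scoped ENNReal NNReal

namespace Pool.Agent.T6.H55.LU

noncomputable section

namespace PR

/-- bounded functions with bounded partial derivatives at the points whose second coordinate is
in `A` -/
def Nice (A : Set ℝ) (f : ℝ → ℝ → ℝ) : Prop :=
  ∃ B : ℝ, ∀ x, ∀ y ∈ A, |f x y| ≤ B ∧ (∃ a, HasDerivAt (fun t => f t y) a x ∧ |a| ≤ B) ∧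
    (∃ a, HasDerivAt (fun t => f x t) a y ∧ |a| ≤ B)

variable {A : Set ℝ}

lemma Nice.const (A : Set ℝ) (r : ℝ) : Nice A (fun _ _ => r) :=
  ⟨|r|, fun _ _ _ => ⟨le_rfl, ⟨0, hasDerivAt_const _ _, by simp⟩,
    ⟨0, hasDerivAt_const _ _, by simp⟩⟩⟩

lemma Nice.add {f g : ℝ → ℝ → ℝ} (hf : Nice A f) (hg : Nice A g) :
    Nice A (fun x y => f x y + g x y) := by
  obtain ⟨B, hB⟩ := hf
  obtain ⟨C, hC⟩ := hg
  refine ⟨B + C, fun x y hy => ?_⟩
  obtain ⟨b0, ⟨a1, ha1, b1⟩, ⟨a2, ha2, b2⟩⟩ := hB x y hy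
  obtain ⟨c0, ⟨a3, ha3, b3⟩, ⟨a4, ha4, b4⟩⟩ := hC x y hy
  exact ⟨(abs_add_le _ _).trans (add_le_add b0 c0),
    ⟨a1 + a3, ha1.add ha3, (abs_add_le _ _).trans (add_le_add b1 b3)⟩,
    ⟨a2 + a4, ha2.add ha4, (abs_add_le _ _).trans (add_le_add b2 b4)⟩⟩

lemma bb {a b c e B C : ℝ} (h1 : |a| ≤ B) (h2 : |b| ≤ C) (h3 : |c| ≤ B) (h4 : |e| ≤ C) :
    |a * b + c * e| ≤ 2 * B * C := by
  have hB : 0 ≤ B := (abs_nonneg _).trans h1
  refine (abs_add_le _ _).trans ?_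
  rw [abs_mul, abs_mul]
  have := mul_le_mul h1 h2 (abs_nonneg _) hB
  have := mul_le_mul h3 h4 (abs_nonneg _) hB
  linarith

lemma Nice.mul {f g : ℝ → ℝ → ℝ} (hf : Nice A f) (hg : Nice A g) :
    Nice A (fun x y => f x y * g x y) := by
  obtain ⟨B, hB⟩ := hf
  obtain ⟨C, hC⟩ := hg
  refine ⟨2 * B * C, fun x y hy => ?_⟩
  obtain ⟨b0, ⟨a1, ha1, b1⟩, ⟨a2, ha2, b2⟩⟩ := hB x y hy
  obtain ⟨c0, ⟨a3, ha3, b3⟩, ⟨a4, ha4, b4⟩⟩ := hC x y hy
  refine ⟨?_, ⟨_, ha1.mul ha3, bb b1 c0 b0 b3⟩, ⟨_, ha2.mul ha4, bb b2 c0 b0 b4⟩⟩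
  have hB : 0 ≤ B := (abs_nonneg _).trans b0
  have hC : 0 ≤ C := (abs_nonneg _).trans c0
  rw [abs_mul]
  have := mul_le_mul b0 c0 (abs_nonneg _) hB
  have := mul_nonneg hB hC
  linarith

lemma Nice.comp {f : ℝ → ℝ → ℝ} (hf : Nice A f) (k : ℝ → ℝ) (hk : ContDiff ℝ 1 k) :
    Nice A (fun x y => k (f x y)) := by
  obtain ⟨B, hB⟩ := hf
  obtain ⟨C1, hC1⟩ := (isCompact_Icc (a := -B) (b := B)).exists_bound_of_continuousOn
    (f := k) hk.continuous.continuousOn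
  obtain ⟨C2, hC2⟩ := (isCompact_Icc (a := -B) (b := B)).exists_bound_of_continuousOn
    (f := deriv k) (hk.continuous_deriv le_rfl).continuousOn
  refine ⟨max C1 (C2 * B), fun x y hy => ?_⟩
  obtain ⟨b0, ⟨a1, ha1, b1⟩, ⟨a2, ha2, b2⟩⟩ := hB x y hy
  have m : f x y ∈ Set.Icc (-B) B := abs_le.1 b0
  have hB : 0 ≤ B := (abs_nonneg _).trans b0
  have k0 := hC1 _ m
  have k1 := hC2 _ m
  have hd : HasDerivAt k (deriv k (f x y)) (f x y) :=
    ((hk.differentiable one_ne_zero) (f x y)).hasDerivAt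
  have hC2 : 0 ≤ C2 := (norm_nonneg _).trans k1
  refine ⟨k0.trans (le_max_left _ _), ⟨_, hd.comp x ha1, ?_⟩, ⟨_, hd.comp y ha2, ?_⟩⟩
  · rw [abs_mul]
    exact (mul_le_mul k1 b1 (abs_nonneg _) hC2).trans (le_max_right _ _)
  · rw [abs_mul]
    exact (mul_le_mul k1 b2 (abs_nonneg _) hC2).trans (le_max_right _ _)

lemma Nice.inv {f : ℝ → ℝ → ℝ} (hf : Nice A f) (r : ℝ) (hr : 0 < r)
    (hfr : ∀ x, ∀ y ∈ A, r ≤ |f x y|) : Nice A (fun x y => (f x y)⁻¹) := by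
  obtain ⟨B, hB⟩ := hf
  refine ⟨max r⁻¹ (B / r ^ 2), fun x y hy => ?_⟩
  obtain ⟨b0, ⟨a1, ha1, b1⟩, ⟨a2, ha2, b2⟩⟩ := hB x y hy
  have h := hfr x y hy
  have h0 : f x y ≠ 0 := by
    intro h0; rw [h0, abs_zero] at h; linarith
  have hB : 0 ≤ B := (abs_nonneg _).trans b0
  have key : ∀ a : ℝ, |a| ≤ B → |-a / f x y ^ 2| ≤ B / r ^ 2 := by
    intro a ha
    rw [abs_div, abs_neg, abs_pow]
    gcongr
  refine ⟨?_, ⟨_, ha1.inv h0, (key a1 b1).trans (le_max_right _ _)⟩,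
    ⟨_, ha2.inv h0, (key a2 b2).trans (le_max_right _ _)⟩⟩
  rw [abs_inv]
  exact (inv_anti₀ hr h).trans (le_max_left _ _)

lemma Nice.sum {ι : Type*} (t : Finset ι) {f : ι → ℝ → ℝ → ℝ} (h : ∀ i ∈ t, Nice A (f i)) :
    Nice A (fun x y => ∑ i ∈ t, f i x y) := by
  classical
  induction t using Finset.induction_on with
  | empty => simpa using Nice.const A 0
  | insert a t ha ih =>
    have h1 := (h a (Finset.mem_insert_self a t)).add
      (ih fun i hi => h i (Finset.mem_insert_of_mem hi))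
    have e : (fun x y => ∑ i ∈ insert a t, f i x y) = fun x y => f a x y + ∑ i ∈ t, f i x y := by
      funext x y
      rw [Finset.sum_insert ha]
    rw [e]
    exact h1

lemma nice_x (A : Set ℝ) {k k' : ℝ → ℝ} {B : ℝ} (h0 : ∀ t, |k t| ≤ B)
    (h1 : ∀ t, HasDerivAt k (k' t) t) (h2 : ∀ t, |k' t| ≤ B) : Nice A (fun x _ => k x) := by
  refine ⟨max B 0, fun x y _ => ⟨(h0 x).trans (le_max_left _ _),
    ⟨_, h1 x, (h2 x).trans (le_max_left _ _)⟩, ⟨0, hasDerivAt_const _ _, ?_⟩⟩⟩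
  rw [abs_zero]; exact le_max_right _ _

lemma nice_y (A : Set ℝ) {k k' : ℝ → ℝ} {B : ℝ} (h0 : ∀ t, |k t| ≤ B)
    (h1 : ∀ t, HasDerivAt k (k' t) t) (h2 : ∀ t, |k' t| ≤ B) : Nice A (fun _ y => k y) := by
  refine ⟨max B 0, fun x y _ => ⟨(h0 y).trans (le_max_left _ _),
    ⟨0, hasDerivAt_const _ _, ?_⟩, ⟨_, h1 y, (h2 y).trans (le_max_left _ _)⟩⟩⟩
  rw [abs_zero]; exact le_max_right _ _

lemma S_le (t : ℝ) : |S t| ≤ 1 := Real.abs_sin_le_one _
lemma c_le (t : ℝ) : |c t| ≤ 1 := Real.abs_cos_le_one _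

lemma S_der (N : ℕ) (t : ℝ) :
    HasDerivAt (fun t => S (N * t)) (Real.cos (Real.pi * (N * t)) * (Real.pi * N)) t := by
  have h : HasDerivAt (fun t : ℝ => Real.pi * (N * t)) (Real.pi * (N * 1)) t :=
    ((hasDerivAt_id t).const_mul (N : ℝ)).const_mul Real.pi
  rw [mul_one] at h
  exact h.sin

lemma c_der (N : ℕ) (t : ℝ) :
    HasDerivAt (fun t => c (N * t)) (-Real.sin (Real.pi * (N * t)) * (Real.pi * N)) t := by
  have h : HasDerivAt (fun t : ℝ => Real.pi * (N * t)) (Real.pi * (N * 1)) t :=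
    ((hasDerivAt_id t).const_mul (N : ℝ)).const_mul Real.pi
  rw [mul_one] at h
  exact h.cos

lemma b1 (N : ℕ) (t : ℝ) : |Real.cos (Real.pi * (N * t)) * (Real.pi * N)| ≤ 1 + Real.pi * N := by
  have hp : 0 ≤ Real.pi * N := by positivity
  rw [abs_mul, abs_of_nonneg hp]
  nlinarith [Real.abs_cos_le_one (Real.pi * (N * t))]

lemma b2 (N : ℕ) (t : ℝ) : |-Real.sin (Real.pi * (N * t)) * (Real.pi * N)| ≤ 1 + Real.pi * N := by
  have hp : 0 ≤ Real.pi * N := by positivity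
  rw [abs_mul, abs_of_nonneg hp, abs_neg]
  nlinarith [Real.abs_sin_le_one (Real.pi * (N * t))]

lemma b3 (N : ℕ) {u : ℝ} (h : |u| ≤ 1) : |u| ≤ 1 + Real.pi * N := by
  have hp : 0 ≤ Real.pi * N := by positivity
  linarith

lemma nSx (A : Set ℝ) (N : ℕ) : Nice A (fun x _ => S (N * x)) :=
  nice_x A (fun _ => b3 N (S_le _)) (S_der N) (b1 N)
lemma nSy (A : Set ℝ) (N : ℕ) : Nice A (fun _ y => S (N * y)) :=
  nice_y A (fun _ => b3 N (S_le _)) (S_der N) (b1 N)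
lemma ncx (A : Set ℝ) (N : ℕ) : Nice A (fun x _ => c (N * x)) :=
  nice_x A (fun _ => b3 N (c_le _)) (c_der N) (b2 N)
lemma ncy (A : Set ℝ) (N : ℕ) : Nice A (fun _ y => c (N * y)) :=
  nice_y A (fun _ => b3 N (c_le _)) (c_der N) (b2 N)

lemma nrho (A : Set ℝ) (N : ℕ) (r : ℝ) (hr : 0 < r) (hA : ∀ y ∈ A, r ≤ |S (N * y)|) :
    Nice A (fun x y => (rho (N * x) (N * y))⁻¹) := by
  have h : Nice A (fun x y => S (N * x) * S (N * x) + S (N * y) * S (N * y)) :=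
    ((nSx A N).mul (nSx A N)).add ((nSy A N).mul (nSy A N))
  have e : (fun x y : ℝ => rho (N * x) (N * y)) =
      fun x y : ℝ => S (N * x) * S (N * x) + S (N * y) * S (N * y) := by
    funext x y; unfold rho; ring
  have h' : Nice A (fun x y => rho (N * x) (N * y)) := by rw [e]; exact h
  refine h'.inv (r ^ 2) (by positivity) fun x y hy => ?_
  have h1 := hA y hy
  have h2 : rho (N * x) (N * y) = S (N * x) ^ 2 + |S (N * y)| ^ 2 := by
    rw [sq_abs]; rfl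
  have h3 : r ^ 2 ≤ |S (N * y)| ^ 2 := by gcongr
  refine le_trans ?_ (le_abs_self _)
  rw [h2]
  nlinarith [sq_nonneg (S (N * x))]

lemma nT1 (A : Set ℝ) (N : ℕ) (r : ℝ) (hr : 0 < r) (hA : ∀ y ∈ A, r ≤ |S (N * y)|) :
    Nice A (fun x y => T1 (N * x) (N * y)) :=
  (((Nice.const A (-(1 / 2))).mul (ncx A N)).mul (nSy A N)).mul (nrho A N r hr hA)

lemma nT2 (A : Set ℝ) (N : ℕ) (r : ℝ) (hr : 0 < r) (hA : ∀ y ∈ A, r ≤ |S (N * y)|) :
    Nice A (fun x y => T2 (N * x) (N * y)) :=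
  (((Nice.const A (1 / 2)).mul (ncy A N)).mul (nSx A N)).mul (nrho A N r hr hA)

/-- the slopes, as functions of the signs -/
def zx (N : ℕ → ℕ) (s : ℕ → ℝ) (n : ℕ) (e : Fin n → Bool) (x y : ℝ) : ℝ :=
  ∑ i : Fin n, sg (e i) * s i * T1 (N i * x) (N i * y)

/-- the slopes, as functions of the signs -/
def zy (N : ℕ → ℕ) (s : ℕ → ℝ) (n : ℕ) (e : Fin n → Bool) (x y : ℝ) : ℝ :=
  ∑ i : Fin n, sg (e i) * s i * T2 (N i * x) (N i * y)

/-- the weight -/
def w (N : ℕ → ℕ) (s : ℕ → ℝ) (j : ℕ) (e : Fin (j + 1) → Bool) (x y : ℝ) : ℝ :=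
  lam (N j * y) / (1 + zx N s (j + 1) e x y ^ 2 + zy N s (j + 1) e x y ^ 2)

lemma abs_sin_nat (q : ℕ) (t : ℝ) : |Real.sin (q * t)| ≤ q * |Real.sin t| := by
  induction q with
  | zero => simp
  | succ q ih =>
    have e : ((q + 1 : ℕ) : ℝ) * t = q * t + t := by push_cast; ring
    rw [e, Real.sin_add]
    refine (abs_add_le _ _).trans ?_
    rw [abs_mul, abs_mul]
    have h1 := Real.abs_cos_le_one t
    have h2 := Real.abs_cos_le_one (q * t)
    have h3 := abs_nonneg (Real.sin t)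
    have h4 := abs_nonneg (Real.sin (q * t))
    push_cast
    nlinarith

lemma S_dvd {a b : ℕ} (hb : 0 < b) (h : a ∣ b) (y : ℝ) (hy : 1 / 4 ≤ S (b * y) ^ 2) :
    1 / (2 * (b : ℝ)) ≤ |S (a * y)| := by
  obtain ⟨q, rfl⟩ := h
  have h1 : |S (((a * q : ℕ) : ℝ) * y)| ≤ q * |S (a * y)| := by
    have := abs_sin_nat q (Real.pi * (a * y))
    unfold S
    have e : Real.pi * (((a * q : ℕ) : ℝ) * y) = q * (Real.pi * (a * y)) := by
      push_cast; ring
    rw [e]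
    exact this
  have h2 : 1 / 2 ≤ |S (((a * q : ℕ) : ℝ) * y)| := by
    by_contra hc
    push Not at hc
    have : S (((a * q : ℕ) : ℝ) * y) ^ 2 < 1 / 4 := by
      rw [← sq_abs]
      nlinarith [abs_nonneg (S (((a * q : ℕ) : ℝ) * y))]
    linarith
  have qa : 0 < a * q := hb
  have a1 : 1 ≤ a := Nat.pos_of_mul_pos_right qa |> fun h => by
    rcases Nat.eq_zero_or_pos a with h' | h'
    · subst h'; simp at qa
    · exact h'
  have q1 : 1 ≤ q := by
    rcases Nat.eq_zero_or_pos q with h' | h'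
    · subst h'; simp at qa
    · exact h'
  have a1' : (1 : ℝ) ≤ a := by exact_mod_cast a1
  have q1' : (1 : ℝ) ≤ q := by exact_mod_cast q1
  push_cast
  rw [div_le_iff₀ (by positivity)]
  have h3 := abs_nonneg (S (a * y))
  have h4 : (q : ℝ) * |S (a * y)| ≤ a * (q * |S (a * y)|) := by
    have : 0 ≤ (q : ℝ) * |S (a * y)| := by positivity
    nlinarith
  nlinarith

lemma dvd_chain {N : ℕ → ℕ} {j : ℕ} (h : ∀ i < j, N i ∣ N (i + 1)) : ∀ i ≤ j, N i ∣ N j := by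
  intro i hi
  obtain ⟨k, rfl⟩ := Nat.exists_eq_add_of_le hi
  clear hi
  induction k with
  | zero => exact dvd_rfl
  | succ k ih =>
    exact (ih fun i hi => h i (by omega)).trans (h (i + k) (by omega))

/-- the bound for the derivatives of the weight -/
lemma slow_bdd (N : ℕ → ℕ) (s : ℕ → ℝ) (j : ℕ) (hN : ∀ i ≤ j, 0 < N i)
    (hd : ∀ i < j, N i ∣ N (i + 1)) (e : Fin (j + 1) → Bool) : ∃ B : ℝ, 0 ≤ B ∧ ∀ x y : ℝ,
    (|D1 (w N s j e) x y| + |D2 (w N s j e) x y|) *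
      (1 + |zx N s (j + 1) e x y| + |zy N s (j + 1) e x y|) ≤ B := by
  obtain ⟨A, hA⟩ : ∃ A : Set ℝ, A = {y | 1 / 4 ≤ S (N j * y) ^ 2} := ⟨_, rfl⟩
  have hr : ∀ i : Fin (j + 1), ∀ y ∈ A, 1 / (2 * (N j : ℝ)) ≤ |S (N i * y)| := by
    intro i y hy
    rw [hA] at hy
    exact S_dvd (hN j le_rfl) (dvd_chain hd i (by omega)) y hy
  have r0 : (0 : ℝ) < 1 / (2 * (N j : ℝ)) := by
    have : (0 : ℝ) < N j := by exact_mod_cast hN j le_rfl
    positivity
  have nx : Nice A (zx N s (j + 1) e) :=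
    Nice.sum Finset.univ fun i _ => (Nice.const A (sg (e i) * s i)).mul (nT1 A (N i) _ r0 (hr i))
  have ny : Nice A (zy N s (j + 1) e) :=
    Nice.sum Finset.univ fun i _ => (Nice.const A (sg (e i) * s i)).mul (nT2 A (N i) _ r0 (hr i))
  have nl : Nice A (fun _ y => lam (N j * y)) := by
    have hk : ContDiff ℝ 1 (fun u : ℝ => Real.smoothTransition (4 * u ^ 2 - 1)) := by
      have h1 : ContDiff ℝ 1 (fun u : ℝ => 4 * u ^ 2 - 1) :=
        (contDiff_const.mul (contDiff_id.pow 2)).sub contDiff_const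
      exact (Real.smoothTransition.contDiff (n := 1)).comp h1
    exact (nSy A (N j)).comp _ hk
  have nden : Nice A (fun x y => 1 + zx N s (j + 1) e x y ^ 2 + zy N s (j + 1) e x y ^ 2) := by
    have h := ((Nice.const A 1).add (nx.mul nx)).add (ny.mul ny)
    have e' : (fun x y => 1 + zx N s (j + 1) e x y ^ 2 + zy N s (j + 1) e x y ^ 2) =
        fun x y => 1 + zx N s (j + 1) e x y * zx N s (j + 1) e x y +
          zy N s (j + 1) e x y * zy N s (j + 1) e x y := by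
      funext x y; ring
    rw [e']
    exact h
  have nw : Nice A (w N s j e) := by
    refine nl.mul (nden.inv 1 one_pos fun x y _ => ?_)
    refine le_trans ?_ (le_abs_self _)
    nlinarith [sq_nonneg (zx N s (j + 1) e x y), sq_nonneg (zy N s (j + 1) e x y)]
  obtain ⟨B1, h1⟩ := nx
  obtain ⟨B2, h2⟩ := ny
  obtain ⟨B3, h3⟩ := nw
  refine ⟨|2 * B3 * (1 + B1 + B2)|, abs_nonneg _, fun x y => ?_⟩
  by_cases hy : y ∈ A
  · refine le_trans ?_ (le_abs_self _)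
    obtain ⟨x0, -, -⟩ := h1 x y hy
    obtain ⟨y0, -, -⟩ := h2 x y hy
    obtain ⟨w0, ⟨a, ha, ba⟩, ⟨b, hb, bb⟩⟩ := h3 x y hy
    have e1 : D1 (w N s j e) x y = a := ha.deriv
    have e2 : D2 (w N s j e) x y = b := hb.deriv
    rw [e1, e2]
    have b0 := abs_nonneg a
    refine mul_le_mul (by linarith) (by linarith) (by positivity) (by linarith)
  · have hlt : S (N j * y) ^ 2 < 1 / 4 := by
      rw [hA] at hy
      simpa using hy
    have z0 : ∀ t, S (N j * t) ^ 2 < 1 / 4 → lam (N j * t) = 0 := by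
      intro t ht
      exact Real.smoothTransition.zero_of_nonpos (by linarith)
    have e1 : D1 (w N s j e) x y = 0 := by
      have : (fun t => w N s j e t y) = fun _ => 0 := by
        funext t
        unfold w
        rw [z0 y hlt, zero_div]
      unfold D1
      rw [this]
      exact deriv_const _ _
    have e2 : D2 (w N s j e) x y = 0 := by
      have hc : Continuous fun t : ℝ => S (N j * t) ^ 2 := by
        unfold S; fun_prop
      have : (fun t => w N s j e x t) =ᶠ[𝓝 y] fun _ => 0 := by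
        filter_upwards [hc.continuousAt.eventually_lt_const hlt] with t ht
        unfold w
        rw [z0 t ht, zero_div]
      unfold D2
      rw [this.deriv_eq]
      exact deriv_const _ _
    rw [e1, e2, abs_zero, add_zero, zero_mul]
    exact abs_nonneg _

lemma slow_all (N : ℕ → ℕ) (s : ℕ → ℝ) (j : ℕ) (hN : ∀ i ≤ j, 0 < N i)
    (hd : ∀ i < j, N i ∣ N (i + 1)) : ∃ B : ℝ, ∀ (e : Fin (j + 1) → Bool) (x y : ℝ),
    (|D1 (w N s j e) x y| + |D2 (w N s j e) x y|) *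
      (1 + |zx N s (j + 1) e x y| + |zy N s (j + 1) e x y|) ≤ B := by
  choose B hB0 hB using slow_bdd N s j hN hd
  exact ⟨∑ e, B e, fun e x y => (hB e x y).trans
    (Finset.single_le_sum (f := B) (fun e _ => hB0 e) (Finset.mem_univ e))⟩

/-- convergence of the discretised angles -/
lemma osc_lim (hA : Ang) (M : ℕ) (hM : 0 < M) :
    Tendsto (fun K : ℕ => ∫ q, |Th (M * q.1) (M * q.2) -
      Th (M * (((⌊(K : ℝ) * q.1⌋ : ℤ) : ℝ) / (K : ℝ)))
        (M * (((⌊(K : ℝ) * q.2⌋ : ℤ) : ℝ) / (K : ℝ)))| ∂sq) atTop (𝓝 0) := by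
  have fl : ∀ x : ℝ, Tendsto (fun K : ℕ => ((⌊(K : ℝ) * x⌋ : ℤ) : ℝ) / (K : ℝ)) atTop (𝓝 x) := by
    intro x
    have h1 : Tendsto (fun K : ℕ => x - 1 / (K : ℝ)) atTop (𝓝 (x - 0)) :=
      tendsto_const_nhds.sub tendsto_one_div_atTop_nhds_zero_nat
    rw [sub_zero] at h1
    refine tendsto_of_tendsto_of_tendsto_of_le_of_le' h1 tendsto_const_nhds ?_ ?_
    · filter_upwards [eventually_gt_atTop 0] with K hK
      have hK' : (0 : ℝ) < K := by exact_mod_cast hK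
      rw [le_div_iff₀ hK']
      have := Int.lt_floor_add_one ((K : ℝ) * x)
      have e : (x - 1 / (K : ℝ)) * K = K * x - 1 := by field_simp
      rw [e]
      linarith
    · filter_upwards [eventually_gt_atTop 0] with K hK
      have hK' : (0 : ℝ) < K := by exact_mod_cast hK
      rw [div_le_iff₀ hK']
      have := Int.floor_le ((K : ℝ) * x)
      linarith
  have hfin : IsFiniteMeasure sq := by
    unfold sq
    infer_instance
  have hb : ∀ x y x' y' : ℝ, |Th x y - Th x' y'| ≤ 1 := by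
    intro x y x' y'
    have h1 := hA.mem x y
    have h2 := hA.mem x' y'
    rw [abs_le]
    constructor <;> linarith [h1.1, h1.2, h2.1, h2.2]
  have h := tendsto_integral_of_dominated_convergence (μ := sq)
    (F := fun (K : ℕ) (q : ℝ × ℝ) => |Th (M * q.1) (M * q.2) -
      Th (M * (((⌊(K : ℝ) * q.1⌋ : ℤ) : ℝ) / (K : ℝ)))
        (M * (((⌊(K : ℝ) * q.2⌋ : ℤ) : ℝ) / (K : ℝ)))|)
    (f := fun _ => 0) (fun _ => 1) ?_ (integrable_const _) ?_ ?_
  · simpa using h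
  · intro K
    have mT : Measurable (fun q : ℝ × ℝ => Th q.1 q.2) := hA.meas
    have m1 : Measurable (fun q : ℝ × ℝ => ((M : ℝ) * q.1, (M : ℝ) * q.2)) := by fun_prop
    have m2 : Measurable (fun q : ℝ × ℝ => ((M : ℝ) * (((⌊(K : ℝ) * q.1⌋ : ℤ) : ℝ) / (K : ℝ)),
        (M : ℝ) * (((⌊(K : ℝ) * q.2⌋ : ℤ) : ℝ) / (K : ℝ)))) := by
      have f1 : Measurable (fun q : ℝ × ℝ => ((⌊(K : ℝ) * q.1⌋ : ℤ) : ℝ)) :=
        (measurable_from_top (f := fun z : ℤ => (z : ℝ))).comp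
          (Int.measurable_floor.comp (measurable_const.mul measurable_fst))
      have f2 : Measurable (fun q : ℝ × ℝ => ((⌊(K : ℝ) * q.2⌋ : ℤ) : ℝ)) :=
        (measurable_from_top (f := fun z : ℤ => (z : ℝ))).comp
          (Int.measurable_floor.comp (measurable_const.mul measurable_snd))
      exact (measurable_const.mul (f1.div_const _)).prodMk (measurable_const.mul (f2.div_const _))
    have := ((mT.comp m1).sub (mT.comp m2)).abs
    exact this.aestronglyMeasurable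
  · intro K
    refine ae_of_all _ fun q => ?_
    rw [Real.norm_eq_abs, abs_abs]
    exact hb _ _ _ _
  · have hae : ∀ᵐ q ∂sq, S (M * q.2) ≠ 0 := by
      have h1 : ∀ᵐ y : ℝ ∂(volume.restrict (Set.Icc 0 1)), S (M * y) ≠ 0 :=
        ae_restrict_of_ae (hA.ae_ne M hM)
      exact Measure.quasiMeasurePreserving_snd.ae h1
    filter_upwards [hae] with q hq
    have hc : ContinuousAt (fun r : ℝ × ℝ => Th r.1 r.2) ((M : ℝ) * q.1, (M : ℝ) * q.2) :=
      (hA.smooth (q := ((M : ℝ) * q.1, (M : ℝ) * q.2)) hq).continuousAt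
    have h2 : Tendsto (fun K : ℕ => ((M : ℝ) * (((⌊(K : ℝ) * q.1⌋ : ℤ) : ℝ) / (K : ℝ)),
        (M : ℝ) * (((⌊(K : ℝ) * q.2⌋ : ℤ) : ℝ) / (K : ℝ)))) atTop
        (𝓝 ((M : ℝ) * q.1, (M : ℝ) * q.2)) :=
      ((fl q.1).const_mul (M : ℝ)).prodMk_nhds ((fl q.2).const_mul (M : ℝ))
    have h3 := hc.tendsto.comp h2
    have h4 := (tendsto_const_nhds (x := Th (M * q.1) (M * q.2))).sub h3
    have h5 := h4.abs
    simp only [sub_self, abs_zero] at h5
    exact h5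

/-- recursive choice of a sequence -/
lemma exists_seq (N0 : ℕ) (hN0 : 0 < N0) (C : ℕ → (ℕ → ℕ) → Prop)
    (step : ∀ j (N : ℕ → ℕ), (∀ i ≤ j, 0 < N i) → (∀ i < j, N i ∣ N (i + 1)) →
      ∃ K, 0 < K ∧ N j ∣ K ∧ ∀ N' : ℕ → ℕ, (∀ i ≤ j, N' i = N i) → N' (j + 1) = K → C j N') :
    ∃ N : ℕ → ℕ, N 0 = N0 ∧ (∀ j, 0 < N j) ∧ ∀ j, C j N := by
  classical
  have step' : ∀ (j : ℕ) (N : ℕ → ℕ), ∃ K, (∀ i ≤ j, 0 < N i) → (∀ i < j, N i ∣ N (i + 1)) →
      0 < K ∧ N j ∣ K ∧ ∀ N' : ℕ → ℕ, (∀ i ≤ j, N' i = N i) → N' (j + 1) = K → C j N' := by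
    intro j N
    by_cases h : (∀ i ≤ j, 0 < N i) ∧ (∀ i < j, N i ∣ N (i + 1))
    · obtain ⟨K, hK⟩ := step j N h.1 h.2
      exact ⟨K, fun _ _ => hK⟩
    · exact ⟨0, fun h1 h2 => (h ⟨h1, h2⟩).elim⟩
  choose K hK using step'
  let F : ℕ → (ℕ → ℕ) := fun j => Nat.rec (fun _ => N0)
    (fun j G => Function.update G (j + 1) (K j G)) j
  have F0 : F 0 = fun _ => N0 := rfl
  have F1 : ∀ j, F (j + 1) = Function.update (F j) (j + 1) (K j (F j)) := fun j => rfl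
  have agree : ∀ j, ∀ i ≤ j, F j i = F i i := by
    intro j
    induction j with
    | zero =>
      intro i hi
      have : i = 0 := by omega
      subst this; rfl
    | succ j ih =>
      intro i hi
      rcases Nat.lt_or_ge i (j + 1) with h | h
      · rw [F1, Function.update_of_ne (by omega)]
        exact ih i (by omega)
      · have : i = j + 1 := by omega
        subst this; rfl
  have pre : ∀ j, (∀ i ≤ j, 0 < F i i) ∧ (∀ i < j, F i i ∣ F (i + 1) (i + 1)) := by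
    intro j
    induction j with
    | zero =>
      refine ⟨fun i hi => ?_, fun i hi => by omega⟩
      have : i = 0 := by omega
      subst this; exact hN0
    | succ j ih =>
      have h1 : ∀ i ≤ j, 0 < F j i := fun i hi => by rw [agree j i hi]; exact ih.1 i hi
      have h2 : ∀ i < j, F j i ∣ F j (i + 1) := fun i hi => by
        rw [agree j i (by omega), agree j (i + 1) (by omega)]; exact ih.2 i hi
      obtain ⟨k1, k2, -⟩ := hK j (F j) h1 h2
      have e : F (j + 1) (j + 1) = K j (F j) := by rw [F1, Function.update_self]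
      refine ⟨fun i hi => ?_, fun i hi => ?_⟩
      · rcases Nat.lt_or_ge i (j + 1) with h | h
        · exact ih.1 i (by omega)
        · have : i = j + 1 := by omega
          subst this
          rw [e]; exact k1
      · rcases Nat.lt_or_ge i j with h | h
        · exact ih.2 i h
        · have : i = j := by omega
          subst this
          rw [e]; exact k2
  refine ⟨fun j => F j j, rfl, fun j => (pre j).1 j le_rfl, fun j => ?_⟩
  have h1 : ∀ i ≤ j, 0 < F j i := fun i hi => by rw [agree j i hi]; exact (pre j).1 i hi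
  have h2 : ∀ i < j, F j i ∣ F j (i + 1) := fun i hi => by
    rw [agree j i (by omega), agree j (i + 1) (by omega)]; exact (pre j).2 i hi
  obtain ⟨-, -, k3⟩ := hK j (F j) h1 h2
  refine k3 _ (fun i hi => (agree j i hi).symm) ?_
  show F (j + 1) (j + 1) = K j (F j)
  rw [F1, Function.update_self]

/-- the conditions on `N (j + 1)` -/
def Cnd (m : ℕ → ℕ) (s : ℕ → ℝ) (j : ℕ) (N : ℕ → ℕ) : Prop :=
  4 * N j ∣ N (j + 1) ∧
  2 ^ (j + 10) * ((m (j + 1) + 4 : ℕ) : ℝ) * (s (j + 1) / N (j + 1)) ≤ s j / N j ∧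
  (∀ (e : Fin (j + 1) → Bool) (x y : ℝ),
    (|D1 (w N s j e) x y| + |D2 (w N s j e) x y|) *
      (1 + |zx N s (j + 1) e x y| + |zy N s (j + 1) e x y|) ≤ N (j + 1) / 2 ^ j) ∧
  ∀ i < j + 1, ∫ q, |Th (N i * q.1) (N i * q.2) -
    Th (N i * (((⌊(N (j + 1) : ℝ) * q.1⌋ : ℤ) : ℝ) / (N (j + 1) : ℝ)))
      (N i * (((⌊(N (j + 1) : ℝ) * q.2⌋ : ℤ) : ℝ) / (N (j + 1) : ℝ)))| ∂sq ≤ 1 / 2 ^ (j + 1)

lemma step (hA : Ang) (m : ℕ → ℕ) (s : ℕ → ℝ) (hs : ∀ j, 0 < s j) (j : ℕ) (N : ℕ → ℕ)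
    (hN : ∀ i ≤ j, 0 < N i) (hd : ∀ i < j, N i ∣ N (i + 1)) :
    ∃ K, 0 < K ∧ N j ∣ K ∧ ∀ N' : ℕ → ℕ, (∀ i ≤ j, N' i = N i) → N' (j + 1) = K →
      Cnd m s j N' := by
  obtain ⟨B, hB⟩ := slow_all N s j hN hd
  have hNj : (0 : ℝ) < N j := by exact_mod_cast hN j le_rfl
  have ev1 : ∀ᶠ K : ℕ in atTop, 2 ^ (j + 10) * ((m (j + 1) + 4 : ℕ) : ℝ) * (s (j + 1) / K) ≤
      s j / N j := by
    have h1 : Tendsto (fun K : ℕ => (2 ^ (j + 10) * ((m (j + 1) + 4 : ℕ) : ℝ)) *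
        (s (j + 1) / (K : ℝ))) atTop
        (𝓝 ((2 ^ (j + 10) * ((m (j + 1) + 4 : ℕ) : ℝ)) * 0)) :=
      (tendsto_const_div_atTop_nhds_zero_nat (s (j + 1))).const_mul _
    rw [mul_zero] at h1
    exact h1.eventually_le_const (div_pos (hs j) hNj)
  have ev2 : ∀ᶠ K : ℕ in atTop, B ≤ K / 2 ^ j := by
    have h1 : Tendsto (fun K : ℕ => (K : ℝ) / 2 ^ j) atTop atTop :=
      tendsto_natCast_atTop_atTop.atTop_div_const (by positivity)
    exact h1.eventually_ge_atTop B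
  have ev3 : ∀ᶠ K : ℕ in atTop, ∀ i ∈ Finset.range (j + 1),
      ∫ q, |Th (N i * q.1) (N i * q.2) -
      Th (N i * (((⌊(K : ℝ) * q.1⌋ : ℤ) : ℝ) / (K : ℝ)))
        (N i * (((⌊(K : ℝ) * q.2⌋ : ℤ) : ℝ) / (K : ℝ)))| ∂sq ≤ 1 / 2 ^ (j + 1) := by
    rw [Filter.eventually_all_finset]
    intro i hi
    rw [Finset.mem_range] at hi
    exact (osc_lim hA (N i) (hN i (by omega))).eventually_le_const (by positivity)
  obtain ⟨K0, hK0⟩ := eventually_atTop.1 (ev1.and (ev2.and ev3))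
  refine ⟨4 * N j * (K0 + 1), Nat.mul_pos (Nat.mul_pos (by norm_num) (hN j le_rfl)) (by omega),
    ⟨4 * (K0 + 1), by ring⟩, fun N' h1 h2 => ?_⟩
  have hK : K0 ≤ 4 * N j * (K0 + 1) := by
    have := hN j le_rfl
    nlinarith
  obtain ⟨k1, k2, k3⟩ := hK0 _ hK
  have ex : ∀ e, zx N' s (j + 1) e = zx N s (j + 1) e := by
    intro e
    funext x y
    unfold zx
    refine Finset.sum_congr rfl fun i _ => ?_
    rw [h1 i (by omega)]
  have ey : ∀ e, zy N' s (j + 1) e = zy N s (j + 1) e := by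
    intro e
    funext x y
    unfold zy
    refine Finset.sum_congr rfl fun i _ => ?_
    rw [h1 i (by omega)]
  have ew : ∀ e, w N' s j e = w N s j e := by
    intro e
    funext x y
    unfold w
    rw [ex, ey, h1 j le_rfl]
  refine ⟨?_, ?_, fun e x y => ?_, fun i hi => ?_⟩
  · rw [h1 j le_rfl, h2]
    exact ⟨K0 + 1, rfl⟩
  · rw [h1 j le_rfl, h2]
    exact k1
  · rw [ex, ey, ew, h2]
    exact (hB e x y).trans k2
  · rw [h1 i (by omega), h2]
    exact k3 i (Finset.mem_range.2 hi)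

end PR

theorem par (hA : Ang) : StmtPar := by
  intro δ hδ
  -- the numbers of levels
  obtain ⟨a, ha⟩ : ∃ a : ℕ, (1 / 2 : ℝ) ^ a ≤ δ / 2 := by
    obtain ⟨a, ha⟩ := exists_pow_lt_of_lt_one (half_pos hδ) (by norm_num : (1 / 2 : ℝ) < 1)
    exact ⟨a, ha.le⟩
  obtain ⟨m, hm⟩ : ∃ m : ℕ → ℕ, m = fun j => 2 ^ (j + (a + 2)) - 4 := ⟨_, rfl⟩
  have hm4 : ∀ j, m j + 4 = 2 ^ (j + (a + 2)) := by
    intro j
    have h : 4 ≤ 2 ^ (j + (a + 2)) := by
      have : 2 ^ 2 ≤ 2 ^ (j + (a + 2)) := Nat.pow_le_pow_right (by norm_num) (by omega)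
      omega
    rw [hm]
    show 2 ^ (j + (a + 2)) - 4 + 4 = _
    omega
  -- the slopes
  have hsum : Summable fun j : ℕ => 1 / ((j : ℝ) + 1) ^ (3 / 2 : ℝ) := by
    have h := (summable_nat_add_iff 1).2
      (Real.summable_one_div_nat_rpow.2 (by norm_num : (1 : ℝ) < 3 / 2))
    simpa using h
  obtain ⟨C, hC⟩ : ∃ C : ℝ, C = 1 + ∑' j : ℕ, 1 / ((j : ℝ) + 1) ^ (3 / 2 : ℝ) := ⟨_, rfl⟩
  have hC0 : ∀ n, ∑ j ∈ Finset.range n, 1 / ((j : ℝ) + 1) ^ (3 / 2 : ℝ) ≤ C := by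
    intro n
    have h := hsum.sum_le_tsum (Finset.range n) (fun j _ => by positivity)
    rw [hC]; linarith
  have hC1 : 1 ≤ C := by
    have : 0 ≤ ∑' j : ℕ, 1 / ((j : ℝ) + 1) ^ (3 / 2 : ℝ) := tsum_nonneg fun j => by positivity
    rw [hC]; linarith
  obtain ⟨e, he⟩ : ∃ e : ℝ, e = min 1 (δ / C) := ⟨_, rfl⟩
  have e0 : 0 < e := by rw [he]; exact lt_min one_pos (by positivity)
  have e1 : e ≤ 1 := by rw [he]; exact min_le_left _ _
  have e2 : e * C ≤ δ := by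
    have : e ≤ δ / C := by rw [he]; exact min_le_right _ _
    rwa [le_div_iff₀ (by linarith)] at this
  obtain ⟨s, hs⟩ : ∃ s : ℕ → ℝ, s = fun j : ℕ => e / ((j : ℝ) + 1) := ⟨_, rfl⟩
  have hs' : ∀ j, s j = e / (j + 1) := fun j => by rw [hs]
  have spos : ∀ j, 0 < s j := fun j => by rw [hs']; positivity
  have sle : ∀ j, s j ≤ 1 := fun j => by
    rw [hs', div_le_one (by positivity)]
    have : (0 : ℝ) ≤ j := by positivity
    linarith
  -- the frequencies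
  obtain ⟨N, N0, Npos, hN⟩ := PR.exists_seq (2 ^ 10 * 2 ^ (a + 2)) (by positivity)
    (PR.Cnd m s) (PR.step hA m s spos)
  refine ⟨⟨N, m, s⟩, ⟨Npos, fun j => (hN j).1, spos, sle, ?_, ?_, fun j => (hN j).2.1, ?_, ?_⟩,
    fun n => ?_, fun n => ?_⟩
  · have h := Real.tendsto_sum_range_one_div_nat_succ_atTop.const_mul_atTop e0
    refine h.congr fun n => ?_
    rw [Finset.mul_sum]
    refine Finset.sum_congr rfl fun j _ => ?_
    show e * (1 / ((j : ℝ) + 1)) = s j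
    rw [hs']; ring
  · show 2 ^ 10 * ((m 0 + 4 : ℕ) : ℝ) * (s 0 / (N 0 : ℝ)) ≤ 1
    rw [hm4, N0, zero_add]
    push_cast
    have h1 : (2 : ℝ) ^ 10 * 2 ^ (a + 2) * (s 0 / (1024 * 2 ^ (a + 2))) = s 0 := by
      field_simp
      ring
    rw [h1]
    exact sle 0
  · intro j d x y
    exact (hN j).2.2.1 (fun i => (d i).1) x y
  · intro j i hi
    obtain ⟨k, rfl⟩ : ∃ k, j = k + 1 := ⟨j - 1, by omega⟩
    exact (hN k).2.2.2 i hi
  · have h1 : ∀ j, (1 / (((m j + 4 : ℕ) : ℝ)) : ℝ) = (1 / 2) ^ (a + 2) * (1 / 2) ^ j := by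
      intro j
      rw [hm4, ← pow_add]
      push_cast
      rw [one_div_pow]
      congr 2
      ring
    have h2 : ∑ j ∈ Finset.range n, (1 / (((m j + 4 : ℕ) : ℝ)) : ℝ) ≤ (1 / 2) ^ (a + 2) * 2 := by
      simp only [h1]
      rw [← Finset.mul_sum]
      have h3 := (summable_geometric_two).sum_le_tsum (Finset.range n)
        (fun j _ => by positivity)
      rw [tsum_geometric_two] at h3
      gcongr
    refine h2.trans ?_
    rw [pow_add]
    have : (0 : ℝ) ≤ (1 / 2) ^ a := by positivity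
    nlinarith
  · have h1 : ∀ j, s j ^ (3 / 2 : ℝ) ≤ e * (1 / ((j : ℝ) + 1) ^ (3 / 2 : ℝ)) := by
      intro j
      rw [hs', Real.div_rpow e0.le (by positivity), div_eq_mul_one_div]
      gcongr
      have := Real.rpow_le_rpow_of_exponent_ge e0 e1 (by norm_num : (1 : ℝ) ≤ 3 / 2)
      rwa [Real.rpow_one] at this
    refine (Finset.sum_le_sum fun j _ => h1 j).trans ?_
    rw [← Finset.mul_sum]
    exact (mul_le_mul_of_nonneg_left (hC0 n) e0.le).trans e2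

end

end Pool.Agent.T6.H55.LU
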