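import Pool.Agent.T6.H55.LU.Stm

/-!
# Lusin type approximation of forms (MP_507414_an): one vector potential
-/

set_option autoImplicit false

open MeasureTheory Filter Topology
open scoped ENNReal NNReal

namespace Pool.Agent.T6.H55.LU

namespace Pot1

/-! ### generalities on partial derivatives -/

theorem e3_zero : e3 0 = (1, 0, 0) := rfl
theorem e3_one : e3 1 = (0, 1, 0) := rfl
theorem e3_two : e3 2 = (0, 0, 1) := rfl

theorem pd0 {g : ℝ × ℝ × ℝ → ℝ} {x y z d : ℝ} (hg : DifferentiableAt ℝ g (x, y, z))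
    (h : HasDerivAt (fun t => g (t, y, z)) d x) : pd 0 g (x, y, z) = d := by
  have h1 : HasDerivAt (fun t : ℝ => (t, y, z)) ((1 : ℝ), (0 : ℝ), (0 : ℝ)) x :=
    (hasDerivAt_id x).prodMk ((hasDerivAt_const x y).prodMk (hasDerivAt_const x z))
  have h2 := hg.hasFDerivAt.comp_hasDerivAt x h1
  exact h2.unique h

theorem pd1 {g : ℝ × ℝ × ℝ → ℝ} {x y z d : ℝ} (hg : DifferentiableAt ℝ g (x, y, z))
    (h : HasDerivAt (fun t => g (x, t, z)) d y) : pd 1 g (x, y, z) = d := by
  have h1 : HasDerivAt (fun t : ℝ => (x, t, z)) ((0 : ℝ), (1 : ℝ), (0 : ℝ)) y :=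
    (hasDerivAt_const y x).prodMk ((hasDerivAt_id y).prodMk (hasDerivAt_const y z))
  have h2 := hg.hasFDerivAt.comp_hasDerivAt y h1
  exact h2.unique h

theorem pd2 {g : ℝ × ℝ × ℝ → ℝ} {x y z d : ℝ} (hg : DifferentiableAt ℝ g (x, y, z))
    (h : HasDerivAt (fun t => g (x, y, t)) d z) : pd 2 g (x, y, z) = d := by
  have h1 : HasDerivAt (fun t : ℝ => (x, y, t)) ((0 : ℝ), (0 : ℝ), (1 : ℝ)) z :=
    (hasDerivAt_const z x).prodMk ((hasDerivAt_const z y).prodMk (hasDerivAt_id z))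
  have h2 := hg.hasFDerivAt.comp_hasDerivAt z h1
  exact h2.unique h

/-- smooth functions of two variables -/
def Sm (f : ℝ → ℝ → ℝ) : Prop := ContDiff ℝ ((⊤ : ℕ∞) : WithTop ℕ∞) (fun q : ℝ × ℝ => f q.1 q.2)

theorem Sm.diff {f : ℝ → ℝ → ℝ} (hf : Sm f) (q : ℝ × ℝ) :
    DifferentiableAt ℝ (fun q : ℝ × ℝ => f q.1 q.2) q :=
  (ContDiff.differentiable hf (by simp)) q

theorem Sm.d1 {f : ℝ → ℝ → ℝ} (hf : Sm f) (x y : ℝ) :
    HasDerivAt (fun t => f t y) (D1 f x y) x := by
  have h1 : HasDerivAt (fun t : ℝ => (t, y)) ((1 : ℝ), (0 : ℝ)) x :=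
    (hasDerivAt_id x).prodMk (hasDerivAt_const x y)
  have h2 := (hf.diff (x, y)).hasFDerivAt.comp_hasDerivAt x h1
  exact h2.differentiableAt.hasDerivAt

theorem Sm.d2 {f : ℝ → ℝ → ℝ} (hf : Sm f) (x y : ℝ) :
    HasDerivAt (fun t => f x t) (D2 f x y) y := by
  have h1 : HasDerivAt (fun t : ℝ => (x, t)) ((0 : ℝ), (1 : ℝ)) y :=
    (hasDerivAt_const y x).prodMk (hasDerivAt_id y)
  have h2 := (hf.diff (x, y)).hasFDerivAt.comp_hasDerivAt y h1
  exact h2.differentiableAt.hasDerivAt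

theorem D1_eq {f : ℝ → ℝ → ℝ} (hf : Sm f) (x y : ℝ) :
    D1 f x y = fderiv ℝ (fun q : ℝ × ℝ => f q.1 q.2) (x, y) (1, 0) := by
  have h1 : HasDerivAt (fun t : ℝ => (t, y)) ((1 : ℝ), (0 : ℝ)) x :=
    (hasDerivAt_id x).prodMk (hasDerivAt_const x y)
  have h2 := (hf.diff (x, y)).hasFDerivAt.comp_hasDerivAt x h1
  exact (hf.d1 x y).unique h2

theorem D2_eq {f : ℝ → ℝ → ℝ} (hf : Sm f) (x y : ℝ) :
    D2 f x y = fderiv ℝ (fun q : ℝ × ℝ => f q.1 q.2) (x, y) (0, 1) := by
  have h1 : HasDerivAt (fun t : ℝ => (x, t)) ((0 : ℝ), (1 : ℝ)) y :=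
    (hasDerivAt_const y x).prodMk (hasDerivAt_id y)
  have h2 := (hf.diff (x, y)).hasFDerivAt.comp_hasDerivAt y h1
  exact (hf.d2 x y).unique h2

theorem Sm.D1 {f : ℝ → ℝ → ℝ} (hf : Sm f) : Sm (D1 f) := by
  have h : (fun q : ℝ × ℝ => LU.D1 f q.1 q.2) =
      fun q : ℝ × ℝ => fderiv ℝ (fun q : ℝ × ℝ => f q.1 q.2) q (1, 0) := by
    funext q
    exact D1_eq hf q.1 q.2
  unfold Sm
  rw [h]
  exact (ContDiff.fderiv_right (m := ((⊤ : ℕ∞) : WithTop ℕ∞)) hf (by simp)).clm_apply contDiff_const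

theorem Sm.D2 {f : ℝ → ℝ → ℝ} (hf : Sm f) : Sm (D2 f) := by
  have h : (fun q : ℝ × ℝ => LU.D2 f q.1 q.2) =
      fun q : ℝ × ℝ => fderiv ℝ (fun q : ℝ × ℝ => f q.1 q.2) q (0, 1) := by
    funext q
    exact D2_eq hf q.1 q.2
  unfold Sm
  rw [h]
  exact (ContDiff.fderiv_right (m := ((⊤ : ℕ∞) : WithTop ℕ∞)) hf (by simp)).clm_apply contDiff_const

theorem D12 {f : ℝ → ℝ → ℝ} (hf : Sm f) (x y : ℝ) : LU.D1 (LU.D2 f) x y = LU.D2 (LU.D1 f) x y := by
  have h1 : LU.D1 (LU.D2 f) x y =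
      fderiv ℝ (fderiv ℝ (fun q : ℝ × ℝ => f q.1 q.2)) (x, y) (1, 0) (0, 1) := by
    rw [D1_eq hf.D2]
    have h : (fun q : ℝ × ℝ => LU.D2 f q.1 q.2) =
        fun q : ℝ × ℝ => fderiv ℝ (fun q : ℝ × ℝ => f q.1 q.2) q (0, 1) := by
      funext q
      exact D2_eq hf q.1 q.2
    rw [h]
    have h3 : DifferentiableAt ℝ (fderiv ℝ (fun q : ℝ × ℝ => f q.1 q.2)) (x, y) :=
      (ContDiff.differentiable (ContDiff.fderiv_right (m := ((⊤ : ℕ∞) : WithTop ℕ∞)) hf (by simp)) (by simp)) _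
    rw [fderiv_clm_apply h3 (differentiableAt_const _)]
    simp
  have h2 : LU.D2 (LU.D1 f) x y =
      fderiv ℝ (fderiv ℝ (fun q : ℝ × ℝ => f q.1 q.2)) (x, y) (0, 1) (1, 0) := by
    rw [D2_eq hf.D1]
    have h : (fun q : ℝ × ℝ => LU.D1 f q.1 q.2) =
        fun q : ℝ × ℝ => fderiv ℝ (fun q : ℝ × ℝ => f q.1 q.2) q (1, 0) := by
      funext q
      exact D1_eq hf q.1 q.2
    rw [h]
    have h3 : DifferentiableAt ℝ (fderiv ℝ (fun q : ℝ × ℝ => f q.1 q.2)) (x, y) :=
      (ContDiff.differentiable (ContDiff.fderiv_right (m := ((⊤ : ℕ∞) : WithTop ℕ∞)) hf (by simp)) (by simp)) _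
    rw [fderiv_clm_apply h3 (differentiableAt_const _)]
    simp
  rw [h1, h2]
  have hsym : IsSymmSndFDerivAt ℝ (fun q : ℝ × ℝ => f q.1 q.2) (x, y) :=
    (ContDiff.contDiffAt hf).isSymmSndFDerivAt (by
      simp only [minSmoothness_of_isRCLikeNormedField]
      exact WithTop.coe_le_coe.2 (le_top (a := (2 : ℕ∞))))
  exact hsym.eq _ _

/-! ### one-variable functions -/

theorem S_deriv (N x : ℝ) :
    HasDerivAt (fun t => S (N * t)) (Real.pi * N * c (N * x)) x := by
  unfold S c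
  have h1 : HasDerivAt (fun t : ℝ => Real.pi * (N * t)) (Real.pi * N) x := by
    have := ((hasDerivAt_id x).const_mul N).const_mul Real.pi
    simpa using this
  have h2 := h1.sin
  convert h2 using 1
  ring

theorem c_deriv (N x : ℝ) :
    HasDerivAt (fun t => c (N * t)) (-(Real.pi * N * S (N * x))) x := by
  unfold S c
  have h1 : HasDerivAt (fun t : ℝ => Real.pi * (N * t)) (Real.pi * N) x := by
    have := ((hasDerivAt_id x).const_mul N).const_mul Real.pi
    simpa using this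
  have h2 := h1.cos
  convert h2 using 1
  ring

theorem S_smooth : ContDiff ℝ ((⊤ : ℕ∞) : WithTop ℕ∞) S := by unfold S; fun_prop
theorem c_smooth : ContDiff ℝ ((⊤ : ℕ∞) : WithTop ℕ∞) c := by unfold c; fun_prop
theorem st_smooth : ContDiff ℝ ((⊤ : ℕ∞) : WithTop ℕ∞) Real.smoothTransition := Real.smoothTransition.contDiff
theorem kk_smooth : ContDiff ℝ ((⊤ : ℕ∞) : WithTop ℕ∞) kk := by
  unfold kk
  exact (st_smooth.comp (by fun_prop)).mul (st_smooth.comp (by fun_prop))
theorem ga_smooth : ContDiff ℝ ((⊤ : ℕ∞) : WithTop ℕ∞) ga := by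
  unfold ga
  exact (st_smooth.comp (by fun_prop)).mul (st_smooth.comp (by fun_prop))

theorem S_le (t : ℝ) : |S t| ≤ 1 := Real.abs_sin_le_one _
theorem c_le (t : ℝ) : |c t| ≤ 1 := Real.abs_cos_le_one _
theorem Sc (t : ℝ) : S t ^ 2 + c t ^ 2 = 1 := Real.sin_sq_add_cos_sq _

theorem kk_nonneg (t : ℝ) : 0 ≤ kk t :=
  mul_nonneg (Real.smoothTransition.nonneg _) (Real.smoothTransition.nonneg _)
theorem kk_le (t : ℝ) : kk t ≤ 1 :=
  mul_le_one₀ (Real.smoothTransition.le_one _) (Real.smoothTransition.nonneg _)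
    (Real.smoothTransition.le_one _)
theorem ga_nonneg (t : ℝ) : 0 ≤ ga t :=
  mul_nonneg (Real.smoothTransition.nonneg _) (Real.smoothTransition.nonneg _)
theorem ga_le (t : ℝ) : ga t ≤ 1 :=
  mul_le_one₀ (Real.smoothTransition.le_one _) (Real.smoothTransition.nonneg _)
    (Real.smoothTransition.le_one _)

theorem kk_zero_of_le {t : ℝ} (h : t ≤ 1 / 4) : kk t = 0 := by
  unfold kk
  rw [Real.smoothTransition.zero_of_nonpos (by linarith), zero_mul]
theorem kk_zero_of_ge {t : ℝ} (h : 15 / 4 ≤ t) : kk t = 0 := by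
  unfold kk
  rw [Real.smoothTransition.zero_of_nonpos (x := 15 - 4 * t) (by linarith), mul_zero]
theorem kk_one {t : ℝ} (h : 1 / 2 ≤ t) (h' : t ≤ 7 / 2) : kk t = 1 := by
  unfold kk
  rw [Real.smoothTransition.one_of_one_le (by linarith),
    Real.smoothTransition.one_of_one_le (by linarith), mul_one]
theorem ga_zero_of_le {t : ℝ} (h : t ≤ 1 / 4) : ga t = 0 := by
  unfold ga
  rw [Real.smoothTransition.zero_of_nonpos (by linarith), zero_mul]
theorem ga_zero_of_ge {t : ℝ} (h : 3 / 4 ≤ t) : ga t = 0 := by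
  unfold ga
  rw [Real.smoothTransition.zero_of_nonpos (x := 6 - 8 * t) (by linarith), mul_zero]

theorem deriv_kk_bdd : ∃ C : ℝ, 0 ≤ C ∧ ∀ t, |deriv kk t| ≤ C := by
  have h1 : HasCompactSupport kk := by
    refine HasCompactSupport.intro (isCompact_Icc (a := (0 : ℝ)) (b := 4)) fun t ht => ?_
    rw [Set.mem_Icc, not_and_or, not_le, not_le] at ht
    rcases ht with ht | ht
    · exact kk_zero_of_le (by linarith)
    · exact kk_zero_of_ge (by linarith)
  have h2 : Continuous (deriv kk) := (kk_smooth.continuous_deriv (by simp))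
  obtain ⟨C, hC⟩ := h2.bounded_above_of_compact_support h1.deriv
  exact ⟨max C 0, le_max_right _ _, fun t => (hC t).trans (le_max_left _ _)⟩

theorem deriv_kk_zero {t : ℝ} (h : 1 / 2 < t) (h' : t < 7 / 2) : deriv kk t = 0 := by
  have : kk =ᶠ[𝓝 t] fun _ => 1 := by
    filter_upwards [Ioo_mem_nhds h h'] with s hs
    exact kk_one hs.1.le hs.2.le
  rw [this.deriv_eq]
  simp

/-- `γ(r) = ga r / √r` -/
noncomputable def gam (r : ℝ) : ℝ := ga r / Real.sqrt r

/-- `Γ(r) = - ∫_r^1 ga` -/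
noncomputable def Gam (r : ℝ) : ℝ := ∫ u in (1 : ℝ)..r, ga u

theorem gam_smooth : ContDiff ℝ ((⊤ : ℕ∞) : WithTop ℕ∞) gam := by
  rw [contDiff_iff_contDiffAt]
  intro r
  rcases lt_or_ge r (1 / 4) with h | h
  · have : gam =ᶠ[𝓝 r] fun _ => 0 := by
      filter_upwards [Iio_mem_nhds h] with s hs
      unfold gam
      rw [ga_zero_of_le (le_of_lt hs), zero_div]
    exact contDiffAt_const.congr_of_eventuallyEq this
  · unfold gam
    exact (ga_smooth.contDiffAt).div (Real.contDiffAt_sqrt (by linarith))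
      (Real.sqrt_ne_zero'.2 (by linarith))

theorem hasDerivAt_Gam (r : ℝ) : HasDerivAt Gam (ga r) r :=
  intervalIntegral.integral_hasDerivAt_right (ga_smooth.continuous.intervalIntegrable _ _)
    (ga_smooth.continuous.stronglyMeasurableAtFilter _ _) ga_smooth.continuous.continuousAt

theorem Gam_smooth : ContDiff ℝ ((⊤ : ℕ∞) : WithTop ℕ∞) Gam := by
  have h1 : deriv Gam = ga := funext fun r => (hasDerivAt_Gam r).deriv
  rw [contDiff_infty_iff_deriv]
  exact ⟨fun r => (hasDerivAt_Gam r).differentiableAt, by rw [h1]; exact ga_smooth⟩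

theorem Gam_zero {r : ℝ} (h : 3 / 4 ≤ r) : Gam r = 0 := by
  unfold Gam
  have : ∫ u in (1 : ℝ)..r, ga u = ∫ u in (1 : ℝ)..r, (0 : ℝ) := by
    refine intervalIntegral.integral_congr fun u hu => ?_
    have : min 1 r ≤ u := hu.1
    exact ga_zero_of_ge (le_trans (le_min (by norm_num) h) this)
  rw [this]
  simp

theorem gam_zero {r : ℝ} (h : 3 / 4 ≤ r) : gam r = 0 := by
  unfold gam
  rw [ga_zero_of_ge h, zero_div]

theorem Gam_le {r : ℝ} (h0 : 0 ≤ r) (h2 : r ≤ 2) : |Gam r| ≤ 1 := by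
  unfold Gam
  have h1 := intervalIntegral.norm_integral_le_of_norm_le_const (a := (1 : ℝ)) (b := r) (C := 1)
    (f := ga) (fun u _ => by
      rw [Real.norm_eq_abs, abs_of_nonneg (ga_nonneg u)]
      exact ga_le u)
  rw [Real.norm_eq_abs] at h1
  refine h1.trans ?_
  rw [one_mul, abs_le]
  constructor <;> linarith

theorem gam_nonneg (r : ℝ) : 0 ≤ gam r := div_nonneg (ga_nonneg r) (Real.sqrt_nonneg r)

theorem gam_mul_sqrt {r : ℝ} (h : 0 ≤ r) : gam r * Real.sqrt r = ga r := by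
  unfold gam
  rcases eq_or_lt_of_le h with h | h
  · rw [← h, ga_zero_of_le (by norm_num)]
    simp
  · rw [div_mul_cancel₀]
    exact (Real.sqrt_pos.2 h).ne'

/-! ### the building blocks -/

section

variable (N h M : ℝ) (V w : ℝ → ℝ → ℝ)

/-- the variable `ρ` -/
noncomputable def rh (x y : ℝ) : ℝ := rho (N * x) (N * y)

/-- half of its derivatives -/
noncomputable def rx (x : ℝ) : ℝ := 2 * (Real.pi * N) * S (N * x) * c (N * x)

/-- the sign -/
noncomputable def sgm (x y : ℝ) : ℝ :=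
  2 * Real.smoothTransition (c (N * x) * c (N * y) + 1 / 2) - 1

/-- the angle -/
noncomputable def ph (x y z : ℝ) : ℝ := 2 * Real.pi * ((z - V x y) / h)

/-- cutoff in `z` -/
noncomputable def ka (x y z : ℝ) : ℝ := kk ((z - V x y) / h / M)

/-- its derivative -/
noncomputable def ka' (x y z : ℝ) : ℝ := deriv kk ((z - V x y) / h / M)

/-- `S1 sin φ - S2 cos φ` -/
noncomputable def PP (x y z : ℝ) : ℝ :=
  S (N * x) * Real.sin (ph h V x y z) - S (N * y) * Real.cos (ph h V x y z)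

/-- `S1 cos φ + S2 sin φ` -/
noncomputable def RR (x y z : ℝ) : ℝ :=
  S (N * x) * Real.cos (ph h V x y z) + S (N * y) * Real.sin (ph h V x y z)

/-- `B` -/
noncomputable def BB (x y z : ℝ) : ℝ := h / (2 * Real.pi) * (ka h M V x y z * PP N h V x y z)

/-- `E` -/
noncomputable def EE (x y z : ℝ) : ℝ :=
  ka h M V x y z * RR N h V x y z + ka' h M V x y z / (2 * Real.pi * M) * PP N h V x y z

/-- `σ γ(ρ)` -/
noncomputable def g1 (x y : ℝ) : ℝ := sgm N x y * gam (rh N x y)

/-- `σ Γ(ρ)` -/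
noncomputable def g2 (x y : ℝ) : ℝ := sgm N x y * Gam (rh N x y)

/-- the components of the potential -/
noncomputable def A0 (x y z : ℝ) : ℝ :=
  w x y / N * (-(g1 N x y * BB N h M V x y z * rx N x) + ka h M V x y z * g2 N x y * D1 V x y)

/-- the components of the potential -/
noncomputable def A1 (x y z : ℝ) : ℝ :=
  w x y / N * (-(g1 N x y * BB N h M V x y z * rx N y) + ka h M V x y z * g2 N x y * D2 V x y)

/-- the components of the potential -/
noncomputable def A2 (x y z : ℝ) : ℝ := w x y / N * (-(ka h M V x y z * g2 N x y))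

/-- the potential -/
noncomputable def AA : Fin 3 → ℝ × ℝ × ℝ → ℝ :=
  ![fun q => A0 N h M V w q.1 q.2.1 q.2.2, fun q => A1 N h M V w q.1 q.2.1 q.2.2,
    fun q => A2 N h M V w q.1 q.2.1 q.2.2]

variable {N h M V w}

theorem rh_x (x y : ℝ) : HasDerivAt (fun t => rh N t y) (rx N x) x := by
  unfold rh rho rx
  have h1 := ((S_deriv N x).pow 2).add_const (S (N * y) ^ 2)
  refine h1.congr_deriv ?_
  push_cast
  ring

theorem rh_y (x y : ℝ) : HasDerivAt (fun t => rh N x t) (rx N y) y := by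
  unfold rh rho rx
  have h1 := ((S_deriv N y).pow 2).const_add (S (N * x) ^ 2)
  refine h1.congr_deriv ?_
  push_cast
  ring

theorem rh_nonneg (x y : ℝ) : 0 ≤ rh N x y := by unfold rh rho; positivity

theorem rh_le (x y : ℝ) : rh N x y ≤ 2 := by
  unfold rh rho
  have h1 := Sc (N * x)
  have h2 := Sc (N * y)
  nlinarith [sq_nonneg (c (N * x)), sq_nonneg (c (N * y))]

/-- where `ρ < 3/4`, the product of the cosines is larger than `1/2` in absolute value -/
theorem cc_of_rh_lt {x y : ℝ} (h : rh N x y < 3 / 4) :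
    1 / 2 < c (N * x) * c (N * y) ∨ c (N * x) * c (N * y) < -(1 / 2) := by
  unfold rh rho at h
  have h1 := Sc (N * x)
  have h2 := Sc (N * y)
  have h3 : (1 / 2 : ℝ) ^ 2 < (c (N * x) * c (N * y)) ^ 2 := by
    have h4 : 0 ≤ S (N * x) ^ 2 := sq_nonneg _
    have h5 : 0 ≤ S (N * y) ^ 2 := sq_nonneg _
    have h6 : c (N * x) ^ 2 = 1 - S (N * x) ^ 2 := by linarith
    have h7 : c (N * y) ^ 2 = 1 - S (N * y) ^ 2 := by linarith
    rw [mul_pow, h6, h7]
    nlinarith [mul_nonneg h4 h5]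
  by_contra hcon
  rw [not_or, not_lt, not_lt] at hcon
  have h8 := sq_le_sq' hcon.2 hcon.1
  linarith

theorem sgm_one {x y : ℝ} (h : 1 / 2 ≤ c (N * x) * c (N * y)) : sgm N x y = 1 := by
  unfold sgm
  rw [Real.smoothTransition.one_of_one_le (by linarith)]
  ring

theorem sgm_neg {x y : ℝ} (h : c (N * x) * c (N * y) ≤ -(1 / 2)) : sgm N x y = -1 := by
  unfold sgm
  rw [Real.smoothTransition.zero_of_nonpos (by linarith)]
  ring

theorem sgm_le (x y : ℝ) : |sgm N x y| ≤ 1 := by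
  unfold sgm
  have h1 := Real.smoothTransition.nonneg (c (N * x) * c (N * y) + 1 / 2)
  have h2 := Real.smoothTransition.le_one (c (N * x) * c (N * y) + 1 / 2)
  rw [abs_le]
  constructor <;> linarith

theorem sgm_mul {x y : ℝ} (h : rh N x y < 3 / 4) :
    sgm N x y * (c (N * x) * c (N * y)) = |c (N * x) * c (N * y)| := by
  rcases cc_of_rh_lt h with h | h
  · rw [sgm_one h.le, abs_of_pos (by linarith)]
    ring
  · rw [sgm_neg h.le, abs_of_neg (by linarith)]
    ring

/-- derivative of `σ F(ρ)` if `F` vanishes beyond `3/4` -/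
theorem sgm_mul_x {F : ℝ → ℝ} {F' : ℝ} (x y : ℝ) (hF0 : ∀ r, 3 / 4 ≤ r → F r = 0)
    (hF : HasDerivAt F F' (rh N x y)) :
    HasDerivAt (fun t => sgm N t y * F (rh N t y)) (sgm N x y * (F' * rx N x)) x := by
  have h1 : HasDerivAt (fun t => F (rh N t y)) (F' * rx N x) x :=
    HasDerivAt.comp x hF (rh_x x y)
  rcases lt_or_ge (rh N x y) (3 / 4) with h | h
  · have hc : Continuous fun t => c (N * t) * c (N * y) := by
      have := c_smooth.continuous
      fun_prop
    rcases cc_of_rh_lt h with h2 | h2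
    · have h3 : (fun t => sgm N t y * F (rh N t y)) =ᶠ[𝓝 x] fun t => sgm N x y * F (rh N t y) := by
        filter_upwards [hc.continuousAt.eventually (lt_mem_nhds h2)] with t ht
        rw [sgm_one h2.le, sgm_one (le_of_lt ht)]
      exact (h1.const_mul _).congr_of_eventuallyEq h3
    · have h3 : (fun t => sgm N t y * F (rh N t y)) =ᶠ[𝓝 x] fun t => sgm N x y * F (rh N t y) := by
        filter_upwards [hc.continuousAt.eventually (gt_mem_nhds h2)] with t ht
        rw [sgm_neg h2.le, sgm_neg (le_of_lt ht)]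
      exact (h1.const_mul _).congr_of_eventuallyEq h3
  · have h2 : DifferentiableAt ℝ (fun t => sgm N t y) x := by
      unfold sgm
      have h3 : DifferentiableAt ℝ Real.smoothTransition (c (N * x) * c (N * y) + 1 / 2) :=
        (st_smooth.differentiable (by simp)) _
      have h4 : DifferentiableAt ℝ (fun t => c (N * t) * c (N * y) + 1 / 2) x :=
        ((c_deriv N x).differentiableAt.mul_const _).add_const _
      exact ((DifferentiableAt.comp x h3 h4).const_mul 2).sub_const 1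
    have h5 := h2.hasDerivAt.mul h1
    refine h5.congr_deriv ?_
    rw [hF0 _ h]
    ring

theorem sgm_mul_y {F : ℝ → ℝ} {F' : ℝ} (x y : ℝ) (hF0 : ∀ r, 3 / 4 ≤ r → F r = 0)
    (hF : HasDerivAt F F' (rh N x y)) :
    HasDerivAt (fun t => sgm N x t * F (rh N x t)) (sgm N x y * (F' * rx N y)) y := by
  have hs : ∀ a b : ℝ, sgm N a b = sgm N b a := fun a b => by
    unfold sgm
    rw [mul_comm (c (N * a))]
  have hr : ∀ a b : ℝ, rh N a b = rh N b a := fun a b => by
    unfold rh rho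
    ring
  have h1 := sgm_mul_x (N := N) (F := F) (F' := F') y x hF0 (by rw [hr]; exact hF)
  have h2 : (fun t => sgm N x t * F (rh N x t)) = fun t => sgm N t x * F (rh N t x) := by
    funext t
    rw [hs, hr]
  rw [h2, hs x y]
  exact h1

theorem g1_x (x y : ℝ) :
    HasDerivAt (fun t => g1 N t y) (sgm N x y * (deriv gam (rh N x y) * rx N x)) x :=
  sgm_mul_x x y (fun _ h => gam_zero h) ((gam_smooth.differentiable (by simp)) _).hasDerivAt

theorem g1_y (x y : ℝ) :
    HasDerivAt (fun t => g1 N x t) (sgm N x y * (deriv gam (rh N x y) * rx N y)) y :=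
  sgm_mul_y x y (fun _ h => gam_zero h) ((gam_smooth.differentiable (by simp)) _).hasDerivAt

theorem g2_x (x y : ℝ) :
    HasDerivAt (fun t => g2 N t y) (sgm N x y * (ga (rh N x y) * rx N x)) x :=
  sgm_mul_x x y (fun _ h => Gam_zero h) (hasDerivAt_Gam _)

theorem g2_y (x y : ℝ) :
    HasDerivAt (fun t => g2 N x t) (sgm N x y * (ga (rh N x y) * rx N y)) y :=
  sgm_mul_y x y (fun _ h => Gam_zero h) (hasDerivAt_Gam _)

/-! derivatives of the cutoff -/

theorem ka_x (hV : Sm V) (x y z : ℝ) :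
    HasDerivAt (fun t => ka h M V t y z) (ka' h M V x y z * (-D1 V x y / h / M)) x := by
  have h1 : HasDerivAt (fun t => (z - V t y) / h / M) (-D1 V x y / h / M) x :=
    (((hV.d1 x y).const_sub z).div_const h).div_const M
  exact HasDerivAt.comp x ((kk_smooth.differentiable (by simp)) _).hasDerivAt h1

theorem ka_y (hV : Sm V) (x y z : ℝ) :
    HasDerivAt (fun t => ka h M V x t z) (ka' h M V x y z * (-D2 V x y / h / M)) y := by
  have h1 : HasDerivAt (fun t => (z - V x t) / h / M) (-D2 V x y / h / M) y :=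
    (((hV.d2 x y).const_sub z).div_const h).div_const M
  exact HasDerivAt.comp y ((kk_smooth.differentiable (by simp)) _).hasDerivAt h1

theorem ka_z (x y z : ℝ) :
    HasDerivAt (fun t => ka h M V x y t) (ka' h M V x y z * (1 / h / M)) z := by
  have h1 : HasDerivAt (fun t => (t - V x y) / h / M) (1 / h / M) z :=
    (((hasDerivAt_id z).sub_const (V x y)).div_const h).div_const M
  exact HasDerivAt.comp z ((kk_smooth.differentiable (by simp)) _).hasDerivAt h1

theorem ph_x (hV : Sm V) (x y z : ℝ) :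
    HasDerivAt (fun t => ph h V t y z) (2 * Real.pi * (-D1 V x y / h)) x :=
  (((hV.d1 x y).const_sub z).div_const h).const_mul _

theorem ph_y (hV : Sm V) (x y z : ℝ) :
    HasDerivAt (fun t => ph h V x t z) (2 * Real.pi * (-D2 V x y / h)) y :=
  (((hV.d2 x y).const_sub z).div_const h).const_mul _

theorem ph_z (x y z : ℝ) :
    HasDerivAt (fun t => ph h V x y t) (2 * Real.pi * (1 / h)) z :=
  (((hasDerivAt_id z).sub_const (V x y)).div_const h).const_mul _

theorem BB_x (hh : h ≠ 0) (hM : M ≠ 0) (hV : Sm V) (x y z : ℝ) :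
    HasDerivAt (fun t => BB N h M V t y z)
      (-D1 V x y * EE N h M V x y z + h / (2 * Real.pi) * (ka h M V x y z *
        (Real.pi * N * c (N * x) * Real.sin (ph h V x y z)))) x := by
  unfold BB PP
  have h1 := (S_deriv N x).mul (ph_x (h := h) hV x y z).sin
  have h2 := ((ph_x (h := h) hV x y z).cos).const_mul (S (N * y))
  have h3 := ((ka_x (h := h) (M := M) hV x y z).mul (h1.sub h2)).const_mul (h / (2 * Real.pi))
  refine h3.congr_deriv ?_
  unfold EE RR PP
  have hpi := Real.pi_ne_zero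
  simp only [Pi.sub_apply, Pi.mul_apply]
  field_simp
  ring

theorem BB_y (hh : h ≠ 0) (hM : M ≠ 0) (hV : Sm V) (x y z : ℝ) :
    HasDerivAt (fun t => BB N h M V x t z)
      (-D2 V x y * EE N h M V x y z - h / (2 * Real.pi) * (ka h M V x y z *
        (Real.pi * N * c (N * y) * Real.cos (ph h V x y z)))) y := by
  unfold BB PP
  have h1 := (S_deriv N y).mul (ph_y (h := h) hV x y z).cos
  have h2 := ((ph_y (h := h) hV x y z).sin).const_mul (S (N * x))
  have h3 := ((ka_y (h := h) (M := M) hV x y z).mul (h2.sub h1)).const_mul (h / (2 * Real.pi))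
  refine h3.congr_deriv ?_
  unfold EE RR PP
  have hpi := Real.pi_ne_zero
  simp only [Pi.sub_apply, Pi.mul_apply]
  field_simp
  ring

theorem BB_z (hh : h ≠ 0) (hM : M ≠ 0) (x y z : ℝ) :
    HasDerivAt (fun t => BB N h M V x y t) (EE N h M V x y z) z := by
  unfold BB PP
  have h1 := ((ph_z (h := h) (V := V) x y z).cos).const_mul (S (N * y))
  have h2 := ((ph_z (h := h) (V := V) x y z).sin).const_mul (S (N * x))
  have h3 := ((ka_z (h := h) (M := M) (V := V) x y z).mul (h2.sub h1)).const_mul (h / (2 * Real.pi))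
  refine h3.congr_deriv ?_
  unfold EE RR PP
  have hpi := Real.pi_ne_zero
  simp only [Pi.sub_apply]
  field_simp
  ring

/-! smoothness of the components -/

theorem sm_rh : ContDiff ℝ ((⊤ : ℕ∞) : WithTop ℕ∞) (fun q : ℝ × ℝ × ℝ => rh N q.1 q.2.1) := by
  unfold rh rho
  have := S_smooth
  exact ((this.comp (by fun_prop)).pow 2).add ((this.comp (by fun_prop)).pow 2)

theorem sm_rx : ContDiff ℝ ((⊤ : ℕ∞) : WithTop ℕ∞) (rx N) := by
  unfold rx
  have h1 := S_smooth
  have h2 := c_smooth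
  exact (contDiff_const.mul (h1.comp (by fun_prop))).mul (h2.comp (by fun_prop))

theorem sm_sgm : ContDiff ℝ ((⊤ : ℕ∞) : WithTop ℕ∞) (fun q : ℝ × ℝ × ℝ => sgm N q.1 q.2.1) := by
  unfold sgm
  have h2 := c_smooth
  exact (contDiff_const.mul (st_smooth.comp (((h2.comp (by fun_prop)).mul
    (h2.comp (by fun_prop))).add contDiff_const))).sub contDiff_const

theorem sm_V (hV : Sm V) : ContDiff ℝ ((⊤ : ℕ∞) : WithTop ℕ∞) (fun q : ℝ × ℝ × ℝ => V q.1 q.2.1) :=
  ContDiff.comp (g := fun q : ℝ × ℝ => V q.1 q.2) (f := fun q : ℝ × ℝ × ℝ => (q.1, q.2.1)) hV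
    (by fun_prop)

theorem sm_tt (hV : Sm V) : ContDiff ℝ ((⊤ : ℕ∞) : WithTop ℕ∞) (fun q : ℝ × ℝ × ℝ => (q.2.2 - V q.1 q.2.1) / h) :=
  (ContDiff.sub (by fun_prop) (sm_V hV)).div_const h

theorem sm_ka (hV : Sm V) : ContDiff ℝ ((⊤ : ℕ∞) : WithTop ℕ∞) (fun q : ℝ × ℝ × ℝ => ka h M V q.1 q.2.1 q.2.2) :=
  kk_smooth.comp ((sm_tt hV).div_const M)

theorem sm_PP (hV : Sm V) : ContDiff ℝ ((⊤ : ℕ∞) : WithTop ℕ∞) (fun q : ℝ × ℝ × ℝ => PP N h V q.1 q.2.1 q.2.2) := by
  unfold PP ph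
  have h1 := S_smooth
  have h2 : ContDiff ℝ ((⊤ : ℕ∞) : WithTop ℕ∞) (fun q : ℝ × ℝ × ℝ => 2 * Real.pi * ((q.2.2 - V q.1 q.2.1) / h)) :=
    contDiff_const.mul (sm_tt hV)
  exact ((h1.comp (by fun_prop)).mul h2.sin).sub ((h1.comp (by fun_prop)).mul h2.cos)

theorem sm_BB (hV : Sm V) : ContDiff ℝ ((⊤ : ℕ∞) : WithTop ℕ∞) (fun q : ℝ × ℝ × ℝ => BB N h M V q.1 q.2.1 q.2.2) :=
  contDiff_const.mul ((sm_ka hV).mul (sm_PP hV))

theorem sm_g1 : ContDiff ℝ ((⊤ : ℕ∞) : WithTop ℕ∞) (fun q : ℝ × ℝ × ℝ => g1 N q.1 q.2.1) :=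
  sm_sgm.mul (gam_smooth.comp sm_rh)

theorem sm_g2 : ContDiff ℝ ((⊤ : ℕ∞) : WithTop ℕ∞) (fun q : ℝ × ℝ × ℝ => g2 N q.1 q.2.1) :=
  sm_sgm.mul (Gam_smooth.comp sm_rh)

theorem sm_A0 (hV : Sm V) (hw : Sm w) :
    ContDiff ℝ ((⊤ : ℕ∞) : WithTop ℕ∞) (fun q : ℝ × ℝ × ℝ => A0 N h M V w q.1 q.2.1 q.2.2) :=
  ((sm_V hw).div_const _).mul (((sm_g1.mul (sm_BB hV)).mul (sm_rx.comp contDiff_fst)).neg.add
    (((sm_ka hV).mul sm_g2).mul (sm_V hV.D1)))

theorem sm_A1 (hV : Sm V) (hw : Sm w) :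
    ContDiff ℝ ((⊤ : ℕ∞) : WithTop ℕ∞) (fun q : ℝ × ℝ × ℝ => A1 N h M V w q.1 q.2.1 q.2.2) :=
  ((sm_V hw).div_const _).mul (((sm_g1.mul (sm_BB hV)).mul
    (sm_rx.comp (contDiff_fst.comp contDiff_snd))).neg.add
    (((sm_ka hV).mul sm_g2).mul (sm_V hV.D2)))

theorem sm_A2 (hV : Sm V) (hw : Sm w) :
    ContDiff ℝ ((⊤ : ℕ∞) : WithTop ℕ∞) (fun q : ℝ × ℝ × ℝ => A2 N h M V w q.1 q.2.1 q.2.2) :=
  ((sm_V hw).div_const _).mul ((sm_ka hV).mul sm_g2).neg

theorem sm_AA (hV : Sm V) (hw : Sm w) (a : Fin 3) : ContDiff ℝ ((⊤ : ℕ∞) : WithTop ℕ∞) (AA N h M V w a) := by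
  fin_cases a
  · exact sm_A0 hV hw
  · exact sm_A1 hV hw
  · exact sm_A2 hV hw

/-- `H` -/
noncomputable def HH (N h M : ℝ) (V : ℝ → ℝ → ℝ) (x y z : ℝ) : ℝ :=
  ka h M V x y z * ga (rh N x y) - gam (rh N x y) * EE N h M V x y z

theorem crl01 (hh : h ≠ 0) (hM : M ≠ 0) (hV : Sm V) (hw : Sm w) (x y z : ℝ) :
    crl (AA N h M V w) 0 1 (x, y, z) =
      w x y / N * (sgm N x y * (HH N h M V x y z * (D2 V x y * rx N x - D1 V x y * rx N y) -
        h * Real.pi * N ^ 2 * (ka h M V x y z * (gam (rh N x y) * RR N h V x y z) *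
          (c (N * x) * c (N * y))))) +
      (D1 w x y / N * (-(g1 N x y * BB N h M V x y z * rx N y) + ka h M V x y z * g2 N x y * D2 V x y) -
       D2 w x y / N * (-(g1 N x y * BB N h M V x y z * rx N x) + ka h M V x y z * g2 N x y * D1 V x y)) := by
  have h01 : HasDerivAt (fun t => A1 N h M V w t y z) _ x :=
    ((hw.d1 x y).div_const N).mul
      ((((g1_x (N := N) x y).mul (BB_x (N := N) hh hM hV x y z)).mul_const (rx N y)).neg.add
        (((ka_x (h := h) (M := M) hV x y z).mul (g2_x (N := N) x y)).mul (hV.D2.d1 x y)))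
  have h10 : HasDerivAt (fun t => A0 N h M V w x t z) _ y :=
    ((hw.d2 x y).div_const N).mul
      ((((g1_y (N := N) x y).mul (BB_y (N := N) hh hM hV x y z)).mul_const (rx N x)).neg.add
        (((ka_y (h := h) (M := M) hV x y z).mul (g2_y (N := N) x y)).mul (hV.D1.d2 x y)))
  have e1 := pd0 (((sm_A1 (N := N) (h := h) (M := M) hV hw).differentiable (by simp)) (x, y, z)) h01
  have e2 := pd1 (((sm_A0 (N := N) (h := h) (M := M) hV hw).differentiable (by simp)) (x, y, z)) h10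
  change pd 0 (fun q : ℝ × ℝ × ℝ => A1 N h M V w q.1 q.2.1 q.2.2) (x, y, z) -
    pd 1 (fun q : ℝ × ℝ × ℝ => A0 N h M V w q.1 q.2.1 q.2.2) (x, y, z) = _
  rw [e1, e2, D12 hV]
  simp only [Pi.mul_apply]
  have hpi := Real.pi_ne_zero
  have t1 : h / (2 * Real.pi) * (ka h M V x y z *
      (Real.pi * N * c (N * x) * Real.sin (ph h V x y z))) =
      h / 2 * (ka h M V x y z * (N * c (N * x) * Real.sin (ph h V x y z))) := by
    field_simp
  have t2 : h / (2 * Real.pi) * (ka h M V x y z *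
      (Real.pi * N * c (N * y) * Real.cos (ph h V x y z))) =
      h / 2 * (ka h M V x y z * (N * c (N * y) * Real.cos (ph h V x y z))) := by
    field_simp
  rw [t1, t2]
  unfold HH RR g1 rx
  ring

theorem crl02 (hh : h ≠ 0) (hM : M ≠ 0) (hV : Sm V) (hw : Sm w) (x y z : ℝ) :
    crl (AA N h M V w) 0 2 (x, y, z) =
      -(w x y / N * (sgm N x y * (HH N h M V x y z * rx N x))) -
      D1 w x y / N * (ka h M V x y z * g2 N x y) := by
  have h01 : HasDerivAt (fun t => A2 N h M V w t y z) _ x :=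
    ((hw.d1 x y).div_const N).mul
      ((ka_x (h := h) (M := M) hV x y z).mul (g2_x (N := N) x y)).neg
  have h10 : HasDerivAt (fun t => A0 N h M V w x y t) _ z :=
    ((((BB_z (N := N) (V := V) hh hM x y z).const_mul (g1 N x y)).mul_const (rx N x)).neg.add
        (((ka_z (h := h) (M := M) (V := V) x y z).mul_const (g2 N x y)).mul_const
          (D1 V x y))).const_mul (w x y / N)
  have e1 := pd0 (((sm_A2 (N := N) (h := h) (M := M) hV hw).differentiable (by simp)) (x, y, z)) h01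
  have e2 := pd2 (((sm_A0 (N := N) (h := h) (M := M) hV hw).differentiable (by simp)) (x, y, z)) h10
  change pd 0 (fun q : ℝ × ℝ × ℝ => A2 N h M V w q.1 q.2.1 q.2.2) (x, y, z) -
    pd 2 (fun q : ℝ × ℝ × ℝ => A0 N h M V w q.1 q.2.1 q.2.2) (x, y, z) = _
  rw [e1, e2]
  unfold HH g1
  ring

theorem crl12 (hh : h ≠ 0) (hM : M ≠ 0) (hV : Sm V) (hw : Sm w) (x y z : ℝ) :
    crl (AA N h M V w) 1 2 (x, y, z) =
      -(w x y / N * (sgm N x y * (HH N h M V x y z * rx N y))) -
      D2 w x y / N * (ka h M V x y z * g2 N x y) := by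
  have h01 : HasDerivAt (fun t => A2 N h M V w x t z) _ y :=
    ((hw.d2 x y).div_const N).mul
      ((ka_y (h := h) (M := M) hV x y z).mul (g2_y (N := N) x y)).neg
  have h10 : HasDerivAt (fun t => A1 N h M V w x y t) _ z :=
    ((((BB_z (N := N) (V := V) hh hM x y z).const_mul (g1 N x y)).mul_const (rx N y)).neg.add
        (((ka_z (h := h) (M := M) (V := V) x y z).mul_const (g2 N x y)).mul_const
          (D2 V x y))).const_mul (w x y / N)
  have e1 := pd1 (((sm_A2 (N := N) (h := h) (M := M) hV hw).differentiable (by simp)) (x, y, z)) h01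
  have e2 := pd2 (((sm_A1 (N := N) (h := h) (M := M) hV hw).differentiable (by simp)) (x, y, z)) h10
  change pd 1 (fun q : ℝ × ℝ × ℝ => A2 N h M V w q.1 q.2.1 q.2.2) (x, y, z) -
    pd 2 (fun q : ℝ × ℝ × ℝ => A1 N h M V w q.1 q.2.1 q.2.2) (x, y, z) = _
  rw [e1, e2]
  unfold HH g1
  ring

/-! ### bounds -/

theorem ka_nonneg (x y z : ℝ) : 0 ≤ ka h M V x y z := kk_nonneg _
theorem ka_le (x y z : ℝ) : ka h M V x y z ≤ 1 := kk_le _

theorem cs_aux (a b u : ℝ) :
    |a * Real.cos u + b * Real.sin u| ≤ Real.sqrt (a ^ 2 + b ^ 2) := by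
  apply Real.abs_le_sqrt
  have := Real.sin_sq_add_cos_sq u
  nlinarith [sq_nonneg (a * Real.sin u - b * Real.cos u)]

theorem RR_le (x y z : ℝ) : |RR N h V x y z| ≤ Real.sqrt (rh N x y) := cs_aux _ _ _

theorem PP_le (x y z : ℝ) : |PP N h V x y z| ≤ Real.sqrt (rh N x y) := by
  have h1 := cs_aux (-(S (N * y))) (S (N * x)) (ph h V x y z)
  unfold PP rh rho
  rw [show (-S (N * y)) ^ 2 + S (N * x) ^ 2 = S (N * x) ^ 2 + S (N * y) ^ 2 by ring] at h1
  rw [show S (N * x) * Real.sin (ph h V x y z) - S (N * y) * Real.cos (ph h V x y z) =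
    -S (N * y) * Real.cos (ph h V x y z) + S (N * x) * Real.sin (ph h V x y z) by ring]
  exact h1

theorem gam_RR_le (x y z : ℝ) : |gam (rh N x y) * RR N h V x y z| ≤ 1 := by
  rw [abs_mul, abs_of_nonneg (gam_nonneg _)]
  calc gam (rh N x y) * |RR N h V x y z| ≤ gam (rh N x y) * Real.sqrt (rh N x y) :=
        mul_le_mul_of_nonneg_left (RR_le x y z) (gam_nonneg _)
    _ = ga (rh N x y) := gam_mul_sqrt (rh_nonneg x y)
    _ ≤ 1 := ga_le _

theorem gam_PP_le (x y z : ℝ) : |gam (rh N x y) * PP N h V x y z| ≤ 1 := by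
  rw [abs_mul, abs_of_nonneg (gam_nonneg _)]
  calc gam (rh N x y) * |PP N h V x y z| ≤ gam (rh N x y) * Real.sqrt (rh N x y) :=
        mul_le_mul_of_nonneg_left (PP_le x y z) (gam_nonneg _)
    _ = ga (rh N x y) := gam_mul_sqrt (rh_nonneg x y)
    _ ≤ 1 := ga_le _

theorem rx_le (hN : 0 ≤ N) (x : ℝ) : |rx N x| ≤ 2 * Real.pi * N := by
  unfold rx
  have h1 := S_le (N * x)
  have h2 := c_le (N * x)
  have hpi := Real.pi_pos
  rw [abs_mul, abs_mul, abs_of_nonneg (by positivity : (0 : ℝ) ≤ 2 * (Real.pi * N))]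
  calc 2 * (Real.pi * N) * |S (N * x)| * |c (N * x)| ≤ 2 * (Real.pi * N) * 1 * 1 := by
        gcongr
    _ = 2 * Real.pi * N := by ring

/-- `|g1 B rx| ≤ hN` -/
theorem g1B_le (hN : 0 ≤ N) (hh : 0 ≤ h) (x y z t : ℝ) :
    |g1 N x y * BB N h M V x y z * rx N t| ≤ h * N := by
  have hpi := Real.pi_pos
  have e : g1 N x y * BB N h M V x y z * rx N t =
      sgm N x y * (h / (2 * Real.pi)) * ka h M V x y z * (gam (rh N x y) * PP N h V x y z) *
        rx N t := by
    unfold g1 BB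
    ring
  rw [e, abs_mul, abs_mul, abs_mul, abs_mul, abs_of_nonneg (ka_nonneg x y z),
    abs_of_nonneg (by positivity : (0 : ℝ) ≤ h / (2 * Real.pi))]
  calc |sgm N x y| * (h / (2 * Real.pi)) * ka h M V x y z *
        |gam (rh N x y) * PP N h V x y z| * |rx N t|
      ≤ 1 * (h / (2 * Real.pi)) * 1 * 1 * (2 * Real.pi * N) := by
        have h1 := sgm_le (N := N) x y
        have h2 := ka_le (h := h) (M := M) (V := V) x y z
        have h3 := gam_PP_le (N := N) (h := h) (V := V) x y z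
        have h4 := rx_le hN t
        have h5 := ka_nonneg (h := h) (M := M) (V := V) x y z
        gcongr
    _ = h * N := by field_simp

theorem g2_le (x y z : ℝ) : |ka h M V x y z * g2 N x y| ≤ 1 := by
  unfold g2
  rw [abs_mul, abs_mul, abs_of_nonneg (ka_nonneg x y z)]
  have h1 := sgm_le (N := N) x y
  have h2 := ka_le (h := h) (M := M) (V := V) x y z
  have h5 := ka_nonneg (h := h) (M := M) (V := V) x y z
  have h3 := Gam_le (rh_nonneg (N := N) x y) (rh_le x y)
  calc ka h M V x y z * (|sgm N x y| * |Gam (rh N x y)|) ≤ 1 * (1 * 1) := by gcongr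
    _ = 1 := by ring

theorem HH_le {C1 : ℝ} (hC1 : 0 ≤ C1) (hC : ∀ t, |deriv kk t| ≤ C1) (hM : 4 ≤ M) (x y z : ℝ) :
    |HH N h M V x y z| ≤ 2 + C1 := by
  have hpi := Real.pi_gt_three
  have h5 := ka_nonneg (h := h) (M := M) (V := V) x y z
  have h2 := ka_le (h := h) (M := M) (V := V) x y z
  have e : HH N h M V x y z = ka h M V x y z * ga (rh N x y) -
      ka h M V x y z * (gam (rh N x y) * RR N h V x y z) -
      ka' h M V x y z / (2 * Real.pi * M) * (gam (rh N x y) * PP N h V x y z) := by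
    unfold HH EE
    ring
  rw [e]
  have b1 : |ka h M V x y z * ga (rh N x y)| ≤ 1 := by
    rw [abs_mul, abs_of_nonneg h5, abs_of_nonneg (ga_nonneg _)]
    exact mul_le_one₀ h2 (ga_nonneg _) (ga_le _)
  have b2 : |ka h M V x y z * (gam (rh N x y) * RR N h V x y z)| ≤ 1 := by
    rw [abs_mul, abs_of_nonneg h5]
    exact mul_le_one₀ h2 (abs_nonneg _) (gam_RR_le x y z)
  have b3 : |ka' h M V x y z / (2 * Real.pi * M) * (gam (rh N x y) * PP N h V x y z)| ≤ C1 := by
    rw [abs_mul, abs_div, abs_of_nonneg (by positivity : (0 : ℝ) ≤ 2 * Real.pi * M)]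
    have h6 : |ka' h M V x y z| / (2 * Real.pi * M) ≤ C1 := by
      rw [div_le_iff₀ (by positivity)]
      have h7 : |ka' h M V x y z| ≤ C1 := hC _
      have h8 : (1 : ℝ) ≤ 2 * Real.pi * M := by nlinarith
      nlinarith
    calc |ka' h M V x y z| / (2 * Real.pi * M) * |gam (rh N x y) * PP N h V x y z|
        ≤ C1 * 1 := by
          have h9 := gam_PP_le (N := N) (h := h) (V := V) x y z
          gcongr
      _ = C1 := mul_one _
  rw [abs_le] at b1 b2 b3 ⊢
  constructor <;> linarith [b1.1, b1.2, b2.1, b2.2, b3.1, b3.2]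

theorem zero_of_ka (q : ℝ × ℝ × ℝ) (hk : ka h M V q.1 q.2.1 q.2.2 = 0) (a : Fin 3) :
    AA N h M V w a q = 0 := by
  fin_cases a
  · change A0 N h M V w q.1 q.2.1 q.2.2 = 0
    simp [A0, BB, hk]
  · change A1 N h M V w q.1 q.2.1 q.2.2 = 0
    simp [A1, BB, hk]
  · change A2 N h M V w q.1 q.2.1 q.2.2 = 0
    simp [A2, hk]

theorem zero_of_w (q : ℝ × ℝ × ℝ) (hk : w q.1 q.2.1 = 0) (a : Fin 3) :
    AA N h M V w a q = 0 := by
  fin_cases a
  · change A0 N h M V w q.1 q.2.1 q.2.2 = 0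
    simp [A0, hk]
  · change A1 N h M V w q.1 q.2.1 q.2.2 = 0
    simp [A1, hk]
  · change A2 N h M V w q.1 q.2.1 q.2.2 = 0
    simp [A2, hk]

theorem van {A : Fin 3 → ℝ × ℝ × ℝ → ℝ} {q : ℝ × ℝ × ℝ} (hev : ∀ᶠ r in 𝓝 q, ∀ a, A a r = 0)
    (a b : Fin 3) : A a q = 0 ∧ crl A a b q = 0 := by
  refine ⟨hev.self_of_nhds a, ?_⟩
  have h1 : ∀ a : Fin 3, fderiv ℝ (A a) q = 0 := by
    intro a
    have h2 : A a =ᶠ[𝓝 q] fun _ => 0 := by
      filter_upwards [hev] with r hr using hr a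
    rw [h2.fderiv_eq]
    simp
  unfold crl pd
  rw [h1, h1]
  simp

theorem tt_cont (hV : Sm V) : Continuous fun q : ℝ × ℝ × ℝ => (q.2.2 - V q.1 q.2.1) / h / M :=
  ((sm_tt hV).div_const M).continuous

theorem van_le (hV : Sm V) {q : ℝ × ℝ × ℝ} (hq : (q.2.2 - V q.1 q.2.1) / h / M < 1 / 4)
    (a b : Fin 3) : AA N h M V w a q = 0 ∧ crl (AA N h M V w) a b q = 0 := by
  refine van ?_ a b
  filter_upwards [(tt_cont (h := h) (M := M) hV).continuousAt.eventually (gt_mem_nhds hq)] with r hr a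
  exact zero_of_ka r (kk_zero_of_le (le_of_lt hr)) a

theorem van_ge (hV : Sm V) {q : ℝ × ℝ × ℝ} (hq : 15 / 4 < (q.2.2 - V q.1 q.2.1) / h / M)
    (a b : Fin 3) : AA N h M V w a q = 0 ∧ crl (AA N h M V w) a b q = 0 := by
  refine van ?_ a b
  filter_upwards [(tt_cont (h := h) (M := M) hV).continuousAt.eventually (lt_mem_nhds hq)] with r hr a
  exact zero_of_ka r (kk_zero_of_ge (le_of_lt hr)) a

theorem ga_sgm (x y : ℝ) :
    ga (rh N x y) * (sgm N x y * (c (N * x) * c (N * y))) = Ga2 (N * x) (N * y) := by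
  unfold Ga2
  rcases lt_or_ge (rh N x y) (3 / 4) with hr | hr
  · rw [sgm_mul hr]
    rfl
  · have h1 : ga (rho (N * x) (N * y)) = 0 := ga_zero_of_ge hr
    rw [ga_zero_of_ge hr, h1]
    ring

/-- the part of the curl containing the derivatives of the weight -/
theorem part2 {L : ℝ} (hN : 0 < N) (hh : 0 ≤ h) (hhN : h * N ≤ 1)
    (hw2 : ∀ x y, (|D1 w x y| + |D2 w x y|) * (1 + |D1 V x y| + |D2 V x y|) ≤ L) (x y z : ℝ) :
    |D1 w x y / N * (-(g1 N x y * BB N h M V x y z * rx N y) + ka h M V x y z * g2 N x y * D2 V x y) -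
       D2 w x y / N * (-(g1 N x y * BB N h M V x y z * rx N x) + ka h M V x y z * g2 N x y * D1 V x y)| ≤
      L / N := by
  have a1 := g1B_le (M := M) (V := V) hN.le hh x y z y
  have a2 := g1B_le (M := M) (V := V) hN.le hh x y z x
  have a3 := g2_le (N := N) (h := h) (M := M) (V := V) x y z
  have b1 : |-(g1 N x y * BB N h M V x y z * rx N y) + ka h M V x y z * g2 N x y * D2 V x y| ≤
      1 + |D1 V x y| + |D2 V x y| := by
    refine (abs_add_le _ _).trans ?_
    rw [abs_neg, abs_mul (ka h M V x y z * g2 N x y)]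
    have := mul_le_mul_of_nonneg_right a3 (abs_nonneg (D2 V x y))
    have := abs_nonneg (D1 V x y)
    linarith
  have b2 : |-(g1 N x y * BB N h M V x y z * rx N x) + ka h M V x y z * g2 N x y * D1 V x y| ≤
      1 + |D1 V x y| + |D2 V x y| := by
    refine (abs_add_le _ _).trans ?_
    rw [abs_neg, abs_mul (ka h M V x y z * g2 N x y)]
    have := mul_le_mul_of_nonneg_right a3 (abs_nonneg (D1 V x y))
    have := abs_nonneg (D2 V x y)
    linarith
  refine (abs_sub _ _).trans ?_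
  rw [abs_mul, abs_mul, abs_div, abs_div, abs_of_pos hN]
  calc |D1 w x y| / N * |-(g1 N x y * BB N h M V x y z * rx N y) +
          ka h M V x y z * g2 N x y * D2 V x y| +
        |D2 w x y| / N * |-(g1 N x y * BB N h M V x y z * rx N x) +
          ka h M V x y z * g2 N x y * D1 V x y|
      ≤ |D1 w x y| / N * (1 + |D1 V x y| + |D2 V x y|) +
        |D2 w x y| / N * (1 + |D1 V x y| + |D2 V x y|) := by gcongr
    _ = ((|D1 w x y| + |D2 w x y|) * (1 + |D1 V x y| + |D2 V x y|)) / N := by ring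
    _ ≤ L / N := by
      have := hw2 x y
      gcongr

theorem part1 (hN : 0 < N) {b : ℝ} (hw : ∀ x y, 0 ≤ w x y ∧ w x y ≤ 1 ∧ w x y * (|D1 V x y| + |D2 V x y|) ≤ 2)
    (x y z : ℝ) (hb : |HH N h M V x y z| ≤ b) :
    |w x y / N * (sgm N x y * (HH N h M V x y z * (D2 V x y * rx N x - D1 V x y * rx N y)))| ≤
      4 * Real.pi * b := by
  obtain ⟨w0, w1, w2⟩ := hw x y
  have hpi := Real.pi_pos
  have hb0 : 0 ≤ b := (abs_nonneg _).trans hb
  have r1 := rx_le (N := N) hN.le x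
  have r2 := rx_le (N := N) hN.le y
  have s1 := sgm_le (N := N) x y
  have c1 : |D2 V x y * rx N x - D1 V x y * rx N y| ≤
      (|D1 V x y| + |D2 V x y|) * (2 * Real.pi * N) := by
    refine (abs_sub _ _).trans ?_
    rw [abs_mul, abs_mul]
    have := mul_le_mul_of_nonneg_left r1 (abs_nonneg (D2 V x y))
    have := mul_le_mul_of_nonneg_left r2 (abs_nonneg (D1 V x y))
    linarith
  rw [abs_mul, abs_mul, abs_mul, abs_div, abs_of_nonneg w0, abs_of_pos hN]
  calc w x y / N * (|sgm N x y| * (|HH N h M V x y z| * |D2 V x y * rx N x - D1 V x y * rx N y|))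
      ≤ w x y / N * (1 * (b * ((|D1 V x y| + |D2 V x y|) * (2 * Real.pi * N)))) := by
        gcongr
    _ = (w x y * (|D1 V x y| + |D2 V x y|)) * (2 * Real.pi * b) := by field_simp
    _ ≤ 2 * (2 * Real.pi * b) := by gcongr
    _ = 4 * Real.pi * b := by ring

theorem part3 (hN : 0 < N) {b : ℝ}
    (hw : ∀ x y, 0 ≤ w x y ∧ w x y ≤ 1 ∧ w x y * (|D1 V x y| + |D2 V x y|) ≤ 2)
    (x y z t : ℝ) (hb : |HH N h M V x y z| ≤ b) :
    |w x y / N * (sgm N x y * (HH N h M V x y z * rx N t))| ≤ 2 * Real.pi * b := by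
  obtain ⟨w0, w1, w2⟩ := hw x y
  have hpi := Real.pi_pos
  have hb0 : 0 ≤ b := (abs_nonneg _).trans hb
  have r1 := rx_le (N := N) hN.le t
  have s1 := sgm_le (N := N) x y
  rw [abs_mul, abs_mul, abs_mul, abs_div, abs_of_nonneg w0, abs_of_pos hN]
  calc w x y / N * (|sgm N x y| * (|HH N h M V x y z| * |rx N t|))
      ≤ 1 / N * (1 * (b * (2 * Real.pi * N))) := by gcongr
    _ = 2 * Real.pi * b := by field_simp

theorem part4 {L : ℝ} (hN : 0 < N)
    (hw2 : ∀ x y, (|D1 w x y| + |D2 w x y|) * (1 + |D1 V x y| + |D2 V x y|) ≤ L) (x y z : ℝ) :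
    |D1 w x y / N * (ka h M V x y z * g2 N x y)| ≤ L / N ∧
      |D2 w x y / N * (ka h M V x y z * g2 N x y)| ≤ L / N := by
  have a3 := g2_le (N := N) (h := h) (M := M) (V := V) x y z
  have a4 := hw2 x y
  have n1 := abs_nonneg (D1 w x y)
  have n2 := abs_nonneg (D2 w x y)
  have n3 := abs_nonneg (D1 V x y)
  have n4 := abs_nonneg (D2 V x y)
  have a5 : |D1 w x y| + |D2 w x y| ≤ L := by nlinarith
  rw [abs_mul (D1 w x y / N), abs_mul (D2 w x y / N), abs_div, abs_div, abs_of_pos hN]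
  constructor
  · calc |D1 w x y| / N * |ka h M V x y z * g2 N x y| ≤ L / N * 1 := by
          have : |D1 w x y| ≤ L := by linarith
          have : 0 ≤ L := by linarith
          gcongr
      _ = L / N := mul_one _
  · calc |D2 w x y| / N * |ka h M V x y z * g2 N x y| ≤ L / N * 1 := by
          have : |D2 w x y| ≤ L := by linarith
          have : 0 ≤ L := by linarith
          gcongr
      _ = L / N := mul_one _

theorem part5 (hN : 0 < N) (hh : 0 ≤ h) (x y G : ℝ) (hG : |G| ≤ 1) (w0 : 0 ≤ w x y)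
    (w1 : w x y ≤ 1) :
    |w x y / N * (sgm N x y * (h * Real.pi * N ^ 2 * G))| ≤ h * N * Real.pi := by
  have hpi := Real.pi_pos
  have s1 := sgm_le (N := N) x y
  rw [abs_mul, abs_mul, abs_mul (h * Real.pi * N ^ 2), abs_div, abs_of_nonneg w0, abs_of_pos hN,
    abs_of_nonneg (by positivity : (0 : ℝ) ≤ h * Real.pi * N ^ 2)]
  calc w x y / N * (|sgm N x y| * (h * Real.pi * N ^ 2 * |G|))
      ≤ 1 / N * (1 * (h * Real.pi * N ^ 2 * 1)) := by gcongr
    _ = h * N * Real.pi := by field_simp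

theorem abs3_le {a b d : ℝ} (ha : |a| ≤ 1) (hb : |b| ≤ 1) (hd : |d| ≤ 1) : |a * b * d| ≤ 1 := by
  rw [abs_mul, abs_mul]
  calc |a| * |b| * |d| ≤ 1 * 1 * 1 := by gcongr
    _ = 1 := by norm_num

theorem cc_le (x y : ℝ) : |c x * c y| ≤ 1 := by
  rw [abs_mul]
  exact mul_le_one₀ (c_le x) (abs_nonneg _) (c_le y)

theorem abs_aux1 {a b d x y z R : ℝ} (ha : |a| ≤ x) (hb : |b| ≤ y) (hd : |d| ≤ z)
    (hR : x + y + z ≤ R) : |a - d + b| ≤ R := by
  rw [abs_le] at *
  constructor <;> linarith [ha.1, ha.2, hb.1, hb.2, hd.1, hd.2]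

theorem abs_aux2 {a b x y R : ℝ} (ha : |a| ≤ x) (hb : |b| ≤ y)
    (hR : x + y ≤ R) : |-a - b| ≤ R := by
  rw [abs_le] at *
  constructor <;> linarith [ha.1, ha.2, hb.1, hb.2]

/-- the angular factor on the levels -/
theorem RR_level (hA : Ang) (x y z : ℝ) (K : ℤ) (e : ℝ) (hS : S (N * y) ≠ 0)
    (hz : (z - V x y) / h = K + Th (N * x) (N * y) + e) :
    RR N h V x y z = Real.sqrt (rh N x y) * Real.cos (2 * Real.pi * e) := by
  have h1 := hA.cos_Th (x := N * x) hS
  have h2 := hA.sin_Th (x := N * x) hS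
  unfold RR ph
  rw [hz, ← h1, ← h2]
  have e1 : 2 * Real.pi * (K + Th (N * x) (N * y) + e) =
      (2 * Real.pi * Th (N * x) (N * y) + 2 * Real.pi * e) + K * (2 * Real.pi) := by ring
  rw [e1, Real.cos_add_int_mul_two_pi, Real.sin_add_int_mul_two_pi]
  have e2 : 2 * Real.pi * e =
      (2 * Real.pi * Th (N * x) (N * y) + 2 * Real.pi * e) - 2 * Real.pi * Th (N * x) (N * y) := by
    ring
  conv_rhs => rw [e2, Real.cos_sub]
  unfold rh
  ring

theorem HH_level (hA : Ang) (x y z : ℝ) (K : ℤ) (e : ℝ) (hS : S (N * y) ≠ 0)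
    (hz : (z - V x y) / h = K + Th (N * x) (N * y) + e)
    (hk : ka h M V x y z = 1) (hk' : ka' h M V x y z = 0) :
    HH N h M V x y z = ga (rh N x y) * (1 - Real.cos (2 * Real.pi * e)) ∧
      ka h M V x y z * (gam (rh N x y) * RR N h V x y z) =
        ga (rh N x y) * Real.cos (2 * Real.pi * e) := by
  have h1 := gam_mul_sqrt (rh_nonneg (N := N) x y)
  unfold HH EE
  rw [hk, hk', RR_level hA x y z K e hS hz]
  constructor
  · linear_combination -Real.cos (2 * Real.pi * e) * h1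
  · linear_combination Real.cos (2 * Real.pi * e) * h1

end

end Pot1

open Pot1 in
theorem pot1 (hA : Ang) : StmtPot1 := by
  obtain ⟨C1, hC1, hC⟩ := deriv_kk_bdd
  refine ⟨300 + 20 * C1, by positivity, 1, one_pos, ?_⟩
  intro N h M L V w hN0 hh hhN hM hL hV hw hw1 hw2
  have hN : (0 : ℝ) < N := by exact_mod_cast hN0
  have hV' : Sm V := hV
  have hw' : Sm w := hw
  have hM0 : (0 : ℝ) < M := by linarith
  have hpi := Real.pi_pos
  have hpi3 := Real.pi_lt_d2
  have hpi4 := Real.pi_gt_three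
  have hLN : 0 ≤ L / N := by positivity
  have hMh : 0 < M * h := by positivity
  have hdiv : ∀ q : ℝ × ℝ × ℝ, (q.2.2 - V q.1 q.2.1) / h / M = (q.2.2 - V q.1 q.2.1) / (M * h) := by
    intro q
    rw [div_div, mul_comm h M]
  have hsupp : ∀ a b, ∀ q : ℝ × ℝ × ℝ, ¬ (|q.2.2 - V q.1 q.2.1| ≤ 4 * M * h) →
      AA N h M V w a q = 0 ∧ crl (AA N h M V w) a b q = 0 := by
    intro a b q hq
    rw [abs_le, not_and_or, not_le, not_le] at hq
    rcases hq with hq | hq
    · refine van_le hV' ?_ a b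
      rw [hdiv, div_lt_iff₀ hMh]
      nlinarith
    · refine van_ge hV' ?_ a b
      rw [hdiv, lt_div_iff₀ hMh]
      nlinarith
  -- general bounds
  have hexp : (300 + 20 * C1) * (1 + L / N) =
      300 + 20 * C1 + 300 * (L / N) + 20 * (C1 * (L / N)) := by ring
  have hpiC : 4 * Real.pi * (2 + C1) ≤ 26 + 13 * C1 := by nlinarith
  have hpiC' : 2 * Real.pi * (2 + C1) ≤ 26 + 13 * C1 := by nlinarith
  have hhpi : h * N * Real.pi ≤ 4 := by nlinarith
  have gen01 : ∀ x y z, |crl (AA N h M V w) 0 1 (x, y, z)| ≤ (300 + 20 * C1) * (1 + L / N) := by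
    intro x y z
    rw [crl01 hh.ne' hM0.ne' hV' hw' x y z, mul_sub, mul_sub]
    have q1 := part1 (N := N) (h := h) (M := M) (V := V) (w := w) hN hw1 x y z
      (HH_le hC1 hC hM x y z)
    have q2 := part2 (N := N) (h := h) (M := M) (V := V) (w := w) hN hh.le hhN hw2 x y z
    have q3 := part5 (N := N) (h := h) (w := w) hN hh.le x y _
      (abs3_le (a := ka h M V x y z) (b := gam (rh N x y) * RR N h V x y z)
        (d := c (N * x) * c (N * y))
        (by rw [abs_of_nonneg (ka_nonneg _ _ _)]; exact ka_le _ _ _)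
        (gam_RR_le _ _ _) (cc_le _ _)) (hw1 x y).1 (hw1 x y).2.1
    have q4 := hpiC
    have q5 : 0 ≤ C1 * (L / N) := by positivity
    rw [hexp]
    exact abs_aux1 q1 q2 q3 (by linarith)
  have gen02 : ∀ x y z, |crl (AA N h M V w) 0 2 (x, y, z)| ≤ (300 + 20 * C1) * (1 + L / N) := by
    intro x y z
    rw [crl02 hh.ne' hM0.ne' hV' hw' x y z]
    have q1 := part3 (N := N) (h := h) (M := M) (V := V) (w := w) hN hw1 x y z x
      (HH_le hC1 hC hM x y z)
    have q2 := (part4 (N := N) (h := h) (M := M) (V := V) (w := w) hN hw2 x y z).1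
    have q4 := hpiC'
    have q5 : 0 ≤ C1 * (L / N) := by positivity
    rw [hexp]
    exact abs_aux2 q1 q2 (by linarith)
  have gen12 : ∀ x y z, |crl (AA N h M V w) 1 2 (x, y, z)| ≤ (300 + 20 * C1) * (1 + L / N) := by
    intro x y z
    rw [crl12 hh.ne' hM0.ne' hV' hw' x y z]
    have q1 := part3 (N := N) (h := h) (M := M) (V := V) (w := w) hN hw1 x y z y
      (HH_le hC1 hC hM x y z)
    have q2 := (part4 (N := N) (h := h) (M := M) (V := V) (w := w) hN hw2 x y z).2
    have q4 := hpiC'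
    have q5 : 0 ≤ C1 * (L / N) := by positivity
    rw [hexp]
    exact abs_aux2 q1 q2 (by linarith)
  have hanti : ∀ (a b : Fin 3) (q : ℝ × ℝ × ℝ),
      |crl (AA N h M V w) a b q| = |crl (AA N h M V w) b a q| := by
    intro a b q
    unfold crl
    exact abs_sub_comm _ _
  refine ⟨AA N h M V w, fun a => sm_AA hV' hw' a, fun a q hq => (hsupp a a q hq).1,
    fun a b q hq => (hsupp a b q hq).2, ?_, ?_, ?_, ?_, ?_⟩
  · intro a b q hq
    refine van_le hV' ?_ a b
    rw [hdiv]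
    exact lt_of_le_of_lt (div_nonpos_of_nonpos_of_nonneg hq hMh.le) (by norm_num)
  · intro a b q hq
    refine van ?_ a b
    have h1 : Continuous fun r : ℝ × ℝ × ℝ => (r.1, r.2.1) := by fun_prop
    filter_upwards [h1.continuousAt.eventually hq] with r hr a
    exact zero_of_w r hr a
  · intro a q
    obtain ⟨x, y, z⟩ := q
    have n1 := abs_nonneg (D1 V x y)
    have n2 := abs_nonneg (D2 V x y)
    obtain ⟨w0, w1, w2⟩ := hw1 x y
    have g3 := g2_le (N := (N : ℝ)) (h := h) (M := M) (V := V) x y z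
    have hfin : ∀ r : ℝ, |r| ≤ 1 + (|D1 V x y| + |D2 V x y|) →
        |w x y / N * r| ≤ (300 + 20 * C1) / N := by
      intro r hr
      rw [abs_mul, abs_div, abs_of_nonneg w0, abs_of_pos hN]
      calc w x y / N * |r| ≤ w x y / N * (1 + (|D1 V x y| + |D2 V x y|)) := by gcongr
        _ = (w x y + w x y * (|D1 V x y| + |D2 V x y|)) / N := by ring
        _ ≤ (300 + 20 * C1) / N := by
          apply div_le_div_of_nonneg_right _ hN.le
          linarith
    fin_cases a
    · change |A0 N h M V w x y z| ≤ _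
      unfold A0
      apply hfin
      refine (abs_add_le _ _).trans ?_
      rw [abs_neg, abs_mul (ka h M V x y z * g2 N x y)]
      have a2 := g1B_le (M := M) (V := V) hN.le hh.le x y z x
      have := mul_le_mul_of_nonneg_right g3 n1
      linarith
    · change |A1 N h M V w x y z| ≤ _
      unfold A1
      apply hfin
      refine (abs_add_le _ _).trans ?_
      rw [abs_neg, abs_mul (ka h M V x y z * g2 N x y)]
      have a2 := g1B_le (M := M) (V := V) hN.le hh.le x y z y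
      have := mul_le_mul_of_nonneg_right g3 n2
      linarith
    · change |A2 N h M V w x y z| ≤ _
      unfold A2
      apply hfin
      rw [abs_neg]
      linarith
  · intro a b q
    obtain ⟨x, y, z⟩ := q
    have hz : ∀ a : Fin 3, |crl (AA N h M V w) a a (x, y, z)| ≤ (300 + 20 * C1) * (1 + L / N) := by
      intro a
      unfold crl
      rw [sub_self, abs_zero]
      positivity
    fin_cases a <;> fin_cases b
    · exact hz 0
    · exact gen01 x y z
    · exact gen02 x y z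
    · exact (hanti 1 0 _).le.trans (gen01 x y z)
    · exact hz 1
    · exact gen12 x y z
    · exact (hanti 2 0 _).le.trans (gen02 x y z)
    · exact (hanti 2 1 _).le.trans (gen12 x y z)
    · exact hz 2
  · intro q K e hS ht1 ht2 hz he
    obtain ⟨x, y, z⟩ := q
    simp only at hS ht1 ht2 hz ⊢
    have hk : ka h M V x y z = 1 := by
      unfold ka
      apply kk_one
      · rw [le_div_iff₀ hM0]
        linarith
      · rw [div_le_iff₀ hM0]
        linarith
    have hk' : ka' h M V x y z = 0 := by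
      unfold ka'
      apply deriv_kk_zero
      · rw [lt_div_iff₀ hM0]
        linarith
      · rw [div_lt_iff₀ hM0]
        linarith
    obtain ⟨hH, hR⟩ := HH_level hA x y z K e hS hz hk hk'
    have hga0 := ga_nonneg (rh N x y)
    have hga1 := ga_le (rh N x y)
    have hcos1 := Real.cos_le_one (2 * Real.pi * e)
    have hcos2 := Real.one_sub_sq_div_two_le_cos (x := 2 * Real.pi * e)
    have he2 : 0 ≤ e ^ 2 := sq_nonneg e
    have he3 : e ^ 2 ≤ 1 / 256 := by
      rw [abs_le] at he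
      nlinarith [he.1, he.2]
    have hpi2 : Real.pi ^ 2 ≤ 10 := by nlinarith
    have hcos3 : 1 - Real.cos (2 * Real.pi * e) ≤ 20 * e ^ 2 := by nlinarith
    have hHb : |HH N h M V x y z| ≤ 20 * e ^ 2 := by
      rw [hH, abs_of_nonneg (mul_nonneg hga0 (by linarith))]
      calc ga (rh N x y) * (1 - Real.cos (2 * Real.pi * e)) ≤ 1 * (20 * e ^ 2) := by
            gcongr
        _ = 20 * e ^ 2 := one_mul _
    have q1 := part1 (N := N) (h := h) (M := M) (V := V) (w := w) hN hw1 x y z hHb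
    have q2 := part2 (N := N) (h := h) (M := M) (V := V) (w := w) hN hh.le hhN hw2 x y z
    have q3 := part3 (N := N) (h := h) (M := M) (V := V) (w := w) hN hw1 x y z x hHb
    have q4 := part3 (N := N) (h := h) (M := M) (V := V) (w := w) hN hw1 x y z y hHb
    have q5 := (part4 (N := N) (h := h) (M := M) (V := V) (w := w) hN hw2 x y z).1
    have q6 := (part4 (N := N) (h := h) (M := M) (V := V) (w := w) hN hw2 x y z).2
    have b1 : 4 * Real.pi * (20 * e ^ 2) ≤ 252 * e ^ 2 := by nlinarith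
    have b2 : 2 * Real.pi * (20 * e ^ 2) ≤ 252 * e ^ 2 := by nlinarith
    have b3 : 0 ≤ C1 * e ^ 2 := by positivity
    have b4 : 0 ≤ C1 * (L / N) := by positivity
    have b5 : 0 ≤ h * N := by positivity
    have b6 : 0 ≤ C1 * (h * N) := by positivity
    have x1 : (300 + 20 * C1) * (e ^ 2 + L / N) =
        300 * e ^ 2 + 300 * (L / N) + 20 * (C1 * e ^ 2) + 20 * (C1 * (L / N)) := by ring
    have x2 : (300 + 20 * C1) * (e ^ 2 + h * N + L / N) =
        300 * e ^ 2 + 300 * (h * N) + 300 * (L / N) + 20 * (C1 * e ^ 2) + 20 * (C1 * (h * N)) +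
          20 * (C1 * (L / N)) := by ring
    obtain ⟨w0, w1, w2⟩ := hw1 x y
    have hG2 : 0 ≤ Ga2 (N * x) (N * y) := mul_nonneg (ga_nonneg _) (abs_nonneg _)
    have hG2' : Ga2 (N * x) (N * y) ≤ 1 := by
      unfold Ga2
      exact mul_le_one₀ (ga_le _) (abs_nonneg _) (cc_le _ _)
    have hwG : 0 ≤ w x y * Ga2 (N * x) (N * y) := mul_nonneg w0 hG2
    have hwG' : w x y * Ga2 (N * x) (N * y) ≤ 1 := mul_le_one₀ w1 hG2 hG2'
    -- the main term
    have hmain : w x y / N * (sgm N x y * (h * Real.pi * N ^ 2 * (ka h M V x y z *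
        (gam (rh N x y) * RR N h V x y z) * (c (N * x) * c (N * y))))) =
        (h * N) * (w x y * Ga2 (N * x) (N * y)) * (Real.pi * Real.cos (2 * Real.pi * e)) := by
      rw [hR, ← ga_sgm]
      field_simp
    have hcos4 : 9 / 10 ≤ Real.cos (2 * Real.pi * e) := by linarith
    have hm1 : 1 ≤ Real.pi * Real.cos (2 * Real.pi * e) := by
      have := mul_le_mul hpi4.le hcos4 (by norm_num) hpi.le
      linarith
    have hm2 : Real.pi * Real.cos (2 * Real.pi * e) ≤ 4 := by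
      have := mul_le_mul_of_nonneg_left hcos1 hpi.le
      linarith
    have hm3 : (h * N) * (w x y * Ga2 (N * x) (N * y)) ≤
        (h * N) * (w x y * Ga2 (N * x) (N * y)) * (Real.pi * Real.cos (2 * Real.pi * e)) :=
      le_mul_of_one_le_right (by positivity) hm1
    have hm4 : (h * N) * (w x y * Ga2 (N * x) (N * y)) * (Real.pi * Real.cos (2 * Real.pi * e)) ≤
        (h * N) * 1 * 4 := by gcongr
    have hm5 : 0 ≤ (h * N) * (w x y * Ga2 (N * x) (N * y)) *
        (Real.pi * Real.cos (2 * Real.pi * e)) := by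
      have : 0 ≤ Real.pi * Real.cos (2 * Real.pi * e) := by linarith
      positivity
    have hmabs : |(h * N) * (w x y * Ga2 (N * x) (N * y)) *
        (Real.pi * Real.cos (2 * Real.pi * e))| ≤ 4 * (h * N) := by
      rw [abs_of_nonneg hm5]
      linarith
    have hmn : (h * N) * (w x y * Ga2 (N * x) (N * y)) = -(-1 * (h * N) * w x y * Ga2 (N * x) (N * y)) := by
      ring
    refine ⟨?_, ?_, ?_, ?_⟩
    · rw [crl02 hh.ne' hM0.ne' hV' hw' x y z, x1]
      exact abs_aux2 q3 q5 (by linarith)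
    · rw [crl12 hh.ne' hM0.ne' hV' hw' x y z, x1]
      exact abs_aux2 q4 q6 (by linarith)
    · rw [crl01 hh.ne' hM0.ne' hV' hw' x y z, mul_sub, mul_sub, hmain, x2]
      exact abs_aux1 q1 q2 hmabs (by linarith)
    · rw [crl01 hh.ne' hM0.ne' hV' hw' x y z, mul_sub, mul_sub, hmain, x1]
      have q1' := (abs_le.1 q1).2
      have q2' := (abs_le.1 q2).2
      linarith

end Pool.Agent.T6.H55.LU
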