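import Pool.Agent.T6.H55.LU.Stm

/-!
Module POTA (helper94) of MP_507414_an: all the potentials of a good system of parameters.
-/

set_option autoImplicit false

open MeasureTheory Filter Topology
open scoped ENNReal NNReal ContDiff

namespace Pool.Agent.T6.H55.LU

noncomputable section

namespace ModPota

/-! ### Elementary facts -/

lemma S_dvd {a b : ℕ} (h : a ∣ b) {t : ℝ} (h0 : S (b * t) ≠ 0) : S (a * t) ≠ 0 := by
  obtain ⟨k, rfl⟩ := h
  intro h1
  apply h0
  unfold S at h1 ⊢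
  rw [Real.sin_eq_zero_iff] at h1 ⊢
  obtain ⟨n, hn⟩ := h1
  refine ⟨k * n, ?_⟩
  push_cast
  rw [show Real.pi * ((a : ℝ) * k * t) = k * (Real.pi * (a * t)) by ring, ← hn]
  ring

lemma S_smooth : ContDiff ℝ ∞ S := by
  unfold S
  exact Real.contDiff_sin.comp (contDiff_const.mul contDiff_id)

lemma c_smooth : ContDiff ℝ ∞ c := by
  unfold c
  exact Real.contDiff_cos.comp (contDiff_const.mul contDiff_id)

variable {p : Par}

lemma N_dvd (hp : p.Good) {i j : ℕ} (h : i ≤ j) : p.N i ∣ p.N j := by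
  induction j, h using Nat.le_induction with
  | base => exact dvd_rfl
  | succ j _ ih => exact ih.trans ((Dvd.intro_left 4 rfl).trans (hp.dvd j))

lemma N_ge (hp : p.Good) (j : ℕ) : 4 ^ j ≤ p.N j := by
  induction j with
  | zero => have := hp.Npos 0; simp only [pow_zero]; omega
  | succ j ih =>
    have h := Nat.le_of_dvd (hp.Npos (j + 1)) (hp.dvd j)
    calc 4 ^ (j + 1) = 4 * 4 ^ j := by ring
      _ ≤ 4 * p.N j := by omega
      _ ≤ _ := h

lemma N_ge2 (hp : p.Good) (j : ℕ) : (2 : ℝ) ^ j ≤ p.N j := by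
  have h := N_ge hp j
  have h2 : (2 : ℕ) ^ j ≤ 4 ^ j := Nat.pow_le_pow_left (by norm_num) j
  exact_mod_cast h2.trans h

lemma rho_pos {x y : ℝ} (hy : S y ≠ 0) : 0 < rho x y := by
  unfold rho; positivity

lemma T1_smooth {q : ℝ × ℝ} (hq : S q.2 ≠ 0) :
    ContDiffAt ℝ ∞ (fun q : ℝ × ℝ => T1 q.1 q.2) q := by
  unfold T1
  refine ContDiffAt.div ?_ ?_ (rho_pos hq).ne'
  · exact ((contDiff_const.mul (c_smooth.comp contDiff_fst)).mul
      (S_smooth.comp contDiff_snd)).contDiffAt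
  · unfold rho
    exact (((S_smooth.comp contDiff_fst).pow 2).add
      ((S_smooth.comp contDiff_snd).pow 2)).contDiffAt

lemma T2_smooth {q : ℝ × ℝ} (hq : S q.2 ≠ 0) :
    ContDiffAt ℝ ∞ (fun q : ℝ × ℝ => T2 q.1 q.2) q := by
  unfold T2
  refine ContDiffAt.div ?_ ?_ (rho_pos hq).ne'
  · exact ((contDiff_const.mul (c_smooth.comp contDiff_snd)).mul
      (S_smooth.comp contDiff_fst)).contDiffAt
  · unfold rho
    exact (((S_smooth.comp contDiff_fst).pow 2).add
      ((S_smooth.comp contDiff_snd).pow 2)).contDiffAt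

lemma scale_smooth (a : ℝ) : ContDiff ℝ ∞ (fun q : ℝ × ℝ => (a * q.1, a * q.2)) :=
  (contDiff_const.mul contDiff_fst).prodMk (contDiff_const.mul contDiff_snd)

lemma lam_smooth : ContDiff ℝ ∞ lam := by
  unfold lam
  exact Real.smoothTransition.contDiff.comp
    (((contDiff_const.mul (S_smooth.pow 2))).sub contDiff_const)

lemma lam_zero {t : ℝ} (h : S t ^ 2 ≤ 1 / 4) : lam t = 0 := by
  unfold lam
  exact Real.smoothTransition.zero_of_nonpos (by linarith)

lemma lam_nonneg (t : ℝ) : 0 ≤ lam t := Real.smoothTransition.nonneg _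

lemma lam_le_one (t : ℝ) : lam t ≤ 1 := Real.smoothTransition.le_one _

/-! ### The surfaces and the weights -/

/-- the smooth surface -/
def Vd (p : Par) (j : ℕ) (d : p.Str (j + 1)) (x y : ℝ) : ℝ :=
  Real.smoothTransition (8 * S (p.N j * y) ^ 2 - 1) * p.Zs d x y

lemma S_ne_of (hp : p.Good) {j : ℕ} {y : ℝ} (h : S (p.N j * y) ≠ 0) (i : ℕ) (hi : i ≤ j) :
    S (p.N i * y) ≠ 0 := S_dvd (N_dvd hp hi) h

lemma Th_sc (hA : Ang) (a : ℝ) {q : ℝ × ℝ} (hq : S (a * q.2) ≠ 0) :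
    ContDiffAt ℝ ∞ (fun q : ℝ × ℝ => Th (a * q.1) (a * q.2)) q := by
  have h1 : ContDiffAt ℝ ∞ (fun q : ℝ × ℝ => Th q.1 q.2) ((fun q : ℝ × ℝ => (a * q.1, a * q.2)) q) :=
    hA.smooth (q := (a * q.1, a * q.2)) hq
  exact h1.comp q (scale_smooth a).contDiffAt

lemma T1_sc (a : ℝ) {q : ℝ × ℝ} (hq : S (a * q.2) ≠ 0) :
    ContDiffAt ℝ ∞ (fun q : ℝ × ℝ => T1 (a * q.1) (a * q.2)) q := by
  have h1 : ContDiffAt ℝ ∞ (fun q : ℝ × ℝ => T1 q.1 q.2) ((fun q : ℝ × ℝ => (a * q.1, a * q.2)) q) :=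
    T1_smooth (q := (a * q.1, a * q.2)) hq
  exact h1.comp q (scale_smooth a).contDiffAt

lemma T2_sc (a : ℝ) {q : ℝ × ℝ} (hq : S (a * q.2) ≠ 0) :
    ContDiffAt ℝ ∞ (fun q : ℝ × ℝ => T2 (a * q.1) (a * q.2)) q := by
  have h1 : ContDiffAt ℝ ∞ (fun q : ℝ × ℝ => T2 q.1 q.2) ((fun q : ℝ × ℝ => (a * q.1, a * q.2)) q) :=
    T2_smooth (q := (a * q.1, a * q.2)) hq
  exact h1.comp q (scale_smooth a).contDiffAt

lemma Zs_smooth (hA : Ang) (hp : p.Good) {j : ℕ} (d : p.Str (j + 1)) {q : ℝ × ℝ}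
    (hq : S (p.N j * q.2) ≠ 0) : ContDiffAt ℝ ∞ (fun q : ℝ × ℝ => p.Zs d q.1 q.2) q := by
  have h : ∀ i ∈ (Finset.univ : Finset (Fin (j + 1))), ContDiffAt ℝ ∞
      (fun q : ℝ × ℝ => sg (d i).1 * p.h i * (p.M i + (((d i).2 : ℕ) : ℝ) +
        Th (p.N i * q.1) (p.N i * q.2))) q := fun i _ =>
    contDiffAt_const.mul (contDiffAt_const.add (Th_sc hA _ (S_ne_of hp hq i (by omega))))
  exact ContDiffAt.sum h

lemma Zx_smooth (hp : p.Good) {j : ℕ} (d : p.Str (j + 1)) {q : ℝ × ℝ}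
    (hq : S (p.N j * q.2) ≠ 0) : ContDiffAt ℝ ∞ (fun q : ℝ × ℝ => p.Zx d q.1 q.2) q := by
  have h : ∀ i ∈ (Finset.univ : Finset (Fin (j + 1))), ContDiffAt ℝ ∞
      (fun q : ℝ × ℝ => sg (d i).1 * p.s i * T1 (p.N i * q.1) (p.N i * q.2)) q := fun i _ =>
    contDiffAt_const.mul (T1_sc _ (S_ne_of hp hq i (by omega)))
  exact ContDiffAt.sum h

lemma Zy_smooth (hp : p.Good) {j : ℕ} (d : p.Str (j + 1)) {q : ℝ × ℝ}
    (hq : S (p.N j * q.2) ≠ 0) : ContDiffAt ℝ ∞ (fun q : ℝ × ℝ => p.Zy d q.1 q.2) q := by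
  have h : ∀ i ∈ (Finset.univ : Finset (Fin (j + 1))), ContDiffAt ℝ ∞
      (fun q : ℝ × ℝ => sg (d i).1 * p.s i * T2 (p.N i * q.1) (p.N i * q.2)) q := fun i _ =>
    contDiffAt_const.mul (T2_sc _ (S_ne_of hp hq i (by omega)))
  exact ContDiffAt.sum h

lemma Sq_cont (a : ℝ) : Continuous (fun q : ℝ × ℝ => S (a * q.2) ^ 2) :=
  (S_smooth.continuous.comp (continuous_const.mul continuous_snd)).pow 2

/-- where `S (N_j y)² < 1/4` the weight is locally zero -/
lemma wt_ev_zero {j : ℕ} (d : p.Str (j + 1)) {q : ℝ × ℝ}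
    (hq : S (p.N j * q.2) ^ 2 < 1 / 4) : ∀ᶠ r in 𝓝 q, p.wt j d r.1 r.2 = 0 := by
  filter_upwards [(Sq_cont (p.N j)).continuousAt.eventually_lt_const hq] with r hr
  unfold Par.wt
  rw [lam_zero hr.le, zero_div]

lemma wt_smooth (hp : p.Good) {j : ℕ} (d : p.Str (j + 1)) :
    ContDiff ℝ ∞ (fun q : ℝ × ℝ => p.wt j d q.1 q.2) := by
  rw [contDiff_iff_contDiffAt]
  intro q
  by_cases hq : S (p.N j * q.2) = 0
  · have h := wt_ev_zero (p := p) d (q := q) (by rw [hq]; norm_num)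
    exact (contDiffAt_const (c := (0 : ℝ))).congr_of_eventuallyEq h
  · unfold Par.wt
    refine ContDiffAt.div ?_ ?_ (by positivity)
    · exact (lam_smooth.comp (contDiff_const.mul contDiff_snd)).contDiffAt
    · exact (contDiffAt_const.add ((Zx_smooth hp d hq).pow 2)).add ((Zy_smooth hp d hq).pow 2)

lemma Vd_smooth (hA : Ang) (hp : p.Good) {j : ℕ} (d : p.Str (j + 1)) :
    ContDiff ℝ ∞ (fun q : ℝ × ℝ => Vd p j d q.1 q.2) := by
  rw [contDiff_iff_contDiffAt]
  intro q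
  by_cases hq : S (p.N j * q.2) = 0
  · have h : ∀ᶠ r in 𝓝 q, Vd p j d r.1 r.2 = 0 := by
      have h1 : S (p.N j * q.2) ^ 2 < 1 / 8 := by rw [hq]; norm_num
      filter_upwards [(Sq_cont (p.N j)).continuousAt.eventually_lt_const h1] with r hr
      unfold Vd
      rw [Real.smoothTransition.zero_of_nonpos (by linarith), zero_mul]
    exact (contDiffAt_const (c := (0 : ℝ))).congr_of_eventuallyEq h
  · unfold Vd
    refine ContDiffAt.mul ?_ (Zs_smooth hA hp d hq)
    refine ContDiff.contDiffAt ?_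
    exact Real.smoothTransition.contDiff.comp ((contDiff_const.mul
      ((S_smooth.comp (contDiff_const.mul contDiff_snd)).pow 2)).sub contDiff_const)

lemma Vd_eq {j : ℕ} (d : p.Str (j + 1)) {x y : ℝ}
    (hq : 1 / 4 ≤ S (p.N j * y) ^ 2) : Vd p j d x y = p.Zs d x y := by
  unfold Vd
  rw [Real.smoothTransition.one_of_one_le (by linarith), one_mul]

lemma ne_of_ge {t : ℝ} (h : 1 / 4 ≤ S t ^ 2) : S t ≠ 0 := by
  intro h0; rw [h0] at h; norm_num at h

lemma hN (hp : p.Good) (i : ℕ) : p.h i * p.N i = p.s i := by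
  unfold Par.h
  have : (p.N i : ℝ) ≠ 0 := by exact_mod_cast (hp.Npos i).ne'
  field_simp

lemma Zs_x (hA : Ang) (hp : p.Good) {j : ℕ} (d : p.Str (j + 1)) {x y : ℝ}
    (hq : S (p.N j * y) ≠ 0) : HasDerivAt (fun t => p.Zs d t y) (p.Zx d x y) x := by
  unfold Par.Zs Par.Zx
  refine HasDerivAt.fun_sum fun i _ => ?_
  have h1 := hA.Th_x (x := p.N i * x) (S_ne_of hp hq i (by omega))
  have h2 : HasDerivAt (fun t : ℝ => (p.N i : ℝ) * t) (p.N i) x := by
    simpa using (hasDerivAt_id x).const_mul (p.N i : ℝ)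
  have h3 : HasDerivAt (fun t : ℝ => Th (p.N i * t) (p.N i * y))
      (T1 (p.N i * x) (p.N i * y) * p.N i) x := h1.comp x h2
  unfold Par.val
  have h4 := (h3.const_add ((p.M i : ℝ) + ((d i).2 : ℕ))).const_mul (sg (d i).1 * p.h i)
  have h5 := hN hp i
  have e : sg (d i).1 * p.h i * (T1 (p.N i * x) (p.N i * y) * p.N i) =
      sg (d i).1 * p.s i * T1 (p.N i * x) (p.N i * y) := by rw [← h5]; ring
  rw [e] at h4
  exact h4

lemma Zs_y (hA : Ang) (hp : p.Good) {j : ℕ} (d : p.Str (j + 1)) {x y : ℝ}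
    (hq : S (p.N j * y) ≠ 0) : HasDerivAt (fun t => p.Zs d x t) (p.Zy d x y) y := by
  unfold Par.Zs Par.Zy
  refine HasDerivAt.fun_sum fun i _ => ?_
  have h1 := hA.Th_y (x := p.N i * x) (S_ne_of hp hq i (by omega))
  have h2 : HasDerivAt (fun t : ℝ => (p.N i : ℝ) * t) (p.N i) y := by
    simpa using (hasDerivAt_id y).const_mul (p.N i : ℝ)
  have h3 : HasDerivAt (fun t : ℝ => Th (p.N i * x) (p.N i * t))
      (T2 (p.N i * x) (p.N i * y) * p.N i) y := h1.comp y h2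
  unfold Par.val
  have h4 := (h3.const_add ((p.M i : ℝ) + ((d i).2 : ℕ))).const_mul (sg (d i).1 * p.h i)
  have h5 := hN hp i
  have e : sg (d i).1 * p.h i * (T2 (p.N i * x) (p.N i * y) * p.N i) =
      sg (d i).1 * p.s i * T2 (p.N i * x) (p.N i * y) := by rw [← h5]; ring
  rw [e] at h4
  exact h4

lemma D1V (hA : Ang) (hp : p.Good) {j : ℕ} (d : p.Str (j + 1)) {x y : ℝ}
    (hq : 1 / 4 < S (p.N j * y) ^ 2) : D1 (Vd p j d) x y = p.Zx d x y := by
  unfold D1
  have : (fun t => Vd p j d t y) = fun t => p.Zs d t y := funext fun t => Vd_eq d hq.le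
  rw [this]
  exact (Zs_x hA hp d (ne_of_ge hq.le)).deriv

lemma D2V (hA : Ang) (hp : p.Good) {j : ℕ} (d : p.Str (j + 1)) {x y : ℝ}
    (hq : 1 / 4 < S (p.N j * y) ^ 2) : D2 (Vd p j d) x y = p.Zy d x y := by
  unfold D2
  have c1 : Continuous (fun t : ℝ => S (p.N j * t) ^ 2) :=
    (S_smooth.continuous.comp (continuous_const.mul continuous_id)).pow 2
  have : (fun t => Vd p j d x t) =ᶠ[𝓝 y] fun t => p.Zs d x t := by
    filter_upwards [c1.continuousAt.eventually_const_lt hq] with t ht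
    exact Vd_eq d ht.le
  rw [this.deriv_eq]
  exact (Zs_y hA hp d (ne_of_ge hq.le)).deriv

lemma wt_nonneg (j : ℕ) (d : p.Str (j + 1)) (x y : ℝ) : 0 ≤ p.wt j d x y := by
  unfold Par.wt
  exact div_nonneg (lam_nonneg _) (by positivity)

lemma wt_zero (j : ℕ) (d : p.Str (j + 1)) (x y : ℝ) (h : S (p.N j * y) ^ 2 ≤ 1 / 4) :
    p.wt j d x y = 0 := by
  unfold Par.wt
  rw [lam_zero h, zero_div]

lemma wt_bd (hA : Ang) (hp : p.Good) (j : ℕ) (d : p.Str (j + 1)) (x y : ℝ) :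
    0 ≤ p.wt j d x y ∧ p.wt j d x y ≤ 1 ∧
      p.wt j d x y * (|D1 (Vd p j d) x y| + |D2 (Vd p j d) x y|) ≤ 2 := by
  refine ⟨wt_nonneg j d x y, ?_, ?_⟩
  · unfold Par.wt
    rw [div_le_one (by positivity)]
    have := lam_le_one (p.N j * y)
    nlinarith [sq_nonneg (p.Zx d x y), sq_nonneg (p.Zy d x y)]
  · by_cases h : S (p.N j * y) ^ 2 ≤ 1 / 4
    · rw [wt_zero j d x y h, zero_mul]; norm_num
    · push Not at h
      rw [D1V hA hp d h, D2V hA hp d h]
      unfold Par.wt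
      have h1 := lam_le_one (p.N j * y)
      have h0 := lam_nonneg (p.N j * y)
      rw [div_mul_eq_mul_div, div_le_iff₀ (by positivity)]
      have e1 : |p.Zx d x y| ≤ 1 + p.Zx d x y ^ 2 := by
        rw [← sq_abs (p.Zx d x y)]; nlinarith [sq_nonneg (|p.Zx d x y| - 1), abs_nonneg (p.Zx d x y)]
      have e2 : |p.Zy d x y| ≤ 1 + p.Zy d x y ^ 2 := by
        rw [← sq_abs (p.Zy d x y)]; nlinarith [sq_nonneg (|p.Zy d x y| - 1), abs_nonneg (p.Zy d x y)]
      have e3 : lam (p.N j * y) * (|p.Zx d x y| + |p.Zy d x y|) ≤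
          1 * (|p.Zx d x y| + |p.Zy d x y|) := mul_le_mul_of_nonneg_right h1 (by positivity)
      nlinarith [sq_nonneg (p.Zx d x y), sq_nonneg (p.Zy d x y)]

lemma wt_slow (hA : Ang) (hp : p.Good) (j : ℕ) (d : p.Str (j + 1)) (x y : ℝ) :
    (|D1 (p.wt j d) x y| + |D2 (p.wt j d) x y|) *
      (1 + |D1 (Vd p j d) x y| + |D2 (Vd p j d) x y|) ≤ p.N (j + 1) / 2 ^ j := by
  by_cases h : S (p.N j * y) ^ 2 ≤ 1 / 4
  · have h1 : D1 (p.wt j d) x y = 0 := by
      unfold D1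
      apply IsLocalMin.deriv_eq_zero
      exact Eventually.of_forall fun t => by
        show p.wt j d x y ≤ p.wt j d t y
        rw [wt_zero j d x y h]; exact wt_nonneg j d t y
    have h2 : D2 (p.wt j d) x y = 0 := by
      unfold D2
      apply IsLocalMin.deriv_eq_zero
      exact Eventually.of_forall fun t => by
        show p.wt j d x y ≤ p.wt j d x t
        rw [wt_zero j d x y h]; exact wt_nonneg j d x t
    rw [h1, h2, abs_zero, add_zero, zero_mul]
    positivity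
  · push Not at h
    rw [D1V hA hp d h, D2V hA hp d h]
    exact hp.slow j d x y

lemma h_pos (hp : p.Good) (j : ℕ) : 0 < p.h j := by
  unfold Par.h
  have h1 := hp.spos j
  have h2 : (0 : ℝ) < p.N j := by exact_mod_cast hp.Npos j
  positivity

lemma M_ge (j : ℕ) : (4 : ℝ) ≤ (p.M j : ℝ) := by
  unfold Par.M
  push_cast
  linarith [Nat.cast_nonneg (α := ℝ) (p.m j)]

lemma dg_le {j : ℕ} (g : p.Dg j) : ((g.2 : ℕ) : ℝ) ≤ 2 * p.M j - 1 := by
  have h : (g.2 : ℕ) + 1 ≤ 2 * (p.m j + 4) := g.2.2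
  have h' : (((g.2 : ℕ) + 1 : ℕ) : ℝ) ≤ ((2 * (p.m j + 4) : ℕ) : ℝ) := by exact_mod_cast h
  unfold Par.M
  push_cast at h' ⊢
  linarith

lemma two_pow_bd (j : ℕ) : (1 : ℝ) / 2 ^ (j + 7) ≤ 1 / 16 := by
  have h : (16 : ℝ) ≤ 2 ^ (j + 7) := by
    calc (16 : ℝ) ≤ 2 ^ 7 := by norm_num
      _ ≤ 2 ^ (j + 7) := pow_le_pow_right₀ (by norm_num) (by omega)
  exact one_div_le_one_div_of_le (by norm_num) h

lemma near_false (hA : Ang) (hp : p.Good) {j : ℕ} (g : p.Dg (j + 1)) (hg : g.1 = false)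
    {x y u : ℝ}
    (hu : |u - p.val (j + 1) g (Th (p.N (j + 1) * x) (p.N (j + 1) * y))| ≤
      p.h (j + 1) / 2 ^ (j + 7)) : u < 0 := by
  have hh := h_pos hp (j + 1)
  have hM := M_ge (p := p) (j + 1)
  obtain ⟨hT0, hT1⟩ := hA.mem (p.N (j + 1) * x) (p.N (j + 1) * y)
  have hl : (0 : ℝ) ≤ ((g.2 : ℕ) : ℝ) := Nat.cast_nonneg _
  have h1 := (abs_le.1 hu).2
  unfold Par.val at h1
  rw [hg] at h1
  simp only [sg] at h1
  have h2 : p.h (j + 1) / 2 ^ (j + 7) ≤ p.h (j + 1) * (1 / 16) := by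
    rw [div_eq_mul_one_div]
    exact mul_le_mul_of_nonneg_left (two_pow_bd j) hh.le
  have h3 : p.h (j + 1) * 4 ≤
      p.h (j + 1) * (p.M (j + 1) + ((g.2 : ℕ) : ℝ) + Th (p.N (j + 1) * x) (p.N (j + 1) * y)) :=
    mul_le_mul_of_nonneg_left (by linarith) hh.le
  simp only [Bool.false_eq_true, if_false] at h1
  nlinarith

lemma near_true (hA : Ang) (hp : p.Good) {j : ℕ} (g : p.Dg (j + 1)) (hg : g.1 = true)
    {x y u : ℝ}
    (hu : |u - p.val (j + 1) g (Th (p.N (j + 1) * x) (p.N (j + 1) * y))| ≤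
      p.h (j + 1) / 2 ^ (j + 7)) :
    ∃ (K : ℤ) (e : ℝ), (p.M (j + 1) : ℝ) - 1 ≤ u / p.h (j + 1) ∧
      u / p.h (j + 1) ≤ 3 * p.M (j + 1) + 1 ∧
      u / p.h (j + 1) = K + Th (p.N (j + 1) * x) (p.N (j + 1) * y) + e ∧ |e| ≤ 1 / 16 ∧
      e ^ 2 ≤ 1 / 2 ^ j := by
  have hh := h_pos hp (j + 1)
  have hM := M_ge (p := p) (j + 1)
  obtain ⟨hT0, hT1⟩ := hA.mem (p.N (j + 1) * x) (p.N (j + 1) * y)
  have hl : (0 : ℝ) ≤ ((g.2 : ℕ) : ℝ) := Nat.cast_nonneg _
  have hl2 := dg_le g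
  set Θ := Th (p.N (j + 1) * x) (p.N (j + 1) * y) with hΘ
  have hval : p.val (j + 1) g Θ = p.h (j + 1) * (p.M (j + 1) + ((g.2 : ℕ) : ℝ) + Θ) := by
    unfold Par.val
    rw [hg]
    simp [sg]
  set e := u / p.h (j + 1) - (p.M (j + 1) + ((g.2 : ℕ) : ℝ) + Θ) with he
  have he1 : |e| ≤ 1 / 2 ^ (j + 7) := by
    have e1 : e = (u - p.val (j + 1) g Θ) / p.h (j + 1) := by
      rw [hval, he]; field_simp
    rw [e1, abs_div, abs_of_pos hh, div_le_iff₀ hh]
    calc |u - p.val (j + 1) g Θ| ≤ p.h (j + 1) / 2 ^ (j + 7) := hu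
      _ = 1 / 2 ^ (j + 7) * p.h (j + 1) := by ring
  have he2 : |e| ≤ 1 / 16 := he1.trans (two_pow_bd j)
  obtain ⟨he3, he4⟩ := abs_le.1 he2
  refine ⟨(p.M (j + 1) : ℤ) + ((g.2 : ℕ) : ℤ), e, ?_, ?_, ?_, he2, ?_⟩
  · have : u / p.h (j + 1) = e + (p.M (j + 1) + ((g.2 : ℕ) : ℝ) + Θ) := by rw [he]; ring
    rw [this]; linarith
  · have : u / p.h (j + 1) = e + (p.M (j + 1) + ((g.2 : ℕ) : ℝ) + Θ) := by rw [he]; ring
    rw [this]; linarith
  · push_cast
    rw [he]; ring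
  · have h5 : (1 : ℝ) / 2 ^ (j + 7) ≤ 1 / 2 ^ j :=
      one_div_le_one_div_of_le (by positivity) (pow_le_pow_right₀ (by norm_num) (by omega))
    rw [← sq_abs]
    have h6 := abs_nonneg e
    nlinarith

/-- the condition under which the potential of the string `d` may be nonzero -/
def act (p : Par) (j : ℕ) (d : p.Str (j + 1)) (q : ℝ × ℝ × ℝ) : Prop :=
  |q.2.2 - Vd p j d q.1 q.2.1| ≤ 4 * p.M (j + 1) * p.h (j + 1) ∧
    0 < q.2.2 - Vd p j d q.1 q.2.1 ∧
    ¬ ∀ᶠ r in 𝓝 (q.1, q.2.1), p.wt j d r.1 r.2 = 0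

lemma act_S {j : ℕ} {d : p.Str (j + 1)} {q : ℝ × ℝ × ℝ} (h : act p j d q) :
    1 / 4 ≤ S (p.N j * q.2.1) ^ 2 := by
  by_contra h1
  push Not at h1
  exact h.2.2 (wt_ev_zero (p := p) d (q := (q.1, q.2.1)) h1)

lemma act_V {j : ℕ} {d : p.Str (j + 1)} {q : ℝ × ℝ × ℝ} (h : act p j d q) :
    Vd p j d q.1 q.2.1 = p.Zs d q.1 q.2.1 := Vd_eq d (act_S h)

lemma act_uniq (hS : Sz) (hp : p.Good) {j : ℕ} {d d' : p.Str (j + 1)} {q : ℝ × ℝ × ℝ}
    (h : act p j d q) (h' : act p j d' q) : d = d' := by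
  have h1 := h.1
  have h2 := h'.1
  rw [act_V h] at h1
  rw [act_V h'] at h2
  exact hS.unique_str hp (le_refl j) d d' q.1 q.2.1 q.2.2 h1 h2

lemma pd_sum {ι : Type*} [Fintype ι] (g : ι → ℝ × ℝ × ℝ → ℝ) (hg : ∀ i, ContDiff ℝ ∞ (g i))
    (a : Fin 3) (q : ℝ × ℝ × ℝ) : pd a (fun q => ∑ i, g i q) q = ∑ i, pd a (g i) q := by
  unfold pd
  rw [fderiv_fun_sum fun i _ => ((hg i).differentiable (by simp)) q]
  simp

lemma crl_sum {ι : Type*} [Fintype ι] (g : ι → Fin 3 → ℝ × ℝ × ℝ → ℝ)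
    (hg : ∀ i a, ContDiff ℝ ∞ (g i a)) (a b : Fin 3) (q : ℝ × ℝ × ℝ) :
    crl (fun a q => ∑ i, g i a q) a b q = ∑ i, crl (g i) a b q := by
  unfold crl
  rw [pd_sum (fun i => g i b) (fun i => hg i b), pd_sum (fun i => g i a) (fun i => hg i a),
    Finset.sum_sub_distrib]

lemma pd_cont {g : ℝ × ℝ × ℝ → ℝ} (hg : ContDiff ℝ ∞ g) (a : Fin 3) : Continuous (pd a g) := by
  unfold pd
  exact (hg.continuous_fderiv (by simp)).clm_apply continuous_const

lemma crl_cont {A : Fin 3 → ℝ × ℝ × ℝ → ℝ} (hA : ∀ a, ContDiff ℝ ∞ (A a)) (a b : Fin 3) :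
    Continuous (crl A a b) := by
  unfold crl
  exact (pd_cont (hA b) a).sub (pd_cont (hA a) b)

lemma dense_y (hA : Ang) (hp : p.Good) : Dense {y : ℝ | ∀ i, S (p.N i * y) ≠ 0} := by
  have h : ∀ᵐ y : ℝ, ∀ i, S (p.N i * y) ≠ 0 := ae_all_iff.2 fun i => hA.ae_ne _ (hp.Npos i)
  exact Measure.dense_of_ae h

end ModPota

open ModPota

theorem pota (hA : Ang) (hS : Sz) (hP : StmtPot1) : StmtPota := by
  obtain ⟨C1, hC1, c1, hc1, H⟩ := hP
  refine ⟨18 * C1, by positivity, c1, hc1, fun p hp => ?_⟩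
  have hNp : ∀ j, (0 : ℝ) < p.N j := fun j => by exact_mod_cast hp.Npos j
  have hLN : ∀ j, ((p.N (j + 1) : ℝ) / 2 ^ j) / p.N (j + 1) = 1 / 2 ^ j := fun j => by
    have := (hNp (j + 1)).ne'
    field_simp
  have hex := fun (j : ℕ) (d : p.Str (j + 1)) => H (p.N (j + 1)) (p.h (j + 1)) (p.M (j + 1))
    (p.N (j + 1) / 2 ^ j) (Vd p j d) (p.wt j d) (hp.Npos _) (h_pos hp _)
    (by rw [hN hp]; exact hp.sle _) (M_ge _) (by positivity) (Vd_smooth hA hp d)
    (wt_smooth hp d) (wt_bd hA hp j d) (wt_slow hA hp j d)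
  choose A hsm hsup hsupc hneg hloc hsz hcsz hnear using hex
  simp only [hLN, hN hp] at hcsz hnear
  have hA0 : ∀ j d a q, ¬ act p j d q → A j d a q = 0 := by
    intro j d a q hq
    by_cases h1 : |q.2.2 - Vd p j d q.1 q.2.1| ≤ 4 * p.M (j + 1) * p.h (j + 1)
    · by_cases h2 : q.2.2 - Vd p j d q.1 q.2.1 ≤ 0
      · exact (hneg j d a a q h2).1
      · by_cases h3 : ∀ᶠ r in 𝓝 (q.1, q.2.1), p.wt j d r.1 r.2 = 0
        · exact (hloc j d a a q h3).1
        · exact absurd ⟨h1, not_le.1 h2, h3⟩ hq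
    · exact hsup j d a q h1
  have hC0 : ∀ j d a b q, ¬ act p j d q → crl (A j d) a b q = 0 := by
    intro j d a b q hq
    by_cases h1 : |q.2.2 - Vd p j d q.1 q.2.1| ≤ 4 * p.M (j + 1) * p.h (j + 1)
    · by_cases h2 : q.2.2 - Vd p j d q.1 q.2.1 ≤ 0
      · exact (hneg j d a b q h2).2
      · by_cases h3 : ∀ᶠ r in 𝓝 (q.1, q.2.1), p.wt j d r.1 r.2 = 0
        · exact (hloc j d a b q h3).2
        · exact absurd ⟨h1, not_le.1 h2, h3⟩ hq
    · exact hsupc j d a b q h1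
  have hcrl : ∀ j a b q, crl (fun a q => ∑ d, A j d a q) a b q = ∑ d, crl (A j d) a b q :=
    fun j a b q => crl_sum (A j) (hsm j) a b q
  -- the sums have at most one nonzero term
  have one : ∀ j q d, act p j d q → (∀ a, ∑ d', A j d' a q = A j d a q) ∧
      ∀ a b, crl (fun a q => ∑ d, A j d a q) a b q = crl (A j d) a b q := by
    intro j q d hd
    refine ⟨fun a => ?_, fun a b => ?_⟩
    · refine Finset.sum_eq_single d (fun d' _ hne => hA0 j d' a q fun h => hne ?_) (by simp)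
      exact act_uniq hS hp h hd
    · rw [hcrl]
      refine Finset.sum_eq_single d (fun d' _ hne => hC0 j d' a b q fun h => hne ?_) (by simp)
      exact act_uniq hS hp h hd
  have none : ∀ j q, (∀ d, ¬ act p j d q) → (∀ a, ∑ d', A j d' a q = 0) ∧
      ∀ a b, crl (fun a q => ∑ d, A j d a q) a b q = 0 := by
    intro j q hd
    refine ⟨fun a => ?_, fun a b => ?_⟩
    · exact Finset.sum_eq_zero fun d _ => hA0 j d a q (hd d)
    · rw [hcrl]
      exact Finset.sum_eq_zero fun d _ => hC0 j d a b q (hd d)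
  have hp2 : ∀ j : ℕ, (0 : ℝ) < 1 / 2 ^ j := fun j => by positivity
  have hp2' : ∀ j : ℕ, (1 : ℝ) / 2 ^ j ≤ 1 := fun j => by
    rw [div_le_one (by positivity)]; exact one_le_pow₀ (by norm_num)
  have smA : ∀ j a, ContDiff ℝ ∞ (fun q => ∑ d, A j d a q) := fun j a =>
    ContDiff.sum fun d _ => hsm j d a
  refine ⟨fun j a q => ∑ d, A j d a q, smA, ?_, ?_, ?_⟩
  · -- sizes
    intro j a q
    show |∑ d, A j d a q| ≤ 18 * C1 / 2 ^ j
    by_cases h : ∃ d, act p j d q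
    · obtain ⟨d, hd⟩ := h
      rw [(one j q d hd).1 a]
      have h1 := hsz j d a q
      have h2 : C1 / p.N (j + 1) ≤ C1 / 2 ^ j := by
        have h3 := N_ge2 hp (j + 1)
        have h4 : (2 : ℝ) ^ j ≤ 2 ^ (j + 1) := pow_le_pow_right₀ (by norm_num) (by omega)
        exact div_le_div_of_nonneg_left hC1.le (by positivity) (h4.trans h3)
      have h5 : C1 / 2 ^ j ≤ 18 * C1 / 2 ^ j := by
        apply div_le_div_of_nonneg_right _ (by positivity)
        linarith
      linarith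
    · push Not at h
      rw [(none j q h).1 a, abs_zero]
      positivity
  · -- the sum of the curls
    set f : ℕ → ℝ × ℝ × ℝ → ℝ := fun j q => |crl (fun a q => ∑ d, A j d a q) 0 1 q| +
      |crl (fun a q => ∑ d, A j d a q) 0 2 q| + |crl (fun a q => ∑ d, A j d a q) 1 2 q| with hf
    have Y : ∀ j q, f j q ≤ 6 * C1 := by
      intro j q
      rw [hf]; simp only
      by_cases h : ∃ d, act p j d q
      · obtain ⟨d, hd⟩ := h
        rw [(one j q d hd).2, (one j q d hd).2, (one j q d hd).2]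
        have h1 := hcsz j d 0 1 q
        have h2 := hcsz j d 0 2 q
        have h3 := hcsz j d 1 2 q
        have h4 : C1 * (1 + 1 / 2 ^ j) ≤ C1 * 2 :=
          mul_le_mul_of_nonneg_left (by linarith [hp2' j]) hC1.le
        linarith
      · push Not at h
        rw [(none j q h).2, (none j q h).2, (none j q h).2, abs_zero]
        linarith
    have Zr : ∀ j q, (∀ d, ¬ act p j d q) → f j q = 0 := by
      intro j q h
      rw [hf]; simp only
      rw [(none j q h).2, (none j q h).2, (none j q h).2, abs_zero]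
      norm_num
    have X : ∀ (q : ℝ × ℝ × ℝ), (∀ i, S (p.N i * q.2.1) ≠ 0) → ∀ (J : ℕ) (dJ : p.Str (J + 1)),
        act p J dJ q → ∀ j < J, f j q ≤ C1 * (p.s (j + 1) + 6 * (1 / 2 ^ j)) := by
      intro q hq J dJ hJ j hj
      have hs := (hp.spos (j + 1)).le
      by_cases h : ∃ d, act p j d q
      · obtain ⟨d, hd⟩ := h
        have hd1 := hd.1
        have hJ1 := hJ.1
        rw [act_V hd] at hd1
        rw [act_V hJ] at hJ1
        have e1 := hS.unique_str hp hj.le d dJ q.1 q.2.1 q.2.2 hd1 hJ1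
        have e2 := hS.deep_str hp hj dJ q.1 q.2.1 q.2.2 hJ1
        rw [← e1, ← act_V hd] at e2
        cases hg : (dJ ⟨j + 1, by omega⟩).1 with
        | false =>
          have := near_false hA hp (dJ ⟨j + 1, by omega⟩) hg e2
          linarith [hd.2.1]
        | true =>
          obtain ⟨K, e, k1, k2, k3, k4, k5⟩ := near_true hA hp (dJ ⟨j + 1, by omega⟩) hg e2
          obtain ⟨n1, n2, n3, n4⟩ := hnear j d q K e (hq (j + 1)) k1 k2 k3 k4
          rw [hf]; simp only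
          rw [(one j q d hd).2, (one j q d hd).2, (one j q d hd).2]
          have m1 : C1 * (e ^ 2 + 1 / 2 ^ j) ≤ C1 * (2 * (1 / 2 ^ j)) :=
            mul_le_mul_of_nonneg_left (by linarith) hC1.le
          have m2 : C1 * (e ^ 2 + p.s (j + 1) + 1 / 2 ^ j) ≤
              C1 * (p.s (j + 1) + 2 * (1 / 2 ^ j)) :=
            mul_le_mul_of_nonneg_left (by linarith) hC1.le
          nlinarith
      · push Not at h
        rw [Zr j q h]
        have := hp2 j
        positivity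
    have W : ∀ (q : ℝ × ℝ × ℝ), (∀ i, S (p.N i * q.2.1) ≠ 0) → ∀ n : ℕ,
        ∑ j ∈ Finset.range n, f j q ≤
          6 * C1 + ∑ j ∈ Finset.range n, C1 * (p.s (j + 1) + 6 * (1 / 2 ^ j)) := by
      intro q hq n
      induction n with
      | zero => simp only [Finset.range_zero, Finset.sum_empty]; linarith
      | succ n ih =>
        have hs := (hp.spos (n + 1)).le
        have h0 : 0 ≤ C1 * (p.s (n + 1) + 6 * (1 / 2 ^ n)) := by
          have := hp2 n
          positivity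
        rw [Finset.sum_range_succ, Finset.sum_range_succ]
        by_cases h : ∃ d, act p n d q
        · obtain ⟨d, hd⟩ := h
          have h1 := Finset.sum_le_sum fun j hj => X q hq n d hd j (Finset.mem_range.1 hj)
          have h2 := Y n q
          linarith
        · push Not at h
          rw [Zr n q h]
          linarith
    have geo : ∀ n : ℕ, ∑ j ∈ Finset.range n, (6 : ℝ) * (1 / 2 ^ j) ≤ 12 := by
      intro n
      rw [← Finset.mul_sum]
      have h1 : ∑ j ∈ Finset.range n, (1 : ℝ) / 2 ^ j ≤ 2 := by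
        have := sum_geometric_two_le n
        simpa [one_div] using this
      linarith
    have W2 : ∀ (q : ℝ × ℝ × ℝ), (∀ i, S (p.N i * q.2.1) ≠ 0) → ∀ n : ℕ,
        ∑ j ∈ Finset.range n, f j q ≤ 18 * C1 * (1 + ∑ j ∈ Finset.range n, p.s (j + 1)) := by
      intro q hq n
      refine (W q hq n).trans ?_
      rw [← Finset.mul_sum, Finset.sum_add_distrib]
      have h1 := geo n
      have h2 : 0 ≤ ∑ j ∈ Finset.range n, p.s (j + 1) :=
        Finset.sum_nonneg fun j _ => (hp.spos _).le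
      have h3 : C1 * (∑ j ∈ Finset.range n, p.s (j + 1) +
          ∑ j ∈ Finset.range n, 6 * (1 / 2 ^ j)) ≤
          C1 * (∑ j ∈ Finset.range n, p.s (j + 1) + 12) :=
        mul_le_mul_of_nonneg_left (by linarith) hC1.le
      have h4 : 0 ≤ C1 * ∑ j ∈ Finset.range n, p.s (j + 1) := mul_nonneg hC1.le h2
      linarith
    intro n q
    have fc : ∀ j, Continuous (f j) := fun j =>
      (((crl_cont (smA j) 0 1).abs).add (crl_cont (smA j) 0 2).abs).add (crl_cont (smA j) 1 2).abs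
    have cl : IsClosed {y : ℝ | ∑ j ∈ Finset.range n, f j (q.1, y, q.2.2) ≤
        18 * C1 * (1 + ∑ j ∈ Finset.range n, p.s (j + 1))} := by
      refine isClosed_le ?_ continuous_const
      refine continuous_finsetSum _ fun j _ => ?_
      exact (fc j).comp (continuous_const.prodMk (continuous_id.prodMk continuous_const))
    have hsub : {y : ℝ | ∀ i, S (p.N i * y) ≠ 0} ⊆
        {y : ℝ | ∑ j ∈ Finset.range n, f j (q.1, y, q.2.2) ≤
        18 * C1 * (1 + ∑ j ∈ Finset.range n, p.s (j + 1))} := fun y hy =>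
      W2 (q.1, y, q.2.2) hy n
    have h1 := closure_minimal hsub cl
    rw [(dense_y hA hp).closure_eq] at h1
    exact h1 (Set.mem_univ q.2.1)
  · -- on the limit surface
    intro j o x y hx hy
    set q : ℝ × ℝ × ℝ := (x, y, p.Z o x y) with hq
    set d : p.Str (j + 1) := p.res (j + 1) o with hd
    have hh := h_pos hp (j + 1)
    have hM := M_ge (p := p) (j + 1)
    have t1 := hS.tail hp (j + 1) o x y
    have t2 : p.Zs (p.res (j + 1 + 1) o) x y = p.Zs d x y +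
        p.val (j + 1) (o (j + 1)) (Th (p.N (j + 1) * x) (p.N (j + 1) * y)) := by
      unfold Par.Zs
      rw [Fin.sum_univ_castSucc]
      rfl
    have t3 : |p.Z o x y - p.Zs d x y -
        p.val (j + 1) (o (j + 1)) (Th (p.N (j + 1) * x) (p.N (j + 1) * y))| ≤
        p.h (j + 1) / 2 ^ (j + 7) := by
      have e1 : p.Z o x y - p.Zs d x y -
        p.val (j + 1) (o (j + 1)) (Th (p.N (j + 1) * x) (p.N (j + 1) * y)) =
        p.Z o x y - p.Zs (p.res (j + 1 + 1) o) x y := by rw [t2]; ring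
      rw [e1]
      refine t1.trans ?_
      exact div_le_div_of_nonneg_left hh.le (by positivity)
        (pow_le_pow_right₀ (by norm_num) (by omega))
    obtain ⟨hT0, hT1⟩ := hA.mem (p.N (j + 1) * x) (p.N (j + 1) * y)
    have t4 : |p.Z o x y - p.Zs d x y| ≤ 4 * p.M (j + 1) * p.h (j + 1) := by
      have hl2 := dg_le (o (j + 1))
      have hl : (0 : ℝ) ≤ (((o (j + 1)).2 : ℕ) : ℝ) := Nat.cast_nonneg _
      have v1 : |p.val (j + 1) (o (j + 1)) (Th (p.N (j + 1) * x) (p.N (j + 1) * y))| ≤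
          p.h (j + 1) * (3 * p.M (j + 1)) := by
        unfold Par.val
        have s1 : |sg (o (j + 1)).1| = 1 := by
          unfold sg
          cases (o (j + 1)).1 <;> simp
        rw [abs_mul, abs_mul, s1, one_mul, abs_of_pos hh, abs_of_nonneg (by linarith)]
        exact mul_le_mul_of_nonneg_left (by linarith) hh.le
      have v2 : p.h (j + 1) / 2 ^ (j + 7) ≤ p.h (j + 1) * (1 / 16) := by
        rw [div_eq_mul_one_div]
        exact mul_le_mul_of_nonneg_left (two_pow_bd j) hh.le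
      have v3 : |p.Z o x y - p.Zs d x y| ≤ |p.Z o x y - p.Zs d x y -
          p.val (j + 1) (o (j + 1)) (Th (p.N (j + 1) * x) (p.N (j + 1) * y))| +
          |p.val (j + 1) (o (j + 1)) (Th (p.N (j + 1) * x) (p.N (j + 1) * y))| := by
        have := abs_add_le (p.Z o x y - p.Zs d x y -
          p.val (j + 1) (o (j + 1)) (Th (p.N (j + 1) * x) (p.N (j + 1) * y)))
          (p.val (j + 1) (o (j + 1)) (Th (p.N (j + 1) * x) (p.N (j + 1) * y)))
        simpa using this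
      nlinarith
    have only : ∀ d', act p j d' q → d' = d := by
      intro d' h'
      have h1 := h'.1
      rw [act_V h'] at h1
      exact hS.unique_str hp (le_refl j) d' d x y (p.Z o x y) h1 t4
    have crleq : ∀ a b, crl (fun a q => ∑ d, A j d a q) a b q = crl (A j d) a b q := by
      intro a b
      rw [hcrl]
      refine Finset.sum_eq_single d (fun d' _ hne => hC0 j d' a b q fun h => hne (only d' h))
        (by simp)
    have hb : (0 : ℝ) < 18 * C1 / 2 ^ j := by positivity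
    rw [crleq, crleq, crleq]
    by_cases hs4 : S (p.N j * y) ^ 2 < 1 / 4
    · have hna : ¬ act p j d q := fun h => absurd (act_S h) (not_le.2 hs4)
      rw [hC0 j d 0 2 q hna, hC0 j d 1 2 q hna, hC0 j d 0 1 q hna, abs_zero]
      have hF : p.Fm j o x y = 0 := by
        unfold Par.Fm
        rw [lam_zero hs4.le]; ring
      rw [hF]
      refine ⟨hb.le, hb.le, ?_⟩
      rw [mul_zero, zero_div, zero_add]
      exact hb.le
    · push Not at hs4
      have hV : Vd p j d x y = p.Zs d x y := Vd_eq d hs4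
      rw [← hV] at t3
      cases hg : (o (j + 1)).1 with
      | false =>
        have hlt := near_false hA hp (o (j + 1)) hg t3
        have hz := fun a b => (hneg j d a b q hlt.le).2
        rw [hz 0 2, hz 1 2, hz 0 1, abs_zero]
        have hF : p.Fm j o x y = 0 := by
          unfold Par.Fm
          rw [hg]; simp
        rw [hF]
        refine ⟨hb.le, hb.le, ?_⟩
        rw [mul_zero, zero_div, zero_add]
        exact hb.le
      | true =>
        obtain ⟨K, e, k1, k2, k3, k4, k5⟩ := near_true hA hp (o (j + 1)) hg t3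
        obtain ⟨n1, n2, n3, n4⟩ := hnear j d q K e (hy (j + 1)) k1 k2 k3 k4
        have m1 : C1 * (e ^ 2 + 1 / 2 ^ j) ≤ 18 * C1 / 2 ^ j := by
          have h1 : C1 * (e ^ 2 + 1 / 2 ^ j) ≤ C1 * (2 * (1 / 2 ^ j)) :=
            mul_le_mul_of_nonneg_left (by linarith) hC1.le
          have h2 : C1 * (2 * (1 / 2 ^ j)) ≤ C1 * (18 * (1 / 2 ^ j)) :=
            mul_le_mul_of_nonneg_left (by linarith [hp2 j]) hC1.le
          calc C1 * (e ^ 2 + 1 / 2 ^ j) ≤ C1 * (18 * (1 / 2 ^ j)) := h1.trans h2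
            _ = 18 * C1 / 2 ^ j := by ring
        refine ⟨n1.trans m1, n2.trans m1, ?_⟩
        have hF : p.Fm j o x y = lam (p.N j * y) * Ga2 (p.N (j + 1) * x) (p.N (j + 1) * y) := by
          unfold Par.Fm
          rw [hg]; simp
        rw [hF]
        have e5 : - c1 * p.s (j + 1) * p.wt j d x y * Ga2 (p.N (j + 1) * x) (p.N (j + 1) * y) =
            - c1 * p.s (j + 1) * (lam (p.N j * y) * Ga2 (p.N (j + 1) * x) (p.N (j + 1) * y)) /
              (1 + p.Zx d x y ^ 2 + p.Zy d x y ^ 2) := by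
          unfold Par.wt
          ring
        rw [← e5]
        linarith

end

end Pool.Agent.T6.H55.LU
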