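import Pool.Agent.T6.H55.LU.Stm

/-!
# Module SZ: sizes and digits
-/

set_option autoImplicit false

open MeasureTheory Filter Topology
open scoped ENNReal NNReal

namespace Pool.Agent.T6.H55.LU

namespace SzAux

noncomputable section

variable {p : Par}

theorem h_pos (hp : p.Good) (j : ℕ) : 0 < p.h j :=
  div_pos (hp.spos j) (Nat.cast_pos.2 (hp.Npos j))

theorem M_ge (p : Par) (j : ℕ) : (4 : ℝ) ≤ (p.M j : ℝ) := by
  have : 4 ≤ p.M j := by unfold Par.M; omega
  exact_mod_cast this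

/-- the size of the scale `j` -/
def a (p : Par) (j : ℕ) : ℝ := p.M j * p.h j

theorem a_pos (hp : p.Good) (j : ℕ) : 0 < a p j :=
  mul_pos (by linarith [M_ge p j]) (h_pos hp j)

theorem h_le_a (hp : p.Good) (j : ℕ) : 4 * p.h j ≤ a p j :=
  mul_le_mul_of_nonneg_right (M_ge p j) (h_pos hp j).le

theorem a_zero (hp : p.Good) : a p 0 ≤ 1 / 2 ^ 10 := by
  have := hp.h0
  unfold a
  rw [le_div_iff₀ (by positivity)]
  linarith

theorem a_succ (hp : p.Good) (j : ℕ) : a p (j + 1) ≤ p.h j / 2 ^ (j + 10) := by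
  have := hp.sep j
  unfold a
  rw [le_div_iff₀ (by positivity)]
  linarith

theorem a_succ' (hp : p.Good) (j : ℕ) : a p (j + 1) ≤ a p j * (1 / 4) := by
  have h1 := a_succ hp j
  have h2 := h_le_a hp j
  have h3 := h_pos hp j
  have h4 : p.h j / 2 ^ (j + 10) ≤ p.h j := by
    apply div_le_self h3.le
    exact one_le_pow₀ (by norm_num)
  linarith

theorem a_add (hp : p.Good) (j k : ℕ) : a p (j + k) ≤ a p j * (1 / 4) ^ k := by
  induction k with
  | zero => simp
  | succ k ih =>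
    have := a_succ' hp (j + k)
    rw [pow_succ, ← mul_assoc]
    calc a p (j + (k + 1)) = a p (j + k + 1) := rfl
      _ ≤ a p (j + k) * (1 / 4) := this
      _ ≤ _ := by linarith

theorem h_anti (hp : p.Good) {i j : ℕ} (hij : i ≤ j) : p.h j ≤ p.h i := by
  induction j, hij using Nat.le_induction with
  | base => exact le_rfl
  | succ j _ ih =>
    have h1 := a_succ hp j
    have h2 := h_le_a hp (j + 1)
    have h3 := h_pos hp j
    have h3' := h_pos hp (j + 1)
    have h4 : p.h j / 2 ^ (j + 10) ≤ p.h j := by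
      apply div_le_self h3.le
      exact one_le_pow₀ (by norm_num)
    linarith

theorem h_le (hp : p.Good) (j : ℕ) : 0 < p.h j ∧ p.h j ≤ 1 / 2 ^ (j + 10) := by
  refine ⟨h_pos hp j, ?_⟩
  cases j with
  | zero =>
    have h1 := a_zero hp
    have h2 := h_le_a hp 0
    have h3 := h_pos hp 0
    simpa using (by linarith : p.h 0 ≤ 1 / 2 ^ 10)
  | succ j =>
    have h1 := a_succ hp j
    have h2 := h_le_a hp (j + 1)
    have h3 := h_pos hp (j + 1)
    have h4 : p.h j ≤ 1 := by
      have h5 := h_anti hp (Nat.zero_le j)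
      have h6 := a_zero hp
      have h7 := h_le_a hp 0
      have h8 := h_pos hp 0
      have : (1 : ℝ) / 2 ^ 10 ≤ 1 := by norm_num
      linarith
    have h5 : p.h j / 2 ^ (j + 10) ≤ 1 / 2 ^ (j + 10) := by gcongr
    have h6 : p.h (j + 1) ≤ a p (j + 1) / 4 := by linarith
    have h7 : (1 : ℝ) / 2 ^ (j + 10) / 4 ≤ 1 / 2 ^ (j + 1 + 10) := by
      rw [div_div]
      apply one_div_le_one_div_of_le (by positivity)
      rw [show j + 1 + 10 = (j + 10) + 1 by ring, pow_succ]
      have : (0 : ℝ) < 2 ^ (j + 10) := by positivity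
      linarith
    linarith

theorem abs_sg (b : Bool) : |sg b| = 1 := by
  cases b <;> simp [sg]

theorem abs_val_le (hp : p.Good) (j : ℕ) (d : p.Dg j) (t : ℝ) (ht : -1 / 4 ≤ t) (ht' : t ≤ 1) :
    |p.val j d t| ≤ 3 * a p j := by
  have h1 := h_pos hp j
  have h2 := M_ge p j
  have h3 : ((d.2 : ℕ) : ℝ) + 1 ≤ 2 * p.M j := by
    have := d.2.isLt
    have h4 : (d.2 : ℕ) + 1 ≤ 2 * (p.m j + 4) := this
    have h5 : (((d.2 : ℕ) + 1 : ℕ) : ℝ) ≤ ((2 * (p.m j + 4) : ℕ) : ℝ) := Nat.cast_le.2 h4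
    unfold Par.M
    push_cast at h5 ⊢
    linarith
  have h6 : (0 : ℝ) ≤ ((d.2 : ℕ) : ℝ) := Nat.cast_nonneg _
  unfold Par.val a
  rw [abs_mul, abs_mul, abs_sg, one_mul, abs_of_pos h1, abs_of_nonneg (by linarith)]
  nlinarith

/-- sum over a range of consecutive scales -/
theorem sum_Ico_a (hp : p.Good) (j n : ℕ) : ∑ i ∈ Finset.Ico j n, a p i ≤ a p j * (4 / 3) := by
  rw [Finset.sum_Ico_eq_sum_range]
  calc ∑ k ∈ Finset.range (n - j), a p (j + k)
      ≤ ∑ k ∈ Finset.range (n - j), a p j * (1 / 4) ^ k :=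
        Finset.sum_le_sum fun k _ => a_add hp j k
    _ = a p j * ∑ k ∈ Finset.range (n - j), (1 / 4 : ℝ) ^ k := by rw [Finset.mul_sum]
    _ ≤ a p j * (4 / 3) := by
        refine mul_le_mul_of_nonneg_left ?_ (a_pos hp j).le
        rw [geom_sum_eq (by norm_num)]
        have : (0 : ℝ) ≤ (1 / 4) ^ (n - j) := by positivity
        rw [div_le_iff_of_neg (by norm_num)]
        linarith

/-- the terms of the surface with digits `o` and angles `t` -/
def tm (p : Par) (o : p.Om) (t : ℕ → ℝ) (i : ℕ) : ℝ := p.val i (o i) (t i)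

/-- angles in the range of the two branches -/
def Ok (t : ℕ → ℝ) : Prop := ∀ i, -1 / 4 ≤ t i ∧ t i ≤ 1

theorem abs_tm_le (hp : p.Good) (o : p.Om) {t : ℕ → ℝ} (ht : Ok t) (i : ℕ) :
    |tm p o t i| ≤ 3 * a p i := abs_val_le hp i (o i) (t i) (ht i).1 (ht i).2

theorem abs_sum_Ico (hp : p.Good) (o : p.Om) {t : ℕ → ℝ} (ht : Ok t) (j n : ℕ) :
    |∑ i ∈ Finset.Ico j n, tm p o t i| ≤ 4 * a p j := by
  calc |∑ i ∈ Finset.Ico j n, tm p o t i| ≤ ∑ i ∈ Finset.Ico j n, |tm p o t i| :=
        Finset.abs_sum_le_sum_abs _ _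
    _ ≤ ∑ i ∈ Finset.Ico j n, 3 * a p i := Finset.sum_le_sum fun i _ => abs_tm_le hp o ht i
    _ = 3 * ∑ i ∈ Finset.Ico j n, a p i := by rw [Finset.mul_sum]
    _ ≤ 3 * (a p j * (4 / 3)) := by linarith [sum_Ico_a hp j n]
    _ = 4 * a p j := by ring

theorem abs_sum_Ico' (hp : p.Good) (o : p.Om) {t : ℕ → ℝ} (ht : Ok t) (j n : ℕ) :
    |∑ i ∈ Finset.Ico (j + 1) n, tm p o t i| ≤ p.h j / 2 ^ (j + 8) := by
  refine (abs_sum_Ico hp o ht (j + 1) n).trans ?_
  have := a_succ hp j
  have h2 : p.h j / 2 ^ (j + 8) = 4 * (p.h j / 2 ^ (j + 10)) := by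
    rw [show j + 10 = (j + 8) + 2 by ring, pow_add _ (j + 8) 2]
    generalize p.h j = u
    have : (0 : ℝ) < 2 ^ (j + 8) := by positivity
    generalize (2 : ℝ) ^ (j + 8) = v at this
    field_simp
    ring
  rw [h2]
  linarith

/-- extension of a finite string of digits -/
def ex {n : ℕ} (d : p.Str n) : p.Om := fun i => if h : i < n then d ⟨i, h⟩ else Classical.arbitrary _

theorem res_ex {n : ℕ} (d : p.Str n) : p.res n (ex d) = d := by
  funext i
  simp [Par.res, ex]

theorem ex_apply {n : ℕ} (d : p.Str n) (i : ℕ) (h : i < n) : ex d i = d ⟨i, h⟩ := by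
  simp [ex, h]

theorem Zs_res (o : p.Om) (n : ℕ) (x y : ℝ) :
    p.Zs (p.res n o) x y =
      ∑ i ∈ Finset.range n, tm p o (fun i => Th (p.N i * x) (p.N i * y)) i := by
  unfold Par.Zs
  rw [Finset.sum_range]
  rfl

theorem Zs'_res (o : p.Om) (n : ℕ) (x y : ℝ) :
    p.Zs' (p.res n o) x y =
      ∑ i ∈ Finset.range n, tm p o (fun i => Th' (p.N i * x) (p.N i * y)) i := by
  unfold Par.Zs'
  rw [Finset.sum_range]
  rfl

theorem ok_Th (hA : Ang) (x y : ℝ) : Ok (fun i => Th (p.N i * x) (p.N i * y)) := fun i =>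
  ⟨by linarith [(hA.mem (p.N i * x) (p.N i * y)).1], (hA.mem _ _).2⟩

theorem ok_Th' (hA : Ang) (x y : ℝ) : Ok (fun i => Th' (p.N i * x) (p.N i * y)) := fun i =>
  ⟨(hA.mem' _ _).1, by linarith [(hA.mem' (p.N i * x) (p.N i * y)).2]⟩

theorem abs_sum_range (hp : p.Good) (o : p.Om) {t : ℕ → ℝ} (ht : Ok t) (n : ℕ) :
    |∑ i ∈ Finset.range n, tm p o t i| ≤ 1 / 4 := by
  rw [Finset.range_eq_Ico]
  refine (abs_sum_Ico hp o ht 0 n).trans ?_
  have := a_zero hp
  norm_num at this ⊢
  linarith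

theorem summable_a (hp : p.Good) : Summable (a p) := by
  refine Summable.of_nonneg_of_le (f := fun i => a p 0 * (1 / 4 : ℝ) ^ i) (fun i => (a_pos hp i).le)
    (fun i => by have := a_add hp 0 i; rwa [Nat.zero_add] at this) ?_
  exact (summable_geometric_of_lt_one (r := (1 / 4 : ℝ)) (by norm_num) (by norm_num)).mul_left _

theorem summable_tm (hp : p.Good) (o : p.Om) {t : ℕ → ℝ} (ht : Ok t) : Summable (tm p o t) := by
  refine Summable.of_norm_bounded ((summable_a hp).mul_left 3) fun i => ?_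
  rw [Real.norm_eq_abs]
  exact abs_tm_le hp o ht i

theorem tail_tm (hp : p.Good) (o : p.Om) {t : ℕ → ℝ} (ht : Ok t) (j : ℕ) :
    |∑' i, tm p o t i - ∑ i ∈ Finset.range (j + 1), tm p o t i| ≤ p.h j / 2 ^ (j + 8) := by
  have h1 := (summable_tm hp o ht).hasSum.tendsto_sum_nat
  have h2 : Tendsto (fun n => |∑ i ∈ Finset.range n, tm p o t i -
      ∑ i ∈ Finset.range (j + 1), tm p o t i|) atTop
      (𝓝 |∑' i, tm p o t i - ∑ i ∈ Finset.range (j + 1), tm p o t i|) :=
    (h1.sub_const _).abs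
  refine le_of_tendsto h2 ?_
  filter_upwards [eventually_ge_atTop (j + 1)] with n hn
  rw [← Finset.sum_Ico_eq_sub _ hn]
  exact abs_sum_Ico' hp o ht j n

/-- different digits give different values -/
theorem val_sep (hp : p.Good) (j : ℕ) (d d' : p.Dg j) (t : ℝ) (ht : -1 / 4 ≤ t) (hd : d ≠ d') :
    p.h j ≤ |p.val j d t - p.val j d' t| := by
  obtain ⟨b, l⟩ := d
  obtain ⟨b', l'⟩ := d'
  have h1 := h_pos hp j
  have h2 := M_ge p j
  have h3 : (0 : ℝ) ≤ ((l : ℕ) : ℝ) := Nat.cast_nonneg _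
  have h4 : (0 : ℝ) ≤ ((l' : ℕ) : ℝ) := Nat.cast_nonneg _
  have key : ∀ u : ℝ, 1 ≤ |u| → p.h j ≤ |p.h j * u| := by
    intro u hu
    rw [abs_mul, abs_of_pos h1]
    nlinarith
  by_cases hb : b = b'
  · subst hb
    have hl : l ≠ l' := fun h => hd (by rw [h])
    have hl' : (1 : ℝ) ≤ |((l : ℕ) : ℝ) - ((l' : ℕ) : ℝ)| := by
      have h5 : ((l : ℕ) : ℤ) - ((l' : ℕ) : ℤ) ≠ 0 := by
        intro h
        apply hl
        apply Fin.ext
        omega
      have h6 := Int.one_le_abs h5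
      have h7 : ((1 : ℤ) : ℝ) ≤ ((|((l : ℕ) : ℤ) - ((l' : ℕ) : ℤ)| : ℤ) : ℝ) := Int.cast_le.2 h6
      simpa using h7
    have e : p.val j (b, l) t - p.val j (b, l') t =
        p.h j * (sg b * (((l : ℕ) : ℝ) - ((l' : ℕ) : ℝ))) := by
      simp only [Par.val]
      ring
    rw [e]
    apply key
    rw [abs_mul, abs_sg, one_mul]
    exact hl'
  · have e : |p.val j (b, l) t - p.val j (b', l') t| =
        |p.h j * (2 * p.M j + ((l : ℕ) : ℝ) + ((l' : ℕ) : ℝ) + 2 * t)| := by
      cases b <;> cases b'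
      · exact absurd rfl hb
      · rw [← abs_neg]
        congr 1
        simp [Par.val, sg]
        ring
      · congr 1
        simp [Par.val, sg]
        ring
      · exact absurd rfl hb
    rw [e]
    apply key
    rw [abs_of_nonneg (by linarith)]
    linarith

theorem unique_aux (hp : p.Good) {i j : ℕ} (hij : i ≤ j) (o o' : p.Om) {t : ℕ → ℝ} (ht : Ok t)
    (z : ℝ)
    (h1 : |z - ∑ b ∈ Finset.range (i + 1), tm p o t b| ≤ 4 * a p (i + 1))
    (h2 : |z - ∑ b ∈ Finset.range (j + 1), tm p o' t b| ≤ 4 * a p (j + 1)) :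
    ∀ b ≤ i, o b = o' b := by
  intro b
  induction b using Nat.strong_induction_on with
  | _ b ih =>
    intro hb
    by_contra hne
    have e1 : ∑ b ∈ Finset.range (i + 1), tm p o t b =
        ∑ b ∈ Finset.range b, tm p o t b + tm p o t b + ∑ b ∈ Finset.Ico (b + 1) (i + 1), tm p o t b := by
      rw [← Finset.sum_range_succ, Finset.sum_range_add_sum_Ico _ (by omega)]
    have e2 : ∑ b ∈ Finset.range (j + 1), tm p o' t b =
        ∑ b ∈ Finset.range b, tm p o' t b + tm p o' t b +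
          ∑ b ∈ Finset.Ico (b + 1) (j + 1), tm p o' t b := by
      rw [← Finset.sum_range_succ, Finset.sum_range_add_sum_Ico _ (by omega)]
    have e3 : ∑ b ∈ Finset.range b, tm p o t b = ∑ b ∈ Finset.range b, tm p o' t b := by
      refine Finset.sum_congr rfl fun c hc => ?_
      have hc' := Finset.mem_range.1 hc
      unfold tm
      rw [ih c hc' (by omega)]
    have hs : p.h b ≤ |tm p o t b - tm p o' t b| := val_sep hp b _ _ _ (ht b).1 hne
    have t1 := abs_sum_Ico' hp o ht b (i + 1)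
    have t2 := abs_sum_Ico' hp o' ht b (j + 1)
    have hpos := h_pos hp b
    have q1 : p.h b / 2 ^ (b + 8) ≤ p.h b / 256 := by
      apply div_le_div_of_nonneg_left hpos.le (by norm_num)
      calc (256 : ℝ) = 2 ^ 8 := by norm_num
        _ ≤ 2 ^ (b + 8) := pow_le_pow_right₀ (by norm_num) (by omega)
    have q2 : ∀ c, b ≤ c → 4 * a p (c + 1) ≤ p.h b / 256 := by
      intro c hc
      have w1 := a_succ hp c
      have w2 := h_anti hp hc
      have w3 : p.h c / 2 ^ (c + 10) ≤ p.h c / 1024 := by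
        apply div_le_div_of_nonneg_left (h_pos hp c).le (by norm_num)
        calc (1024 : ℝ) = 2 ^ 10 := by norm_num
          _ ≤ 2 ^ (c + 10) := pow_le_pow_right₀ (by norm_num) (by omega)
      linarith
    have q3 := q2 i hb
    have q4 := q2 j (hb.trans hij)
    rw [e1] at h1
    rw [e2] at h2
    rw [abs_le] at h1 h2 t1 t2
    rcases le_abs.1 hs with h5 | h5 <;> linarith [h1.1, h1.2, h2.1, h2.2, t1.1, t1.2, t2.1, t2.2]

theorem deep_aux (hp : p.Good) {i j : ℕ} (hij : i < j) (o : p.Om) {t : ℕ → ℝ} (ht : Ok t)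
    (z : ℝ)
    (h2 : |z - ∑ b ∈ Finset.range (j + 1), tm p o t b| ≤ 4 * a p (j + 1)) :
    |z - ∑ b ∈ Finset.range (i + 1), tm p o t b - tm p o t (i + 1)| ≤
      p.h (i + 1) / 2 ^ (i + 7) := by
  have e2 : ∑ b ∈ Finset.range (j + 1), tm p o t b =
      ∑ b ∈ Finset.range (i + 1), tm p o t b + tm p o t (i + 1) +
        ∑ b ∈ Finset.Ico (i + 1 + 1) (j + 1), tm p o t b := by
    rw [← Finset.sum_range_succ, Finset.sum_range_add_sum_Ico _ (by omega)]
  have t1 := abs_sum_Ico' hp o ht (i + 1) (j + 1)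
  have hpos := h_pos hp (i + 1)
  have w1 := a_succ hp j
  have w2 := h_anti hp (show i + 1 ≤ j by omega)
  have w3 : p.h j / 2 ^ (j + 10) ≤ p.h (i + 1) / 2 ^ (i + 10) := by
    apply div_le_div₀ hpos.le w2 (by positivity)
    exact pow_le_pow_right₀ (by norm_num) (by omega)
  have w4 : p.h (i + 1) / 2 ^ (i + 10) = p.h (i + 1) / 2 ^ (i + 7) / 8 := by
    rw [show i + 10 = (i + 7) + 3 by ring, pow_add, ← div_div]
    norm_num
  have w5 : p.h (i + 1) / 2 ^ (i + 1 + 8) = p.h (i + 1) / 2 ^ (i + 7) / 4 := by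
    rw [show i + 1 + 8 = (i + 7) + 2 by ring, pow_add, ← div_div]
    norm_num
  have w6 : 0 ≤ p.h (i + 1) / 2 ^ (i + 7) := by positivity
  rw [e2] at h2
  rw [w5] at t1
  rw [w4] at w3
  rw [abs_le] at h2 t1 ⊢
  constructor <;> linarith [h2.1, h2.2, t1.1, t1.2]

/-! ### averages -/

theorem card_Dg (p : Par) (j : ℕ) : (Fintype.card (p.Dg j) : ℝ) = 4 * p.M j := by
  simp only [Par.Dg, Fintype.card_prod, Fintype.card_bool, Fintype.card_fin, Par.M]
  push_cast
  ring

theorem card_Str_succ (p : Par) (n : ℕ) :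
    (Fintype.card (p.Str (n + 1)) : ℝ) = Fintype.card (p.Dg n) * Fintype.card (p.Str n) := by
  have : Fintype.card (p.Str (n + 1)) = Fintype.card (p.Dg n × p.Str n) :=
    Fintype.card_congr (Fin.snocEquiv (fun i : Fin (n + 1) => p.Dg i)).symm
  rw [this, Fintype.card_prod]
  push_cast
  ring

theorem av_succ (p : Par) (n : ℕ) (F : p.Str (n + 1) → ℝ) :
    p.av (n + 1) F = (Fintype.card (p.Dg n) : ℝ)⁻¹ * ∑ e : p.Dg n,
      p.av n (fun d => F (Fin.snocEquiv (fun i : Fin (n + 1) => p.Dg i) (e, d))) := by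
  unfold Par.av
  rw [card_Str_succ, mul_inv, ← Finset.mul_sum, mul_assoc]
  congr 2
  rw [← Fintype.sum_prod_type']
  exact (Equiv.sum_comp (Fin.snocEquiv (fun i : Fin (n + 1) => p.Dg i)) F).symm

theorem Zs_snoc (p : Par) (n : ℕ) (e : p.Dg n) (d : p.Str n) (x y : ℝ) :
    p.Zs (Fin.snocEquiv (fun i : Fin (n + 1) => p.Dg i) (e, d) : p.Str (n + 1)) x y =
      p.Zs d x y + p.val n e (Th (p.N n * x) (p.N n * y)) := by
  unfold Par.Zs
  rw [Fin.sum_univ_castSucc]
  congr 1
  · refine Finset.sum_congr rfl fun i _ => ?_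
    simp only [Fin.snocEquiv_apply, Fin.snoc_castSucc]
    rfl
  · simp only [Fin.snocEquiv_apply, Fin.snoc_last]
    rfl

theorem Zs'_snoc (p : Par) (n : ℕ) (e : p.Dg n) (d : p.Str n) (x y : ℝ) :
    p.Zs' (Fin.snocEquiv (fun i : Fin (n + 1) => p.Dg i) (e, d) : p.Str (n + 1)) x y =
      p.Zs' d x y + p.val n e (Th' (p.N n * x) (p.N n * y)) := by
  unfold Par.Zs'
  rw [Fin.sum_univ_castSucc]
  congr 1
  · refine Finset.sum_congr rfl fun i _ => ?_
    simp only [Fin.snocEquiv_apply, Fin.snoc_castSucc]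
    rfl
  · simp only [Fin.snocEquiv_apply, Fin.snoc_last]
    rfl

theorem av_mono {p : Par} {n : ℕ} {F G : p.Str n → ℝ} (h : ∀ d, F d ≤ G d) :
    p.av n F ≤ p.av n G := by
  unfold Par.av
  gcongr with d
  exact h d

theorem av_const (p : Par) (n : ℕ) (r : ℝ) : p.av n (fun _ => r) = r := by
  unfold Par.av
  rw [Finset.sum_const, Finset.card_univ, nsmul_eq_mul, ← mul_assoc, inv_mul_cancel₀, one_mul]
  exact Nat.cast_ne_zero.2 Fintype.card_ne_zero

theorem av_sub (p : Par) (n : ℕ) (F G : p.Str n → ℝ) :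
    p.av n F - p.av n G = p.av n (fun d => F d - G d) := by
  unfold Par.av
  rw [Finset.sum_sub_distrib]
  ring

theorem abs_av_le {p : Par} {n : ℕ} {F : p.Str n → ℝ} {B : ℝ} (h : ∀ d, |F d| ≤ B) :
    |p.av n F| ≤ B := by
  rw [abs_le]
  constructor
  · calc -B = p.av n (fun _ => -B) := (av_const p n _).symm
      _ ≤ p.av n F := av_mono fun d => (abs_le.1 (h d)).1
  · calc p.av n F ≤ p.av n (fun _ => B) := av_mono fun d => (abs_le.1 (h d)).2
      _ = B := av_const p n _

theorem av_sum (p : Par) (n : ℕ) {ι : Type} (s : Finset ι) (r : ℝ) (F : ι → p.Str n → ℝ) :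
    p.av n (fun d => r * ∑ i ∈ s, F i d) = r * ∑ i ∈ s, p.av n (F i) := by
  unfold Par.av
  rw [← Finset.mul_sum, ← Finset.mul_sum, Finset.sum_comm]
  ring

/-- the average over one digit -/
def avd (p : Par) (n : ℕ) (t : ℝ) (F : ℝ → ℝ) (s : ℝ) : ℝ :=
  (Fintype.card (p.Dg n) : ℝ)⁻¹ * ∑ e : p.Dg n, F (s + p.val n e t)

theorem abs_avd_le (p : Par) (n : ℕ) (t : ℝ) (F : ℝ → ℝ) {B : ℝ} (h : ∀ t, |F t| ≤ B) (s : ℝ) :
    |avd p n t F s| ≤ B := by
  have hc : (0 : ℝ) < Fintype.card (p.Dg n) := Nat.cast_pos.2 Fintype.card_pos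
  unfold avd
  rw [abs_mul, abs_of_pos (inv_pos.2 hc), inv_mul_le_iff₀ hc]
  calc |∑ e : p.Dg n, F (s + p.val n e t)| ≤ ∑ e : p.Dg n, |F (s + p.val n e t)| :=
        Finset.abs_sum_le_sum_abs _ _
    _ ≤ ∑ e : p.Dg n, B := Finset.sum_le_sum fun e _ => h _
    _ = _ := by rw [Finset.sum_const, Finset.card_univ, nsmul_eq_mul]

theorem avd_shift (p : Par) (n : ℕ) (t : ℝ) (F : ℝ → ℝ) {B : ℝ} (h : ∀ t, |F t| ≤ B) (s : ℝ) :
    |avd p n t F s - avd p n (t - 1) F s| ≤ B / p.M n := by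
  have hM := M_ge p n
  have hc : (0 : ℝ) < 4 * p.M n := by linarith
  unfold avd
  rw [card_Dg, ← mul_sub, abs_mul, abs_of_pos (inv_pos.2 hc), inv_mul_le_iff₀ hc]
  have e1 : B / (p.M n : ℝ) * 4 = 4 * B / p.M n := by ring
  have e2 : 4 * (p.M n : ℝ) * (B / p.M n) = 4 * B := by
    field_simp
  rw [e2]
  have key : ∀ b : Bool, |∑ l : Fin (2 * (p.m n + 4)), F (s + p.val n (b, l) t) -
      ∑ l : Fin (2 * (p.m n + 4)), F (s + p.val n (b, l) (t - 1))| ≤ 2 * B := by
    intro b
    let φ : ℕ → ℝ := fun k => F (s + sg b * p.h n * (p.M n + (k : ℝ) + (t - 1)))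
    have s1 : ∑ l : Fin (2 * (p.m n + 4)), F (s + p.val n (b, l) (t - 1)) =
        ∑ k ∈ Finset.range (2 * (p.m n + 4)), φ k := by
      rw [Finset.sum_range]
      rfl
    have s2 : ∑ l : Fin (2 * (p.m n + 4)), F (s + p.val n (b, l) t) =
        ∑ k ∈ Finset.range (2 * (p.m n + 4)), φ (k + 1) := by
      rw [Finset.sum_range]
      refine Finset.sum_congr rfl fun l _ => ?_
      simp only [φ, Par.val]
      congr 2
      push_cast
      ring
    rw [s1, s2, ← Finset.sum_sub_distrib, Finset.sum_range_sub]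
    calc |φ (2 * (p.m n + 4)) - φ 0| ≤ |φ (2 * (p.m n + 4))| + |φ 0| := abs_sub _ _
      _ ≤ B + B := add_le_add (h _) (h _)
      _ = 2 * B := by ring
  rw [Fintype.sum_prod_type, Fintype.sum_prod_type, Fintype.sum_bool, Fintype.sum_bool]
  have k1 := key true
  have k2 := key false
  rw [abs_le] at k1 k2 ⊢
  constructor <;> linarith [k1.1, k1.2, k2.1, k2.2]

theorem av_branch_aux (hA : Ang) (p : Par) (x y : ℝ) (B : ℝ) (n : ℕ) :
    (∀ i < n, S (p.N i * x) ≠ 0) → (∀ i < n, S (p.N i * y) ≠ 0) →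
    ∀ (F : ℝ → ℝ), (∀ t, |F t| ≤ B) →
    |p.av n (fun d => F (p.Zs d x y)) - p.av n (fun d => F (p.Zs' d x y))| ≤
      B * ∑ i ∈ Finset.range n, 1 / (p.M i : ℝ) := by
  induction n with
  | zero =>
    intro _ _ F _
    simp [Par.Zs, Par.Zs']
  | succ n ih =>
    intro hx hy F hF
    have hB : 0 ≤ B := (abs_nonneg _).trans (hF 0)
    have e1 : p.av (n + 1) (fun d => F (p.Zs d x y)) =
        p.av n (fun d => avd p n (Th (p.N n * x) (p.N n * y)) F (p.Zs d x y)) := by
      rw [av_succ]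
      unfold avd
      rw [av_sum]
      simp only [Zs_snoc]
    have e2 : p.av (n + 1) (fun d => F (p.Zs' d x y)) =
        p.av n (fun d => avd p n (Th' (p.N n * x) (p.N n * y)) F (p.Zs' d x y)) := by
      rw [av_succ]
      unfold avd
      rw [av_sum]
      simp only [Zs'_snoc]
    have i1 := ih (fun i hi => hx i (by omega)) (fun i hi => hy i (by omega))
      (avd p n (Th (p.N n * x) (p.N n * y)) F) (abs_avd_le p n _ F hF)
    have i2 : |p.av n (fun d => avd p n (Th (p.N n * x) (p.N n * y)) F (p.Zs' d x y)) -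
        p.av n (fun d => avd p n (Th' (p.N n * x) (p.N n * y)) F (p.Zs' d x y))| ≤
        B / p.M n := by
      rw [av_sub]
      refine abs_av_le fun d => ?_
      rcases hA.eq (hx n (by omega)) (hy n (by omega)) with h | h
      · rw [h, sub_self, abs_zero]
        have := M_ge p n
        positivity
      · rw [h]
        exact avd_shift p n _ F hF _
    rw [e1, e2, Finset.sum_range_succ, mul_add]
    have i3 : B * (1 / (p.M n : ℝ)) = B / p.M n := by ring
    rw [i3]
    exact (abs_sub_le _ _ _).trans (add_le_add i1 i2)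

/-! ### the marginals of `Q` -/

theorem Q_cyl (p : Par) (n : ℕ) (d : p.Str n) :
    p.Q {o | p.res n o = d} = ((Fintype.card (p.Str n) : ℝ≥0∞))⁻¹ := by
  have e1 : {o : p.Om | p.res n o = d} =
      Set.pi (Finset.range n : Set ℕ) (fun i => ({ex d i} : Set (p.Dg i))) := by
    ext o
    simp only [Set.mem_setOf_eq, Set.mem_pi, Finset.coe_range, Set.mem_Iio, Set.mem_singleton_iff]
    constructor
    · intro h i hi
      rw [ex_apply d i hi, ← h]
      rfl
    · intro h
      funext i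
      have := h i i.isLt
      rw [ex_apply d i i.isLt] at this
      exact this
  rw [e1]
  unfold Par.Q
  rw [Measure.infinitePi_pi _ (fun i _ => MeasurableSet.singleton _)]
  have e2 : ∀ i, uni (p.Dg i) {ex d i} = ((Fintype.card (p.Dg i) : ℝ≥0∞))⁻¹ := by
    intro i
    rw [uni, Measure.smul_apply, Measure.count_singleton, smul_eq_mul, mul_one]
  simp only [e2]
  clear e1 e2 d
  induction n with
  | zero => simp
  | succ n ih =>
    rw [Finset.prod_range_succ, ih]
    have : Fintype.card (p.Str (n + 1)) = Fintype.card (p.Dg n × p.Str n) :=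
      Fintype.card_congr (Fin.snocEquiv (fun i : Fin (n + 1) => p.Dg i)).symm
    rw [this, Fintype.card_prod (p.Dg n) (p.Str n), Nat.cast_mul,
      ENNReal.mul_inv (Or.inr (ENNReal.natCast_ne_top _)) (Or.inl (ENNReal.natCast_ne_top _)),
      mul_comm]

theorem measurable_res (p : Par) (n : ℕ) : Measurable (p.res n) :=
  measurable_pi_lambda _ fun _ => measurable_pi_apply _

theorem integral_res (p : Par) (n : ℕ) (F : p.Str n → ℝ) :
    ∫ o, F (p.res n o) ∂p.Q = p.av n F := by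
  have : IsProbabilityMeasure p.Q := by unfold Par.Q; infer_instance
  have : IsProbabilityMeasure (p.Q.map (p.res n)) :=
    Measure.isProbabilityMeasure_map (measurable_res p n).aemeasurable
  have hF : AEStronglyMeasurable F (p.Q.map (p.res n)) :=
    (measurable_of_finite F).aestronglyMeasurable
  rw [← integral_map (measurable_res p n).aemeasurable hF, integral_fintype]
  · unfold Par.av
    rw [Finset.mul_sum]
    refine Finset.sum_congr rfl fun d _ => ?_
    rw [smul_eq_mul]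
    congr 1
    rw [Measure.real, Measure.map_apply (measurable_res p n) (MeasurableSet.singleton d)]
    have : p.res n ⁻¹' {d} = {o | p.res n o = d} := rfl
    rw [this, Q_cyl, ENNReal.toReal_inv, ENNReal.toReal_natCast]
  · exact .of_finite

end

end SzAux

open SzAux in
/-- Module SZ -/
theorem sz (hA : Ang) : Sz where
  abs_Zs_le := by
    intro p hp n d x y
    rw [← res_ex d, Zs_res]
    exact abs_sum_range hp _ (ok_Th hA x y) n
  abs_Zs'_le := by
    intro p hp n d x y
    rw [← res_ex d, Zs'_res]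
    exact abs_sum_range hp _ (ok_Th' hA x y) n
  tail := by
    intro p hp j o x y
    rw [Zs_res]
    refine (tail_tm hp o (ok_Th hA x y) j).trans ?_
    apply div_le_div_of_nonneg_left (h_pos hp j).le (by positivity)
    exact pow_le_pow_right₀ (by norm_num) (by omega)
  h_le := fun hp j => SzAux.h_le hp j
  unique_str := by
    intro p hp i j hij d d' x y z h1 h2
    have h1' := h1
    have h2' := h2
    rw [← res_ex d, Zs_res, mul_assoc] at h1'
    rw [← res_ex d', Zs_res, mul_assoc] at h2'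
    have := unique_aux hp hij (ex d) (ex d') (ok_Th hA x y) z h1' h2'
    funext b
    have hb := this b (by omega)
    rw [ex_apply d b b.isLt, ex_apply d' b (by omega)] at hb
    exact hb
  deep_str := by
    intro p hp i j hij d' x y z h2
    have h2' := h2
    rw [← res_ex d', Zs_res, mul_assoc] at h2'
    have := deep_aux hp hij (ex d') (ok_Th hA x y) z h2'
    have e : (fun b : Fin (i + 1) => d' ⟨b, by omega⟩) = p.res (i + 1) (ex d') := by
      funext b
      exact (ex_apply d' b (by omega)).symm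
    rw [e, Zs_res]
    have e2 : tm p (ex d') (fun i => Th (p.N i * x) (p.N i * y)) (i + 1) =
        p.val (i + 1) (d' ⟨i + 1, by omega⟩) (Th (p.N (i + 1) * x) (p.N (i + 1) * y)) := by
      unfold tm
      rw [ex_apply d' (i + 1) (by omega)]
    rw [← e2]
    exact this
  av_branch := fun p n x y hx hy F B hF => av_branch_aux hA p x y B n hx hy F hF
  integral_res := SzAux.integral_res

end Pool.Agent.T6.H55.LU
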