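import Pool.Agent.T6.H55.LU.Stm

/-!
# Lusin type approximation of forms (MP_507414_an): module TILT, the slopes of the surfaces
-/

set_option autoImplicit false

open MeasureTheory Filter Topology ProbabilityTheory
open scoped ENNReal NNReal

namespace Pool.Agent.T6.H55.LU

namespace TiltMod

variable (p : Par)

/-- flip the sign of the digit `i` -/
def flip {n : ℕ} (i : Fin n) (d : p.Str n) : p.Str n := Function.update d i (!(d i).1, (d i).2)

lemma flip_invol {n : ℕ} (i : Fin n) : Function.Involutive (flip p i) := by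
  intro d
  unfold flip
  ext j : 1
  by_cases h : j = i
  · subst h; simp
  · simp [Function.update_of_ne h]

lemma sg_not (b : Bool) : sg (!b) = -sg b := by
  cases b <;> simp [sg]

lemma sg_sq (b : Bool) : sg b * sg b = 1 := by
  cases b <;> simp [sg]

lemma sg_abs (b : Bool) : |sg b| = 1 := by
  cases b <;> simp [sg]

lemma flip_same {n : ℕ} (i : Fin n) (d : p.Str n) : sg (flip p i d i).1 = -sg (d i).1 := by
  unfold flip
  simp [sg_not]

lemma flip_ne {n : ℕ} (i j : Fin n) (h : j ≠ i) (d : p.Str n) : flip p i d j = d j := by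
  unfold flip
  rw [Function.update_of_ne h]

lemma sum_sg {n : ℕ} (i : Fin n) : ∑ d : p.Str n, sg (d i).1 = 0 := by
  have h := Equiv.sum_comp (flip_invol p i).toPerm (fun d : p.Str n => sg (d i).1)
  simp only [Function.Involutive.coe_toPerm, flip_same, Finset.sum_neg_distrib] at h
  linarith

lemma sum_sg_mul {n : ℕ} (i j : Fin n) (hij : i ≠ j) :
    ∑ d : p.Str n, sg (d i).1 * sg (d j).1 = 0 := by
  have h := Equiv.sum_comp (flip_invol p i).toPerm (fun d : p.Str n => sg (d i).1 * sg (d j).1)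
  simp only [Function.Involutive.coe_toPerm, flip_same, flip_ne p i j hij.symm, neg_mul,
    Finset.sum_neg_distrib] at h
  linarith

lemma card_pos (n : ℕ) : (0 : ℝ) < (Fintype.card (p.Str n) : ℝ) := by
  exact_mod_cast Fintype.card_pos

lemma av_sq (n : ℕ) (a : ℕ → ℝ) :
    p.av n (fun d => (∑ i : Fin n, sg (d i).1 * a i) ^ 2) = ∑ i : Fin n, a i ^ 2 := by
  unfold Par.av
  have h1 : ∑ d : p.Str n, (∑ i : Fin n, sg (d i).1 * a i) ^ 2
      = ∑ i : Fin n, ∑ j : Fin n, a i * a j * ∑ d : p.Str n, sg (d i).1 * sg (d j).1 := by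
    simp_rw [pow_two, Finset.sum_mul_sum, Finset.mul_sum]
    rw [Finset.sum_comm]
    refine Finset.sum_congr rfl fun i _ => ?_
    rw [Finset.sum_comm]
    exact Finset.sum_congr rfl fun j _ => Finset.sum_congr rfl fun d _ => by ring
  have h2 : ∀ i j : Fin n, a i * a j * ∑ d : p.Str n, sg (d i).1 * sg (d j).1
      = if i = j then a i ^ 2 * (Fintype.card (p.Str n) : ℝ) else 0 := by
    intro i j
    split_ifs with h
    · subst h
      simp only [sg_sq, Finset.sum_const, Finset.card_univ, nsmul_eq_mul, mul_one]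
      ring
    · rw [sum_sg_mul p i j h, mul_zero]
  rw [h1]
  simp_rw [h2, Finset.sum_ite_eq, Finset.mem_univ, if_true]
  rw [← Finset.sum_mul, mul_comm, mul_assoc, mul_inv_cancel₀ (card_pos p n).ne', mul_one]

lemma av_abs_le (n : ℕ) (a : ℕ → ℝ) :
    p.av n (fun d => |∑ i : Fin n, sg (d i).1 * a i|) ≤ Real.sqrt (∑ i : Fin n, a i ^ 2) := by
  refine Real.le_sqrt_of_sq_le ?_
  rw [← av_sq p n a]
  unfold Par.av
  have hc := card_pos p n
  have h1 := sq_sum_le_card_mul_sum_sq (s := (Finset.univ : Finset (p.Str n)))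
    (f := fun d => |∑ i : Fin n, sg (d i).1 * a i|)
  rw [Finset.card_univ] at h1
  simp only [sq_abs] at h1
  rw [mul_pow, inv_pow]
  calc ((Fintype.card (p.Str n) : ℝ) ^ 2)⁻¹ * (∑ d : p.Str n, |∑ i : Fin n, sg (d i).1 * a i|) ^ 2
      ≤ ((Fintype.card (p.Str n) : ℝ) ^ 2)⁻¹ * ((Fintype.card (p.Str n) : ℝ) *
        ∑ d : p.Str n, (∑ i : Fin n, sg (d i).1 * a i) ^ 2) := by gcongr
    _ = _ := by
        field_simp

/-! ### bounded partial sums -/

/-- the sign of the digit `i` -/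
noncomputable def Xs (i : ℕ) (o : p.Om) : ℝ := sg (o i).1

lemma Xs_meas (i : ℕ) : Measurable (Xs p i) := by
  have h1 : Measurable (fun d : p.Dg i => sg d.1) := by
    have : Measurable sg := measurable_of_countable _
    exact this.comp measurable_fst
  exact h1.comp (measurable_pi_apply i)

instance : IsProbabilityMeasure p.Q := by unfold Par.Q; infer_instance

lemma Xs_indep : iIndepFun (Xs p) p.Q := by
  unfold Par.Q
  exact iIndepFun_infinitePi (X := fun i (d : p.Dg i) => sg d.1) (fun i => by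
    have : Measurable sg := measurable_of_countable _
    exact (this.comp measurable_fst))

lemma Xs_bound (i : ℕ) (o : p.Om) : ‖Xs p i o‖ ≤ 1 := by
  rw [Real.norm_eq_abs]; exact (sg_abs _).le

lemma Xs_int (i : ℕ) : Integrable (Xs p i) p.Q :=
  Integrable.of_bound (Xs_meas p i).aestronglyMeasurable 1 (Eventually.of_forall (Xs_bound p i))

lemma Xs_mean (hS : Sz) (i : ℕ) : ∫ o, Xs p i o ∂p.Q = 0 := by
  have h := hS.integral_res p (i + 1) (fun d => sg (d (Fin.last i)).1)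
  unfold Par.av at h
  rw [sum_sg, mul_zero] at h
  exact h

/-- the partial sums -/
noncomputable def Sn (a : ℕ → ℝ) (n : ℕ) (o : p.Om) : ℝ := ∑ i ∈ Finset.range (n + 1), Xs p i o * a i

lemma Sn_succ (a : ℕ → ℝ) (n : ℕ) : Sn p a (n + 1) = Sn p a n + fun o => Xs p (n + 1) o * a (n + 1) := by
  ext o
  unfold Sn
  rw [Finset.sum_range_succ]
  rfl

lemma Sn_int (a : ℕ → ℝ) (n : ℕ) : Integrable (Sn p a n) p.Q := by
  unfold Sn
  exact integrable_finsetSum _ fun i _ => (Xs_int p i).mul_const _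

lemma Sn_mart (hS : Sz) (a : ℕ → ℝ) : Martingale (Sn p a)
    (Filtration.natural (Xs p) fun i => (Xs_meas p i).stronglyMeasurable) p.Q := by
  set 𝓕 := Filtration.natural (Xs p) fun i => (Xs_meas p i).stronglyMeasurable with hF
  have hX : ∀ i n : ℕ, i ≤ n → StronglyMeasurable[𝓕 n] (Xs p i) := fun i n hin =>
    ((Filtration.stronglyAdapted_natural fun i => (Xs_meas p i).stronglyMeasurable) i).mono
      (𝓕.mono hin)
  have hadp : ∀ n, StronglyMeasurable[𝓕 n] (Sn p a n) := by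
    intro n
    unfold Sn
    refine Finset.stronglyMeasurable_fun_sum _ fun i hi => ?_
    exact (hX i n (by rw [Finset.mem_range] at hi; omega)).mul_const _
  refine martingale_nat hadp (Sn_int p a) fun n => ?_
  have h1 : p.Q[Xs p (n + 1) | 𝓕 n] =ᵐ[p.Q] fun _ => (0 : ℝ) := by
    have := (Xs_indep p).condExp_natural_ae_eq_of_lt
      (fun i => (Xs_meas p i).stronglyMeasurable) (Nat.lt_succ_self n)
    rw [Xs_mean p hS] at this
    exact this
  have h2 : p.Q[fun o => Xs p (n + 1) o * a (n + 1) | 𝓕 n] =ᵐ[p.Q] fun _ => (0 : ℝ) := by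
    have h3 := condExp_smul (μ := p.Q) (m := 𝓕 n) (a (n + 1)) (Xs p (n + 1))
    have e : (a (n + 1) • Xs p (n + 1)) = fun o => Xs p (n + 1) o * a (n + 1) := by
      ext o; simp [mul_comm]
    rw [e] at h3
    filter_upwards [h1, h3] with o h4 h5
    rw [h5, Pi.smul_apply, h4, smul_zero]
  have h3 := condExp_add (m := 𝓕 n) (Sn_int p a n) ((Xs_int p (n + 1)).mul_const (a (n + 1)))
  have h4 : p.Q[Sn p a n | 𝓕 n] = Sn p a n :=
    condExp_of_stronglyMeasurable (𝓕.le n) (hadp n) (Sn_int p a n)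
  rw [Sn_succ]
  filter_upwards [h2, h3] with o h5 h6
  rw [h6, Pi.add_apply, h4, h5, add_zero]

lemma Sn_abs (hS : Sz) (a : ℕ → ℝ) (n : ℕ) :
    ∫ o, |Sn p a n o| ∂p.Q ≤ Real.sqrt (∑ i ∈ Finset.range (n + 1), a i ^ 2) := by
  have h := hS.integral_res p (n + 1) (fun d => |∑ i : Fin (n + 1), sg (d i).1 * a i|)
  have h2 := av_abs_le p (n + 1) a
  rw [← h] at h2
  rw [Finset.sum_range fun i => a i ^ 2]
  refine le_trans (le_of_eq ?_) h2
  congr 1
  ext o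
  unfold Sn
  rw [Finset.sum_range fun i => Xs p i o * a i]
  rfl

lemma ae_bdd (hS : Sz) (a : ℕ → ℝ) (ha : Summable fun i => a i ^ 2) :
    ∀ᵐ o ∂p.Q, ∃ T : ℝ, ∀ n, |Sn p a n o| ≤ T := by
  have hm := (Sn_mart p hS a).submartingale
  set R : ℝ≥0 := Real.toNNReal (Real.sqrt (∑' i, a i ^ 2)) with hR
  have hb : ∀ n, eLpNorm (Sn p a n) 1 p.Q ≤ R := by
    intro n
    rw [eLpNorm_one_eq_lintegral_enorm]
    have h1 : ∫⁻ o, ‖Sn p a n o‖ₑ ∂p.Q = ENNReal.ofReal (∫ o, ‖Sn p a n o‖ ∂p.Q) :=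
      (ofReal_integral_norm_eq_lintegral_enorm (Sn_int p a n)).symm
    rw [h1]
    refine ENNReal.ofReal_le_ofReal ?_
    simp only [Real.norm_eq_abs]
    refine (Sn_abs p hS a n).trans (Real.sqrt_le_sqrt ?_)
    exact ha.sum_le_tsum _ fun i _ => sq_nonneg _
  filter_upwards [hm.ae_tendsto_limitProcess hb] with o ho
  obtain ⟨T, hT⟩ := ho.abs.bddAbove_range
  exact ⟨T, fun n => hT ⟨n, rfl⟩⟩

/-! ### the mean slopes -/

lemma rpow_sum_le (n : ℕ) (b : ℕ → ℝ) (hb : ∀ i, 0 ≤ b i) :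
    (∑ i ∈ Finset.range n, b i) ^ (3 / 4 : ℝ) ≤ ∑ i ∈ Finset.range n, b i ^ (3 / 4 : ℝ) := by
  induction n with
  | zero => simp
  | succ n ih =>
    rw [Finset.sum_range_succ, Finset.sum_range_succ]
    have h0 : 0 ≤ ∑ i ∈ Finset.range n, b i := Finset.sum_nonneg fun i _ => hb i
    refine (Real.rpow_add_le_add_rpow h0 (hb n) (by norm_num) (by norm_num)).trans ?_
    linarith

lemma sqrt_le_key (n : ℕ) (a : ℕ → ℝ) (η : ℝ) (hη : 0 < η) :
    Real.sqrt (∑ i ∈ Finset.range n, a i ^ 2) ≤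
      η + 1 / Real.sqrt η * ∑ i ∈ Finset.range n, |a i| ^ (3 / 2 : ℝ) := by
  set B : ℝ := ∑ i ∈ Finset.range n, a i ^ 2 with hB
  have hB0 : 0 ≤ B := Finset.sum_nonneg fun i _ => sq_nonneg _
  have hr : 0 ≤ ∑ i ∈ Finset.range n, |a i| ^ (3 / 2 : ℝ) :=
    Finset.sum_nonneg fun i _ => by positivity
  have hs : 0 < Real.sqrt η := Real.sqrt_pos.mpr hη
  rcases le_or_gt (Real.sqrt B) η with h | h
  · have : 0 ≤ 1 / Real.sqrt η * ∑ i ∈ Finset.range n, |a i| ^ (3 / 2 : ℝ) := by positivity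
    linarith
  · have hA0 : 0 < Real.sqrt B := hη.trans h
    have h1 : Real.sqrt B ^ (3 / 2 : ℝ) ≤ ∑ i ∈ Finset.range n, |a i| ^ (3 / 2 : ℝ) := by
      have e1 : Real.sqrt B ^ (3 / 2 : ℝ) = B ^ (3 / 4 : ℝ) := by
        rw [Real.sqrt_eq_rpow, ← Real.rpow_mul hB0]
        norm_num
      have e2 : ∀ i, |a i| ^ (3 / 2 : ℝ) = (a i ^ 2) ^ (3 / 4 : ℝ) := by
        intro i
        rw [← sq_abs, ← Real.rpow_natCast |a i| 2, ← Real.rpow_mul (abs_nonneg _)]
        norm_num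
      rw [e1]
      simp_rw [e2]
      exact rpow_sum_le n (fun i => a i ^ 2) fun i => sq_nonneg _
    have h2 : Real.sqrt B = Real.sqrt B ^ (3 / 2 : ℝ) * Real.sqrt B ^ (-(1 / 2) : ℝ) := by
      rw [← Real.rpow_add hA0]
      norm_num
    have h3 : Real.sqrt B ^ (-(1 / 2) : ℝ) ≤ 1 / Real.sqrt η := by
      have e3 : Real.sqrt B ^ (-(1 / 2) : ℝ) = (Real.sqrt (Real.sqrt B))⁻¹ := by
        rw [Real.sqrt_eq_rpow (Real.sqrt B), ← Real.rpow_neg hA0.le]
      rw [e3, one_div (Real.sqrt η)]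
      exact inv_anti₀ hs (Real.sqrt_le_sqrt h.le)
    have h4 : Real.sqrt B ≤ (∑ i ∈ Finset.range n, |a i| ^ (3 / 2 : ℝ)) * (1 / Real.sqrt η) := by
      calc Real.sqrt B = Real.sqrt B ^ (3 / 2 : ℝ) * Real.sqrt B ^ (-(1 / 2) : ℝ) := h2
        _ ≤ _ := mul_le_mul h1 h3 (by positivity) hr
    linarith

instance : IsProbabilityMeasure (volume.restrict (Set.Icc (0 : ℝ) 1)) := ⟨by simp⟩

instance : IsProbabilityMeasure sq := by unfold sq; infer_instance

/-- the dominating function -/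
noncomputable def G (N : ℕ) (q : ℝ × ℝ) : ℝ :=
  |S (N * q.1)| ^ (-(3 / 4) : ℝ) * |S (N * q.2)| ^ (-(3 / 4) : ℝ)

lemma G_nonneg (N : ℕ) (q : ℝ × ℝ) : 0 ≤ G N q := by unfold G; positivity

lemma G_int {κ : ℝ} (hκ : ∀ N : ℕ, 0 < N →
    IntegrableOn (fun x : ℝ => |S (N * x)| ^ (-(3 / 4) : ℝ)) (Set.Icc 0 1) ∧
    ∫ x in Set.Icc (0 : ℝ) 1, |S (N * x)| ^ (-(3 / 4) : ℝ) = κ) (N : ℕ) (hN : 0 < N) :
    Integrable (G N) sq ∧ ∫ q, G N q ∂sq = κ * κ := by
  obtain ⟨h1, h2⟩ := hκ N hN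
  refine ⟨?_, ?_⟩
  · unfold sq G
    exact Integrable.mul_prod h1 h1
  · unfold sq G
    rw [integral_prod_mul (fun x : ℝ => |S (N * x)| ^ (-(3 / 4) : ℝ))
      (fun x : ℝ => |S (N * x)| ^ (-(3 / 4) : ℝ)), h2]

lemma ae_ne_sq (hA : Ang) (hN : ∀ i, 0 < p.N i) :
    ∀ᵐ q ∂sq, ∀ i, S (p.N i * q.1) ≠ 0 ∧ S (p.N i * q.2) ≠ 0 := by
  rw [ae_all_iff]
  intro i
  have h := ae_restrict_of_ae (s := Set.Icc (0 : ℝ) 1) (hA.ae_ne (p.N i) (hN i))
  have h1 : ∀ᵐ q ∂sq, S (p.N i * q.1) ≠ 0 := Measure.quasiMeasurePreserving_fst.ae h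
  have h2 : ∀ᵐ q ∂sq, S (p.N i * q.2) ≠ 0 := Measure.quasiMeasurePreserving_snd.ae h
  filter_upwards [h1, h2] with q h3 h4
  exact ⟨h3, h4⟩

/-- the slope at scale `i` -/
noncomputable def sl (T : ℝ → ℝ → ℝ) (q : ℝ × ℝ) (i : ℕ) : ℝ :=
  p.s i * T (p.N i * q.1) (p.N i * q.2)

lemma sl_meas (T : ℝ → ℝ → ℝ) (hT : Measurable fun q : ℝ × ℝ => T q.1 q.2) (i : ℕ) :
    Measurable fun q : ℝ × ℝ => sl p T q i := by
  unfold sl
  refine Measurable.const_mul ?_ _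
  exact hT.comp (f := fun q : ℝ × ℝ => ((p.N i : ℝ) * q.1, (p.N i : ℝ) * q.2)) (by fun_prop)

lemma sl_le (T : ℝ → ℝ → ℝ) (hT : ∀ {x y : ℝ}, S x ≠ 0 → S y ≠ 0 →
    |T x y| ^ (3 / 2 : ℝ) ≤ |S x| ^ (-(3 / 4) : ℝ) * |S y| ^ (-(3 / 4) : ℝ))
    (hs : ∀ i, 0 < p.s i) (q : ℝ × ℝ) (i : ℕ) (h1 : S (p.N i * q.1) ≠ 0)
    (h2 : S (p.N i * q.2) ≠ 0) :
    |sl p T q i| ^ (3 / 2 : ℝ) ≤ p.s i ^ (3 / 2 : ℝ) * G (p.N i) q := by
  unfold sl G
  rw [abs_mul, abs_of_pos (hs i), Real.mul_rpow (hs i).le (abs_nonneg _)]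
  exact mul_le_mul_of_nonneg_left (hT h1 h2) (by have := hs i; positivity)

lemma mean_gen (hA : Ang) {κ : ℝ} (hκ : ∀ N : ℕ, 0 < N →
    IntegrableOn (fun x : ℝ => |S (N * x)| ^ (-(3 / 4) : ℝ)) (Set.Icc 0 1) ∧
    ∫ x in Set.Icc (0 : ℝ) 1, |S (N * x)| ^ (-(3 / 4) : ℝ) = κ)
    (T : ℝ → ℝ → ℝ) (hT : ∀ {x y : ℝ}, S x ≠ 0 → S y ≠ 0 →
    |T x y| ^ (3 / 2 : ℝ) ≤ |S x| ^ (-(3 / 4) : ℝ) * |S y| ^ (-(3 / 4) : ℝ))
    (hTm : Measurable fun q : ℝ × ℝ => T q.1 q.2)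
    (hN : ∀ i, 0 < p.N i) (hs : ∀ i, 0 < p.s i) (n : ℕ) (η : ℝ) (hη : 0 < η) :
    ∫ q, p.av n (fun d => |∑ i : Fin n, sg (d i).1 * sl p T q i|) ∂sq ≤
        η + κ * κ / Real.sqrt η * ∑ i ∈ Finset.range n, p.s i ^ (3 / 2 : ℝ) ∧
      Integrable (fun q : ℝ × ℝ => p.av n (fun d => |∑ i : Fin n, sg (d i).1 * sl p T q i|)) sq := by
  set D : ℝ × ℝ → ℝ := fun q => η + 1 / Real.sqrt η *
    ∑ i ∈ Finset.range n, p.s i ^ (3 / 2 : ℝ) * G (p.N i) q with hD
  have hDi : Integrable D sq := by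
    refine (integrable_const η).add (Integrable.const_mul ?_ _)
    exact integrable_finsetSum _ fun i _ => ((G_int hκ (p.N i) (hN i)).1).const_mul _
  have hDe : ∫ q, D q ∂sq = η + κ * κ / Real.sqrt η * ∑ i ∈ Finset.range n, p.s i ^ (3 / 2 : ℝ) := by
    rw [hD, integral_add (integrable_const η) (Integrable.const_mul
      (integrable_finsetSum _ fun i _ => ((G_int hκ (p.N i) (hN i)).1).const_mul _) _),
      integral_const, integral_const_mul, integral_finsetSum _ fun i _ =>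
        ((G_int hκ (p.N i) (hN i)).1).const_mul _]
    simp_rw [integral_const_mul, fun i => (G_int hκ (p.N i) (hN i)).2]
    rw [← Finset.sum_mul]
    simp
    ring
  have hle : ∀ᵐ q ∂sq, p.av n (fun d => |∑ i : Fin n, sg (d i).1 * sl p T q i|) ≤ D q := by
    filter_upwards [ae_ne_sq p hA hN] with q hq
    refine (av_abs_le p n (sl p T q)).trans ?_
    rw [← Finset.sum_range fun i => sl p T q i ^ 2]
    refine (sqrt_le_key n (sl p T q) η hη).trans ?_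
    have : ∑ i ∈ Finset.range n, |sl p T q i| ^ (3 / 2 : ℝ) ≤
        ∑ i ∈ Finset.range n, p.s i ^ (3 / 2 : ℝ) * G (p.N i) q :=
      Finset.sum_le_sum fun i _ => sl_le p T hT hs q i (hq i).1 (hq i).2
    exact add_le_add le_rfl (mul_le_mul_of_nonneg_left this (by positivity))
  have h0 : ∀ q : ℝ × ℝ, 0 ≤ p.av n (fun d => |∑ i : Fin n, sg (d i).1 * sl p T q i|) := by
    intro q
    unfold Par.av
    have : 0 ≤ ∑ d : p.Str n, |∑ i : Fin n, sg (d i).1 * sl p T q i| :=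
      Finset.sum_nonneg fun d _ => abs_nonneg _
    positivity
  have hm : Measurable (fun q : ℝ × ℝ => p.av n (fun d => |∑ i : Fin n, sg (d i).1 * sl p T q i|)) := by
    unfold Par.av
    refine Measurable.const_mul ?_ _
    refine Finset.measurable_fun_sum _ fun d _ => ?_
    refine Measurable.abs ?_
    exact Finset.measurable_fun_sum _ fun i _ => (sl_meas p T hTm i).const_mul _
  have hI : Integrable (fun q : ℝ × ℝ => p.av n (fun d => |∑ i : Fin n, sg (d i).1 * sl p T q i|)) sq := by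
    refine Integrable.mono' hDi hm.aestronglyMeasurable ?_
    filter_upwards [hle] with q hq
    rw [Real.norm_eq_abs, abs_of_nonneg (h0 q)]
    exact hq
  refine ⟨?_, hI⟩
  rw [← hDe]
  exact integral_mono_ae hI hDi hle

lemma ae_summable (hA : Ang) {κ : ℝ} (hκ : ∀ N : ℕ, 0 < N →
    IntegrableOn (fun x : ℝ => |S (N * x)| ^ (-(3 / 4) : ℝ)) (Set.Icc 0 1) ∧
    ∫ x in Set.Icc (0 : ℝ) 1, |S (N * x)| ^ (-(3 / 4) : ℝ) = κ)
    (T : ℝ → ℝ → ℝ) (hT : ∀ {x y : ℝ}, S x ≠ 0 → S y ≠ 0 →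
    |T x y| ^ (3 / 2 : ℝ) ≤ |S x| ^ (-(3 / 4) : ℝ) * |S y| ^ (-(3 / 4) : ℝ))
    (hN : ∀ i, 0 < p.N i) (hs : ∀ i, 0 < p.s i) (δ : ℝ)
    (hδ : ∀ n, ∑ j ∈ Finset.range n, p.s j ^ (3 / 2 : ℝ) ≤ δ) :
    ∀ᵐ q ∂sq, Summable fun i => sl p T q i ^ 2 := by
  have hsum : Summable fun i => p.s i ^ (3 / 2 : ℝ) :=
    summable_of_sum_range_le (fun i => by have := hs i; positivity) hδ
  have hκ0 : 0 ≤ κ * κ := mul_self_nonneg κ
  have hfi : ∀ i, Integrable (fun q => p.s i ^ (3 / 2 : ℝ) * G (p.N i) q) sq := fun i =>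
    ((G_int hκ (p.N i) (hN i)).1).const_mul _
  have hf0 : ∀ i q, 0 ≤ p.s i ^ (3 / 2 : ℝ) * G (p.N i) q := fun i q =>
    mul_nonneg (by have := hs i; positivity) (G_nonneg _ _)
  have hmeas : ∀ i, AEMeasurable (fun q => ENNReal.ofReal (p.s i ^ (3 / 2 : ℝ) * G (p.N i) q)) sq :=
    fun i => (hfi i).1.aemeasurable.ennreal_ofReal
  have hlt : ∫⁻ q, ∑' i, ENNReal.ofReal (p.s i ^ (3 / 2 : ℝ) * G (p.N i) q) ∂sq < ⊤ := by
    rw [lintegral_tsum hmeas]
    have e : ∀ i, ∫⁻ q, ENNReal.ofReal (p.s i ^ (3 / 2 : ℝ) * G (p.N i) q) ∂sq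
        = ENNReal.ofReal (p.s i ^ (3 / 2 : ℝ) * (κ * κ)) := by
      intro i
      rw [← ofReal_integral_eq_lintegral_ofReal (hfi i) (Eventually.of_forall (hf0 i)),
        integral_const_mul, (G_int hκ (p.N i) (hN i)).2]
    simp_rw [e]
    have h2 : Summable fun i => p.s i ^ (3 / 2 : ℝ) * (κ * κ) := hsum.mul_right _
    rw [← ENNReal.ofReal_tsum_of_nonneg (fun i => mul_nonneg (by have := hs i; positivity) hκ0) h2]
    exact ENNReal.ofReal_lt_top
  have hae : ∀ᵐ q ∂sq, ∑' i, ENNReal.ofReal (p.s i ^ (3 / 2 : ℝ) * G (p.N i) q) < ⊤ :=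
    ae_lt_top' (AEMeasurable.tsum hmeas) hlt.ne
  filter_upwards [hae, ae_ne_sq p hA hN] with q hq hne
  have h1 : Summable fun i => p.s i ^ (3 / 2 : ℝ) * G (p.N i) q := by
    have := ENNReal.summable_toReal hq.ne
    refine this.congr fun i => ?_
    rw [ENNReal.toReal_ofReal (hf0 i q)]
  have h2 : Summable fun i => |sl p T q i| ^ (3 / 2 : ℝ) :=
    Summable.of_nonneg_of_le (fun i => by positivity)
      (fun i => sl_le p T hT hs q i (hne i).1 (hne i).2) h1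
  refine Summable.of_norm_bounded_eventually_nat h2 ?_
  have h3 : ∀ᶠ i in atTop, |sl p T q i| ^ (3 / 2 : ℝ) < 1 :=
    h2.tendsto_atTop_zero.eventually (gt_mem_nhds one_pos)
  filter_upwards [h3] with i hi
  have h4 : |sl p T q i| ≤ 1 := by
    by_contra hcon
    push Not at hcon
    have := Real.one_le_rpow hcon.le (by norm_num : (0 : ℝ) ≤ 3 / 2)
    linarith
  rw [Real.norm_eq_abs, abs_of_nonneg (sq_nonneg _), ← sq_abs, ← Real.rpow_natCast]
  rcases (abs_nonneg (sl p T q i)).eq_or_lt with h5 | h5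
  · rw [← h5]
    norm_num
  · exact Real.rpow_le_rpow_of_exponent_ge h5 h4 (by norm_num)

lemma meas_S : Measurable S := by unfold S; fun_prop

lemma meas_c : Measurable c := by unfold c; fun_prop

lemma meas_T1 : Measurable fun q : ℝ × ℝ => T1 q.1 q.2 := by
  unfold T1 rho
  have h1 := meas_S
  have h2 := meas_c
  fun_prop

lemma meas_T2 : Measurable fun q : ℝ × ℝ => T2 q.1 q.2 := by
  unfold T2 rho
  have h1 := meas_S
  have h2 := meas_c
  fun_prop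

lemma Zx_eq {n : ℕ} (d : p.Str n) (q : ℝ × ℝ) :
    p.Zx d q.1 q.2 = ∑ i : Fin n, sg (d i).1 * sl p T1 q i := by
  unfold Par.Zx sl
  exact Finset.sum_congr rfl fun i _ => by ring

lemma Zy_eq {n : ℕ} (d : p.Str n) (q : ℝ × ℝ) :
    p.Zy d q.1 q.2 = ∑ i : Fin n, sg (d i).1 * sl p T2 q i := by
  unfold Par.Zy sl
  exact Finset.sum_congr rfl fun i _ => by ring

lemma Zx_res (o : p.Om) (j : ℕ) (q : ℝ × ℝ) :
    p.Zx (p.res (j + 1) o) q.1 q.2 = Sn p (sl p T1 q) j o := by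
  rw [Zx_eq]
  unfold Sn
  rw [Finset.sum_range fun i => Xs p i o * sl p T1 q i]
  rfl

lemma Zy_res (o : p.Om) (j : ℕ) (q : ℝ × ℝ) :
    p.Zy (p.res (j + 1) o) q.1 q.2 = Sn p (sl p T2 q) j o := by
  rw [Zy_eq]
  unfold Sn
  rw [Finset.sum_range fun i => Xs p i o * sl p T2 q i]
  rfl

end TiltMod

open TiltMod in
/-- Module TILT: the slopes of the surfaces -/
theorem tilt (hA : Ang) (hS : Sz) : Tilt where
  mean := by
    obtain ⟨κ, hκ0, hκ⟩ := hA.intg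
    refine ⟨κ * κ, mul_pos hκ0 hκ0, fun p hN hs n η hη => ?_⟩
    obtain ⟨h1, h2⟩ := mean_gen p hA hκ T1 hA.T1_le meas_T1 hN hs n η hη
    obtain ⟨h3, h4⟩ := mean_gen p hA hκ T2 hA.T2_le meas_T2 hN hs n η hη
    simp_rw [Zx_eq, Zy_eq]
    exact ⟨h1, h3, h2, h4⟩
  bdd := by
    obtain ⟨κ, hκ0, hκ⟩ := hA.intg
    intro p hN hs δ hδ
    filter_upwards [ae_summable p hA hκ T1 hA.T1_le hN hs δ hδ,
      ae_summable p hA hκ T2 hA.T2_le hN hs δ hδ] with q h1 h2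
    filter_upwards [ae_bdd p hS _ h1, ae_bdd p hS _ h2] with o h3 h4
    obtain ⟨B1, hB1⟩ := h3
    obtain ⟨B2, hB2⟩ := h4
    refine ⟨max B1 B2, fun j => ⟨?_, ?_⟩⟩
    · rw [Zx_res]; exact (hB1 j).trans (le_max_left _ _)
    · rw [Zy_res]; exact (hB2 j).trans (le_max_right _ _)

end Pool.Agent.T6.H55.LU
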