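import Pool.Agent.T6.H55.LU.Stm

/-!
# Module BUNTOP: the case of forms of top degree, for any measure
-/

set_option autoImplicit false

open MeasureTheory Filter Topology
open scoped ENNReal NNReal

namespace Pool.Agent.T6.H55.LU

namespace BtAux

noncomputable section

/-- smooth functions with compact support -/
def Sm (n : ℕ) : Submodule ℝ (Rn n → ℝ) where
  carrier := {a | ContDiff ℝ ((⊤ : ℕ∞) : WithTop ℕ∞) a ∧ HasCompactSupport a}
  add_mem' := fun h h' => ⟨h.1.add h'.1, h.2.add h'.2⟩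
  zero_mem' := ⟨contDiff_const, HasCompactSupport.zero⟩
  smul_mem' := fun c _ h => ⟨contDiff_const.smul h.1, h.2.comp_left (smul_zero c)⟩

/-- the form `f w` for a constant covector `w` -/
def lift {n k : ℕ} (w : Cov n k) : Sm n →ₗ[ℝ] TestForm n k where
  toFun f := ⟨fun x => f.1 x • w, f.2.1.smul contDiff_const, f.2.2.smul_right⟩
  map_add' f g := by
    apply Subtype.ext
    funext x
    simp [add_smul]
  map_smul' r f := by
    apply Subtype.ext
    funext x
    simp [mul_smul]

@[simp] theorem lift_apply {n k : ℕ} (w : Cov n k) (f : Sm n) (x : Rn n) :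
    (lift w f : Rn n → Cov n k) x = f.1 x • w := rfl

/-- translate of a function -/
def tr {n : ℕ} (f : Sm n) (w : Rn n) : Sm n :=
  ⟨fun x => f.1 (x + w), f.2.1.comp (contDiff_id.add contDiff_const),
    f.2.2.comp_homeomorph (Homeomorph.addRight w)⟩

@[simp] theorem tr_apply {n : ℕ} (f : Sm n) (w x : Rn n) : (tr f w).1 x = f.1 (x + w) := rfl

/-- directional derivative of a function -/
def dd {n : ℕ} (f : Sm n) (w : Rn n) : Sm n :=
  ⟨fun x => fderiv ℝ f.1 x w,
    (f.2.1.fderiv_right (m := ((⊤ : ℕ∞) : WithTop ℕ∞)) (by simp)).clm_apply contDiff_const,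
    f.2.2.fderiv_apply ℝ w⟩

@[simp] theorem dd_apply {n : ℕ} (f : Sm n) (w x : Rn n) : (dd f w).1 x = fderiv ℝ f.1 x w := rfl

theorem massOn_bound {n k : ℕ} (T : TestForm n k →ₗ[ℝ] ℝ) (U : Set (Rn n))
    (hT : massOn T U ≠ ⊤) (a : TestForm n k) (ha : tsupport (a : Rn n → Cov n k) ⊆ U)
    (s : ℝ) (hs : 0 < s) (h : ∀ x, ‖(a : Rn n → Cov n k) x‖ ≤ s) :
    T a ≤ s * (massOn T U).toReal := by
  have h1 : ENNReal.ofReal (T (s⁻¹ • a)) ≤ massOn T U := by
    unfold massOn
    refine le_iSup_of_le (s⁻¹ • a) (le_iSup_of_le ?_ (le_iSup_of_le ?_ le_rfl))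
    · refine (closure_mono ?_).trans ha
      intro x hx
      rw [Function.mem_support] at hx ⊢
      intro h0
      apply hx
      change s⁻¹ • (a : Rn n → Cov n k) x = 0
      rw [h0, smul_zero]
    · intro x
      change ‖s⁻¹ • (a : Rn n → Cov n k) x‖ ≤ 1
      rw [norm_smul, Real.norm_eq_abs, abs_of_pos (inv_pos.2 hs), inv_mul_le_iff₀ hs, mul_one]
      exact h x
  have h3 : T (s⁻¹ • a) ≤ (massOn T U).toReal := (ENNReal.ofReal_le_iff_le_toReal hT).1 h1
  rw [map_smul, smul_eq_mul, inv_mul_le_iff₀ hs] at h3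
  exact h3

theorem abs_massOn_bound {n k : ℕ} (T : TestForm n k →ₗ[ℝ] ℝ) (U : Set (Rn n))
    (hT : massOn T U ≠ ⊤) (a : TestForm n k) (ha : tsupport (a : Rn n → Cov n k) ⊆ U)
    (s : ℝ) (hs : 0 < s) (h : ∀ x, ‖(a : Rn n → Cov n k) x‖ ≤ s) :
    |T a| ≤ s * (massOn T U).toReal := by
  rw [abs_le]
  constructor
  · have := massOn_bound T U hT (-a) ?_ s hs ?_
    · have e : T (-a) = -(T a) := by
        rw [← neg_one_smul ℝ a, LinearMap.map_smul, smul_eq_mul]
        ring
      rw [e] at this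
      linarith
    · refine (closure_mono ?_).trans ha
      intro x hx
      rw [Function.mem_support] at hx ⊢
      intro h0
      apply hx
      change -(a : Rn n → Cov n k) x = 0
      rw [h0, neg_zero]
    · intro x
      change ‖-(a : Rn n → Cov n k) x‖ ≤ s
      rw [norm_neg]
      exact h x
  · exact massOn_bound T U hT a ha s hs h

variable {m : ℕ}

theorem nu_deriv (hF : Frm) {N : TestForm (m + 2) (m + 2) →ₗ[ℝ] ℝ} (hN : IsCycle N)
    (f : Sm (m + 2)) :
    N (lift (dxs (fun i : Fin (m + 2) => i)) (dd f (eb 0))) = 0 := by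
  refine hN.closed (lift (dxs (Fin.succ : Fin (m + 1) → Fin (m + 2))) f) _ fun x => ?_
  have hd : DifferentiableAt ℝ f.1 x := (f.2.1.differentiable (by simp)) x
  have h1 := hF.extDeriv_dxs f.1 x hd (Fin.succ : Fin (m + 1) → Fin (m + 2))
  have h2 : (lift (dxs (Fin.succ : Fin (m + 1) → Fin (m + 2))) f : Rn (m + 2) → Cov (m + 2) (m + 1)) =
    fun x => f.1 x • dxs (Fin.succ : Fin (m + 1) → Fin (m + 2)) := rfl
  rw [lift_apply, dd_apply, h2, h1, Fin.sum_univ_succ, Finset.sum_eq_zero]
  · rw [add_zero]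
    congr 2
    funext i
    refine Fin.cases rfl (fun i => rfl) i
  · intro b _
    rw [hF.dxs_eq_zero (Fin.cons b.succ Fin.succ) 0 b.succ (Fin.succ_ne_zero b).symm rfl, smul_zero]

theorem norm_taylor {n : ℕ} (f : Sm n) : ∃ C : ℝ, 0 < C ∧ ∀ (x e : Rn n) (h : ℝ), ‖e‖ = 1 →
    |f.1 (x + h • e) - f.1 x - h * fderiv ℝ f.1 x e| ≤ C * h ^ 2 := by
  have hcd : ContDiff ℝ ((⊤ : ℕ∞) : WithTop ℕ∞) (fderiv ℝ f.1) := f.2.1.fderiv_right (by simp)
  obtain ⟨C, hC⟩ := hcd.lipschitzWith_of_hasCompactSupport (f.2.2.fderiv ℝ) (by simp)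
  refine ⟨C + 1, by positivity, fun x e h he => ?_⟩
  have h1 := (convex_closedBall x |h|).norm_image_sub_le_of_norm_fderiv_le' (𝕜 := ℝ) (f := f.1)
    (φ := fderiv ℝ f.1 x) (C := C * |h|) (x := x) (y := x + h • e)
    (fun z _ => (f.2.1.differentiable (by simp)) z)
    (fun z hz => by
      have h2 := hC.dist_le_mul z x
      rw [dist_eq_norm] at h2
      refine h2.trans ?_
      gcongr
      exact hz)
    (Metric.mem_closedBall_self (abs_nonneg h))
    (by rw [Metric.mem_closedBall, dist_eq_norm, add_sub_cancel_left, norm_smul, he, mul_one,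
      Real.norm_eq_abs])
  rw [add_sub_cancel_left, map_smul, smul_eq_mul, norm_smul, he, mul_one, Real.norm_eq_abs,
    Real.norm_eq_abs] at h1
  refine h1.trans ?_
  have h3 : |h| * |h| = h ^ 2 := by rw [← pow_two, sq_abs]
  rw [mul_assoc, h3]
  nlinarith [sq_nonneg h]

theorem bound_nu {n : ℕ} (N : TestForm n n →ₗ[ℝ] ℝ) (hN : massOn N Set.univ ≠ ⊤)
    (w : Cov n n) (f : Sm n) (s : ℝ) (hs : 0 < s) (h : ∀ x, |f.1 x| ≤ s) :
    |N (lift w f)| ≤ s * ((‖w‖ + 1) * (massOn N Set.univ).toReal) := by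
  rw [← mul_assoc]
  refine abs_massOn_bound N Set.univ hN _ (Set.subset_univ _) _ (by positivity) fun x => ?_
  rw [lift_apply, norm_smul, Real.norm_eq_abs]
  have := h x
  have h1 := norm_nonneg w
  have h2 := abs_nonneg (f.1 x)
  nlinarith

theorem eb_norm {n : ℕ} (i : Fin n) : ‖(eb i : Rn n)‖ = 1 := by
  simp [eb]

theorem nu_tr (hF : Frm) {N : TestForm (m + 2) (m + 2) →ₗ[ℝ] ℝ} (hN : IsCycle N)
    (f : Sm (m + 2)) (t : ℝ) :
    N (lift (dxs (fun i : Fin (m + 2) => i)) (tr f (t • eb 0))) =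
      N (lift (dxs (fun i : Fin (m + 2) => i)) f) := by
  set w : Cov (m + 2) (m + 2) := dxs (fun i : Fin (m + 2) => i) with hw
  obtain ⟨C, hC0, hC⟩ := norm_taylor f
  let u : ℝ → ℝ := fun t => N (lift w (tr f (t • eb 0)))
  have key : ∀ t h : ℝ, h ≠ 0 → |u (t + h) - u t| ≤
      C * h ^ 2 * ((‖w‖ + 1) * (massOn N Set.univ).toReal) := by
    intro t h hh
    have e1 : N (lift w (dd (tr f (t • eb 0)) (eb 0))) = 0 := nu_deriv hF hN _
    have e2 : u (t + h) - u t = N (lift w (tr f ((t + h) • eb 0) - tr f (t • eb 0) -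
        h • dd (tr f (t • eb 0)) (eb 0))) := by
      rw [map_sub, map_sub, map_smul, map_sub, map_sub, map_smul, e1]
      simp [u]
    rw [e2]
    refine bound_nu N hN.mass.ne w _ _ (by positivity) fun x => ?_
    have e3 : fderiv ℝ (tr f (t • eb 0)).1 x = fderiv ℝ f.1 (x + t • eb 0) := by
      have : (tr f (t • eb 0)).1 = fun x => f.1 (x + t • eb 0) := rfl
      rw [this, fderiv_comp_add_right]
    have e4 : (tr f ((t + h) • eb 0) - tr f (t • eb 0) - h • dd (tr f (t • eb 0)) (eb 0)).1 x =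
        f.1 (x + (t + h) • eb 0) - f.1 (x + t • eb 0) -
          h * fderiv ℝ (tr f (t • eb 0)).1 x (eb 0) := rfl
    rw [e4, e3, add_smul, ← add_assoc]
    exact hC _ _ _ (eb_norm 0)
  have hd : ∀ t, HasDerivAt u 0 t := by
    intro t
    rw [hasDerivAt_iff_tendsto_slope_zero]
    set D := C * ((‖w‖ + 1) * (massOn N Set.univ).toReal) with hD
    have h1 : Tendsto (fun h : ℝ => D * |h|) (𝓝[≠] 0) (𝓝 0) := by
      have : Tendsto (fun h : ℝ => D * |h|) (𝓝 0) (𝓝 (D * |0|)) :=
        (continuous_const.mul continuous_abs).tendsto 0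
      rw [abs_zero, mul_zero] at this
      exact this.mono_left nhdsWithin_le_nhds
    refine squeeze_zero_norm' ?_ h1
    filter_upwards [self_mem_nhdsWithin] with h hh
    have hh' : h ≠ 0 := hh
    rw [smul_eq_mul, norm_mul, norm_inv, Real.norm_eq_abs, Real.norm_eq_abs,
      inv_mul_le_iff₀ (abs_pos.2 hh')]
    refine (key t h hh').trans (le_of_eq ?_)
    rw [hD, ← sq_abs h]
    ring
  have h5 := is_const_of_deriv_eq_zero (f := u) (fun t => (hd t).differentiableAt)
    (fun t => (hd t).deriv) t 0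
  have h6 : u 0 = N (lift w f) := by
    simp only [u]
    congr 2
    apply Subtype.ext
    funext x
    simp
  rw [← h6]
  exact h5

theorem nu_zero (hF : Frm) {N : TestForm (m + 2) (m + 2) →ₗ[ℝ] ℝ} (hN : IsCycle N)
    (f : Sm (m + 2)) :
    N (lift (dxs (fun i : Fin (m + 2) => i)) f) = 0 := by
  set w : Cov (m + 2) (m + 2) := dxs (fun i : Fin (m + 2) => i) with hw
  obtain ⟨R, hR0, hR⟩ : ∃ R : ℝ, 0 < R ∧ ∀ x, f.1 x ≠ 0 → ‖x‖ < R := by
    obtain ⟨R, hR0, hR⟩ := (f.2.2.isCompact.isBounded).subset_ball_lt 0 0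
    refine ⟨R, hR0, fun x hx => ?_⟩
    have := hR (subset_tsupport _ hx)
    simpa using this
  obtain ⟨B, hB⟩ := f.2.2.exists_bound_of_continuous f.2.1.continuous
  have hB' : ∀ x, |f.1 x| ≤ |B| + 1 := fun x => by
    have := hB x
    rw [Real.norm_eq_abs] at this
    linarith [le_abs_self B]
  have key : ∀ K : ℕ, (K : ℝ) * |N (lift w f)| ≤
      (|B| + 1) * ((‖w‖ + 1) * (massOn N Set.univ).toReal) := by
    intro K
    have e1 : (K : ℝ) * N (lift w f) =
        N (lift w (∑ i ∈ Finset.range K, tr f (((i : ℝ) * (2 * R)) • eb 0))) := by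
      rw [map_sum, map_sum, Finset.sum_congr rfl fun i _ => nu_tr hF hN f _, Finset.sum_const,
        Finset.card_range, nsmul_eq_mul]
    have e2 : (K : ℝ) * |N (lift w f)| = |(K : ℝ) * N (lift w f)| := by
      rw [abs_mul, Nat.abs_cast]
    rw [e2, e1]
    refine bound_nu N hN.mass.ne w _ _ (by positivity) fun x => ?_
    have e3 : (∑ i ∈ Finset.range K, tr f (((i : ℝ) * (2 * R)) • eb 0)).1 x =
        ∑ i ∈ Finset.range K, f.1 (x + ((i : ℝ) * (2 * R)) • eb 0) := by
      rw [AddSubmonoidClass.coe_finsetSum, Finset.sum_apply]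
      rfl
    rw [e3]
    by_cases hex : ∃ i0 ∈ Finset.range K, f.1 (x + ((i0 : ℝ) * (2 * R)) • eb 0) ≠ 0
    · obtain ⟨i0, hi0, hne⟩ := hex
      rw [Finset.sum_eq_single_of_mem i0 hi0]
      · exact hB' _
      · intro i _ hi
        by_contra hne'
        have a1 := hR _ hne
        have a2 := hR _ hne'
        have a3 : ‖(((i : ℝ) - i0) * (2 * R)) • (eb 0 : Rn (m + 2))‖ < 2 * R := by
          have : (((i : ℝ) - i0) * (2 * R)) • (eb 0 : Rn (m + 2)) =
              (x + ((i : ℝ) * (2 * R)) • eb 0) - (x + ((i0 : ℝ) * (2 * R)) • eb 0) := by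
            rw [sub_mul, sub_smul]
            abel
          rw [this]
          refine (norm_sub_le _ _).trans_lt ?_
          linarith
        rw [norm_smul, eb_norm, mul_one, Real.norm_eq_abs, abs_mul,
          abs_of_pos (show (0 : ℝ) < 2 * R by positivity)] at a3
        have a4 : (1 : ℝ) ≤ |(i : ℝ) - i0| := by
          have h5 : (i : ℤ) - (i0 : ℤ) ≠ 0 := by omega
          have h6 := Int.one_le_abs h5
          have h7 : ((1 : ℤ) : ℝ) ≤ ((|(i : ℤ) - (i0 : ℤ)| : ℤ) : ℝ) := Int.cast_le.2 h6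
          simpa using h7
        nlinarith
    · push Not at hex
      rw [Finset.sum_eq_zero hex, abs_zero]
      positivity
  by_contra hne
  have hpos : 0 < |N (lift w f)| := abs_pos.2 hne
  obtain ⟨K, hK⟩ := exists_nat_gt
    ((|B| + 1) * ((‖w‖ + 1) * (massOn N Set.univ).toReal) / |N (lift w f)|)
  rw [div_lt_iff₀ hpos] at hK
  linarith [key K]

theorem lower (hF : Frm) {N : TestForm (m + 2) (m + 2) →ₗ[ℝ] ℝ} (hN : IsCycle N)
    (μ : Measure (Rn (m + 2))) [IsLocallyFiniteMeasure μ] (v : Vec (m + 2) (m + 2))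
    (x : Rn (m + 2)) (r : ℝ) (hr : 0 < r) :
    ENNReal.ofReal (|v (dxs (fun i : Fin (m + 2) => i))| /
        (‖(dxs (fun i : Fin (m + 2) => i) : Cov (m + 2) (m + 2))‖ + 1)) *
      μ (Metric.ball x r) ≤ massOn (subVec N μ v) (Metric.ball x r) := by
  set w : Cov (m + 2) (m + 2) := dxs (fun i : Fin (m + 2) => i) with hw
  by_cases hT : massOn (subVec N μ v) (Metric.ball x r) = ⊤
  · rw [hT]
    exact le_top
  have step : ∀ s : ℝ, 0 < s → s < r → ENNReal.ofReal (|v w| / (‖w‖ + 1)) *
      μ (Metric.closedBall x s) ≤ massOn (subVec N μ v) (Metric.ball x r) := by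
    intro s hs hsr
    let b : ContDiffBump x := ⟨s, (s + r) / 2, hs, by linarith⟩
    let ζ : Sm (m + 2) := ⟨b, b.contDiff, b.hasCompactSupport⟩
    have hsupp : tsupport (lift w ζ : Rn (m + 2) → Cov (m + 2) (m + 2)) ⊆ Metric.ball x r := by
      refine (tsupport_smul_subset_left (b : Rn (m + 2) → ℝ) (fun _ => w)).trans ?_
      rw [b.tsupport_eq]
      intro y hy
      rw [Metric.mem_closedBall] at hy
      rw [Metric.mem_ball]
      change dist y x ≤ (s + r) / 2 at hy
      linarith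
    have h1 := abs_massOn_bound (subVec N μ v) (Metric.ball x r) hT (lift w ζ) hsupp (‖w‖ + 1)
      (by positivity) (fun y => by
        rw [lift_apply, norm_smul, Real.norm_eq_abs]
        have q1 : |(ζ.1 y)| ≤ 1 := by
          rw [abs_of_nonneg (b.nonneg' y)]
          exact b.le_one
        have q2 := norm_nonneg w
        have q3 := abs_nonneg (ζ.1 y)
        nlinarith)
    have h2 : subVec N μ v (lift w ζ) = - (v w * ∫ y, b y ∂μ) := by
      have e1 : subVec N μ v (lift w ζ) = N (lift w ζ) -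
          ∫ y, v ((lift w ζ : Rn (m + 2) → Cov (m + 2) (m + 2)) y) ∂μ := rfl
      rw [e1, nu_zero hF hN ζ, zero_sub, ← integral_const_mul]
      congr 1
      refine integral_congr_ae (Eventually.of_forall fun y => ?_)
      change v (b y • w) = v w * b y
      rw [map_smul, smul_eq_mul, mul_comm]
    rw [h2, abs_neg, abs_mul] at h1
    have h3 : (μ (Metric.closedBall x s)).toReal ≤ |∫ y, b y ∂μ| := by
      refine le_trans ?_ (le_abs_self _)
      rw [← Measure.real, ← integral_indicator_one measurableSet_closedBall]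
      refine integral_mono_of_nonneg (Eventually.of_forall fun y =>
        Set.indicator_nonneg (fun _ _ => zero_le_one) y)
        (b.continuous.integrable_of_hasCompactSupport b.hasCompactSupport)
        (Eventually.of_forall fun y => ?_)
      by_cases hy : y ∈ Metric.closedBall x s
      · rw [Set.indicator_of_mem hy, b.one_of_mem_closedBall hy]
        rfl
      · rw [Set.indicator_of_notMem hy]
        exact b.nonneg' y
    have hfin : μ (Metric.closedBall x s) ≠ ⊤ := (isCompact_closedBall x s).measure_lt_top.ne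
    rw [← ENNReal.ofReal_toReal hfin, ← ENNReal.ofReal_mul (by positivity),
      ENNReal.ofReal_le_iff_le_toReal hT, div_mul_eq_mul_div, div_le_iff₀ (by positivity)]
    calc |v w| * (μ (Metric.closedBall x s)).toReal ≤ |v w| * |∫ y, b y ∂μ| := by gcongr
      _ ≤ (‖w‖ + 1) * (massOn (subVec N μ v) (Metric.ball x r)).toReal := h1
      _ = _ := mul_comm _ _
  have hU : Metric.ball x r = ⋃ n : ℕ, Metric.closedBall x (r * (1 - 1 / ((n : ℝ) + 2))) := by
    ext y
    simp only [Metric.mem_ball, Set.mem_iUnion, Metric.mem_closedBall]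
    constructor
    · intro hy
      obtain ⟨n, hn⟩ := exists_nat_gt (r / (r - dist y x))
      refine ⟨n, ?_⟩
      have h1 : 0 < r - dist y x := by linarith
      rw [div_lt_iff₀ h1] at hn
      have h2 : (0 : ℝ) < (n : ℝ) + 2 := by positivity
      rw [mul_sub, mul_one, mul_one_div]
      have h3 : r / ((n : ℝ) + 2) ≤ r - dist y x := by
        rw [div_le_iff₀ h2]
        nlinarith
      linarith
    · rintro ⟨n, hn⟩
      refine hn.trans_lt ?_
      have h2 : (0 : ℝ) < 1 / ((n : ℝ) + 2) := by positivity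
      nlinarith
  have hmono : Monotone fun n : ℕ => Metric.closedBall x (r * (1 - 1 / ((n : ℝ) + 2))) := by
    intro a b hab
    apply Metric.closedBall_subset_closedBall
    have : (a : ℝ) ≤ b := Nat.cast_le.2 hab
    gcongr
  rw [hU, hmono.measure_iUnion, ENNReal.mul_iSup, ← hU]
  refine iSup_le fun n => step _ ?_ ?_
  · have h2 : 1 / ((n : ℝ) + 2) < 1 := by
      rw [div_lt_one (by positivity)]
      have : (0 : ℝ) ≤ n := Nat.cast_nonneg n
      linarith
    exact mul_pos hr (by linarith)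
  · have h2 : (0 : ℝ) < 1 / ((n : ℝ) + 2) := by positivity
    nlinarith

end

end BtAux

open BtAux in
/-- Module BUNTOP -/
theorem bunTop (hF : Frm) : StmtBunTop := by
  intro m μ _
  have hsup : ∀ᵐ x ∂μ, x ∈ μ.support := Measure.support_mem_ae
  filter_upwards [hsup] with x hx
  rintro v ⟨N, hN, ht⟩
  change v (dxs (fun i : Fin (m + 2) => i)) = 0
  by_contra hne
  set w : Cov (m + 2) (m + 2) := dxs (fun i : Fin (m + 2) => i) with hw
  have hc : 0 < |v w| / (‖w‖ + 1) := by positivity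
  have h1 : ∀ᶠ r in 𝓝[>] (0 : ℝ), ENNReal.ofReal (|v w| / (‖w‖ + 1)) ≤
      massOn (subVec N μ v) (Metric.ball x r) / μ (Metric.ball x r) := by
    filter_upwards [self_mem_nhdsWithin] with r hr
    have hr' : 0 < r := hr
    have p1 : 0 < μ (Metric.ball x r) :=
      (Metric.nhds_basis_ball.mem_measureSupport.1 hx) r hr'
    have p2 : μ (Metric.ball x r) ≠ ⊤ := measure_ball_lt_top.ne
    rw [ENNReal.le_div_iff_mul_le (Or.inl p1.ne') (Or.inl p2)]
    exact lower hF hN μ v x r hr'
  have h2 := ge_of_tendsto ht h1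
  rw [nonpos_iff_eq_zero, ENNReal.ofReal_eq_zero] at h2
  linarith

end Pool.Agent.T6.H55.LU
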