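import Pool.Agent.T6.H55.LU.Stm

/-!
# Module CORE of MP_507414_an, part A: forms (helper62)
-/

set_option autoImplicit false

open MeasureTheory Filter Topology
open scoped ENNReal NNReal

namespace Pool.Agent.T6.H55.LU

noncomputable section

namespace Core

/-- the form `f dx_i` -/
def mkForm {n k : ℕ} (f : Rn n → ℝ) (hf : ContDiff ℝ ((⊤ : ℕ∞) : WithTop ℕ∞) f)
    (hs : HasCompactSupport f) (i : Fin k → Fin n) : TestForm n k :=
  ⟨fun x => f x • dxs i, hf.smul contDiff_const, hs.smul_right⟩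

/-- the form `df ∧ dx_i` -/
def dForm {n k : ℕ} (f : Rn n → ℝ) (hf : ContDiff ℝ ((⊤ : ℕ∞) : WithTop ℕ∞) f)
    (hs : HasCompactSupport f) (i : Fin k → Fin n) : TestForm n (k + 1) :=
  ⟨fun x => ∑ b : Fin n, fderiv ℝ f x (eb b) • dxs (Fin.cons b i),
    ContDiff.sum fun b _ =>
      (((hf.fderiv_right (m := ((⊤ : ℕ∞) : WithTop ℕ∞)) le_rfl).clm_apply
        contDiff_const).smul contDiff_const),
    HasCompactSupport.intro hs fun x hx => by
      refine Finset.sum_eq_zero fun b _ => ?_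
      rw [fderiv_of_notMem_tsupport ℝ hx]
      simp⟩

lemma dForm_apply {n k : ℕ} (f : Rn n → ℝ) (hf : ContDiff ℝ ((⊤ : ℕ∞) : WithTop ℕ∞) f)
    (hs : HasCompactSupport f) (i : Fin k → Fin n) (x : Rn n) :
    (dForm f hf hs i : Rn n → Cov n (k + 1)) x =
      ∑ b : Fin n, fderiv ℝ f x (eb b) • dxs (Fin.cons b i) := rfl

lemma dForm_zero (hF : Frm) {n k : ℕ} {N : TestForm n (k + 1) →ₗ[ℝ] ℝ} (hN : IsCycle N)
    (f : Rn n → ℝ) (hf : ContDiff ℝ ((⊤ : ℕ∞) : WithTop ℕ∞) f)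
    (hs : HasCompactSupport f) (i : Fin k → Fin n) : N (dForm f hf hs i) = 0 :=
  hN.closed (mkForm f hf hs i) (dForm f hf hs i) fun x =>
    (hF.extDeriv_dxs f x ((hf.differentiable (by simp)) x) i).symm

lemma mass_bound {n k : ℕ} (T : TestForm n k →ₗ[ℝ] ℝ) (U : Set (Rn n)) (hfin : massOn T U < ⊤)
    (a : TestForm n k) (hs : tsupport (a : Rn n → Cov n k) ⊆ U) (B : ℝ) (hB : 0 < B)
    (hb : ∀ x, ‖(a : Rn n → Cov n k) x‖ ≤ B) : T a ≤ B * (massOn T U).toReal := by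
  have h1 : ENNReal.ofReal (T (B⁻¹ • a)) ≤ massOn T U := by
    unfold massOn
    refine le_trans ?_ (le_iSup₂ (f := fun (a : TestForm n k)
      (_ : tsupport (a : Rn n → Cov n k) ⊆ U) =>
      ⨆ (_ : ∀ x, ‖(a : Rn n → Cov n k) x‖ ≤ 1), ENNReal.ofReal (T a)) (B⁻¹ • a) ?_)
    · refine le_iSup (f := fun (_ : ∀ x, ‖((B⁻¹ • a : TestForm n k) : Rn n → Cov n k) x‖ ≤ 1) =>
        ENNReal.ofReal (T (B⁻¹ • a))) ?_
      intro x
      have : ((B⁻¹ • a : TestForm n k) : Rn n → Cov n k) x = B⁻¹ • (a : Rn n → Cov n k) x := rfl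
      rw [this, norm_smul, Real.norm_eq_abs, abs_of_pos (inv_pos.2 hB), inv_mul_le_iff₀ hB, mul_one]
      exact hb x
    · refine (closure_mono ?_).trans hs
      intro x hx
      rw [Function.mem_support] at hx ⊢
      intro h0
      apply hx
      show B⁻¹ • (a : Rn n → Cov n k) x = 0
      rw [h0, smul_zero]
  rw [map_smul, smul_eq_mul] at h1
  have h2 := (ENNReal.ofReal_le_iff_le_toReal hfin.ne).1 h1
  rwa [inv_mul_le_iff₀ hB] at h2

/-! ### indices -/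

/-- the indices `0, 1, m + 2` -/
def cix (m n : ℕ) (hmn : m + 2 < n) : Fin 3 → Fin n :=
  ![⟨0, by omega⟩, ⟨1, by omega⟩, ⟨m + 2, hmn⟩]

/-- the indices `2, ..., m + 1` -/
def rst (m n : ℕ) (hmn : m + 2 < n) : Fin m → Fin n := fun b => ⟨b + 2, by omega⟩

/-- the indices `cix a, 2, ..., m + 1` -/
def Ii (m n : ℕ) (hmn : m + 2 < n) (a : Fin 3) : Fin (m + 1) → Fin n :=
  Fin.cons (cix m n hmn a) (rst m n hmn)

/-- the indices `cix a', cix a, 2, ..., m + 1` -/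
def Jj (m n : ℕ) (hmn : m + 2 < n) (a' a : Fin 3) : Fin (m + 2) → Fin n :=
  Fin.cons (cix m n hmn a') (Ii m n hmn a)

lemma Jj_top (m n : ℕ) (hmn : m + 2 < n) : Jj m n hmn 0 1 = top m n hmn.le := by
  funext i
  refine Fin.cases ?_ (fun i => ?_) i
  · rfl
  · refine Fin.cases ?_ (fun i => ?_) i
    · rfl
    · rfl

lemma Jj_swap (m n : ℕ) (hmn : m + 2 < n) (a' a : Fin 3) :
    Jj m n hmn a' a ∘ Equiv.swap 0 1 = Jj m n hmn a a' := by
  funext i
  refine Fin.cases ?_ (fun i => ?_) i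
  · show Jj m n hmn a' a (Equiv.swap 0 1 0) = _
    rw [Equiv.swap_apply_left]; rfl
  · refine Fin.cases ?_ (fun i => ?_) i
    · show Jj m n hmn a' a (Equiv.swap 0 1 1) = _
      rw [Equiv.swap_apply_right]; rfl
    · show Jj m n hmn a' a (Equiv.swap 0 1 i.succ.succ) = _
      rw [Equiv.swap_apply_of_ne_of_ne]
      · rfl
      · exact Fin.succ_ne_zero _
      · intro h
        have := congrArg Fin.val h
        simp at this

lemma dxs_Jj_swap (hF : Frm) (m n : ℕ) (hmn : m + 2 < n) (a' a : Fin 3) :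
    dxs (Jj m n hmn a a') = - dxs (Jj m n hmn a' a) := by
  rw [← Jj_swap, hF.dxs_swap _ 0 1 (by simp)]

lemma dxs_Jj_self (hF : Frm) (m n : ℕ) (hmn : m + 2 < n) (a : Fin 3) :
    dxs (Jj m n hmn a a) = 0 :=
  hF.dxs_eq_zero _ 0 1 (by simp) rfl

/-- the coordinates `0, 1, m + 2` -/
def prj (m n : ℕ) (hmn : m + 2 < n) : Rn n →L[ℝ] ℝ × ℝ × ℝ :=
  (EuclideanSpace.proj (cix m n hmn 0) : Rn n →L[ℝ] ℝ).prod
    ((EuclideanSpace.proj (cix m n hmn 1) : Rn n →L[ℝ] ℝ).prod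
      (EuclideanSpace.proj (cix m n hmn 2) : Rn n →L[ℝ] ℝ))

lemma prj_apply (m n : ℕ) (hmn : m + 2 < n) (x : Rn n) :
    prj m n hmn x = (x (cix m n hmn 0), x (cix m n hmn 1), x (cix m n hmn 2)) := rfl

lemma prj_eb (m n : ℕ) (hmn : m + 2 < n) (b : Fin n) :
    prj m n hmn (eb b) = ∑ a : Fin 3, (if cix m n hmn a = b then (1 : ℝ) else 0) • e3 a := by
  rw [Fin.sum_univ_three, prj_apply]
  simp only [eb, PiLp.single_apply, e3]
  by_cases h0 : cix m n hmn 0 = b <;> by_cases h1 : cix m n hmn 1 = b <;>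
    by_cases h2 : cix m n hmn 2 = b <;> simp [h0, h1, h2]

lemma sum_fderiv_prj (m n : ℕ) (hmn : m + 2 < n) {M : Type*} [AddCommGroup M] [Module ℝ M]
    (A : ℝ × ℝ × ℝ → ℝ) (hA : ContDiff ℝ ((⊤ : ℕ∞) : WithTop ℕ∞) A) (x : Rn n) (w : Fin n → M) :
    ∑ b : Fin n, fderiv ℝ (fun x => A (prj m n hmn x)) x (eb b) • w b =
      ∑ a : Fin 3, pd a A (prj m n hmn x) • w (cix m n hmn a) := by
  have h1 : ∀ b, fderiv ℝ (fun x => A (prj m n hmn x)) x (eb b) =
      ∑ a : Fin 3, if cix m n hmn a = b then pd a A (prj m n hmn x) else 0 := by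
    intro b
    have h2 : HasFDerivAt (fun x => A (prj m n hmn x))
        ((fderiv ℝ A (prj m n hmn x)).comp (prj m n hmn)) x :=
      (((hA.differentiable (by simp)) _).hasFDerivAt).comp x (prj m n hmn).hasFDerivAt
    rw [h2.fderiv, ContinuousLinearMap.comp_apply, prj_eb, map_sum]
    refine Finset.sum_congr rfl fun a _ => ?_
    rw [map_smul]
    split_ifs <;> simp [pd]
  simp only [h1, Finset.sum_smul]
  rw [Finset.sum_comm]
  refine Finset.sum_congr rfl fun a _ => ?_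
  simp [ite_smul]

lemma curl_sum {M : Type*} [AddCommGroup M] [Module ℝ M]
    (A : Fin 3 → ℝ × ℝ × ℝ → ℝ) (q : ℝ × ℝ × ℝ) (w : Fin 3 → Fin 3 → M)
    (h0 : ∀ a, w a a = 0) (h1 : ∀ a b, w b a = - w a b) :
    ∑ a : Fin 3, ∑ a' : Fin 3, pd a' (A a) q • w a' a =
      crl A 0 1 q • w 0 1 + crl A 0 2 q • w 0 2 + crl A 1 2 q • w 1 2 := by
  simp only [Fin.sum_univ_three, h0, smul_zero]
  rw [h1 0 1, h1 0 2, h1 1 2]
  simp only [crl]
  module

end Core

end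

end Pool.Agent.T6.H55.LU
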