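import Pool.Agent.T6.H55.LU.CoreA

/-!
# Module CORE of MP_507414_an, part B: the test forms (helper62)
-/

set_option autoImplicit false

open MeasureTheory Filter Topology
open scoped ENNReal NNReal

namespace Pool.Agent.T6.H55.LU

noncomputable section

namespace Core

variable {m n : ℕ} (hmn : m + 2 < n)

/-- the coefficient `ζ A_a` -/
def ff (ζ : Rn n → ℝ) (A : Fin 3 → ℝ × ℝ × ℝ → ℝ) (a : Fin 3) : Rn n → ℝ :=
  fun x => ζ x * A a (prj m n hmn x)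

lemma ff_smooth {ζ : Rn n → ℝ} (hζ : ContDiff ℝ ((⊤ : ℕ∞) : WithTop ℕ∞) ζ)
    {A : Fin 3 → ℝ × ℝ × ℝ → ℝ} (hA : ∀ a, ContDiff ℝ ((⊤ : ℕ∞) : WithTop ℕ∞) (A a)) (a : Fin 3) :
    ContDiff ℝ ((⊤ : ℕ∞) : WithTop ℕ∞) (ff hmn ζ A a) :=
  hζ.mul ((hA a).comp (prj m n hmn).contDiff)

lemma ff_cs {ζ : Rn n → ℝ} (hc : HasCompactSupport ζ) (A : Fin 3 → ℝ × ℝ × ℝ → ℝ) (a : Fin 3) :
    HasCompactSupport (ff hmn ζ A a) := hc.mul_right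

lemma fderiv_ff {ζ : Rn n → ℝ} (hζ : ContDiff ℝ ((⊤ : ℕ∞) : WithTop ℕ∞) ζ)
    {A : Fin 3 → ℝ × ℝ × ℝ → ℝ} (hA : ∀ a, ContDiff ℝ ((⊤ : ℕ∞) : WithTop ℕ∞) (A a)) (a : Fin 3)
    (x u : Rn n) : fderiv ℝ (ff hmn ζ A a) x u = fderiv ℝ ζ x u * A a (prj m n hmn x) +
      ζ x * fderiv ℝ (fun x => A a (prj m n hmn x)) x u := by
  unfold ff
  have h1 : DifferentiableAt ℝ ζ x := (hζ.differentiable (by simp)) x
  have h2 : DifferentiableAt ℝ (fun x => A a (prj m n hmn x)) x :=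
    (((hA a).comp (prj m n hmn).contDiff).differentiable (by simp)) x
  rw [fderiv_fun_mul h1 h2]
  simp only [add_apply, smul_apply, smul_eq_mul]
  ring

/-- the form `d (ζ A)` -/
def Phi {ζ : Rn n → ℝ} (hζ : ContDiff ℝ ((⊤ : ℕ∞) : WithTop ℕ∞) ζ) (hc : HasCompactSupport ζ)
    {A : Fin 3 → ℝ × ℝ × ℝ → ℝ} (hA : ∀ a, ContDiff ℝ ((⊤ : ℕ∞) : WithTop ℕ∞) (A a)) :
    TestForm n (m + 1 + 1) :=
  ∑ a : Fin 3, dForm (ff hmn ζ A a) (ff_smooth hmn hζ hA a) (ff_cs hmn hc A a) (Ii m n hmn a)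

lemma Phi_apply (hF : Frm) {ζ : Rn n → ℝ} (hζ : ContDiff ℝ ((⊤ : ℕ∞) : WithTop ℕ∞) ζ)
    (hc : HasCompactSupport ζ)
    {A : Fin 3 → ℝ × ℝ × ℝ → ℝ} (hA : ∀ a, ContDiff ℝ ((⊤ : ℕ∞) : WithTop ℕ∞) (A a)) (x : Rn n) :
    (Phi hmn hζ hc hA : Rn n → Cov n (m + 1 + 1)) x =
      ζ x • (crl A 0 1 (prj m n hmn x) • dxs (Jj m n hmn 0 1) +
        crl A 0 2 (prj m n hmn x) • dxs (Jj m n hmn 0 2) +
        crl A 1 2 (prj m n hmn x) • dxs (Jj m n hmn 1 2)) +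
      ∑ a : Fin 3, ∑ b : Fin n, (fderiv ℝ ζ x (eb b) * A a (prj m n hmn x)) •
        dxs (Fin.cons b (Ii m n hmn a) : Fin (m + 1 + 1) → Fin n) := by
  have h1 : (Phi hmn hζ hc hA : Rn n → Cov n (m + 1 + 1)) x =
      ∑ a : Fin 3, (dForm (ff hmn ζ A a) (ff_smooth hmn hζ hA a) (ff_cs hmn hc A a)
        (Ii m n hmn a) : Rn n → Cov n (m + 1 + 1)) x := by
    unfold Phi
    rw [Submodule.coe_sum, Finset.sum_apply]
  rw [h1]
  simp only [dForm_apply, fderiv_ff hmn hζ hA, add_smul, Finset.sum_add_distrib]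
  refine (add_comm _ _).trans (congrArg₂ (· + ·) ?_ rfl)
  have h2 := curl_sum A (prj m n hmn x) (fun a' a => (dxs (Jj m n hmn a' a) : Cov n (m + 1 + 1)))
    (dxs_Jj_self hF m n hmn) (fun a b => dxs_Jj_swap hF m n hmn a b)
  rw [← h2, Finset.smul_sum]
  refine Finset.sum_congr rfl fun a _ => ?_
  have h3 := sum_fderiv_prj m n hmn (A a) (hA a) x
    (fun b => (dxs (Fin.cons b (Ii m n hmn a) : Fin (m + 1 + 1) → Fin n)))
  have h4 : ∀ a', (dxs (Jj m n hmn a' a) : Cov n (m + 1 + 1)) =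
      dxs (Fin.cons (cix m n hmn a') (Ii m n hmn a) : Fin (m + 1 + 1) → Fin n) := fun _ => rfl
  simp only [h4]
  rw [← h3, Finset.smul_sum]
  refine Finset.sum_congr rfl fun b _ => ?_
  rw [mul_smul]

lemma Phi_zero (hF : Frm) {N : TestForm n (m + 1 + 1) →ₗ[ℝ] ℝ} (hN : IsCycle N)
    {ζ : Rn n → ℝ} (hζ : ContDiff ℝ ((⊤ : ℕ∞) : WithTop ℕ∞) ζ) (hc : HasCompactSupport ζ)
    {A : Fin 3 → ℝ × ℝ × ℝ → ℝ} (hA : ∀ a, ContDiff ℝ ((⊤ : ℕ∞) : WithTop ℕ∞) (A a)) :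
    N (Phi hmn hζ hc hA) = 0 := by
  unfold Phi
  rw [map_sum]
  exact Finset.sum_eq_zero fun a _ => dForm_zero hF hN _ _ _ _

lemma Phi_supp (hF : Frm) {ζ : Rn n → ℝ} (hζ : ContDiff ℝ ((⊤ : ℕ∞) : WithTop ℕ∞) ζ)
    (hc : HasCompactSupport ζ)
    {A : Fin 3 → ℝ × ℝ × ℝ → ℝ} (hA : ∀ a, ContDiff ℝ ((⊤ : ℕ∞) : WithTop ℕ∞) (A a)) (x : Rn n)
    (hx : x ∉ tsupport ζ) : (Phi hmn hζ hc hA : Rn n → Cov n (m + 1 + 1)) x = 0 := by
  rw [Phi_apply hmn hF, fderiv_of_notMem_tsupport ℝ hx, image_eq_zero_of_notMem_tsupport hx]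
  simp

/-- the constant in the bound of the norm -/
def K2 (G : ℝ) : ℝ := ∑ a : Fin 3, ∑ b : Fin n, G *
  ‖(dxs (Fin.cons b (Ii m n hmn a) : Fin (m + 1 + 1) → Fin n) : Cov n (m + 1 + 1))‖

lemma K2_nonneg {G : ℝ} (hG : 0 ≤ G) : 0 ≤ K2 hmn G :=
  Finset.sum_nonneg fun _ _ => Finset.sum_nonneg fun _ _ => mul_nonneg hG (norm_nonneg _)

/-- the constant in the bound of the values -/
def K3 (G : ℝ) (v : Vec n (m + 1 + 1)) : ℝ := |v (dxs (Jj m n hmn 0 1))| +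
  |v (dxs (Jj m n hmn 0 2))| + |v (dxs (Jj m n hmn 1 2))| + ∑ a : Fin 3, ∑ b : Fin n, G *
  |v (dxs (Fin.cons b (Ii m n hmn a) : Fin (m + 1 + 1) → Fin n))|

lemma K3_nonneg {G : ℝ} (hG : 0 ≤ G) (v : Vec n (m + 1 + 1)) : 0 ≤ K3 hmn G v := by
  have : 0 ≤ ∑ a : Fin 3, ∑ b : Fin n, G *
      |v (dxs (Fin.cons b (Ii m n hmn a) : Fin (m + 1 + 1) → Fin n))| :=
    Finset.sum_nonneg fun _ _ => Finset.sum_nonneg fun _ _ => mul_nonneg hG (abs_nonneg _)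
  unfold K3
  positivity

lemma Phi_norm (hF : Frm) {ζ : Rn n → ℝ} (hζ : ContDiff ℝ ((⊤ : ℕ∞) : WithTop ℕ∞) ζ)
    (hc : HasCompactSupport ζ) (h01 : ∀ x, 0 ≤ ζ x ∧ ζ x ≤ 1)
    {A : Fin 3 → ℝ × ℝ × ℝ → ℝ} (hA : ∀ a, ContDiff ℝ ((⊤ : ℕ∞) : WithTop ℕ∞) (A a)) (x : Rn n)
    {G C : ℝ} (hG : ∀ b, |fderiv ℝ ζ x (eb b)| ≤ G) (hAC : ∀ a q, |A a q| ≤ C) :
    ‖(Phi hmn hζ hc hA : Rn n → Cov n (m + 1 + 1)) x‖ ≤
      (Nat.factorial (m + 1 + 1) : ℝ) * (|crl A 0 1 (prj m n hmn x)| +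
        |crl A 0 2 (prj m n hmn x)| + |crl A 1 2 (prj m n hmn x)|) + K2 hmn G * C := by
  rw [Phi_apply hmn hF]
  refine (norm_add_le _ _).trans (add_le_add ?_ ?_)
  · rw [norm_smul, Real.norm_eq_abs, abs_of_nonneg (h01 x).1]
    have h1 : ∀ (r : ℝ) (i : Fin (m + 1 + 1) → Fin n),
        ‖r • (dxs i : Cov n (m + 1 + 1))‖ ≤ (Nat.factorial (m + 1 + 1) : ℝ) * |r| := by
      intro r i
      rw [norm_smul, Real.norm_eq_abs, mul_comm]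
      exact mul_le_mul_of_nonneg_right (hF.norm_dxs_le i) (abs_nonneg _)
    calc ζ x * _ ≤ 1 * _ := mul_le_mul_of_nonneg_right (h01 x).2 (norm_nonneg _)
      _ ≤ _ := by
        rw [one_mul]
        refine (norm_add₃_le).trans ?_
        rw [mul_add, mul_add]
        exact add_le_add (add_le_add (h1 _ _) (h1 _ _)) (h1 _ _)
  · unfold K2
    rw [Finset.sum_mul]
    refine (norm_sum_le _ _).trans (Finset.sum_le_sum fun a _ => ?_)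
    rw [Finset.sum_mul]
    refine (norm_sum_le _ _).trans (Finset.sum_le_sum fun b _ => ?_)
    rw [norm_smul, norm_mul, Real.norm_eq_abs, Real.norm_eq_abs]
    have h2 : |fderiv ℝ ζ x (eb b)| * |A a (prj m n hmn x)| ≤ G * C :=
      mul_le_mul (hG b) (hAC _ _) (abs_nonneg _) ((abs_nonneg _).trans (hG b))
    calc _ ≤ G * C * _ := mul_le_mul_of_nonneg_right h2 (norm_nonneg _)
      _ = _ := by ring

lemma Phi_val (hF : Frm) {ζ : Rn n → ℝ} (hζ : ContDiff ℝ ((⊤ : ℕ∞) : WithTop ℕ∞) ζ)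
    (hc : HasCompactSupport ζ) (h01 : ∀ x, 0 ≤ ζ x ∧ ζ x ≤ 1)
    {A : Fin 3 → ℝ × ℝ × ℝ → ℝ} (hA : ∀ a, ContDiff ℝ ((⊤ : ℕ∞) : WithTop ℕ∞) (A a)) (x : Rn n)
    {G C W : ℝ} (hG : ∀ b, |fderiv ℝ ζ x (eb b)| ≤ G) (hC : 0 ≤ C) (hAC : ∀ a q, |A a q| ≤ C)
    (v : Vec n (m + 1 + 1)) (σ : ℝ) (hσ : |σ| ≤ 1)
    (hv : σ * v (dxs (Jj m n hmn 0 1)) = |v (dxs (Jj m n hmn 0 1))|)
    (h1 : crl A 0 1 (prj m n hmn x) ≤ -W + C)
    (h2 : |crl A 0 2 (prj m n hmn x)| ≤ C) (h3 : |crl A 1 2 (prj m n hmn x)| ≤ C) :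
    |v (dxs (Jj m n hmn 0 1))| * (ζ x * W) - C * K3 hmn G v ≤
      -(σ * v ((Phi hmn hζ hc hA : Rn n → Cov n (m + 1 + 1)) x)) := by
  rw [Phi_apply hmn hF]
  simp only [map_add, map_smul, map_sum, smul_eq_mul]
  obtain ⟨vt, hvt⟩ : ∃ r, r = v (dxs (Jj m n hmn 0 1)) := ⟨_, rfl⟩
  obtain ⟨v2, hv2⟩ : ∃ r, r = v (dxs (Jj m n hmn 0 2)) := ⟨_, rfl⟩
  obtain ⟨v3, hv3⟩ : ∃ r, r = v (dxs (Jj m n hmn 1 2)) := ⟨_, rfl⟩
  obtain ⟨a1, ha1⟩ : ∃ r, r = crl A 0 1 (prj m n hmn x) := ⟨_, rfl⟩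
  obtain ⟨a2, ha2⟩ : ∃ r, r = crl A 0 2 (prj m n hmn x) := ⟨_, rfl⟩
  obtain ⟨a3, ha3⟩ : ∃ r, r = crl A 1 2 (prj m n hmn x) := ⟨_, rfl⟩
  unfold K3
  rw [← hvt, ← hv2, ← hv3, ← ha1, ← ha2, ← ha3]
  rw [← hvt] at hv
  rw [← ha1] at h1
  rw [← ha2] at h2
  rw [← ha3] at h3
  obtain ⟨z, hz⟩ : ∃ r, r = ζ x := ⟨_, rfl⟩
  have z0 := (h01 x).1
  have z1 := (h01 x).2
  rw [← hz] at z0 z1 ⊢
  -- the last sum
  have l1 : |σ * ∑ a : Fin 3, ∑ b : Fin n, fderiv ℝ ζ x (eb b) * A a (prj m n hmn x) *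
      v (dxs (Fin.cons b (Ii m n hmn a) : Fin (m + 1 + 1) → Fin n))| ≤
      C * ∑ a : Fin 3, ∑ b : Fin n, G *
        |v (dxs (Fin.cons b (Ii m n hmn a) : Fin (m + 1 + 1) → Fin n))| := by
    rw [abs_mul]
    calc |σ| * _ ≤ 1 * _ := mul_le_mul_of_nonneg_right hσ (abs_nonneg _)
      _ ≤ _ := by
        rw [one_mul, Finset.mul_sum]
        refine (Finset.abs_sum_le_sum_abs _ _).trans (Finset.sum_le_sum fun a _ => ?_)
        rw [Finset.mul_sum]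
        refine (Finset.abs_sum_le_sum_abs _ _).trans (Finset.sum_le_sum fun b _ => ?_)
        rw [abs_mul, abs_mul]
        have h2 : |fderiv ℝ ζ x (eb b)| * |A a (prj m n hmn x)| ≤ G * C :=
          mul_le_mul (hG b) (hAC _ _) (abs_nonneg _) ((abs_nonneg _).trans (hG b))
        calc _ ≤ G * C * _ := mul_le_mul_of_nonneg_right h2 (abs_nonneg _)
          _ = _ := by ring
  obtain ⟨l, hl⟩ : ∃ r, r = ∑ a : Fin 3, ∑ b : Fin n, fderiv ℝ ζ x (eb b) *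
      A a (prj m n hmn x) *
      v (dxs (Fin.cons b (Ii m n hmn a) : Fin (m + 1 + 1) → Fin n)) := ⟨_, rfl⟩
  obtain ⟨l', hl'⟩ : ∃ r, r = ∑ a : Fin 3, ∑ b : Fin n, G *
        |v (dxs (Fin.cons b (Ii m n hmn a) : Fin (m + 1 + 1) → Fin n))| := ⟨_, rfl⟩
  rw [← hl, ← hl'] at l1
  rw [← hl, ← hl']
  -- the three main terms
  have t1 : |vt| * (z * W) - |vt| * C ≤ -(σ * (z * (a1 * vt))) := by
    have e : -(σ * (z * (a1 * vt))) = |vt| * (z * (-a1)) := by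
      rw [← hv]; ring
    rw [e, ← mul_sub]
    refine mul_le_mul_of_nonneg_left ?_ (abs_nonneg _)
    have : z * (W - C) ≤ z * (-a1) := mul_le_mul_of_nonneg_left (by linarith) z0
    nlinarith
  have t2 : -(|v2| * C) ≤ -(σ * (z * (a2 * v2))) := by
    have : σ * (z * (a2 * v2)) ≤ |v2| * C := by
      calc σ * (z * (a2 * v2)) ≤ |σ * (z * (a2 * v2))| := le_abs_self _
        _ = |σ| * z * (|a2| * |v2|) := by
          rw [abs_mul, abs_mul, abs_mul, abs_of_nonneg z0]; ring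
        _ ≤ 1 * (C * |v2|) := by
          refine mul_le_mul ?_ (mul_le_mul_of_nonneg_right h2 (abs_nonneg _)) (by positivity)
            zero_le_one
          calc |σ| * z ≤ 1 * 1 := mul_le_mul hσ z1 z0 zero_le_one
            _ = 1 := one_mul 1
        _ = |v2| * C := by ring
    linarith
  have t3 : -(|v3| * C) ≤ -(σ * (z * (a3 * v3))) := by
    have : σ * (z * (a3 * v3)) ≤ |v3| * C := by
      calc σ * (z * (a3 * v3)) ≤ |σ * (z * (a3 * v3))| := le_abs_self _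
        _ = |σ| * z * (|a3| * |v3|) := by
          rw [abs_mul, abs_mul, abs_mul, abs_of_nonneg z0]; ring
        _ ≤ 1 * (C * |v3|) := by
          refine mul_le_mul ?_ (mul_le_mul_of_nonneg_right h3 (abs_nonneg _)) (by positivity)
            zero_le_one
          calc |σ| * z ≤ 1 * 1 := mul_le_mul hσ z1 z0 zero_le_one
            _ = 1 := one_mul 1
        _ = |v3| * C := by ring
    linarith
  have t4 : -(C * l') ≤ -(σ * l) := by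
    have := le_abs_self (σ * l)
    linarith
  linarith

end Core

end

end Pool.Agent.T6.H55.LU
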