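import Mathlib

/-!
# Lusin type approximation of forms by exterior derivatives (MP_507414_an): definitions

Part 1: currents and the decomposability bundle.
Part 2: the elementary functions and the random surface used for the counterexample.
-/

set_option autoImplicit false

open MeasureTheory Filter Topology
open scoped ENNReal NNReal

namespace Pool.Agent.T6.H55.LU

noncomputable section

/-! ### Part 1: forms and currents -/

/-- the space `ℝⁿ` -/
abbrev Rn (n : ℕ) : Type := EuclideanSpace ℝ (Fin n)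

/-- `k`-covectors; the norm of Mathlib is the comass -/
abbrev Cov (n k : ℕ) : Type := (Rn n) [⋀^Fin k]→L[ℝ] ℝ

/-- `k`-vectors, as linear functionals on the `k`-covectors -/
abbrev Vec (n k : ℕ) : Type := Cov n k →L[ℝ] ℝ

/-- smooth `k`-forms with compact support -/
def TestForm (n k : ℕ) : Submodule ℝ (Rn n → Cov n k) where
  carrier := {a | ContDiff ℝ ((⊤ : ℕ∞) : WithTop ℕ∞) a ∧ HasCompactSupport a}
  add_mem' := fun h h' => ⟨h.1.add h'.1, h.2.add h'.2⟩
  zero_mem' := ⟨contDiff_const, HasCompactSupport.zero⟩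
  smul_mem' := fun c _ h => ⟨contDiff_const.smul h.1, h.2.comp_left (smul_zero c)⟩

/-- the mass of the functional `T` in the open set `U`: the supremum of `T a` over the smooth forms
`a` with compact support in `U` and comass at most one -/
def massOn {n k : ℕ} (T : TestForm n k →ₗ[ℝ] ℝ) (U : Set (Rn n)) : ℝ≥0∞ :=
  ⨆ (a : TestForm n k) (_ : tsupport (a : Rn n → Cov n k) ⊆ U)
    (_ : ∀ x, ‖(a : Rn n → Cov n k) x‖ ≤ 1), ENNReal.ofReal (T a)

/-- `N` is a normal `k`-current with boundary zero: the mass is finite (this implies the continuity)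
and `N (dη) = 0` for all smooth `(k-1)`-forms `η` with compact support -/
structure IsCycle {n k : ℕ} (N : TestForm n (k + 1) →ₗ[ℝ] ℝ) : Prop where
  mass : massOn N Set.univ < ⊤
  closed : ∀ η : TestForm n k, ∀ a : TestForm n (k + 1),
    (∀ x, (a : Rn n → Cov n (k + 1)) x = extDeriv (η : Rn n → Cov n k) x) → N a = 0

theorem integrable_vec {n k : ℕ} (μ : Measure (Rn n)) [IsLocallyFiniteMeasure μ]
    (v : Vec n k) (a : TestForm n k) : Integrable (fun x => v ((a : Rn n → Cov n k) x)) μ :=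
  (v.continuous.comp a.2.1.continuous).integrable_of_hasCompactSupport
    (a.2.2.comp_left (map_zero v))

/-- the functional `a ↦ N a - ∫ ⟨a, v⟩ dμ` (for `μ` finite on compact sets) -/
def subVec {n k : ℕ} (N : TestForm n k →ₗ[ℝ] ℝ) (μ : Measure (Rn n)) [IsLocallyFiniteMeasure μ]
    (v : Vec n k) : TestForm n k →ₗ[ℝ] ℝ where
  toFun a := N a - ∫ x, v ((a : Rn n → Cov n k) x) ∂μ
  map_add' a b := by
    have h2 : (∫ x, v (((a + b : TestForm n k) : Rn n → Cov n k) x) ∂μ) =
        (∫ x, v ((a : Rn n → Cov n k) x) ∂μ) + ∫ x, v ((b : Rn n → Cov n k) x) ∂μ := by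
      rw [← integral_add (integrable_vec μ v a) (integrable_vec μ v b)]
      refine integral_congr_ae (Eventually.of_forall fun x => ?_)
      simp
    rw [h2, map_add]
    ring
  map_smul' r a := by
    have h2 : (∫ x, v (((r • a : TestForm n k) : Rn n → Cov n k) x) ∂μ) =
        r * ∫ x, v ((a : Rn n → Cov n k) x) ∂μ := by
      rw [← integral_const_mul]
      refine integral_congr_ae (Eventually.of_forall fun x => ?_)
      simp
    rw [h2, map_smul]
    simp only [smul_eq_mul, RingHom.id_apply]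
    ring

/-- `v` belongs to the `(k+1)`-dimensional decomposability bundle of `μ` at `x` -/
def InBundle {n k : ℕ} (μ : Measure (Rn n)) [IsLocallyFiniteMeasure μ] (x : Rn n)
    (v : Vec n (k + 1)) : Prop :=
  ∃ N : TestForm n (k + 1) →ₗ[ℝ] ℝ, IsCycle N ∧
    Tendsto (fun r : ℝ => massOn (subVec N μ v) (Metric.ball x r) / μ (Metric.ball x r))
      (𝓝[>] 0) (𝓝 0)

/-- the linear map `v ↦ (v (i 0), ..., v (i (k-1)))` -/
def pick {n k : ℕ} (i : Fin k → Fin n) : Rn n →ₗ[ℝ] (Fin k → ℝ) where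
  toFun v := fun a => v (i a)
  map_add' _ _ := rfl
  map_smul' _ _ := rfl

/-- the covector `dx_{i 0} ∧ ... ∧ dx_{i (k-1)}`, `v ↦ det (v b (i a))` -/
def dxs {n k : ℕ} (i : Fin k → Fin n) : Cov n k :=
  { toMultilinearMap :=
      ((Matrix.detRowAlternating (R := ℝ) (n := Fin k)).compLinearMap (pick i)).toMultilinearMap
    cont := by
      change Continuous fun v : Fin k → Rn n => Matrix.det (Matrix.of fun b a => v b (i a))
      refine Continuous.matrix_det ?_
      refine continuous_matrix fun b a => ?_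
      change Continuous fun v : Fin k → Rn n => v b (i a)
      fun_prop
    map_eq_zero_of_eq' :=
      ((Matrix.detRowAlternating (R := ℝ) (n := Fin k)).compLinearMap (pick i)).map_eq_zero_of_eq' }

theorem dxs_apply {n k : ℕ} (i : Fin k → Fin n) (v : Fin k → Rn n) :
    dxs i v = Matrix.det (Matrix.of fun b a => v b (i a)) := rfl

/-! ### Part 2: elementary functions -/

/-- `sin (π t)` -/
def S (t : ℝ) : ℝ := Real.sin (Real.pi * t)

/-- `cos (π t)` -/
def c (t : ℝ) : ℝ := Real.cos (Real.pi * t)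

/-- `|S x + i S y|²` -/
def rho (x y : ℝ) : ℝ := S x ^ 2 + S y ^ 2

/-- the angle of `S x + i S y` in turns; branch used along the lines `y = const` -/
def Th (x y : ℝ) : ℝ :=
  1 / 4 + (if S y < 0 then 1 / 2 else 0) - Real.arctan (S x / S y) / (2 * Real.pi)

/-- the branch of the angle used along the lines `x = const` -/
def Th' (x y : ℝ) : ℝ :=
  (if S x < 0 then 1 / 2 else 0) + Real.arctan (S y / S x) / (2 * Real.pi)

/-- derivative of the angle with respect to `x` -/
def T1 (x y : ℝ) : ℝ := -(1 / 2) * c x * S y / rho x y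

/-- derivative of the angle with respect to `y` -/
def T2 (x y : ℝ) : ℝ := 1 / 2 * c y * S x / rho x y

/-- cutoff: `0` if `S t ^ 2 ≤ 1/4`, `1` if `S t ^ 2 ≥ 1/2` -/
def lam (t : ℝ) : ℝ := Real.smoothTransition (4 * S t ^ 2 - 1)

/-- bump: `0` outside `(1/4, 15/4)`, `1` on `[1/2, 7/2]` -/
def kk (t : ℝ) : ℝ := Real.smoothTransition (4 * t - 1) * Real.smoothTransition (15 - 4 * t)

/-- bump: `0` outside `(1/4, 3/4)`, `1` on `[3/8, 5/8]` -/
def ga (r : ℝ) : ℝ := Real.smoothTransition (8 * r - 2) * Real.smoothTransition (6 - 8 * r)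

/-- the density of the mean crossings -/
def Ga2 (x y : ℝ) : ℝ := ga (rho x y) * |c x * c y|

/-! ### Parameters -/

/-- the parameters of the construction: frequencies, numbers of levels (minus four), slopes -/
structure Par where
  /-- frequency -/
  N : ℕ → ℕ
  /-- number of levels -/
  m : ℕ → ℕ
  /-- slopes -/
  s : ℕ → ℝ

namespace Par

variable (p : Par)

/-- half the number of levels -/
def M (j : ℕ) : ℕ := p.m j + 4

/-- distance of two levels -/
def h (j : ℕ) : ℝ := p.s j / p.N j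

/-- the digits at scale `j`: a sign and a level -/
abbrev Dg (j : ℕ) : Type := Bool × Fin (2 * (p.m j + 4))

/-- strings of digits of length `n` -/
abbrev Str (n : ℕ) : Type := (i : Fin n) → p.Dg i

/-- infinite strings of digits -/
abbrev Om : Type := (i : ℕ) → p.Dg i

instance (j : ℕ) : Nonempty (p.Dg j) := ⟨(true, ⟨0, by omega⟩)⟩

/-- the first `n` digits -/
def res (n : ℕ) (o : p.Om) : p.Str n := fun i => o i

end Par

/-- the sign of a Boolean -/
def sg (b : Bool) : ℝ := if b then 1 else -1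

namespace Par

variable (p : Par)

/-- the height at scale `j` for the digit `d` and the angle `t` -/
def val (j : ℕ) (d : p.Dg j) (t : ℝ) : ℝ := sg d.1 * p.h j * (p.M j + ((d.2 : ℕ) : ℝ) + t)

/-- the surface with the digits `d` -/
def Zs {n : ℕ} (d : p.Str n) (x y : ℝ) : ℝ := ∑ i : Fin n, p.val i (d i) (Th (p.N i * x) (p.N i * y))

/-- the surface with the digits `d`, second branch -/
def Zs' {n : ℕ} (d : p.Str n) (x y : ℝ) : ℝ :=
  ∑ i : Fin n, p.val i (d i) (Th' (p.N i * x) (p.N i * y))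

/-- its `x`-derivative -/
def Zx {n : ℕ} (d : p.Str n) (x y : ℝ) : ℝ :=
  ∑ i : Fin n, sg (d i).1 * p.s i * T1 (p.N i * x) (p.N i * y)

/-- its `y`-derivative -/
def Zy {n : ℕ} (d : p.Str n) (x y : ℝ) : ℝ :=
  ∑ i : Fin n, sg (d i).1 * p.s i * T2 (p.N i * x) (p.N i * y)

/-- the limit surface -/
def Z (o : p.Om) (x y : ℝ) : ℝ := ∑' i : ℕ, p.val i (o i) (Th (p.N i * x) (p.N i * y))

/-- the weight at stage `j`; it depends on the digits `0, ..., j` -/
def wt (j : ℕ) (d : p.Str (j + 1)) (x y : ℝ) : ℝ :=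
  lam (p.N j * y) / (1 + p.Zx d x y ^ 2 + p.Zy d x y ^ 2)

/-- the main term at stage `j` -/
def Fm (j : ℕ) (o : p.Om) (x y : ℝ) : ℝ :=
  (if (o (j + 1)).1 then 1 else 0) * lam (p.N j * y) * Ga2 (p.N (j + 1) * x) (p.N (j + 1) * y)

end Par

/-- Lebesgue measure on the unit square -/
def sq : Measure (ℝ × ℝ) := (volume.restrict (Set.Icc 0 1)).prod (volume.restrict (Set.Icc 0 1))

/-- partial derivatives of functions of two variables -/
def D1 (f : ℝ → ℝ → ℝ) (x y : ℝ) : ℝ := deriv (fun t => f t y) x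

/-- partial derivatives of functions of two variables -/
def D2 (f : ℝ → ℝ → ℝ) (x y : ℝ) : ℝ := deriv (fun t => f x t) y

/-- Conditions on the parameters. -/
structure Par.Good (p : Par) : Prop where
  Npos : ∀ j, 0 < p.N j
  dvd : ∀ j, 4 * p.N j ∣ p.N (j + 1)
  spos : ∀ j, 0 < p.s j
  sle : ∀ j, p.s j ≤ 1
  div : Tendsto (fun n => ∑ j ∈ Finset.range n, p.s j) atTop atTop
  h0 : 2 ^ 10 * p.M 0 * p.h 0 ≤ 1
  sep : ∀ j, 2 ^ (j + 10) * p.M (j + 1) * p.h (j + 1) ≤ p.h j
  slow : ∀ j (d : p.Str (j + 1)) (x y : ℝ),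
    (|D1 (p.wt j d) x y| + |D2 (p.wt j d) x y|) * (1 + |p.Zx d x y| + |p.Zy d x y|) ≤
      p.N (j + 1) / 2 ^ j
  osc : ∀ j, ∀ i < j, ∫ q, |Th (p.N i * q.1) (p.N i * q.2) -
    Th (p.N i * (((⌊(p.N j : ℝ) * q.1⌋ : ℤ) : ℝ) / (p.N j : ℝ)))
      (p.N i * (((⌊(p.N j : ℝ) * q.2⌋ : ℤ) : ℝ) / (p.N j : ℝ)))| ∂sq ≤ 1 / 2 ^ j

/-- the uniform probability on a finite type -/
def uni (α : Type) [Fintype α] [MeasurableSpace α] : Measure α :=
  ((Fintype.card α : ℝ≥0∞)⁻¹) • Measure.count

instance isProb_uni (α : Type) [Fintype α] [Nonempty α] [MeasurableSpace α] :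
    IsProbabilityMeasure (uni α) := by
  constructor
  have h : Measure.count (Set.univ : Set α) = (Fintype.card α : ℝ≥0∞) := by
    rw [Measure.count_univ]
    simp
  rw [uni, Measure.smul_apply, h, smul_eq_mul]
  exact ENNReal.inv_mul_cancel (by simp) (by simp)

namespace Par

variable (p : Par)

/-- the uniform probability on the infinite strings of digits -/
def Q : Measure p.Om := Measure.infinitePi fun j => uni (p.Dg j)

/-- the average over the strings of length `n` -/
def av (n : ℕ) (F : p.Str n → ℝ) : ℝ := (Fintype.card (p.Str n) : ℝ)⁻¹ * ∑ d, F d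

/-- the base space `(x, y), w` and the digits -/
abbrev Bs (m : ℕ) : Type := ((ℝ × ℝ) × (Fin m → ℝ)) × p.Om

/-- the measure on the base space: `(x, y)` in the unit square, `w` in the cube of side `L` -/
def P (m : ℕ) (L : ℝ) : Measure (p.Bs m) :=
  (sq.prod (volume.restrict (Set.pi Set.univ fun _ : Fin m => Set.Icc (0 : ℝ) L))).prod p.Q

/-- the point with the coordinates `x, y, w, z, 0, ..., 0` (without `z` if `n = m + 2`) -/
def pnt (m n : ℕ) (x y : ℝ) (w : Fin m → ℝ) (z : ℝ) : Rn n :=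
  WithLp.toLp 2 fun i : Fin n =>
    if (i : ℕ) = 0 then x else if (i : ℕ) = 1 then y else
      if h : (i : ℕ) - 2 < m then w ⟨(i : ℕ) - 2, h⟩ else if (i : ℕ) = m + 2 then z else 0

/-- the point of `ℝⁿ` attached to a point of the base space -/
def X (m n : ℕ) (q : p.Bs m) : Rn n :=
  pnt m n q.1.1.1 q.1.1.2 q.1.2 (p.Z q.2 q.1.1.1 q.1.1.2)

/-- the measure on `ℝⁿ` -/
def mu (m n : ℕ) (L : ℝ) : Measure (Rn n) := (p.P m L).map (p.X m n)

/-- the points of the base space at which some partial surface has a slope larger than `T` -/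
def Bad (m : ℕ) (T : ℝ) : Set (p.Bs m) :=
  {q | ∃ j, T < |p.Zx (p.res (j + 1) q.2) q.1.1.1 q.1.1.2| ∨
    T < |p.Zy (p.res (j + 1) q.2) q.1.1.1 q.1.1.2|}

/-- the image of the bad part -/
def muBad (m n : ℕ) (L T : ℝ) : Measure (Rn n) := ((p.P m L).restrict (p.Bad m T)).map (p.X m n)

end Par

/-- smooth functions on the plane vanishing near the complement of the open unit square -/
def Tf (f : ℝ → ℝ → ℝ) : Prop :=
  ContDiff ℝ ((⊤ : ℕ∞) : WithTop ℕ∞) (fun q : ℝ × ℝ => f q.1 q.2) ∧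
    ∃ e : ℝ, 0 < e ∧ ∀ x y, (x ≤ e ∨ 1 - e ≤ x ∨ y ≤ e ∨ 1 - e ≤ y) → f x y = 0

/-- the `L¹` norm on the unit square -/
def N1 (f : ℝ → ℝ → ℝ) : ℝ := ∫ q, |f q.1 q.2| ∂sq

/-- the basis vectors of `ℝ × ℝ × ℝ` -/
def e3 : Fin 3 → ℝ × ℝ × ℝ := ![(1, 0, 0), (0, 1, 0), (0, 0, 1)]

/-- partial derivatives of functions of three variables -/
def pd (a : Fin 3) (g : ℝ × ℝ × ℝ → ℝ) (q : ℝ × ℝ × ℝ) : ℝ := fderiv ℝ g q (e3 a)

/-- the components of the curl -/
def crl (A : Fin 3 → ℝ × ℝ × ℝ → ℝ) (a b : Fin 3) (q : ℝ × ℝ × ℝ) : ℝ :=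
  pd a (A b) q - pd b (A a) q

/-- the basis vector of `ℝⁿ` with index `i` -/
def eb {n : ℕ} (i : Fin n) : Rn n := EuclideanSpace.single i 1

/-- the indices `0, 1, ..., m + 1` -/
def top (m n : ℕ) (h : m + 2 ≤ n) : Fin (m + 2) → Fin n := fun i => ⟨i, by omega⟩

end

end Pool.Agent.T6.H55.LU
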