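import Pool.Agent.T6.H55.LU.Defs

/-!
# Lusin type approximation of forms (MP_507414_an): statements of the modules
-/

set_option autoImplicit false

open MeasureTheory Filter Topology
open scoped ENNReal NNReal

namespace Pool.Agent.T6.H55.LU

/-- Module ANG: the angle functions -/
structure Ang : Prop where
  Th_x : ∀ {x y : ℝ}, S y ≠ 0 → HasDerivAt (fun t => Th t y) (T1 x y) x
  Th_y : ∀ {x y : ℝ}, S y ≠ 0 → HasDerivAt (fun t => Th x t) (T2 x y) y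
  Th'_y : ∀ {x y : ℝ}, S x ≠ 0 → HasDerivAt (fun t => Th' x t) (T2 x y) y
  Th'_x : ∀ {x y : ℝ}, S x ≠ 0 → S y ≠ 0 → HasDerivAt (fun t => Th' t y) (T1 x y) x
  /-- smoothness of `Th` off the lines `S y = 0` -/
  smooth : ∀ {q : ℝ × ℝ}, S q.2 ≠ 0 →
    ContDiffAt ℝ ((⊤ : ℕ∞) : WithTop ℕ∞) (fun q : ℝ × ℝ => Th q.1 q.2) q
  cos_Th : ∀ {x y : ℝ}, S y ≠ 0 → Real.sqrt (rho x y) * Real.cos (2 * Real.pi * Th x y) = S x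
  sin_Th : ∀ {x y : ℝ}, S y ≠ 0 → Real.sqrt (rho x y) * Real.sin (2 * Real.pi * Th x y) = S y
  mem : ∀ x y : ℝ, 0 ≤ Th x y ∧ Th x y ≤ 1
  mem' : ∀ x y : ℝ, -1 / 4 ≤ Th' x y ∧ Th' x y ≤ 3 / 4
  eq : ∀ {x y : ℝ}, S x ≠ 0 → S y ≠ 0 → Th' x y = Th x y ∨ Th' x y = Th x y - 1
  meas : Measurable (fun q : ℝ × ℝ => Th q.1 q.2)
  meas' : Measurable (fun q : ℝ × ℝ => Th' q.1 q.2)
  T1_le : ∀ {x y : ℝ}, S x ≠ 0 → S y ≠ 0 →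
    |T1 x y| ^ (3 / 2 : ℝ) ≤ |S x| ^ (-(3 / 4) : ℝ) * |S y| ^ (-(3 / 4) : ℝ)
  T2_le : ∀ {x y : ℝ}, S x ≠ 0 → S y ≠ 0 →
    |T2 x y| ^ (3 / 2 : ℝ) ≤ |S x| ^ (-(3 / 4) : ℝ) * |S y| ^ (-(3 / 4) : ℝ)
  /-- for a natural number `N ≥ 1` the mean of `|S (N x)| ^ (-3/4)` does not depend on `N` -/
  intg : ∃ κ : ℝ, 0 < κ ∧ ∀ N : ℕ, 0 < N →
    IntegrableOn (fun x : ℝ => |S (N * x)| ^ (-(3 / 4) : ℝ)) (Set.Icc 0 1) ∧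
    ∫ x in Set.Icc (0 : ℝ) 1, |S (N * x)| ^ (-(3 / 4) : ℝ) = κ
  /-- for a natural number `N ≥ 1` almost no point of the line is a zero of `S (N x)` -/
  ae_ne : ∀ N : ℕ, 0 < N → ∀ᵐ x : ℝ, S (N * x) ≠ 0

/-- Module ORN: an Ornstein type non-inequality -/
def StmtOrn : Prop := ∀ C : ℝ, ∃ h : ℝ → ℝ → ℝ, Tf h ∧
    C * (N1 (fun x y => D1 (D1 h) x y + D2 (D2 h) x y) + N1 (D1 (D2 h))) <
      N1 (fun x y => D1 (D1 h) x y - D2 (D2 h) x y)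

/-- Module PAR: existence of parameters -/
def StmtPar : Prop := ∀ δ : ℝ, 0 < δ → ∃ p : Par, p.Good ∧
    (∀ n, ∑ j ∈ Finset.range n, 1 / (p.M j : ℝ) ≤ δ) ∧
    (∀ n, ∑ j ∈ Finset.range n, p.s j ^ (3 / 2 : ℝ) ≤ δ)

/-- Module SZ: sizes and digits -/
structure Sz : Prop where
  abs_Zs_le : ∀ {p : Par}, p.Good → ∀ {n : ℕ} (d : p.Str n) (x y : ℝ), |p.Zs d x y| ≤ 1 / 4
  abs_Zs'_le : ∀ {p : Par}, p.Good → ∀ {n : ℕ} (d : p.Str n) (x y : ℝ), |p.Zs' d x y| ≤ 1 / 4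
  /-- the tail after the digit `j` is small -/
  tail : ∀ {p : Par}, p.Good → ∀ (j : ℕ) (o : p.Om) (x y : ℝ),
    |p.Z o x y - p.Zs (p.res (j + 1) o) x y| ≤ p.h j / 2 ^ (j + 7)
  /-- the distances of the levels tend to zero -/
  h_le : ∀ {p : Par}, p.Good → ∀ j, 0 < p.h j ∧ p.h j ≤ 1 / 2 ^ (j + 10)
  /-- points near the surfaces have well defined digits -/
  unique_str : ∀ {p : Par}, p.Good → ∀ {i j : ℕ} (_ : i ≤ j) (d : p.Str (i + 1))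
    (d' : p.Str (j + 1)) (x y z : ℝ),
    |z - p.Zs d x y| ≤ 4 * p.M (i + 1) * p.h (i + 1) →
    |z - p.Zs d' x y| ≤ 4 * p.M (j + 1) * p.h (j + 1) →
    d = fun a : Fin (i + 1) => d' ⟨a, by omega⟩
  /-- ... and are close to the levels of the coarser stages -/
  deep_str : ∀ {p : Par}, p.Good → ∀ {i j : ℕ} (_ : i < j) (d' : p.Str (j + 1)) (x y z : ℝ),
    |z - p.Zs d' x y| ≤ 4 * p.M (j + 1) * p.h (j + 1) →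
    |z - p.Zs (fun a : Fin (i + 1) => d' ⟨a, by omega⟩) x y -
      p.val (i + 1) (d' ⟨i + 1, by omega⟩) (Th (p.N (i + 1) * x) (p.N (i + 1) * y))| ≤
      p.h (i + 1) / 2 ^ (i + 7)
  /-- replacing the branch of the angle changes averages very little -/
  av_branch : ∀ (p : Par) (n : ℕ) (x y : ℝ), (∀ i < n, S (p.N i * x) ≠ 0) →
    (∀ i < n, S (p.N i * y) ≠ 0) → ∀ (F : ℝ → ℝ) (B : ℝ), (∀ t, |F t| ≤ B) →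
    |p.av n (fun d => F (p.Zs d x y)) - p.av n (fun d => F (p.Zs' d x y))| ≤
      B * ∑ i ∈ Finset.range n, 1 / (p.M i : ℝ)
  /-- the marginals of `Q` -/
  integral_res : ∀ (p : Par) (n : ℕ) (F : p.Str n → ℝ), ∫ o, F (p.res n o) ∂p.Q = p.av n F

/-- Module TILT: the slopes of the surfaces -/
structure Tilt : Prop where
  mean : ∃ κ : ℝ, 0 < κ ∧ ∀ (p : Par), (∀ i, 0 < p.N i) → (∀ i, 0 < p.s i) →
    ∀ (n : ℕ) (η : ℝ), 0 < η →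
      ∫ q, p.av n (fun d => |p.Zx d q.1 q.2|) ∂sq ≤
          η + κ / Real.sqrt η * ∑ i ∈ Finset.range n, p.s i ^ (3 / 2 : ℝ) ∧
      ∫ q, p.av n (fun d => |p.Zy d q.1 q.2|) ∂sq ≤
          η + κ / Real.sqrt η * ∑ i ∈ Finset.range n, p.s i ^ (3 / 2 : ℝ) ∧
      Integrable (fun q : ℝ × ℝ => p.av n (fun d => |p.Zx d q.1 q.2|)) sq ∧
      Integrable (fun q : ℝ × ℝ => p.av n (fun d => |p.Zy d q.1 q.2|)) sq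
  bdd : ∀ (p : Par), (∀ i, 0 < p.N i) → (∀ i, 0 < p.s i) → ∀ (δ : ℝ),
    (∀ n, ∑ j ∈ Finset.range n, p.s j ^ (3 / 2 : ℝ) ≤ δ) →
    ∀ᵐ q ∂sq, ∀ᵐ o ∂p.Q, ∃ T : ℝ, ∀ j, |p.Zx (p.res (j + 1) o) q.1 q.2| ≤ T ∧
      |p.Zy (p.res (j + 1) o) q.1 q.2| ≤ T

/-- Module MEAS: measurability -/
structure Meas : Prop where
  Z : ∀ (p : Par), p.Good → Measurable (fun q : (ℝ × ℝ) × p.Om => p.Z q.2 q.1.1 q.1.2)
  X : ∀ (p : Par), p.Good → ∀ m n : ℕ, Measurable (p.X m n)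
  Zx : ∀ (p : Par) (n : ℕ),
    Measurable (fun q : (ℝ × ℝ) × p.Om => p.Zx (p.res n q.2) q.1.1 q.1.2)
  Zy : ∀ (p : Par) (n : ℕ),
    Measurable (fun q : (ℝ × ℝ) × p.Om => p.Zy (p.res n q.2) q.1.1 q.1.2)
  Fm : ∀ (p : Par) (j : ℕ), Measurable (fun q : (ℝ × ℝ) × p.Om => p.Fm j q.2 q.1.1 q.1.2)
  Bad : ∀ (p : Par) (m : ℕ) (T : ℝ), MeasurableSet (p.Bad m T)
  finP : ∀ (p : Par) (m : ℕ) (L : ℝ), IsFiniteMeasure (p.P m L)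
  finmu : ∀ (p : Par) (m n : ℕ) (L : ℝ), IsFiniteMeasure (p.mu m n L)
  /-- almost every point is off the singular lines -/
  ae : ∀ (p : Par), (∀ i, 0 < p.N i) → ∀ᵐ q ∂sq,
    (∀ i, S (p.N i * q.1) ≠ 0) ∧ (∀ i, S (p.N i * q.2) ≠ 0)

/-- Module IBP: integration by parts on the random surfaces -/
def StmtIbp : Prop := ∀ (p : Par), p.Good → ∀ (C B Δ : ℝ) (n : ℕ) (h : ℝ → ℝ → ℝ), Tf h →
    (∀ x y, |D1 (D1 h) x y| ≤ B ∧ |D2 (D2 h) x y| ≤ B ∧ |D1 (D2 h) x y| ≤ B ∧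
      |D1 (D1 (D2 h)) x y| ≤ B ∧ |D1 (D2 (D2 h)) x y| ≤ B) →
    ∑ i ∈ Finset.range n, 1 / (p.M i : ℝ) ≤ Δ →
    ∫ q, p.av n (fun d => |p.Zx d q.1 q.2|) ∂sq ≤ Δ →
    ∫ q, p.av n (fun d => |p.Zy d q.1 q.2|) ∂sq ≤ Δ →
    Integrable (fun q : ℝ × ℝ => p.av n (fun d => |p.Zx d q.1 q.2|)) sq →
    Integrable (fun q : ℝ × ℝ => p.av n (fun d => |p.Zy d q.1 q.2|)) sq →
    ∀ g : ℝ × ℝ × ℝ → ℝ, ContDiff ℝ 1 g → (∀ a q, |pd a g q| ≤ C) →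
    ∀ a : Fin 3, a = 0 ∨ a = 1 →
    |∫ q, p.av n (fun d => (D1 (D1 h) q.1 q.2 - D2 (D2 h) q.1 q.2) *
        pd a g (q.1, q.2, p.Zs d q.1 q.2)) ∂sq| ≤
      C * (N1 (fun x y => D1 (D1 h) x y + D2 (D2 h) x y) + 2 * N1 (D1 (D2 h))) +
        100 * C * B * Δ

/-- Module OBS: the obstruction in `ℝⁿ` -/
def StmtObs : Prop := ∀ (m n : ℕ) (hmn : m + 2 ≤ n) (C : ℝ≥0),
    ∃ (L : ℝ) (δ : ℝ) (f : ℝ → ℝ → ℝ) (ε : ℝ≥0∞), 0 < L ∧ 0 < δ ∧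
      Measurable (fun q : ℝ × ℝ => f q.1 q.2) ∧ (∀ x y, |f x y| ≤ 1) ∧ 0 < ε ∧
      ∀ p : Par, p.Good → (∀ n, ∑ j ∈ Finset.range n, 1 / (p.M j : ℝ) ≤ δ) →
        (∀ n, ∑ j ∈ Finset.range n, p.s j ^ (3 / 2 : ℝ) ≤ δ) →
        ∀ g : Fin (m + 2) → Rn n → ℝ, (∀ i, ContDiff ℝ 1 (g i)) → (∀ i, LipschitzWith C (g i)) →
          ∀ K : Set (Rn n), IsCompact K → p.mu m n L Kᶜ < ε →
            ∃ x ∈ K, ∑ i, fderiv ℝ (g i) x (eb (top m n hmn i)) ≠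
              f (x ⟨0, by omega⟩) (x ⟨1, by omega⟩)

/-- Module EQUI: equidistribution -/
def StmtEqui : Prop := ∃ cF : ℝ, 0 < cF ∧ ∀ (p : Par), p.Good → ∀ (m n : ℕ) (L : ℝ), 0 ≤ L →
    ∀ (ζ : Rn n → ℝ) (K : ℝ≥0), LipschitzWith K ζ → (∀ x, 0 ≤ ζ x ∧ ζ x ≤ 1) →
      ∀ ε : ℝ, 0 < ε → ∀ᶠ j in atTop,
        cF * ∫ q, ζ (p.X m n q) ∂p.P m L - ε ≤
          ∫ q, ζ (p.X m n q) * p.Fm j q.2 q.1.1.1 q.1.1.2 ∂p.P m L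

/-- Module POT1: one potential. Here `V` is a surface, `w` a weight, `N` the frequency, `h` the
distance of the levels, `M` (half) the number of levels, `t = (z - V) / h` the height. -/
def StmtPot1 : Prop := ∃ C0 : ℝ, 0 < C0 ∧ ∃ c0 : ℝ, 0 < c0 ∧
    ∀ (N : ℕ) (h M L : ℝ) (V w : ℝ → ℝ → ℝ),
    0 < N → 0 < h → h * N ≤ 1 → 4 ≤ M → 0 ≤ L →
    ContDiff ℝ ((⊤ : ℕ∞) : WithTop ℕ∞) (fun q : ℝ × ℝ => V q.1 q.2) →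
    ContDiff ℝ ((⊤ : ℕ∞) : WithTop ℕ∞) (fun q : ℝ × ℝ => w q.1 q.2) →
    (∀ x y, 0 ≤ w x y ∧ w x y ≤ 1 ∧ w x y * (|D1 V x y| + |D2 V x y|) ≤ 2) →
    (∀ x y, (|D1 w x y| + |D2 w x y|) * (1 + |D1 V x y| + |D2 V x y|) ≤ L) →
    ∃ A : Fin 3 → ℝ × ℝ × ℝ → ℝ,
      (∀ a, ContDiff ℝ ((⊤ : ℕ∞) : WithTop ℕ∞) (A a)) ∧
      -- support
      (∀ a, ∀ q : ℝ × ℝ × ℝ, ¬ (|q.2.2 - V q.1 q.2.1| ≤ 4 * M * h) → A a q = 0) ∧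
      (∀ a b, ∀ q : ℝ × ℝ × ℝ, ¬ (|q.2.2 - V q.1 q.2.1| ≤ 4 * M * h) → crl A a b q = 0) ∧
      (∀ a b, ∀ q : ℝ × ℝ × ℝ, q.2.2 - V q.1 q.2.1 ≤ 0 → A a q = 0 ∧ crl A a b q = 0) ∧
      (∀ a b, ∀ q : ℝ × ℝ × ℝ, (∀ᶠ r in 𝓝 (q.1, q.2.1), w r.1 r.2 = 0) →
        A a q = 0 ∧ crl A a b q = 0) ∧
      -- sizes
      (∀ a, ∀ q : ℝ × ℝ × ℝ, |A a q| ≤ C0 / N) ∧
      (∀ a b, ∀ q : ℝ × ℝ × ℝ, |crl A a b q| ≤ C0 * (1 + L / N)) ∧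
      -- near the levels
      (∀ q : ℝ × ℝ × ℝ, ∀ (K : ℤ) (e : ℝ), S (N * q.2.1) ≠ 0 →
        M - 1 ≤ (q.2.2 - V q.1 q.2.1) / h → (q.2.2 - V q.1 q.2.1) / h ≤ 3 * M + 1 →
        (q.2.2 - V q.1 q.2.1) / h = K + Th (N * q.1) (N * q.2.1) + e → |e| ≤ 1 / 16 →
        |crl A 0 2 q| ≤ C0 * (e ^ 2 + L / N) ∧ |crl A 1 2 q| ≤ C0 * (e ^ 2 + L / N) ∧
        |crl A 0 1 q| ≤ C0 * (e ^ 2 + h * N + L / N) ∧
        crl A 0 1 q ≤ - c0 * (h * N) * w q.1 q.2.1 * Ga2 (N * q.1) (N * q.2.1) +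
          C0 * (e ^ 2 + L / N))

/-- Module POTA: all the potentials of a good system of parameters -/
def StmtPota : Prop := ∃ C0 : ℝ, 0 < C0 ∧ ∃ c0 : ℝ, 0 < c0 ∧ ∀ p : Par, p.Good →
    ∃ A : ℕ → Fin 3 → ℝ × ℝ × ℝ → ℝ,
      (∀ j a, ContDiff ℝ ((⊤ : ℕ∞) : WithTop ℕ∞) (A j a)) ∧
      (∀ j a q, |A j a q| ≤ C0 / 2 ^ j) ∧
      (∀ n q, ∑ j ∈ Finset.range n, (|crl (A j) 0 1 q| + |crl (A j) 0 2 q| + |crl (A j) 1 2 q|) ≤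
        C0 * (1 + ∑ j ∈ Finset.range n, p.s (j + 1))) ∧
      (∀ j (o : p.Om) (x y : ℝ), (∀ i, S (p.N i * x) ≠ 0) → (∀ i, S (p.N i * y) ≠ 0) →
        |crl (A j) 0 2 (x, y, p.Z o x y)| ≤ C0 / 2 ^ j ∧
        |crl (A j) 1 2 (x, y, p.Z o x y)| ≤ C0 / 2 ^ j ∧
        crl (A j) 0 1 (x, y, p.Z o x y) ≤
          - c0 * p.s (j + 1) * p.Fm j o x y /
            (1 + p.Zx (p.res (j + 1) o) x y ^ 2 + p.Zy (p.res (j + 1) o) x y ^ 2) +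
            C0 / 2 ^ j)

/-- Module FORM: forms with constant coefficients -/
structure Frm : Prop where
  norm_dxs_le : ∀ {n k : ℕ} (i : Fin k → Fin n), ‖dxs i‖ ≤ (Nat.factorial k : ℝ)
  dxs_eq_zero : ∀ {n k : ℕ} (i : Fin k → Fin n) (a b : Fin k), a ≠ b → i a = i b → dxs i = 0
  dxs_swap : ∀ {n k : ℕ} (i : Fin k → Fin n) (a b : Fin k), a ≠ b →
    dxs (i ∘ Equiv.swap a b) = - dxs i
  dxs_top : ∀ {n k : ℕ} (h : k ≤ n),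
    dxs (fun a : Fin k => (⟨a, by omega⟩ : Fin n)) (fun a : Fin k => eb ⟨a, by omega⟩) = 1
  /-- a form of top degree is a multiple of `dx_0 ∧ ... ∧ dx_{k-1}` -/
  top_degree : ∀ {k : ℕ} (a : Cov k k), a = (a fun i : Fin k => eb i) • dxs (fun i : Fin k => i)
  extDeriv_dxs : ∀ {n k : ℕ} (f : Rn n → ℝ) (x : Rn n), DifferentiableAt ℝ f x →
    ∀ i : Fin k → Fin n,
    extDeriv (fun x => f x • dxs i) x = ∑ b : Fin n, fderiv ℝ f x (eb b) • dxs (Fin.cons b i)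
  /-- the value of `dφ` on the first `k + 1` basis vectors -/
  extDeriv_top : ∀ {n k : ℕ} (h : k + 1 ≤ n) (φ : Rn n → Cov n k) (x : Rn n),
    DifferentiableAt ℝ φ x →
    extDeriv φ x (fun a : Fin (k + 1) => eb ⟨a, by omega⟩) =
      ∑ i : Fin (k + 1), (-1 : ℝ) ^ (i : ℕ) *
        fderiv ℝ (fun y => φ y (fun a : Fin k => eb ⟨i.succAbove a, by omega⟩)) x
          (eb ⟨i, by omega⟩)

/-- Module CORE: the inequality for cycles -/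
def StmtCore : Prop := ∀ (m n : ℕ) (hmn : m + 2 < n), ∃ C : ℝ, 0 < C ∧ ∃ c0 : ℝ, 0 < c0 ∧
    ∀ (p : Par), p.Good → ∀ (L : ℝ), 0 ≤ L → ∀ [IsLocallyFiniteMeasure (p.mu m n L)],
    ∀ (N : TestForm n (m + 2) →ₗ[ℝ] ℝ), IsCycle N → ∀ (v : Vec n (m + 2)) (U : Set (Rn n)),
      IsOpen U → massOn (subVec N (p.mu m n L) v) U < ⊤ →
      ∀ ζ : Rn n → ℝ, ContDiff ℝ ((⊤ : ℕ∞) : WithTop ℕ∞) ζ → HasCompactSupport ζ →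
        tsupport ζ ⊆ U → (∀ x, 0 ≤ ζ x ∧ ζ x ≤ 1) → ∀ T : ℝ, 0 ≤ T →
        |v (dxs (top m n hmn.le))| *
            (c0 * ∫ x, ζ x ∂(p.mu m n L) - C * (p.muBad m n L T U).toReal) ≤
          C * (1 + T ^ 2) * (massOn (subVec N (p.mu m n L) v) U).toReal

/-- Module BUN: the bundle, forms of degree smaller than `n` -/
def StmtBun : Prop := ∀ (m n : ℕ) (hmn : m + 2 < n) (p : Par), p.Good → ∀ (δ : ℝ),
    (∀ n, ∑ j ∈ Finset.range n, p.s j ^ (3 / 2 : ℝ) ≤ δ) → ∀ (L : ℝ), 0 ≤ L →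
    ∀ [IsLocallyFiniteMeasure (p.mu m n L)],
    ∀ᵐ x ∂(p.mu m n L), ∀ v : Vec n (m + 2), InBundle (p.mu m n L) x v →
      v (dxs (top m n hmn.le)) = 0

/-- Module BUNTOP: the case of forms of top degree, for any measure -/
def StmtBunTop : Prop := ∀ (m : ℕ) (μ : Measure (Rn (m + 2))) [IsLocallyFiniteMeasure μ],
    ∀ᵐ x ∂μ, ∀ v : Vec (m + 2) (m + 2), InBundle μ x v →
      v (dxs (top m (m + 2) le_rfl)) = 0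

/-- Final statement -/
def StmtFinal : Prop := ∀ (n k : ℕ), 1 ≤ k → k + 1 ≤ n → ∀ (C : ℝ≥0),
    ∃ (μ : Measure (Rn n)) (_ : IsFiniteMeasure μ) (ω : Rn n → Cov n (k + 1)) (ε : ℝ≥0∞),
      @Measurable _ _ _ (borel _) ω ∧ (∀ x, ‖ω x‖ ≤ 1) ∧ 0 < ε ∧
      (∀ᵐ x ∂μ, ∀ v : Vec n (k + 1), InBundle μ x v → v (ω x) = 0) ∧
      ∀ φ : Rn n → Cov n k, ContDiff ℝ 1 φ →
        (∀ i : Fin k → Fin n, StrictMono i → LipschitzWith C (fun x => φ x (fun a => eb (i a)))) →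
        ∀ K : Set (Rn n), IsCompact K → μ Kᶜ < ε → ∃ x ∈ K, extDeriv φ x ≠ ω x

end Pool.Agent.T6.H55.LU
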